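import Pool.Agent.BSR.Defs

set_option autoImplicit false

open scoped BigOperators Matrix

namespace BSR.AMGM

lemma bern (u v : ℤ) (hu : 0 ≤ u) (hv : 0 ≤ v) (n : ℕ) :
    ((n : ℤ) + 1) * (u * v ^ n) ≤ u ^ (n + 1) + n * v ^ (n + 1) := by
  induction n with
  | zero => simp
  | succ n ih =>
    have h1 := mul_le_mul_of_nonneg_left ih hu
    have h2 : 0 ≤ ((n : ℤ) + 1) * (v ^ n * (u - v) ^ 2) := by positivity
    push_cast
    have h3 : u ^ (n + 1 + 1) + ((n : ℤ) + 1) * v ^ (n + 1 + 1) -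
        ((n : ℤ) + 1 + 1) * (u * v ^ (n + 1)) =
        (u * (u ^ (n + 1) + n * v ^ (n + 1)) - u * (((n : ℤ) + 1) * (u * v ^ n))) +
          ((n : ℤ) + 1) * (v ^ n * (u - v) ^ 2) := by
      ring
    linarith

theorem amgm (a x y : ℕ) (ha : 0 < a) :
    x ^ a * y * (a + 1) ^ (a + 1) ≤ a ^ a * (x + y) ^ (a + 1) := by
  have h := bern ((a : ℤ) * (x + y)) (((a : ℤ) + 1) * x) (by positivity) (by positivity) a
  have ha' : (0 : ℤ) < a := by exact_mod_cast ha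
  zify
  refine le_of_mul_le_mul_left ?_ ha'
  have e1 : ((a : ℤ) * (x + y)) ^ (a + 1) = a * (a ^ a * (x + y) ^ (a + 1)) := by
    rw [mul_pow, pow_succ (a : ℤ) a]
    ring
  have e2 : ((a : ℤ) + 1) * ((a : ℤ) * (x + y) * (((a : ℤ) + 1) * x) ^ a) -
      a * (((a : ℤ) + 1) * x) ^ (a + 1) = a * ((x : ℤ) ^ a * y * ((a : ℤ) + 1) ^ (a + 1)) := by
    rw [pow_succ (((a : ℤ) + 1) * x) a, mul_pow, pow_succ ((a : ℤ) + 1) a]
    ring
  linarith

end BSR.AMGM
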