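import Mathlib

/-!
# Asymptotics of the generic border subrank from the limit of the load number
-/

set_option autoImplicit false

open Filter Topology

namespace BSR.ASLA

theorem asym_of_limit {d : ℕ} (hd : 3 ≤ d) (N : ℕ → ℕ) {L : ℝ} (hL : 0 < L)
    (hN : Tendsto (fun r : ℕ => (N r : ℝ) / (r : ℝ) ^ (d - 1)) atTop (𝓝 L)) {ε : ℝ} (hε : 0 < ε) :
    ∃ n0 : ℕ, ∀ n ≥ n0, ∀ q : ℕ, N q ≤ n + d * q → n ≤ N (q + 1) + 2 * (q + 1) →
      (L⁻¹ - ε) * n ≤ (q : ℝ) ^ (d - 1) ∧ (q : ℝ) ^ (d - 1) ≤ (L⁻¹ + ε) * n := by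
  obtain ⟨k, hk, hk2⟩ : ∃ k, k = d - 1 ∧ 2 ≤ k := ⟨d - 1, rfl, by omega⟩
  rw [← hk] at hN ⊢
  -- `q / q ^ k → 0`
  have hinv : Tendsto (fun q : ℕ => (q : ℝ) / (q : ℝ) ^ k) atTop (𝓝 0) := by
    have h1 : Tendsto (fun q : ℕ => ((q : ℝ) ^ (k - 1))⁻¹) atTop (𝓝 0) := by
      apply Tendsto.inv_tendsto_atTop
      exact (tendsto_pow_atTop (by omega)).comp tendsto_natCast_atTop_atTop
    refine h1.congr' ?_
    filter_upwards [eventually_ge_atTop 1] with q hq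
    have hq0 : (q : ℝ) ≠ 0 := by positivity
    obtain ⟨j, rfl⟩ : ∃ j, k = j + 1 := ⟨k - 1, by omega⟩
    rw [Nat.add_sub_cancel, pow_succ]
    field_simp
  -- the lower function
  have ha : Tendsto (fun q : ℕ => ((N q : ℝ) - d * q) / (q : ℝ) ^ k) atTop (𝓝 L) := by
    have h1 := hN.sub (hinv.const_mul (d : ℝ))
    rw [mul_zero, sub_zero] at h1
    refine h1.congr fun q => ?_
    rw [sub_div, mul_div_assoc]
  -- the quotient `(q + 1) / q → 1`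
  have hquo : Tendsto (fun q : ℕ => ((q : ℝ) + 1) / (q : ℝ)) atTop (𝓝 1) := by
    have h1 : Tendsto (fun q : ℕ => 1 + ((q : ℝ))⁻¹) atTop (𝓝 (1 + 0)) :=
      tendsto_const_nhds.add (tendsto_inv_atTop_nhds_zero_nat (𝕜 := ℝ))
    rw [add_zero] at h1
    refine h1.congr' ?_
    filter_upwards [eventually_ge_atTop 1] with q hq
    have hq0 : (q : ℝ) ≠ 0 := by positivity
    field_simp
  -- the upper function
  have hb : Tendsto (fun q : ℕ => ((N (q + 1) : ℝ) + 2 * (q + 1)) / (q : ℝ) ^ k) atTop (𝓝 L) := by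
    have h1 : Tendsto (fun q : ℕ => ((N (q + 1) : ℝ) / ((q + 1 : ℕ) : ℝ) ^ k +
        2 * (((q + 1 : ℕ) : ℝ) / ((q + 1 : ℕ) : ℝ) ^ k)) * (((q : ℝ) + 1) / (q : ℝ)) ^ k)
        atTop (𝓝 ((L + 2 * 0) * 1 ^ k)) :=
      (((tendsto_add_atTop_iff_nat 1).2 hN).add
        (((tendsto_add_atTop_iff_nat 1).2 hinv).const_mul 2)).mul (hquo.pow k)
    rw [mul_zero, add_zero, one_pow, mul_one] at h1
    refine h1.congr' ?_
    filter_upwards [eventually_ge_atTop 1] with q hq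
    have hq0 : (q : ℝ) ≠ 0 := by positivity
    have hq1 : ((q : ℝ) + 1) ^ k ≠ 0 := by positivity
    have hq2 : (q : ℝ) ^ k ≠ 0 := by positivity
    push_cast
    rw [div_pow]
    field_simp
  have hLi : L⁻¹ * L = 1 := inv_mul_cancel₀ hL.ne'
  have he : 0 < ε * L := mul_pos hε hL
  have h1 : ∀ᶠ q : ℕ in atTop,
      (L⁻¹ - ε) * (((N (q + 1) : ℝ) + 2 * (q + 1)) / (q : ℝ) ^ k) < 1 := by
    refine (hb.const_mul (L⁻¹ - ε)).eventually (gt_mem_nhds ?_)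
    rw [sub_mul, hLi]
    linarith
  have h2 : ∀ᶠ q : ℕ in atTop,
      1 < (L⁻¹ + ε) * (((N q : ℝ) - d * q) / (q : ℝ) ^ k) := by
    refine (ha.const_mul (L⁻¹ + ε)).eventually (lt_mem_nhds ?_)
    rw [add_mul, hLi]
    linarith
  obtain ⟨q0, hq0⟩ := eventually_atTop.1 (h1.and (h2.and (eventually_ge_atTop 1)))
  refine ⟨(∑ q ∈ Finset.range q0, (N (q + 1) + 2 * (q + 1))) + 1, fun n hn q hq1 hq2 => ?_⟩
  have hqq : q0 ≤ q := by
    by_contra hcon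
    push Not at hcon
    have h3 : N (q + 1) + 2 * (q + 1) ≤ ∑ q ∈ Finset.range q0, (N (q + 1) + 2 * (q + 1)) :=
      Finset.single_le_sum (f := fun q => N (q + 1) + 2 * (q + 1)) (fun _ _ => Nat.zero_le _)
        (Finset.mem_range.2 hcon)
    omega
  obtain ⟨g1, g2, g3⟩ := hq0 q hqq
  have hqp : (0 : ℝ) < (q : ℝ) ^ k := by positivity
  have hq1' : (N q : ℝ) - d * q ≤ n := by
    have : (N q : ℝ) ≤ n + d * q := by exact_mod_cast hq1
    linarith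
  have hq2' : (n : ℝ) ≤ (N (q + 1) : ℝ) + 2 * (q + 1) := by exact_mod_cast hq2
  constructor
  · rcases le_total 0 (L⁻¹ - ε) with hs | hs
    · calc (L⁻¹ - ε) * n ≤ (L⁻¹ - ε) * ((N (q + 1) : ℝ) + 2 * (q + 1)) :=
            mul_le_mul_of_nonneg_left hq2' hs
        _ = ((L⁻¹ - ε) * (((N (q + 1) : ℝ) + 2 * (q + 1)) / (q : ℝ) ^ k)) * (q : ℝ) ^ k := by
            field_simp
        _ ≤ 1 * (q : ℝ) ^ k := mul_le_mul_of_nonneg_right g1.le hqp.le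
        _ = (q : ℝ) ^ k := one_mul _
    · exact (mul_nonpos_of_nonpos_of_nonneg hs (Nat.cast_nonneg n)).trans hqp.le
  · have hs : 0 < L⁻¹ + ε := add_pos (inv_pos.2 hL) hε
    calc (q : ℝ) ^ k = 1 * (q : ℝ) ^ k := (one_mul _).symm
      _ ≤ ((L⁻¹ + ε) * (((N q : ℝ) - d * q) / (q : ℝ) ^ k)) * (q : ℝ) ^ k :=
          mul_le_mul_of_nonneg_right g2.le hqp.le
      _ = (L⁻¹ + ε) * ((N q : ℝ) - d * q) := by field_simp
      _ ≤ (L⁻¹ + ε) * n := mul_le_mul_of_nonneg_left hq1' hs.le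

end BSR.ASLA
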