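import Mathlib

/-!
# ASLB : the asymptotic form of the two bounds, from the limit of the load number (job 5354)
-/

set_option autoImplicit false

namespace BSR.ASLB

open Filter Topology

/-- `(q + 1)^k / q^k → 1` -/
theorem ratio_one (k : ℕ) :
    Tendsto (fun q : ℕ => (1 + 1 / (q : ℝ)) ^ k) atTop (𝓝 1) := by
  have t1 : Tendsto (fun q : ℕ => (1 + 1 / (q : ℝ)) ^ k) atTop (𝓝 ((1 + 0) ^ k)) :=
    (tendsto_const_nhds.add (tendsto_const_div_atTop_nhds_zero_nat 1)).pow _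
  rwa [add_zero, one_pow] at t1

/-- `c q / q^k → 0` for `k ≥ 2` -/
theorem lin_zero {k : ℕ} (hk : 2 ≤ k) (c : ℝ) :
    Tendsto (fun q : ℕ => c * (q : ℝ) / (q : ℝ) ^ k) atTop (𝓝 0) := by
  obtain ⟨j, rfl⟩ : ∃ j, k = j + 2 := ⟨k - 2, by omega⟩
  have t1 : Tendsto (fun q : ℕ => c / (q : ℝ) * (1 / (q : ℝ)) ^ j) atTop (𝓝 (0 * (0 : ℝ) ^ j)) :=
    (tendsto_const_div_atTop_nhds_zero_nat c).mul
      ((tendsto_const_div_atTop_nhds_zero_nat 1).pow _)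
  rw [zero_mul] at t1
  refine t1.congr' ?_
  filter_upwards [eventually_ge_atTop 1] with q hq
  have hq0 : (q : ℝ) ≠ 0 := by
    have : (0 : ℝ) < q := by exact_mod_cast hq
    exact this.ne'
  rw [pow_add, div_pow, one_pow]
  field_simp

theorem asym_of_limit {d : ℕ} (hd : 3 ≤ d) (N : ℕ → ℕ) {L : ℝ} (hL : 0 < L)
    (hN : Tendsto (fun r : ℕ => (N r : ℝ) / (r : ℝ) ^ (d - 1)) atTop (𝓝 L)) {ε : ℝ} (hε : 0 < ε) :
    ∃ n0 : ℕ, ∀ n ≥ n0, ∀ q : ℕ, N q ≤ n + d * q → n ≤ N (q + 1) + 2 * (q + 1) →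
      (L⁻¹ - ε) * n ≤ (q : ℝ) ^ (d - 1) ∧ (q : ℝ) ^ (d - 1) ≤ (L⁻¹ + ε) * n := by
  obtain ⟨k, hk⟩ : ∃ k, k = d - 1 := ⟨_, rfl⟩
  have hk2 : 2 ≤ k := by omega
  rw [← hk] at hN ⊢
  -- the two bounds, divided by `q ^ k`
  have tA : Tendsto (fun q : ℕ => ((N (q + 1) : ℝ) + 2 * ((q : ℝ) + 1)) / (q : ℝ) ^ k) atTop
      (𝓝 L) := by
    have t1 : Tendsto (fun q : ℕ => (N (q + 1) : ℝ) / ((q + 1 : ℕ) : ℝ) ^ k * (1 + 1 / (q : ℝ)) ^ k
        + (2 * (q : ℝ) / (q : ℝ) ^ k + 2 * (q : ℝ) / (q : ℝ) ^ k * (1 / (q : ℝ)))) atTop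
        (𝓝 (L * 1 + (0 + 0 * 0))) :=
      ((hN.comp (tendsto_add_atTop_nat 1)).mul (ratio_one k)).add
        ((lin_zero hk2 2).add ((lin_zero hk2 2).mul (tendsto_const_div_atTop_nhds_zero_nat 1)))
    rw [mul_one, mul_zero, add_zero, add_zero] at t1
    refine t1.congr' ?_
    filter_upwards [eventually_ge_atTop 1] with q hq
    have hq0 : (0 : ℝ) < q := by exact_mod_cast hq
    have e1 : (1 + 1 / (q : ℝ)) ^ k = ((q + 1 : ℕ) : ℝ) ^ k / (q : ℝ) ^ k := by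
      rw [← div_pow]
      congr 1
      push_cast
      field_simp
    have e2 : (0 : ℝ) < ((q + 1 : ℕ) : ℝ) ^ k := by positivity
    have e3 : (0 : ℝ) < (q : ℝ) ^ k := by positivity
    rw [e1]
    field_simp
  have tB : Tendsto (fun q : ℕ => ((N q : ℝ) - d * (q : ℝ)) / (q : ℝ) ^ k) atTop (𝓝 L) := by
    have t1 := hN.sub (lin_zero hk2 (d : ℝ))
    rw [sub_zero] at t1
    refine t1.congr fun q => ?_
    rw [sub_div]
  have c1 : (L⁻¹ - ε) * L < 1 := by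
    rw [sub_mul, inv_mul_cancel₀ hL.ne']
    have := mul_pos hε hL
    linarith
  have c2 : 1 < (L⁻¹ + ε) * L := by
    rw [add_mul, inv_mul_cancel₀ hL.ne']
    have := mul_pos hε hL
    linarith
  have eA := (tA.const_mul (L⁻¹ - ε)).eventually_lt_const c1
  have eB := (tB.const_mul (L⁻¹ + ε)).eventually_const_lt c2
  obtain ⟨q0, hq0⟩ := eventually_atTop.1 ((eA.and eB).and (eventually_ge_atTop 1))
  refine ⟨∑ q ∈ Finset.range q0, (N (q + 1) + 2 * (q + 1)) + 1, fun n hn q h1 h2 => ?_⟩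
  have hqq : q0 ≤ q := by
    by_contra hc
    push Not at hc
    have h3 : N (q + 1) + 2 * (q + 1) ≤ ∑ q ∈ Finset.range q0, (N (q + 1) + 2 * (q + 1)) :=
      Finset.single_le_sum (f := fun q => N (q + 1) + 2 * (q + 1)) (fun _ _ => Nat.zero_le _)
        (Finset.mem_range.2 hc)
    omega
  obtain ⟨⟨g1, g2⟩, g3⟩ := hq0 q hqq
  have hqR : (0 : ℝ) < q := by exact_mod_cast g3
  have hP : (0 : ℝ) < (q : ℝ) ^ k := by positivity
  have h1' : (N q : ℝ) - d * q ≤ n := by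
    have : (N q : ℝ) ≤ n + d * q := by exact_mod_cast h1
    linarith
  have h2' : (n : ℝ) ≤ (N (q + 1) : ℝ) + 2 * ((q : ℝ) + 1) := by exact_mod_cast h2
  have hn0 : (0 : ℝ) ≤ n := Nat.cast_nonneg _
  constructor
  · rcases le_or_gt (L⁻¹ - ε) 0 with h | h
    · exact (mul_nonpos_of_nonpos_of_nonneg h hn0).trans hP.le
    · calc (L⁻¹ - ε) * n ≤ (L⁻¹ - ε) * ((N (q + 1) : ℝ) + 2 * ((q : ℝ) + 1)) :=
            mul_le_mul_of_nonneg_left h2' h.le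
        _ = (L⁻¹ - ε) * (((N (q + 1) : ℝ) + 2 * ((q : ℝ) + 1)) / (q : ℝ) ^ k) * (q : ℝ) ^ k := by
            field_simp
        _ ≤ 1 * (q : ℝ) ^ k := mul_le_mul_of_nonneg_right g1.le hP.le
        _ = (q : ℝ) ^ k := one_mul _
  · have hpos : 0 < L⁻¹ + ε := by positivity
    calc (q : ℝ) ^ k = 1 * (q : ℝ) ^ k := (one_mul _).symm
      _ ≤ (L⁻¹ + ε) * (((N q : ℝ) - d * (q : ℝ)) / (q : ℝ) ^ k) * (q : ℝ) ^ k :=
          mul_le_mul_of_nonneg_right g2.le hP.le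
      _ = (L⁻¹ + ε) * ((N q : ℝ) - d * (q : ℝ)) := by field_simp
      _ ≤ (L⁻¹ + ε) * n := mul_le_mul_of_nonneg_left h1' hpos.le

end BSR.ASLB
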