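import Mathlib

/-!
# ASY : the asymptotic form of the two bounds (job 5103)
-/

set_option autoImplicit false

namespace BSR.ASY

/-- the upper bound makes `q` small against `n` -/
theorem small {d : ℕ} (hd : 3 ≤ d) {δ : ℝ} (hδ : 0 < δ) :
    ∃ N : ℕ, ∀ n ≥ N, ∀ q : ℕ, q ^ (d - 1) ≤ d ^ 2 * (n + q) → (q : ℝ) ≤ δ * n := by
  have hD0 : (0 : ℝ) ≤ (d : ℝ) ^ 2 := by positivity
  obtain ⟨N, hN⟩ := exists_nat_gt (((d : ℝ) ^ 2 / δ + (d : ℝ) ^ 2) / δ)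
  refine ⟨N, fun n hn q hq => ?_⟩
  by_contra hc
  push Not at hc
  have hq0 : 0 < (q : ℝ) := lt_of_le_of_lt (by positivity) hc
  have hq1 : 1 ≤ q := by exact_mod_cast hq0
  have h1 : q ^ 2 ≤ q ^ (d - 1) := Nat.pow_le_pow_right hq1 (by omega)
  have h2 : (q : ℝ) ^ 2 ≤ (d : ℝ) ^ 2 * (n + q) := by exact_mod_cast h1.trans hq
  have h3 : (n : ℝ) < q / δ := by
    rw [lt_div_iff₀ hδ]
    linarith
  have h4 : (q : ℝ) * q ≤ ((d : ℝ) ^ 2 / δ + (d : ℝ) ^ 2) * q := by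
    have h5 : (d : ℝ) ^ 2 * (n + q) ≤ (d : ℝ) ^ 2 * (q / δ + q) :=
      mul_le_mul_of_nonneg_left (by linarith) hD0
    calc (q : ℝ) * q = (q : ℝ) ^ 2 := by ring
      _ ≤ (d : ℝ) ^ 2 * (q / δ + q) := h2.trans h5
      _ = ((d : ℝ) ^ 2 / δ + (d : ℝ) ^ 2) * q := by ring
  have h5 : (q : ℝ) ≤ (d : ℝ) ^ 2 / δ + (d : ℝ) ^ 2 := le_of_mul_le_mul_right h4 hq0
  have h6 : (N : ℝ) ≤ n := by exact_mod_cast hn
  have h7 : (n : ℝ) < ((d : ℝ) ^ 2 / δ + (d : ℝ) ^ 2) / δ := by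
    rw [lt_div_iff₀ hδ]
    linarith
  linarith

/-- the shift of the base costs a factor near one -/
theorem shift (d k : ℕ) {δ : ℝ} (hδ : 0 < δ) :
    ∃ q0 : ℕ, ∀ q : ℕ, q0 ≤ q → ((q : ℝ) + (1 + 2 * d)) ^ k ≤ (1 + δ) * (q : ℝ) ^ k := by
  have t1 : Filter.Tendsto (fun q : ℕ => (1 + (1 + 2 * (d : ℝ)) / (q : ℝ)) ^ k) Filter.atTop
      (nhds ((1 + 0) ^ k)) :=
    (tendsto_const_nhds.add (tendsto_const_div_atTop_nhds_zero_nat _)).pow _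
  rw [add_zero, one_pow] at t1
  have t2 := (t1.eventually_lt_const (show (1 : ℝ) < 1 + δ by linarith)).and
    (Filter.eventually_ge_atTop 1)
  obtain ⟨q0, h⟩ := Filter.eventually_atTop.1 t2
  refine ⟨q0, fun q hq => ?_⟩
  obtain ⟨h1, h2⟩ := h q hq
  have hq0 : (0 : ℝ) < q := by exact_mod_cast h2
  have h3 : (q : ℝ) + (1 + 2 * d) = (1 + (1 + 2 * (d : ℝ)) / (q : ℝ)) * q := by
    field_simp
  rw [h3, mul_pow]
  exact mul_le_mul_of_nonneg_right h1.le (by positivity)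

theorem asym {d : ℕ} (hd : 3 ≤ d) {ε : ℝ} (hε : 0 < ε) :
    ∃ N : ℕ, ∀ n ≥ N, ∀ q : ℕ, q ^ (d - 1) ≤ d ^ 2 * (n + q) →
      (∀ r : ℕ, (r + 2 * d) ^ (d - 1) + 2 * (d ^ 2 - 1) * r < (d ^ 2 - 1) * n → r ≤ q) →
      ((d : ℝ) ^ 2 - 1 - ε) * n ≤ (q : ℝ) ^ (d - 1) ∧
        (q : ℝ) ^ (d - 1) ≤ ((d : ℝ) ^ 2 + ε) * n := by
  have hd3 : (3 : ℝ) ≤ d := by exact_mod_cast hd
  have hD9 : (9 : ℝ) ≤ (d : ℝ) ^ 2 := by nlinarith
  have hD0 : (0 : ℝ) < (d : ℝ) ^ 2 := by linarith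
  set D : ℝ := (d : ℝ) ^ 2 with hD
  set δ : ℝ := ε / D with hδ
  have hδ0 : 0 < δ := div_pos hε hD0
  have hδD : D * δ = ε := by
    rw [hδ]
    field_simp
  obtain ⟨N1, h1⟩ := small hd (δ := δ / (4 * D)) (by positivity)
  obtain ⟨q0, h2⟩ := shift d (d - 1) hδ0
  obtain ⟨N2, h3⟩ := exists_nat_gt (4 * D / δ)
  obtain ⟨N3, h4⟩ := exists_nat_gt (((q0 : ℝ) + (1 + 2 * d)) ^ (d - 1) + 2 * (D - 1) * (q0 + 1))
  refine ⟨N1 + N2 + N3, fun n hn q hq hr => ?_⟩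
  have hq' := h1 n (by omega) q hq
  have hn0 : (0 : ℝ) ≤ n := Nat.cast_nonneg n
  have hqR : (q : ℝ) ^ (d - 1) ≤ D * (n + q) := by
    rw [hD]
    exact_mod_cast hq
  have hDq : D * q ≤ δ / 4 * n := by
    calc D * (q : ℝ) ≤ D * (δ / (4 * D) * n) := mul_le_mul_of_nonneg_left hq' hD0.le
      _ = δ / 4 * n := by
        field_simp
  have hδε : δ ≤ ε := by
    rw [hδ]
    exact div_le_self hε.le (by linarith)
  constructor
  · -- the lower bound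
    have h5 : (d ^ 2 - 1) * n ≤ (q + 1 + 2 * d) ^ (d - 1) + 2 * (d ^ 2 - 1) * (q + 1) := by
      by_contra hc
      push Not at hc
      have := hr (q + 1) hc
      omega
    have hd1 : 1 ≤ d ^ 2 := Nat.one_le_pow _ _ (by omega)
    have h6 : (D - 1) * n ≤ ((q : ℝ) + (1 + 2 * d)) ^ (d - 1) + 2 * (D - 1) * (q + 1) := by
      have h7 : (((d ^ 2 - 1) * n : ℕ) : ℝ) ≤
          (((q + 1 + 2 * d) ^ (d - 1) + 2 * (d ^ 2 - 1) * (q + 1) : ℕ) : ℝ) := by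
        exact_mod_cast h5
      push_cast [Nat.cast_sub hd1] at h7
      rw [show (q : ℝ) + (1 + 2 * d) = q + 1 + 2 * d by ring]
      linarith
    have hN3 : (N3 : ℝ) ≤ n := by exact_mod_cast (show N3 ≤ n by omega)
    have hN2 : (N2 : ℝ) ≤ n := by exact_mod_cast (show N2 ≤ n by omega)
    have hq0 : q0 ≤ q := by
      by_contra hc
      push Not at hc
      have hc' : (q : ℝ) ≤ q0 := by exact_mod_cast hc.le
      have h8 : ((q : ℝ) + (1 + 2 * d)) ^ (d - 1) ≤ ((q0 : ℝ) + (1 + 2 * d)) ^ (d - 1) :=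
        pow_le_pow_left₀ (by positivity) (by linarith) _
      have h9 : 2 * (D - 1) * ((q : ℝ) + 1) ≤ 2 * (D - 1) * (q0 + 1) :=
        mul_le_mul_of_nonneg_left (by linarith) (by linarith)
      nlinarith
    have h8 := h2 q hq0
    have h9 : 2 * (D - 1) * ((q : ℝ) + 1) ≤ δ * n := by
      have h10 : 4 * D ≤ δ * n := by
        have := (div_lt_iff₀ hδ0).1 (h3.trans_le hN2)
        linarith
      have hqn : (0 : ℝ) ≤ q := Nat.cast_nonneg q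
      nlinarith
    have h10 : (D - 1 - δ) * n ≤ (1 + δ) * (q : ℝ) ^ (d - 1) := by linarith
    have h11 : (1 + δ) * ((D - 1 - ε) * n) ≤ (D - 1 - δ) * n := by
      have h12 : (1 + δ) * (D - 1 - ε) ≤ D - 1 - δ := by nlinarith
      calc (1 + δ) * ((D - 1 - ε) * n) = ((1 + δ) * (D - 1 - ε)) * n := by ring
        _ ≤ (D - 1 - δ) * n := mul_le_mul_of_nonneg_right h12 hn0
    exact le_of_mul_le_mul_left (h11.trans h10) (by linarith)
  · -- the upper bound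
    nlinarith

end BSR.ASY
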