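import Pool.Agent.BSR.Defs

/-! Border subrank is at most `n` (helper914, job 4896). -/

set_option autoImplicit false

namespace BSR.BDD

open BSR Topology
open scoped BigOperators Matrix

/-- the flattening of a tensor along the diagonal of the last coordinates -/
def flat {d r : ℕ} (h0 : 0 < d) (S : Tens d (Fin r)) : Matrix (Fin r) (Fin r) ℂ :=
  fun a b => S (fun s => if s = ⟨0, h0⟩ then a else b)

/-- the second factor -/
def nm {d n r : ℕ} (h0 : 0 < d) (T : Tens d (Fin n))
    (A : Fin d → Matrix (Fin r) (Fin n) ℂ) : Matrix (Fin n) (Fin r) ℂ :=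
  fun k b => ∑ i : Fin d → Fin n,
    if i ⟨0, h0⟩ = k then (∏ s ∈ Finset.univ.erase ⟨0, h0⟩, A s b (i s)) * T i else 0

theorem flat_act {d n r : ℕ} (h0 : 0 < d) (T : Tens d (Fin n))
    (A : Fin d → Matrix (Fin r) (Fin n) ℂ) :
    flat h0 (act A T) = A ⟨0, h0⟩ * nm h0 T A := by
  ext a b
  rw [Matrix.mul_apply]
  unfold nm
  simp only [Finset.mul_sum]
  rw [Finset.sum_comm]
  unfold flat act
  refine Finset.sum_congr rfl fun i _ => ?_
  simp only [mul_ite, mul_zero]
  rw [Finset.sum_ite_eq]
  simp only [Finset.mem_univ, if_true]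
  rw [← Finset.mul_prod_erase Finset.univ _ (Finset.mem_univ (⟨0, h0⟩ : Fin d)), if_pos rfl,
    ← mul_assoc]
  congr 2
  refine Finset.prod_congr rfl fun s hs => ?_
  rw [if_neg (Finset.ne_of_mem_erase hs)]

theorem flat_unit {d r : ℕ} (h0 : 0 < d) (h1 : 1 < d) :
    flat h0 (unitT d (Fin r)) = 1 := by
  ext a b
  unfold flat unitT
  by_cases hab : a = b
  · rw [hab, Matrix.one_apply_eq]
    simp only [ite_self]
    rw [Finset.sum_eq_single b]
    · simp
    · intro l _ hl
      refine Finset.prod_eq_zero (Finset.mem_univ (⟨0, h0⟩ : Fin d)) ?_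
      rw [if_neg (Ne.symm hl)]
    · intro h
      exact absurd (Finset.mem_univ _) h
  · rw [Matrix.one_apply_ne hab]
    refine Finset.sum_eq_zero fun l _ => ?_
    by_cases hl : a = l
    · refine Finset.prod_eq_zero (Finset.mem_univ (⟨1, h1⟩ : Fin d)) ?_
      show (if (if (⟨1, h1⟩ : Fin d) = ⟨0, h0⟩ then a else b) = l then (1 : ℂ) else 0) = 0
      rw [if_neg (by simp : ¬ (⟨1, h1⟩ : Fin d) = ⟨0, h0⟩), ← hl, if_neg (Ne.symm hab)]
    · refine Finset.prod_eq_zero (Finset.mem_univ (⟨0, h0⟩ : Fin d)) ?_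
      show (if (if (⟨0, h0⟩ : Fin d) = ⟨0, h0⟩ then a else b) = l then (1 : ℂ) else 0) = 0
      rw [if_pos rfl, if_neg hl]

theorem le_of_degenerates {d n r : ℕ} (hd : 2 ≤ d) (T : Tens d (Fin n))
    (h : Degenerates T (unitT d (Fin r))) : r ≤ n := by
  by_contra hlt
  push Not at hlt
  have h0 : 0 < d := by omega
  have h1 : 1 < d := by omega
  have hc : Continuous fun S : Tens d (Fin r) => (flat h0 S).det := by
    apply Continuous.matrix_det
    exact continuous_matrix fun a b => continuous_apply _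
  have hcl : IsClosed {S : Tens d (Fin r) | (flat h0 S).det = 0} :=
    isClosed_eq hc continuous_const
  have hsub : Set.range (fun A : Fin d → Matrix (Fin r) (Fin n) ℂ => act A T) ⊆
      {S : Tens d (Fin r) | (flat h0 S).det = 0} := by
    rintro _ ⟨A, rfl⟩
    show (flat h0 (act A T)).det = 0
    by_contra hdet
    have hu : IsUnit (flat h0 (act A T)) := by
      rw [Matrix.isUnit_iff_isUnit_det]
      exact isUnit_iff_ne_zero.2 hdet
    have hr := Matrix.rank_of_isUnit _ hu
    rw [flat_act, Fintype.card_fin] at hr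
    have h2 := Matrix.rank_mul_le_left (A ⟨0, h0⟩) (nm h0 T A)
    have h3 := Matrix.rank_le_card_width (A ⟨0, h0⟩)
    rw [Fintype.card_fin] at h3
    omega
  have hmem := closure_minimal hsub hcl h
  have hdet : (flat h0 (unitT d (Fin r))).det = 0 := hmem
  rw [flat_unit h0 h1, Matrix.det_one] at hdet
  exact one_ne_zero hdet

end BSR.BDD
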