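import Pool.Agent.BSR.Defs

set_option autoImplicit false
set_option backward.isDefEq.respectTransparency false

namespace BSR

open scoped BigOperators Matrix Topology
open Filter

/-- BSR-COUNT -/
theorem count {d r : ℕ} (Φ : Finset (Fin d → Fin r)) (σ : Fin d → Equiv.Perm (Fin r))
    (ρ : Fin d → Equiv.Perm (Fin d))
    (hcyc : ∀ a : Fin d → Fin r, ∃ c : Fin d, (fun s => σ s (a (ρ c s))) ∈ Φ) :
    r ^ d ≤ d * Φ.card := by
  classical
  let F : Fin d → (Fin d → Fin r) → (Fin d → Fin r) := fun c a s => σ s (a (ρ c s))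
  have hinj : ∀ c : Fin d, Function.Injective (F c) := by
    intro c a b hab
    funext t
    have h : σ ((ρ c).symm t) (a (ρ c ((ρ c).symm t))) = σ ((ρ c).symm t) (b (ρ c ((ρ c).symm t))) :=
      congrFun hab ((ρ c).symm t)
    rw [Equiv.apply_symm_apply] at h
    exact (σ _).injective h
  have hcyc' : ∀ a : Fin d → Fin r, ∃ c : Fin d, F c a ∈ Φ := hcyc
  clear_value F
  have h1 : (Finset.univ : Finset (Fin d → Fin r)) ⊆ Finset.univ.biUnion
      (fun c : Fin d => Finset.univ.filter fun a => F c a ∈ Φ) := by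
    intro a _
    obtain ⟨c, hc⟩ := hcyc' a
    exact Finset.mem_biUnion.2 ⟨c, Finset.mem_univ c, Finset.mem_filter.2 ⟨Finset.mem_univ a, hc⟩⟩
  have h0 : r ^ d = (Finset.univ : Finset (Fin d → Fin r)).card := by
    rw [Finset.card_univ, Fintype.card_fun, Fintype.card_fin, Fintype.card_fin]
  have h2 : ∀ c : Fin d, (Finset.univ.filter fun a => F c a ∈ Φ).card ≤ Φ.card := fun c =>
    Finset.card_le_card_of_injOn (F c) (fun a ha => (Finset.mem_filter.1 ha).2)
      (fun a _ b _ h => hinj c h)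
  have h3 : (Finset.univ : Finset (Fin d → Fin r)).card ≤
      ∑ c : Fin d, (Finset.univ.filter fun a => F c a ∈ Φ).card :=
    (Finset.card_le_card h1).trans Finset.card_biUnion_le
  have h4 : ∑ c : Fin d, (Finset.univ.filter fun a => F c a ∈ Φ).card ≤ ∑ _c : Fin d, Φ.card :=
    Finset.sum_le_sum fun c _ => h2 c
  rw [h0]
  refine h3.trans (h4.trans (le_of_eq ?_))
  rw [Finset.sum_const, Finset.card_univ, Fintype.card_fin, smul_eq_mul]

theorem act_act {d : ℕ} {κ ρ π : Type} [Fintype κ] [Fintype ρ] (B : Fin d → Matrix π ρ ℂ)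
    (A : Fin d → Matrix ρ κ ℂ) (T : Tens d κ) :
    act B (act A T) = act (fun s => B s * A s) T := by
  classical
  funext j
  simp only [act, Matrix.mul_apply]
  simp_rw [Finset.mul_sum]
  rw [Finset.sum_comm]
  refine Finset.sum_congr rfl fun i _ => ?_
  rw [Finset.prod_univ_sum, Finset.sum_mul]
  simp only [Fintype.piFinset_univ]
  refine Finset.sum_congr rfl fun l _ => ?_
  rw [Finset.prod_mul_distrib, mul_assoc]

theorem act_diag {d : ℕ} {κ ρ : Type} [Fintype κ] [Fintype ρ] [DecidableEq ρ]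
    (x : Fin d → ρ → ℂ) (A : Fin d → Matrix ρ κ ℂ) (T : Tens d κ) (j : Fin d → ρ) :
    act (fun s => Matrix.diagonal (x s) * A s) T j = (∏ s, x s (j s)) * act A T j := by
  simp only [act, Matrix.diagonal_mul, Finset.prod_mul_distrib, Finset.mul_sum, mul_assoc]

theorem tendsto_act {d : ℕ} {κ ρ α : Type} [Fintype κ] {l : Filter α}
    {A : α → Fin d → Matrix ρ κ ℂ} {A0 : Fin d → Matrix ρ κ ℂ} {T : α → Tens d κ} {T0 : Tens d κ}
    (hA : ∀ s, Tendsto (fun k => A k s) l (𝓝 (A0 s))) (hT : Tendsto T l (𝓝 T0)) (j : Fin d → ρ) :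
    Tendsto (fun k => act (A k) (T k) j) l (𝓝 (act A0 T0 j)) := by
  simp only [act]
  refine tendsto_finsetSum _ fun i _ => ?_
  refine Tendsto.mul (tendsto_finsetProd _ fun s _ => ?_) ?_
  · exact (tendsto_pi_nhds.1 ((tendsto_pi_nhds.1 (hA s)) (j s))) (i s)
  · exact (tendsto_pi_nhds.1 hT) i

/-- flattening: the entries with all coordinates but one equal -/
theorem act_update {d : ℕ} {κ ρ : Type} [Fintype κ] [DecidableEq κ] (A : Fin d → Matrix ρ κ ℂ)
    (T : Tens d κ) (s : Fin d) :
    ∃ N : Matrix κ ρ ℂ, ∀ a b, act A T (Function.update (fun _ => b) s a) = (A s * N) a b := by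
  classical
  refine ⟨fun l b => ∑ i : Fin d → κ, if i s = l then
    (∏ s' ∈ Finset.univ.erase s, A s' b (i s')) * T i else 0, fun a b => ?_⟩
  simp only [act, Matrix.mul_apply, Finset.mul_sum]
  rw [Finset.sum_comm]
  refine Finset.sum_congr rfl fun i _ => ?_
  rw [Finset.sum_eq_single (i s)]
  · rw [if_pos rfl, ← Finset.mul_prod_erase Finset.univ _ (Finset.mem_univ s), mul_assoc]
    congr 1
    · simp
    · congr 1
      refine Finset.prod_congr rfl fun s' hs' => ?_
      rw [Function.update_of_ne (Finset.ne_of_mem_erase hs')]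
  · intro l _ hl
    rw [if_neg (fun h => hl h.symm), mul_zero]
  · intro h; exact absurd (Finset.mem_univ _) h

theorem act_unitT {d : ℕ} {κ ρ : Type} [Fintype κ] [DecidableEq κ] (h : Fin d → Matrix ρ κ ℂ)
    (j : Fin d → ρ) : act h (unitT d κ) j = ∑ l : κ, ∏ s, h s (j s) l := by
  classical
  simp only [act, unitT, Finset.mul_sum]
  rw [Finset.sum_comm]
  refine Finset.sum_congr rfl fun l _ => ?_
  simp only [← Finset.prod_mul_distrib, mul_ite, mul_one, mul_zero]
  have h1 := Finset.prod_univ_sum (fun _ : Fin d => (Finset.univ : Finset κ))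
    (fun s k => if k = l then h s (j s) k else 0)
  rw [Fintype.piFinset_univ] at h1
  rw [← h1]
  refine Finset.prod_congr rfl fun s _ => ?_
  simp

theorem unitT_update {d r : ℕ} (hd : 2 ≤ d) (s : Fin d) (a b : Fin r) :
    unitT d (Fin r) (Function.update (fun _ => b) s a) = if a = b then 1 else 0 := by
  classical
  obtain ⟨s', hs'⟩ : ∃ s' : Fin d, s' ≠ s := by
    have : Nontrivial (Fin d) := Fin.nontrivial_iff_two_le.2 hd
    exact exists_ne s
  simp only [unitT]
  rw [Finset.sum_eq_single b]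
  · by_cases hab : a = b
    · subst hab
      rw [if_pos rfl]
      refine Finset.prod_eq_one fun t _ => ?_
      by_cases ht : t = s
      · subst ht; simp
      · rw [Function.update_of_ne ht, if_pos rfl]
    · rw [if_neg hab]
      exact Finset.prod_eq_zero (Finset.mem_univ s) (by simp [hab])
  · intro l _ hl
    exact Finset.prod_eq_zero (Finset.mem_univ s')
      (by rw [Function.update_of_ne hs', if_neg (fun h => hl h.symm)])
  · intro h; exact absurd (Finset.mem_univ _) h

/-- near the unit tensor all the matrices have a right inverse -/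
theorem eventually_right_inv {d n r : ℕ} (hd : 2 ≤ d) (T : Tens d (Fin n))
    (A : ℕ → Fin d → Matrix (Fin r) (Fin n) ℂ)
    (hA : Tendsto (fun k => act (A k) T) atTop (𝓝 (unitT d (Fin r)))) :
    ∀ᶠ k in atTop, ∀ s, ∃ B : Matrix (Fin n) (Fin r) ℂ, A k s * B = 1 := by
  rw [Filter.eventually_all]
  intro s
  have h1 : Tendsto (fun k => (Matrix.of fun a b : Fin r =>
      act (A k) T (Function.update (fun _ => b) s a)).det) atTop (𝓝 1) := by
    have h2 : Tendsto (fun k => (Matrix.of fun a b : Fin r =>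
        act (A k) T (Function.update (fun _ => b) s a))) atTop (𝓝 (1 : Matrix (Fin r) (Fin r) ℂ)) := by
      refine tendsto_pi_nhds.2 fun a => tendsto_pi_nhds.2 fun b => ?_
      have := (tendsto_pi_nhds.1 hA) (Function.update (fun _ => b) s a)
      rw [unitT_update hd] at this
      simpa [Matrix.one_apply] using this
    have h3 : Continuous fun M : Matrix (Fin r) (Fin r) ℂ => M.det := Continuous.matrix_det continuous_id
    have h4 := (h3.tendsto 1).comp h2
    rw [Matrix.det_one] at h4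
    exact h4
  have h4 : ∀ᶠ k in atTop, (Matrix.of fun a b : Fin r =>
      act (A k) T (Function.update (fun _ => b) s a)).det ≠ 0 :=
    h1.eventually_ne one_ne_zero
  filter_upwards [h4] with k hk
  obtain ⟨N, hN⟩ := act_update (A k) T s
  have h5 : (Matrix.of fun a b : Fin r =>
      act (A k) T (Function.update (fun _ => b) s a)) = A k s * N := by
    ext a b; exact hN a b
  rw [h5] at hk
  refine ⟨N * (A k s * N)⁻¹, ?_⟩
  rw [← Matrix.mul_assoc]
  exact Matrix.mul_nonsing_inv _ (isUnit_iff_ne_zero.2 hk)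

/-- limits of isometries along an ultrafilter -/
theorem lim_isometry {p q : ℕ} (W : ℕ → Matrix (Fin p) (Fin q) ℂ) (h : ∀ k, W k * (W k)ᴴ = 1)
    (𝒰 : Ultrafilter ℕ) :
    ∃ W0 : Matrix (Fin p) (Fin q) ℂ, W0 * W0ᴴ = 1 ∧ Tendsto W 𝒰 (𝓝 W0) := by
  have hb : ∀ k i j, ‖W k i j‖ ≤ 1 := by
    intro k i j
    have h1 : (W k * (W k)ᴴ) i i = 1 := by rw [h k]; simp
    rw [Matrix.mul_apply] at h1
    have h2 : ∑ l, (‖W k i l‖ ^ 2 : ℝ) = 1 := by
      have h3 : ((∑ l, (‖W k i l‖ ^ 2 : ℝ) : ℝ) : ℂ) = 1 := by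
        rw [← h1]
        push_cast
        refine Finset.sum_congr rfl fun l _ => ?_
        rw [Matrix.conjTranspose_apply]
        have := Complex.mul_conj' (W k i l)
        simpa using this.symm
      exact_mod_cast h3
    have h3 : ‖W k i j‖ ^ 2 ≤ 1 := by
      rw [← h2]
      exact Finset.single_le_sum (f := fun l => ‖W k i l‖ ^ 2) (fun l _ => by positivity)
        (Finset.mem_univ j)
    nlinarith [norm_nonneg (W k i j)]
  have hK : IsCompact (Set.pi Set.univ fun _ : Fin p => Set.pi Set.univ fun _ : Fin q =>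
      Metric.closedBall (0 : ℂ) 1) :=
    isCompact_univ_pi fun _ => isCompact_univ_pi fun _ => isCompact_closedBall 0 1
  have hmem : ∀ k, (W k : Fin p → Fin q → ℂ) ∈ (Set.pi Set.univ fun _ : Fin p =>
      Set.pi Set.univ fun _ : Fin q => Metric.closedBall (0 : ℂ) 1) := by
    intro k i _ j _
    simpa using hb k i j
  obtain ⟨W0, _, hW0⟩ := hK.ultrafilter_le_nhds (𝒰.map (fun k => (W k : Fin p → Fin q → ℂ)))
    (Filter.le_principal_iff.2 (Filter.mem_map.2 (Filter.univ_mem' hmem)))
  have hlim : Tendsto W 𝒰 (𝓝 (W0 : Matrix (Fin p) (Fin q) ℂ)) := hW0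
  refine ⟨W0, ?_, hlim⟩
  have hc : Continuous fun M : Matrix (Fin p) (Fin q) ℂ => M * Mᴴ :=
    Continuous.matrix_mul continuous_id (Continuous.matrix_conjTranspose continuous_id)
  have h1 := (hc.tendsto W0).comp hlim
  have h2 : ((fun M : Matrix (Fin p) (Fin q) ℂ => M * Mᴴ) ∘ W) = fun _ => 1 := by
    funext k; exact h k
  rw [h2] at h1
  exact tendsto_nhds_unique h1 tendsto_const_nhds

end BSR
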