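import Mathlib

/-!
Border subrank of tensors (MP_79bff1_ag): basic definitions.
A tensor of order `d` on `ℂ^n` is a function `(Fin d → Fin n) → ℂ` (its coordinates).
-/

namespace BSR

open scoped BigOperators

/-- tensors of order `d` on `ℂ^κ`, given by coordinates -/
abbrev Tens (d : ℕ) (κ : Type) := (Fin d → κ) → ℂ

/-- the tensor `(A_1 ⊗ ... ⊗ A_d) T` -/
noncomputable def act {d : ℕ} {κ ρ : Type} [Fintype κ] (A : Fin d → Matrix ρ κ ℂ) (T : Tens d κ) :
    Tens d ρ :=
  fun j => ∑ i : Fin d → κ, (∏ s, A s (j s) (i s)) * T i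

/-- the unit tensor `∑ l, e_l ⊗ ... ⊗ e_l` -/
noncomputable def unitT (d : ℕ) (ρ : Type) [Fintype ρ] [DecidableEq ρ] : Tens d ρ :=
  fun j => ∑ l : ρ, ∏ s, (if j s = l then (1 : ℂ) else 0)

/-- `T` degenerates to `S`: `S` lies in the closure of the set of tensors to which `T` restricts -/
def Degenerates {d : ℕ} {κ ρ : Type} [Fintype κ] (T : Tens d κ) (S : Tens d ρ) : Prop :=
  S ∈ closure (Set.range fun A : Fin d → Matrix ρ κ ℂ => act A T)

/-- the border subrank of `T` -/
noncomputable def borderSubrank {d n : ℕ} (T : Tens d (Fin n)) : ℕ :=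
  sSup {q : ℕ | Degenerates T (unitT d (Fin q))}

end BSR
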