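import Pool.Agent.BSR.Load618

/-!
Existence of the limit of `N r / r ^ D` for monotone `N` with `N (k r) ≤ k ^ D N r`.
-/

set_option autoImplicit false

namespace BSR.LIM

open Filter Topology

theorem limit_exists {D : ℕ} (hD : 1 ≤ D) (N : ℕ → ℕ) (hmono : Monotone N)
    (hblow : ∀ k r, N (k * r) ≤ k ^ D * N r) :
    ∃ L : ℝ, 0 ≤ L ∧ Tendsto (fun r : ℕ => (N r : ℝ) / (r : ℝ) ^ D) atTop (𝓝 L) ∧
      ∀ r : ℕ, 0 < r → L ≤ (N r : ℝ) / (r : ℝ) ^ D := by
  have _ := hD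
  set f : ℕ → ℝ := fun r : ℕ => (N r : ℝ) / (r : ℝ) ^ D with hf
  set S : Set ℝ := f '' Set.Ioi 0 with hS
  have hne : S.Nonempty := ⟨f 1, ⟨1, Nat.zero_lt_one, rfl⟩⟩
  have hpos : ∀ y ∈ S, 0 ≤ y := by
    rintro y ⟨r, _, rfl⟩
    simp only [hf]
    positivity
  have hbdd : BddBelow S := ⟨0, fun y hy => hpos y hy⟩
  have hle : ∀ r : ℕ, 0 < r → sInf S ≤ f r := fun r hr => csInf_le hbdd ⟨r, hr, rfl⟩
  refine ⟨sInf S, le_csInf hne hpos, ?_, hle⟩
  rw [tendsto_order]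
  constructor
  · intro a ha
    filter_upwards [eventually_gt_atTop 0] with r hr
    exact lt_of_lt_of_le ha (hle r hr)
  · intro a ha
    obtain ⟨y, ⟨r0, hr0, rfl⟩, hy⟩ := exists_lt_of_csInf_lt hne ha
    have hr0' : (0 : ℝ) < r0 := by exact_mod_cast (Set.mem_Ioi.1 hr0)
    have hg : Tendsto (fun r : ℕ => (1 + (r0 : ℝ) / (r : ℝ)) ^ D * f r0) atTop (𝓝 (f r0)) := by
      have h1 : Tendsto (fun r : ℕ => (r0 : ℝ) / (r : ℝ)) atTop (𝓝 0) :=
        tendsto_const_div_atTop_nhds_zero_nat _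
      have h2 := ((h1.const_add 1).pow D).mul_const (f r0)
      simpa using h2
    have hev := (tendsto_order.1 hg).2 a hy
    filter_upwards [hev, eventually_gt_atTop 0] with r hr hr1
    refine lt_of_le_of_lt ?_ hr
    have hr' : (0 : ℝ) < r := by exact_mod_cast hr1
    have h3 : r ≤ (r / r0 + 1) * r0 := by
      have := Nat.div_add_mod r r0
      have h4 := Nat.mod_lt r (Set.mem_Ioi.1 hr0)
      nlinarith
    have h5 : N r ≤ (r / r0 + 1) ^ D * N r0 := (hmono h3).trans (hblow _ _)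
    have h6 : (N r : ℝ) ≤ ((r / r0 + 1 : ℕ) : ℝ) ^ D * N r0 := by exact_mod_cast h5
    have h7 : ((r / r0 + 1 : ℕ) : ℝ) ≤ ((r : ℝ) + r0) / r0 := by
      rw [le_div_iff₀ hr0']
      have h8 : (r / r0 + 1) * r0 ≤ r + r0 := by
        have := Nat.div_mul_le_self r r0
        nlinarith
      exact_mod_cast h8
    have h9 : (((r : ℝ) + r0) / r0) ^ D * N r0 =
        (1 + (r0 : ℝ) / (r : ℝ)) ^ D * f r0 * (r : ℝ) ^ D := by
      simp only [hf]
      have h10 : ((r : ℝ) + r0) / r0 = (1 + (r0 : ℝ) / (r : ℝ)) * r / r0 := by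
        field_simp
      rw [h10, div_pow, mul_pow]
      field_simp
    show (N r : ℝ) / (r : ℝ) ^ D ≤ _
    rw [div_le_iff₀ (by positivity), ← h9]
    exact h6.trans (mul_le_mul_of_nonneg_right (pow_le_pow_left₀ (by positivity) h7 D)
      (Nat.cast_nonneg _))

end BSR.LIM
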