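import Pool.Agent.BSR.Load618
import Pool.Agent.BSR.Basic618

/-!
Three lemmas on the load of weight patterns.
-/

set_option autoImplicit false

namespace BSR.LOADA

open scoped BigOperators

theorem sum_coord {d k : ℕ} (s : Fin d) (g : Fin k → ℕ) :
    ∑ t : Fin d → Fin k, g (t s) = k ^ (d - 1) * ∑ u, g u := by
  classical
  have h1 : ∑ t : Fin d → Fin k, g (t s) =
      ∑ u : Fin k, ∑ t ∈ Finset.univ.filter (fun t : Fin d → Fin k => t s = u), g (t s) :=
    (Finset.sum_fiberwise _ _ _).symm
  have h2 : ∀ u : Fin k, ∑ t ∈ Finset.univ.filter (fun t : Fin d → Fin k => t s = u), g (t s) =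
      k ^ (d - 1) * g u := by
    intro u
    have h3 : ∑ t ∈ Finset.univ.filter (fun t : Fin d → Fin k => t s = u), g (t s) =
        ∑ t ∈ Finset.univ.filter (fun t : Fin d → Fin k => t s = u), g u :=
      Finset.sum_congr rfl fun t ht => by rw [(Finset.mem_filter.1 ht).2]
    rw [h3, Finset.sum_const, smul_eq_mul]
    congr 1
    have h4 : (Finset.univ.filter fun t : Fin d → Fin k => t s = u) =
        Fintype.piFinset fun j => if j = s then {u} else Finset.univ := by
      ext t
      rw [Finset.mem_filter, Fintype.mem_piFinset]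
      constructor
      · rintro ⟨-, h⟩ j
        split_ifs with hj
        · rw [hj, h]; exact Finset.mem_singleton_self u
        · exact Finset.mem_univ _
      · intro h
        refine ⟨Finset.mem_univ _, ?_⟩
        have := h s
        rwa [if_pos rfl, Finset.mem_singleton] at this
    rw [h4, Fintype.card_piFinset, Fintype.prod_eq_mul_prod_compl s, if_pos rfl,
      Finset.card_singleton, one_mul]
    have h5 : ∀ j ∈ ({s} : Finset (Fin d))ᶜ,
        (if j = s then ({u} : Finset (Fin k)) else Finset.univ).card = k := by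
      intro j hj
      rw [Finset.mem_compl, Finset.mem_singleton] at hj
      rw [if_neg hj, Finset.card_univ, Fintype.card_fin]
    rw [Finset.prod_congr rfl h5, Finset.prod_const, Finset.card_compl, Fintype.card_fin,
      Finset.card_singleton]
  rw [h1, Finset.sum_congr rfl fun u _ => h2 u, ← Finset.mul_sum]

theorem blowup {d r m : ℕ} (hd : 0 < d) (k : ℕ) (h : Feasible d r m) :
    Feasible d (k * r) (k ^ (d - 1) * m) := by
  classical
  obtain ⟨a, ha, hI⟩ := h
  let e : Fin (k * r) ≃ Fin k × Fin r := finProdFinEquiv.symm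
  refine ⟨fun s p => a s (e p).2, fun p => ha _, fun I => ?_⟩
  let J : (Fin d → Fin k) → Fin d → Finset (Fin r) := fun t s =>
    Finset.univ.filter fun l => e.symm (t s, l) ∈ I s
  have h1 : load (fun s p => a s (e p).2) I ≤ ∑ t : Fin d → Fin k, load a (J t) := by
    unfold load
    rw [Finset.card_eq_sum_card_fiberwise (f := fun (j : Fin d → Fin (k * r)) s => (e (j s)).1)
      (t := Finset.univ) (fun j _ => Finset.mem_coe.2 (Finset.mem_univ _))]
    refine Finset.sum_le_sum fun t _ => ?_
    refine Finset.card_le_card_of_injOn (fun (j : Fin d → Fin (k * r)) s => (e (j s)).2) ?_ ?_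
    · intro j hj
      rw [Finset.mem_coe, Finset.mem_filter, Finset.mem_filter] at hj
      obtain ⟨⟨-, h2, h3⟩, h4⟩ := hj
      rw [Finset.mem_coe, Finset.mem_filter]
      refine ⟨Finset.mem_univ _, fun s => ?_, h3⟩
      show (e (j s)).2 ∈ Finset.univ.filter fun l => e.symm (t s, l) ∈ I s
      rw [Finset.mem_filter]
      refine ⟨Finset.mem_univ _, ?_⟩
      rw [← h4]
      show e.symm ((e (j s)).1, (e (j s)).2) ∈ I s
      rw [Prod.mk.eta, Equiv.symm_apply_apply]
      exact h2 s
    · intro j hj j' hj' hjj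
      rw [Finset.mem_coe, Finset.mem_filter] at hj hj'
      funext s
      apply e.injective
      refine Prod.ext ?_ (congrFun hjj s)
      exact congrFun (hj.2.trans hj'.2.symm) s
  have h2 : ∀ s : Fin d, ∑ t : Fin d → Fin k, (J t s).card ≤ k ^ (d - 1) * (I s).card := by
    intro s
    let g : Fin k → ℕ := fun u => (Finset.univ.filter fun l : Fin r => e.symm (u, l) ∈ I s).card
    have h3 : ∑ t : Fin d → Fin k, (J t s).card = ∑ t : Fin d → Fin k, g (t s) := rfl
    rw [h3, sum_coord s g]
    refine Nat.mul_le_mul_left _ ?_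
    rw [Finset.card_eq_sum_card_fiberwise (s := I s) (f := fun p => (e p).1)
      (t := Finset.univ) (fun j _ => Finset.mem_coe.2 (Finset.mem_univ _))]
    refine Finset.sum_le_sum fun u _ => ?_
    refine Finset.card_le_card_of_injOn (fun l => e.symm (u, l)) ?_ ?_
    · intro l hl
      rw [Finset.mem_coe, Finset.mem_filter] at hl
      rw [Finset.mem_coe, Finset.mem_filter]
      refine ⟨hl.2, ?_⟩
      show (e (e.symm (u, l))).1 = u
      rw [Equiv.apply_symm_apply]
    · intro l _ l' _ hll
      have := e.symm.injective hll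
      exact (Prod.mk.inj this).2
  calc load (fun s p => a s (e p).2) I ≤ ∑ t : Fin d → Fin k, load a (J t) := h1
    _ ≤ ∑ t : Fin d → Fin k, m * ∑ s, (J t s).card := Finset.sum_le_sum fun t _ => hI (J t)
    _ = m * ∑ s, ∑ t : Fin d → Fin k, (J t s).card := by
        rw [← Finset.mul_sum, Finset.sum_comm]
    _ ≤ m * ∑ s, k ^ (d - 1) * (I s).card :=
        Nat.mul_le_mul_left _ (Finset.sum_le_sum fun s _ => h2 s)
    _ = k ^ (d - 1) * m * ∑ s, (I s).card := by
        rw [← Finset.mul_sum]
        ring

theorem feasible_mono {d r r' m m' : ℕ} (hr : r ≤ r') (hm : m ≤ m') (h : Feasible d r' m) :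
    Feasible d r m' := by
  classical
  obtain ⟨a, ha, hI⟩ := h
  refine ⟨fun s l => a s (Fin.castLE hr l), fun l => ha _, fun I => ?_⟩
  have hinj : Function.Injective (Fin.castLE hr) := Fin.castLE_injective hr
  have h1 : load (fun s l => a s (Fin.castLE hr l)) I ≤
      load a (fun s => (I s).image (Fin.castLE hr)) := by
    unfold load
    refine Finset.card_le_card_of_injOn (fun (j : Fin d → Fin r) s => Fin.castLE hr (j s)) ?_ ?_
    · intro j hj
      rw [Finset.mem_coe, Finset.mem_filter] at hj
      rw [Finset.mem_coe, Finset.mem_filter]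
      exact ⟨Finset.mem_univ _, fun s => Finset.mem_image_of_mem _ (hj.2.1 s), hj.2.2⟩
    · intro j _ j' _ hjj
      funext s
      exact hinj (congrFun hjj s)
  calc load (fun s l => a s (Fin.castLE hr l)) I
      ≤ load a (fun s => (I s).image (Fin.castLE hr)) := h1
    _ ≤ m * ∑ s, ((I s).image (Fin.castLE hr)).card := hI _
    _ = m * ∑ s, (I s).card := by
        congr 1
        exact Finset.sum_congr rfl fun s _ => Finset.card_image_of_injective _ hinj
    _ ≤ m' * ∑ s, (I s).card := Nat.mul_le_mul_right _ hm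

theorem feasible_lower {d r m : ℕ} (hd : 2 ≤ d) (h : Feasible d r m) (hr : 0 < r) :
    r ^ (d - 1) ≤ d ^ 2 * m := by
  classical
  have : NeZero d := ⟨by omega⟩
  obtain ⟨a, ha, hI⟩ := h
  let Φ : Finset (Fin d → Fin r) := Finset.univ.filter fun j => ∑ s, a s (j s) ≤ 0
  have h1 : r ^ d ≤ d * Φ.card := by
    refine count Φ (fun _ => Equiv.refl _) (fun c => Equiv.addRight c) fun j => ?_
    by_contra hcon
    push Not at hcon
    have h2 : ∀ c : Fin d, 0 < ∑ s, a s (j (s + c)) := by
      intro c
      by_contra h3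
      exact hcon c (Finset.mem_filter.2 ⟨Finset.mem_univ _, not_lt.1 h3⟩)
    have h3 : ∑ c : Fin d, ∑ s, a s (j (s + c)) = 0 := by
      rw [Finset.sum_comm]
      have h4 : ∀ s : Fin d, ∑ c : Fin d, a s (j (s + c)) = ∑ u : Fin d, a s (j u) := fun s =>
        Equiv.sum_comp (Equiv.addLeft s) (fun u => a s (j u))
      rw [Finset.sum_congr rfl fun s _ => h4 s, Finset.sum_comm]
      exact Finset.sum_eq_zero fun u _ => ha _
    have h5 : 0 < ∑ c : Fin d, ∑ s, a s (j (s + c)) :=
      Finset.sum_pos (fun c _ => h2 c) ⟨0, Finset.mem_univ _⟩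
    omega
  have h2 : Φ.card ≤ m * (d * r) := by
    have h3 := hI fun _ => Finset.univ
    have h4 : load a (fun _ => Finset.univ) = Φ.card := by
      unfold load
      congr 1
      ext j
      simp [Φ]
    rw [h4, Finset.sum_const, Finset.card_univ, Finset.card_univ, Fintype.card_fin,
      Fintype.card_fin, smul_eq_mul] at h3
    exact h3
  have h3 : r ^ (d - 1) * r ≤ d ^ 2 * m * r := by
    calc r ^ (d - 1) * r = r ^ d := by
          rw [← pow_succ]
          congr 1
          omega
      _ ≤ d * Φ.card := h1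
      _ ≤ d * (m * (d * r)) := Nat.mul_le_mul_left _ h2
      _ = d ^ 2 * m * r := by ring
  exact Nat.le_of_mul_le_mul_right h3 hr

end BSR.LOADA
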