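import Pool.Agent.BSR.Defs

/-!
Border subrank of tensors (MP_79bff1_ag), piece H1 (helper634): generic injectivity by a count over
a finite field. For a prime `p > 2 ^ (r d)` the number of bad `W` over `ZMod p` is smaller than the
number of all `W`; a good `W` is lifted to the integers.
-/

set_option autoImplicit false

open scoped BigOperators Matrix

namespace BSR.H1A

variable {d r m : ℕ}

/-- insert the coordinate `s` -/
def glue (s : Fin d) (i : Fin r) (c : {s' : Fin d // s' ≠ s} → Fin r) : Fin d → Fin r :=
  fun s' => if h : s' = s then i else c ⟨s', h⟩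

/-- forget the coordinate `s` -/
def off (s : Fin d) (j : Fin d → Fin r) : {s' : Fin d // s' ≠ s} → Fin r := fun s' => j s'

theorem glue_self (s : Fin d) (i : Fin r) (c : {s' : Fin d // s' ≠ s} → Fin r) :
    glue s i c s = i := by
  simp [glue]

theorem glue_ne (s : Fin d) (i : Fin r) (c : {s' : Fin d // s' ≠ s} → Fin r) (s' : Fin d)
    (h : s' ≠ s) : glue s i c s' = c ⟨s', h⟩ := by
  simp [glue, h]

theorem off_glue (s : Fin d) (i : Fin r) (c : {s' : Fin d // s' ≠ s} → Fin r) :
    off s (glue s i c) = c := by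
  funext s'
  unfold off
  rw [glue_ne s i c s' s'.2]

theorem glue_off (s : Fin d) (j : Fin d → Fin r) : glue s (j s) (off s j) = j := by
  funext s'
  by_cases h : s' = s
  · subst h
    rw [glue_self]
  · rw [glue_ne _ _ _ _ h]
    rfl

theorem sum_glue {F : Type} [AddCommMonoid F] (s : Fin d) (i : Fin r) (f : (Fin d → Fin r) → F) :
    ∑ j : Fin d → Fin r, (if j s = i then f j else 0) =
      ∑ c : {s' : Fin d // s' ≠ s} → Fin r, f (glue s i c) := by
  rw [← Finset.sum_filter]
  refine Finset.sum_nbij' (fun j => off s j) (fun c => glue s i c) ?_ ?_ ?_ ?_ ?_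
  · intro j _
    exact Finset.mem_univ _
  · intro c _
    rw [Finset.mem_filter]
    exact ⟨Finset.mem_univ _, glue_self s i c⟩
  · intro j hj
    rw [Finset.mem_filter] at hj
    rw [← hj.2]
    exact glue_off s j
  · intro c _
    exact off_glue s i c
  · intro j hj
    rw [Finset.mem_filter] at hj
    rw [← hj.2, glue_off s j]

section field

variable {F : Type} [Field F]

/-- the flattening -/
def rowM (lam : (Fin d → Fin r) → F) (s : Fin d) :
    Matrix (Fin r) ({s' : Fin d // s' ≠ s} → Fin r) F :=
  fun i c => lam (glue s i c)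

/-- pivot rows -/
theorem exists_pivots {C : Type} (A : Matrix (Fin r) C F) :
    ∃ I : Finset (Fin r), LinearIndependent F (fun k : I => A k) ∧
      ∀ i, ∃ b : I → F, A i = ∑ k : I, b k • A k := by
  classical
  obtain ⟨b, -, -, h2, h3⟩ := exists_linearIndepOn_extension (K := F) (v := fun i => A i)
    (s := ∅) (t := Set.univ) (linearIndepOn_empty _ _) (Set.empty_subset _)
  refine ⟨b.toFinset, ?_, ?_⟩
  · have h4 : LinearIndepOn F (fun i => A i) (b.toFinset : Set (Fin r)) := by
      rw [Set.coe_toFinset]
      exact h3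
    exact h4
  · intro i
    have h5 : A i ∈ Submodule.span F ((fun i => A i) '' b) := h2 ⟨i, Set.mem_univ _, rfl⟩
    have h6 : A i ∈ Submodule.span F (Set.range (fun k : (b.toFinset : Finset (Fin r)) => A k)) := by
      convert h5 using 2
      ext x
      simp
    rw [Submodule.mem_span_range_iff_exists_fun] at h6
    obtain ⟨c, hc⟩ := h6
    exact ⟨c, hc.symm⟩

theorem card_ker [Fintype F] [DecidableEq F] {C : Type} [Fintype C] [DecidableEq C]
    (A : Matrix (Fin r) C F) (I : Finset (Fin r)) (hI : LinearIndependent F (fun k : I => A k)) :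
    (Finset.univ.filter fun w : C → F => A *ᵥ w = 0).card * (Fintype.card F) ^ I.card ≤
      (Fintype.card F) ^ (Fintype.card C) := by
  classical
  let B : Matrix I C F := fun k => A k
  have hr : B.rank = Fintype.card I := LinearIndependent.rank_matrix (M := B) hI
  have h1 := LinearMap.finrank_range_add_finrank_ker (B.mulVecLin)
  have h2 : Module.finrank F (LinearMap.range B.mulVecLin) = I.card := by
    rw [← Fintype.card_coe I, ← hr]
    rfl
  have h3 : Fintype.card (LinearMap.ker B.mulVecLin) =
      (Fintype.card F) ^ Module.finrank F (LinearMap.ker B.mulVecLin) :=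
    Module.card_eq_pow_finrank
  have h4 : (Finset.univ.filter fun w : C → F => A *ᵥ w = 0).card ≤
      Fintype.card (LinearMap.ker B.mulVecLin) := by
    rw [← Fintype.card_coe]
    refine Fintype.card_le_of_injective (fun w => ⟨w.1, ?_⟩) ?_
    · have := (Finset.mem_filter.1 w.2).2
      rw [LinearMap.mem_ker]
      funext k
      have h5 := congrFun this k
      exact h5
    · intro w w' h
      have h6 := congrArg Subtype.val h
      exact Subtype.ext h6
  rw [Module.finrank_fintype_fun_eq_card, h2] at h1
  calc _ ≤ Fintype.card (LinearMap.ker B.mulVecLin) * (Fintype.card F) ^ I.card :=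
        Nat.mul_le_mul_right _ h4
    _ = (Fintype.card F) ^ (Fintype.card C) := by
        rw [h3, ← pow_add, ← h1, add_comm]

/-- tensors supported on `S` with pivot rows `I` -/
def Piv (S : Finset (Fin d → Fin r)) (I : Fin d → Finset (Fin r)) (lam : (Fin d → Fin r) → F) :
    Prop :=
  (∀ j, j ∉ S → lam j = 0) ∧ (∀ s, LinearIndependent F (fun k : I s => rowM lam s k)) ∧
    ∀ s, ∀ i, ∃ b : I s → F, rowM lam s i = ∑ k : I s, b k • rowM lam s k

theorem piv_ext (S : Finset (Fin d → Fin r)) (I : Fin d → Finset (Fin r))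
    (lam lam' : (Fin d → Fin r) → F) (hS : ∀ j, j ∉ S → lam j = 0) (hS' : ∀ j, j ∉ S → lam' j = 0)
    (B : ∀ s, Fin r → I s → F) (hB : ∀ s i, rowM lam s i = ∑ k : I s, B s i k • rowM lam s k)
    (hB' : ∀ s i, rowM lam' s i = ∑ k : I s, B s i k • rowM lam' s k)
    (h : ∀ j ∈ S, (∀ s, j s ∈ I s) → lam j = lam' j) : lam = lam' := by
  classical
  have main : ∀ n : ℕ, ∀ j : Fin d → Fin r,
      (Finset.univ.filter fun s => j s ∉ I s).card = n → lam j = lam' j := by
    intro n
    induction n using Nat.strong_induction_on with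
    | _ n ih =>
      intro j hj
      by_cases hall : ∀ s, j s ∈ I s
      · by_cases hjS : j ∈ S
        · exact h j hjS hall
        · rw [hS j hjS, hS' j hjS]
      · push Not at hall
        obtain ⟨s, hs⟩ := hall
        have e1 : lam j = ∑ k : I s, B s (j s) k * lam (glue s k (off s j)) := by
          have := congrFun (hB s (j s)) (off s j)
          unfold rowM at this
          rw [glue_off] at this
          rw [this, Finset.sum_apply]
          rfl
        have e2 : lam' j = ∑ k : I s, B s (j s) k * lam' (glue s k (off s j)) := by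
          have := congrFun (hB' s (j s)) (off s j)
          unfold rowM at this
          rw [glue_off] at this
          rw [this, Finset.sum_apply]
          rfl
        rw [e1, e2]
        refine Finset.sum_congr rfl fun k _ => ?_
        congr 1
        refine ih _ ?_ _ rfl
        rw [← hj]
        refine Finset.card_lt_card ?_
        rw [Finset.ssubset_iff_of_subset]
        · refine ⟨s, ?_, ?_⟩
          · rw [Finset.mem_filter]
            exact ⟨Finset.mem_univ _, hs⟩
          · rw [Finset.mem_filter, glue_self]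
            intro h3
            exact h3.2 k.2
        · intro s' hs'
          rw [Finset.mem_filter] at hs' ⊢
          refine ⟨Finset.mem_univ _, ?_⟩
          by_cases h4 : s' = s
          · subst h4
            exact hs
          · have := hs'.2
            rw [glue_ne _ _ _ _ h4] at this
            exact this
  funext j
  exact main _ j rfl

open Classical in
theorem card_piv [Fintype F] (S : Finset (Fin d → Fin r)) (I : Fin d → Finset (Fin r)) :
    (Finset.univ.filter fun lam : (Fin d → Fin r) → F => Piv S I lam).card ≤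
      (Fintype.card F) ^ ((S.filter fun j => ∀ s, j s ∈ I s).card + r * ∑ s, (I s).card) := by
  have hcard : Fintype.card (((S.filter fun j => ∀ s, j s ∈ I s) → F) × (∀ s, Fin r → I s → F)) =
      (Fintype.card F) ^ ((S.filter fun j => ∀ s, j s ∈ I s).card + r * ∑ s, (I s).card) := by
    rw [Fintype.card_prod, Fintype.card_pi, Finset.prod_const, Fintype.card_pi]
    have : ∀ s, Fintype.card (Fin r → I s → F) = (Fintype.card F) ^ (r * (I s).card) := by
      intro s
      rw [Fintype.card_fun, Fintype.card_fun, Fintype.card_coe, Fintype.card_fin, ← pow_mul,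
        mul_comm]
    simp_rw [this]
    rw [Finset.prod_pow_eq_pow_sum, pow_add, Finset.mul_sum, Finset.card_univ, Fintype.card_coe]
  rw [← hcard, ← Fintype.card_coe]
  have hB : ∀ lam : (Finset.univ.filter fun lam : (Fin d → Fin r) → F => Piv S I lam),
      ∃ B : ∀ s, Fin r → I s → F, ∀ s i, rowM lam.1 s i = ∑ k : I s, B s i k • rowM lam.1 s k := by
    intro lam
    have h1 := (Finset.mem_filter.1 lam.2).2.2.2
    choose B hB using h1
    exact ⟨B, hB⟩
  choose B hB using hB
  refine Fintype.card_le_of_injective (fun lam => (fun j => lam.1 j.1, B lam)) ?_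
  intro lam lam' h
  have h1 := (Prod.ext_iff.1 h).1
  have h2 := (Prod.ext_iff.1 h).2
  simp only at h1 h2
  refine Subtype.ext ?_
  refine piv_ext S I lam.1 lam'.1 (Finset.mem_filter.1 lam.2).2.1 (Finset.mem_filter.1 lam'.2).2.1
    (B lam) (hB lam) ?_ ?_
  · rw [h2]
    exact hB lam'
  · intro j hj hjI
    exact congrFun h1 ⟨j, Finset.mem_filter.2 ⟨hj, hjI⟩⟩

open Classical in
/-- the count over a large finite field -/
theorem exists_good [Fintype F] (S : Finset (Fin d → Fin r))
    (hHall : ∀ I : Fin d → Finset (Fin r), (∀ s, (I s).Nonempty) →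
      (S.filter fun j => ∀ s, j s ∈ I s).card + r * ∑ s, (I s).card < m * ∑ s, (I s).card)
    (hq : (2 ^ r) ^ d < Fintype.card F) :
    ∃ ω : ∀ s : Fin d, Fin m → ({s' : Fin d // s' ≠ s} → Fin r) → F,
      ∀ lam : (Fin d → Fin r) → F, (∀ j, j ∉ S → lam j = 0) →
        (∀ s q, rowM lam s *ᵥ ω s q = 0) → lam = 0 := by
  by_contra hcon
  push Not at hcon
  set q := Fintype.card F with hqdef
  have hq0 : 0 < q := Fintype.card_pos
  let Wt : Type := ∀ s : Fin d, Fin m → ({s' : Fin d // s' ≠ s} → Fin r) → F
  let K : ((Fin d → Fin r) → F) → Finset Wt := fun lam =>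
    Fintype.piFinset fun s => Fintype.piFinset fun _ : Fin m =>
      Finset.univ.filter fun w : ({s' : Fin d // s' ≠ s} → Fin r) → F => rowM lam s *ᵥ w = 0
  let Q : ℕ := Fintype.card Wt
  have hQ : Q = ∏ s : Fin d, (q ^ Fintype.card ({s' : Fin d // s' ≠ s} → Fin r)) ^ m := by
    show Fintype.card (∀ s : Fin d, Fin m → ({s' : Fin d // s' ≠ s} → Fin r) → F) = _
    rw [Fintype.card_pi]
    refine Finset.prod_congr rfl fun s _ => ?_
    rw [Fintype.card_fun, Fintype.card_fun, Fintype.card_fin]
  have hQ0 : 0 < Q := by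
    rw [hQ]
    refine Finset.prod_pos fun s _ => ?_
    positivity
  let II : Finset (Fin d → Finset (Fin r)) := Finset.univ.filter fun I => ∀ s, (I s).Nonempty
  let LL : (Fin d → Finset (Fin r)) → Finset ((Fin d → Fin r) → F) := fun I =>
    Finset.univ.filter fun lam => Piv S I lam
  have hcov : (Finset.univ : Finset Wt) ⊆ II.biUnion fun I => (LL I).biUnion K := by
    intro ω _
    obtain ⟨lam, h1, h2, h3⟩ := hcon ω
    choose I hI1 hI2 using fun s => exists_pivots (rowM lam s)
    rw [Finset.mem_biUnion]
    refine ⟨I, ?_, ?_⟩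
    · rw [Finset.mem_filter]
      refine ⟨Finset.mem_univ _, fun s => ?_⟩
      rw [Finset.nonempty_iff_ne_empty]
      intro h4
      apply h3
      funext j
      obtain ⟨b, hb⟩ := hI2 s (j s)
      have h5 := congrFun hb (off s j)
      unfold rowM at h5
      rw [glue_off] at h5
      have h6 : IsEmpty (I s) := by
        rw [h4]
        infer_instance
      rw [h5, Finset.sum_apply, Finset.univ_eq_empty, Finset.sum_empty]
      rfl
    · rw [Finset.mem_biUnion]
      refine ⟨lam, ?_, ?_⟩
      · rw [Finset.mem_filter]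
        exact ⟨Finset.mem_univ _, h1, hI1, hI2⟩
      · rw [Fintype.mem_piFinset]
        intro s
        rw [Fintype.mem_piFinset]
        intro t
        rw [Finset.mem_filter]
        exact ⟨Finset.mem_univ _, h2 s t⟩
  have hK : ∀ I, ∀ lam ∈ LL I, (K lam).card * q ^ (m * ∑ s, (I s).card) ≤ Q := by
    intro I lam hlam
    have h1 := (Finset.mem_filter.1 hlam).2.2.1
    have h2 : (K lam).card = ∏ s : Fin d, (Finset.univ.filter
        fun w : ({s' : Fin d // s' ≠ s} → Fin r) → F => rowM lam s *ᵥ w = 0).card ^ m := by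
      rw [Fintype.card_piFinset]
      refine Finset.prod_congr rfl fun s _ => ?_
      rw [Fintype.card_piFinset, Finset.prod_const, Finset.card_univ, Fintype.card_fin]
    have h3 : q ^ (m * ∑ s, (I s).card) = ∏ s : Fin d, (q ^ (I s).card) ^ m := by
      rw [Finset.prod_pow, Finset.prod_pow_eq_pow_sum, ← pow_mul, mul_comm]
    rw [h2, h3, hQ, ← Finset.prod_mul_distrib]
    refine Finset.prod_le_prod' fun s _ => ?_
    rw [← mul_pow]
    exact Nat.pow_le_pow_left (card_ker (rowM lam s) (I s) (h1 s)) m
  have hI : ∀ I ∈ II, ((LL I).biUnion K).card * q ≤ Q := by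
    intro I hI
    have h0 := hHall I (Finset.mem_filter.1 hI).2
    set a := (S.filter fun j => ∀ s, j s ∈ I s).card + r * ∑ s, (I s).card with ha
    set b := m * ∑ s, (I s).card with hb
    have h1 : ((LL I).biUnion K).card * q ^ b ≤ q ^ a * Q := by
      calc _ ≤ (∑ lam ∈ LL I, (K lam).card) * q ^ b :=
            Nat.mul_le_mul_right _ Finset.card_biUnion_le
        _ = ∑ lam ∈ LL I, (K lam).card * q ^ b := Finset.sum_mul _ _ _
        _ ≤ ∑ lam ∈ LL I, Q := Finset.sum_le_sum fun lam hlam => hK I lam hlam
        _ = (LL I).card * Q := by rw [Finset.sum_const, smul_eq_mul]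
        _ ≤ q ^ a * Q := Nat.mul_le_mul_right _ (card_piv S I)
    have h2 : q ^ (a + 1) ≤ q ^ b := Nat.pow_le_pow_right hq0 h0
    have h3 : q ^ a * (((LL I).biUnion K).card * q) ≤ q ^ a * Q := by
      calc _ = ((LL I).biUnion K).card * q ^ (a + 1) := by ring
        _ ≤ ((LL I).biUnion K).card * q ^ b := Nat.mul_le_mul_left _ h2
        _ ≤ _ := h1
    exact Nat.le_of_mul_le_mul_left h3 (by positivity)
  have hfin : Q * q ≤ II.card * Q := by
    calc Q * q = (Finset.univ : Finset Wt).card * q := rfl
      _ ≤ (II.biUnion fun I => (LL I).biUnion K).card * q :=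
          Nat.mul_le_mul_right _ (Finset.card_le_card hcov)
      _ ≤ (∑ I ∈ II, ((LL I).biUnion K).card) * q :=
          Nat.mul_le_mul_right _ Finset.card_biUnion_le
      _ = ∑ I ∈ II, ((LL I).biUnion K).card * q := Finset.sum_mul _ _ _
      _ ≤ ∑ I ∈ II, Q := Finset.sum_le_sum hI
      _ = II.card * Q := by rw [Finset.sum_const, smul_eq_mul]
  have hII : II.card ≤ (2 ^ r) ^ d := by
    calc II.card ≤ Fintype.card (Fin d → Finset (Fin r)) := Finset.card_le_univ _
      _ = (2 ^ r) ^ d := by
          rw [Fintype.card_fun, Fintype.card_finset, Fintype.card_fin, Fintype.card_fin]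
  have h1 : II.card * Q < Q * q := by
    calc II.card * Q ≤ (2 ^ r) ^ d * Q := Nat.mul_le_mul_right _ hII
      _ < q * Q := Nat.mul_lt_mul_of_pos_right hq hQ0
      _ = Q * q := mul_comm _ _
  omega

end field

/-- lifting injectivity from `ZMod p` to `ℂ` -/
theorem lift_inj {R S : Type} [Fintype R] [Fintype S] [DecidableEq S] (p : ℕ) [Fact p.Prime]
    (M : Matrix R S ℤ) (hM : ∀ x : S → ZMod p, (M.map (Int.cast : ℤ → ZMod p)) *ᵥ x = 0 → x = 0)
    (x : S → ℂ) (hx : (M.map (Int.cast : ℤ → ℂ)) *ᵥ x = 0) : x = 0 := by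
  classical
  set Mp : Matrix R S (ZMod p) := M.map (Int.cast : ℤ → ZMod p) with hMp
  have hker : LinearMap.ker Mp.mulVecLin = ⊥ := by
    rw [LinearMap.ker_eq_bot']
    intro x hx
    exact hM x hx
  obtain ⟨g, hg⟩ := LinearMap.exists_leftInverse_of_injective Mp.mulVecLin hker
  let N : Matrix S R (ZMod p) := LinearMap.toMatrix' g
  have hN : N * Mp = 1 := by
    have h1 : LinearMap.toMatrix' (g ∘ₗ Mp.mulVecLin) = 1 := by
      rw [hg, LinearMap.toMatrix'_id]
    rw [LinearMap.toMatrix'_comp] at h1
    rw [← h1]
    congr 1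
    rw [← Matrix.toLin'_apply', LinearMap.toMatrix'_toLin']
  let N' : Matrix S R ℤ := N.map fun a => (a.val : ℤ)
  have hN' : N'.map (Int.cast : ℤ → ZMod p) = N := by
    ext i j
    show (((N i j).val : ℤ) : ZMod p) = N i j
    rw [Int.cast_natCast, ZMod.natCast_val, ZMod.cast_id', id]
  have hdet : (N' * M).det ≠ 0 := by
    intro h
    have h1 : ((N' * M).map (Int.cast : ℤ → ZMod p)).det = 0 := by
      have := RingHom.map_det (Int.castRingHom (ZMod p)) (N' * M)
      rw [h, map_zero] at this
      exact this.symm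
    have h2 : (N' * M).map (Int.cast : ℤ → ZMod p) = N * Mp := by
      have := Matrix.map_mul (L := N') (M := M) (f := Int.castRingHom (ZMod p))
      rw [← hN']
      exact this
    rw [h2, hN, Matrix.det_one] at h1
    exact one_ne_zero h1
  have hdetC : ((N' * M).map (Int.cast : ℤ → ℂ)).det ≠ 0 := by
    have := RingHom.map_det (Int.castRingHom ℂ) (N' * M)
    have h2 : ((N' * M).map (Int.cast : ℤ → ℂ)).det = (((N' * M).det : ℤ) : ℂ) := this.symm
    rw [h2]
    exact_mod_cast hdet
  apply Matrix.eq_zero_of_mulVec_eq_zero hdetC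
  have h3 : (N' * M).map (Int.cast : ℤ → ℂ) =
      N'.map (Int.cast : ℤ → ℂ) * M.map (Int.cast : ℤ → ℂ) :=
    Matrix.map_mul (L := N') (M := M) (f := Int.castRingHom ℂ)
  rw [h3, ← Matrix.mulVec_mulVec, hx, Matrix.mulVec_zero]

theorem hall_core {d r m : ℕ} (S : Finset (Fin d → Fin r))
    (hHall : ∀ I : Fin d → Finset (Fin r), (∀ s, (I s).Nonempty) →
      (S.filter fun j => ∀ s, j s ∈ I s).card + r * ∑ s, (I s).card < m * ∑ s, (I s).card) :
    ∃ W : Fin d → Fin m → (Fin d → Fin r) → ℂ,
      (∀ s q j j', (∀ s', s' ≠ s → j s' = j' s') → W s q j = W s q j') ∧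
      ∀ lam : (Fin d → Fin r) → ℂ, (∀ j, j ∉ S → lam j = 0) →
        (∀ (s : Fin d) (i : Fin r) (q : Fin m),
          ∑ j : Fin d → Fin r, (if j s = i then lam j * W s q j else 0) = 0) →
        lam = 0 := by
  classical
  obtain ⟨p, hp1, hp2⟩ := Nat.exists_infinite_primes ((2 ^ r) ^ d + 1)
  have : Fact p.Prime := ⟨hp2⟩
  have hq : (2 ^ r) ^ d < Fintype.card (ZMod p) := by
    rw [ZMod.card]
    omega
  have hHall' : ∀ I : Fin d → Finset (Fin r), (∀ s, (I s).Nonempty) →
      (S.filter fun j => ∀ s, j s ∈ I s).card + r * ∑ s, (I s).card < m * ∑ s, (I s).card := by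
    intro I hI
    convert hHall I hI
  obtain ⟨ω, hω⟩ := exists_good (F := ZMod p) (m := m) S hHall' hq
  let ω' : ∀ s : Fin d, Fin m → ({s' : Fin d // s' ≠ s} → Fin r) → ℤ := fun s q c => (ω s q c).val
  refine ⟨fun s q j => ((ω' s q (off s j) : ℤ) : ℂ), ?_, ?_⟩
  · intro s q j j' h
    have : off s j = off s j' := by
      funext s'
      exact h s' s'.2
    show ((ω' s q (off s j) : ℤ) : ℂ) = ((ω' s q (off s j') : ℤ) : ℂ)
    rw [this]
  · intro lam hlam hsum
    let M : Matrix (Fin d × Fin r × Fin m) S ℤ := fun a j =>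
      if j.1 a.1 = a.2.1 then ω' a.1 a.2.2 (off a.1 j.1) else 0
    have key := lift_inj p M ?_ (fun j : S => lam j.1) ?_
    · funext j
      by_cases hj : j ∈ S
      · exact congrFun key ⟨j, hj⟩
      · exact hlam j hj
    · intro x hx
      let mu : (Fin d → Fin r) → ZMod p := fun j => if h : j ∈ S then x ⟨j, h⟩ else 0
      have hmu : mu = 0 := by
        refine hω mu ?_ ?_
        · intro j hj
          exact dif_neg hj
        · intro s q
          funext i
          show ∑ c, mu (glue s i c) * ω s q c = 0
          have h1 := congrFun hx (s, i, q)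
          have h2 : ∑ c, mu (glue s i c) * ω s q c =
              ∑ j : Fin d → Fin r, (if j s = i then mu j * ω s q (off s j) else 0) := by
            rw [sum_glue s i (fun j => mu j * ω s q (off s j))]
            refine Finset.sum_congr rfl fun c _ => ?_
            rw [off_glue]
          rw [h2]
          have h3 : ∑ j : Fin d → Fin r, (if j s = i then mu j * ω s q (off s j) else 0) =
              ∑ j ∈ S, (if j s = i then mu j * ω s q (off s j) else 0) := by
            symm
            refine Finset.sum_subset (Finset.subset_univ _) fun j _ hj => ?_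
            have : mu j = 0 := dif_neg hj
            rw [this, zero_mul, ite_self]
          rw [h3, ← Finset.sum_coe_sort S]
          have h4 : ∑ j : S, ((M (s, i, q) j : ℤ) : ZMod p) * x j = 0 := h1
          refine Eq.trans ?_ h4
          refine Finset.sum_congr rfl fun j _ => ?_
          have h5 : mu j.1 = x j := by
            show (if h : j.1 ∈ S then x ⟨j.1, h⟩ else 0) = x j
            rw [dif_pos j.2]
          show (if j.1 s = i then mu j.1 * ω s q (off s j.1) else 0) =
            (((if j.1 s = i then ω' s q (off s j.1) else 0 : ℤ)) : ZMod p) * x j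
          by_cases h6 : j.1 s = i
          · rw [if_pos h6, if_pos h6, h5]
            show _ = ((((ω s q (off s j.1)).val : ℕ) : ℤ) : ZMod p) * x j
            rw [Int.cast_natCast, ZMod.natCast_val, ZMod.cast_id', id, mul_comm]
          · rw [if_neg h6, if_neg h6, Int.cast_zero, zero_mul]
      funext j
      have h5 : mu j.1 = x j := by
        show (if h : j.1 ∈ S then x ⟨j.1, h⟩ else 0) = x j
        rw [dif_pos j.2]
      rw [← h5, hmu]
      rfl
    · funext a
      obtain ⟨s, i, q⟩ := a
      have h1 := hsum s i q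
      have h3 : ∑ j : Fin d → Fin r, (if j s = i then lam j * ((ω' s q (off s j) : ℤ) : ℂ) else 0) =
          ∑ j ∈ S, (if j s = i then lam j * ((ω' s q (off s j) : ℤ) : ℂ) else 0) := by
        symm
        refine Finset.sum_subset (Finset.subset_univ _) fun j _ hj => ?_
        rw [hlam j hj, zero_mul, ite_self]
      have h2 : ∑ j ∈ S, (if j s = i then lam j * ((ω' s q (off s j) : ℤ) : ℂ) else 0) = 0 := by
        rw [← h3]
        exact h1
      rw [← Finset.sum_coe_sort S] at h2
      show ∑ j : S, ((M (s, i, q) j : ℤ) : ℂ) * lam j.1 = 0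
      refine Eq.trans ?_ h2
      refine Finset.sum_congr rfl fun j _ => ?_
      show (((if j.1 s = i then ω' s q (off s j.1) else 0 : ℤ)) : ℂ) * lam j.1 = _
      by_cases h6 : j.1 s = i
      · rw [if_pos h6, if_pos h6, mul_comm]
      · rw [if_neg h6, if_neg h6, Int.cast_zero, zero_mul]

end BSR.H1A
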