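import Mathlib

set_option autoImplicit false

/-!
# An onto Jacobian at one point implies algebraic independence
-/

namespace BSR.H2I

open MvPolynomial

/-- chain rule -/
lemma pderiv_aeval_sum {π ι : Type} [Fintype ι] (F : ι → MvPolynomial π ℂ) (p : π)
    (P : MvPolynomial ι ℂ) :
    pderiv p (aeval F P) = ∑ i, aeval F (pderiv i P) * pderiv p (F i) := by
  classical
  induction P using MvPolynomial.induction_on with
  | C a => simp
  | add P Q hP hQ =>
    simp only [map_add, hP, hQ, add_mul, Finset.sum_add_distrib]
  | mul_X P j hP =>
    have h1 : pderiv p (aeval F (P * X j))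
        = pderiv p (aeval F P) * F j + aeval F P * pderiv p (F j) := by
      rw [map_mul, pderiv_mul, aeval_X]
    have h2 : ∀ i : ι, aeval F (pderiv i (P * X j)) * pderiv p (F i)
        = aeval F (pderiv i P) * pderiv p (F i) * F j
          + aeval F P * (aeval F (pderiv i (X j : MvPolynomial ι ℂ)) * pderiv p (F i)) := by
      intro i
      rw [pderiv_mul, map_add, map_mul, map_mul, aeval_X]
      ring
    have h3 : ∑ i, aeval F (pderiv i (X j : MvPolynomial ι ℂ)) * pderiv p (F i) = pderiv p (F j) := by
      rw [Finset.sum_eq_single j]
      · rw [pderiv_X_self, map_one, one_mul]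
      · intro i _ hi
        rw [pderiv_X_of_ne (Ne.symm hi), map_zero, zero_mul]
      · intro hj
        exact absurd (Finset.mem_univ j) hj
    rw [h1, hP, Finset.sum_congr rfl (fun i _ => h2 i), Finset.sum_add_distrib, ← Finset.mul_sum,
      ← Finset.sum_mul, h3]

/-- the degree drops -/
lemma totalDegree_pderiv_lt {ι : Type} (P : MvPolynomial ι ℂ) (i : ι) (h : pderiv i P ≠ 0) :
    (pderiv i P).totalDegree < P.totalDegree := by
  classical
  obtain ⟨m, hm, hmax⟩ := Finset.exists_mem_eq_sup _ (support_nonempty.2 h)
    (fun s : ι →₀ ℕ => s.sum fun _ e => e)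
  have h1 : (pderiv i P).totalDegree = m.sum fun _ e => e := hmax
  have h2 : coeff m (pderiv i P) ≠ 0 := mem_support_iff.1 hm
  rw [coeff_pderiv] at h2
  have h3 : coeff (m + Finsupp.single i 1) P ≠ 0 := fun h0 => h2 (by rw [h0]; simp)
  have h4 := le_totalDegree (mem_support_iff.2 h3)
  rw [Finsupp.sum_add_index' (by simp) (by simp)] at h4
  simp at h4
  rw [h1]
  simpa [Finsupp.sum] using Nat.lt_of_succ_le h4

theorem injective_of_surj_deriv {π ι : Type} [Fintype π] [Fintype ι]
    (F : ι → MvPolynomial π ℂ) (x0 : π → ℂ)
    (h : Function.Surjective (fun (v : π → ℂ) (i : ι) =>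
      ∑ p, MvPolynomial.eval x0 (MvPolynomial.pderiv p (F i)) * v p)) :
    Function.Injective (MvPolynomial.aeval F : MvPolynomial ι ℂ →ₐ[ℂ] MvPolynomial π ℂ) := by
  classical
  choose v hv using fun j : ι => h (Pi.single j 1)
  -- the matrix
  let A : Matrix ι ι (MvPolynomial π ℂ) := fun i j => ∑ p, pderiv p (F i) * C (v j p)
  have hA : A.det ≠ 0 := by
    intro h0
    have h1 : (eval x0) A.det = 1 := by
      rw [RingHom.map_det]
      have h2 : (eval x0).mapMatrix A = 1 := by
        ext i j
        rw [RingHom.mapMatrix_apply, Matrix.map_apply]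
        have h3 := congrFun (hv j) i
        simp only at h3
        simp only [A, map_sum, map_mul, eval_C]
        rw [h3, Matrix.one_apply, Pi.single_apply]
      rw [h2, Matrix.det_one]
    rw [h0, map_zero] at h1
    exact zero_ne_one h1
  have key : ∀ (n : ℕ) (P : MvPolynomial ι ℂ), P.totalDegree < n → aeval F P = 0 → P = 0 := by
    intro n
    induction n with
    | zero => intro P hP; omega
    | succ n ih =>
      intro P hP h0
      have h1 : ∀ i, aeval F (pderiv i P) = 0 := by
        have h2 : Matrix.vecMul (fun i => aeval F (pderiv i P)) A = 0 := by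
          ext1 j
          simp only [Matrix.vecMul, dotProduct, A, Pi.zero_apply, Finset.mul_sum]
          rw [Finset.sum_comm]
          apply Finset.sum_eq_zero
          intro p _
          have h3 := pderiv_aeval_sum F p P
          rw [h0, map_zero] at h3
          calc ∑ i, (aeval F) ((pderiv i) P) * ((pderiv p) (F i) * C (v j p))
              = (∑ i, aeval F (pderiv i P) * pderiv p (F i)) * C (v j p) := by
                rw [Finset.sum_mul]; exact Finset.sum_congr rfl fun i _ => by ring
            _ = 0 := by rw [← h3, zero_mul]
        have h3 := Matrix.eq_zero_of_vecMul_eq_zero hA h2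
        intro i
        exact congrFun h3 i
      have h2 : ∀ i, pderiv i P = 0 := by
        intro i
        by_contra hne
        exact hne (ih _ (by have := totalDegree_pderiv_lt P i hne; omega) (h1 i))
      -- all partial derivatives are zero, hence constant
      have h3 : P = C (coeff 0 P) := by
        ext m
        rw [coeff_C]
        split_ifs with hm
        · rw [← hm]
        · obtain ⟨i, hi⟩ : ∃ i, m i ≠ 0 := by
            by_contra hcon
            push Not at hcon
            exact hm (Finsupp.ext fun i => (hcon i).symm)
          have h4 := congrArg (coeff (m - Finsupp.single i 1)) (h2 i)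
          rw [coeff_pderiv, coeff_zero] at h4
          have h5 : m - Finsupp.single i 1 + Finsupp.single i 1 = m :=
            tsub_add_cancel_of_le (by
              rw [Finsupp.single_le_iff]; omega)
          rw [h5] at h4
          rcases mul_eq_zero.1 h4 with h6 | h6
          · exact h6
          · exfalso
            have h7 : ((((m - Finsupp.single i 1 : ι →₀ ℕ) i : ℕ) : ℂ) + 1) ≠ 0 :=
              Nat.cast_add_one_ne_zero _
            exact h7 h6
      rw [h3] at h0 ⊢
      rw [aeval_C] at h0
      have h4 : coeff 0 P = 0 := by
        have := h0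
        rw [MvPolynomial.algebraMap_eq] at this
        exact C_eq_zero.1 this
      rw [h4, map_zero]
  rw [injective_iff_map_eq_zero]
  intro P hP
  exact key _ P (Nat.lt_succ_self _) hP

end BSR.H2I
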