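import Mathlib

/-!
# The image of a dominant polynomial map contains a nonempty Zariski-open set (Chevalley)
-/

set_option autoImplicit false

open Topology MvPolynomial

namespace BSR.H2OA

theorem constructible_dichotomy {X : Type} [TopologicalSpace X] [IrreducibleSpace X] {s : Set X}
    (hs : IsConstructible s) :
    (∃ U : Set X, IsOpen U ∧ U.Nonempty ∧ U ⊆ s) ∨
      (∃ U : Set X, IsOpen U ∧ U.Nonempty ∧ U ⊆ sᶜ) := by
  induction hs using IsConstructible.empty_union_induction with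
  | open_retrocompact U hUopen hUcomp =>
    rcases U.eq_empty_or_nonempty with h | h
    · right
      refine ⟨Set.univ, isOpen_univ, Set.univ_nonempty, ?_⟩
      rw [h]; simp
    · exact Or.inl ⟨U, hUopen, h, subset_rfl⟩
  | union s hs t ht hs' ht' =>
    rcases hs' with ⟨U, h1, h2, h3⟩ | ⟨U, h1, h2, h3⟩
    · exact Or.inl ⟨U, h1, h2, h3.trans Set.subset_union_left⟩
    · rcases ht' with ⟨V, k1, k2, k3⟩ | ⟨V, k1, k2, k3⟩
      · exact Or.inl ⟨V, k1, k2, k3.trans Set.subset_union_right⟩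
      · right
        refine ⟨U ∩ V, h1.inter k1, nonempty_preirreducible_inter h1 k1 h2 k2, ?_⟩
        rw [Set.compl_union]
        exact Set.inter_subset_inter h3 k3
  | compl s hs hs' =>
    rcases hs' with h | h
    · right; rwa [compl_compl]
    · exact Or.inl h

theorem exists_open_of_injective {π ι : Type} [Fintype π] [Fintype ι]
    (F : ι → MvPolynomial π ℂ)
    (hinj : Function.Injective (MvPolynomial.aeval F : MvPolynomial ι ℂ →ₐ[ℂ] MvPolynomial π ℂ))
    (Q : MvPolynomial π ℂ) (hQ : Q ≠ 0) :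
    ∃ P : MvPolynomial ι ℂ, P ≠ 0 ∧ ∀ y : ι → ℂ, MvPolynomial.eval y P ≠ 0 →
      ∃ x : π → ℂ, (∀ i, MvPolynomial.eval x (F i) = y i) ∧ MvPolynomial.eval x Q ≠ 0 := by
  classical
  set f : MvPolynomial ι ℂ →+* MvPolynomial π ℂ := (MvPolynomial.aeval F :
    MvPolynomial ι ℂ →ₐ[ℂ] MvPolynomial π ℂ).toRingHom with hf
  have hfF : ∀ i, f (X i) = F i := fun i => by simp [hf]
  have hfC : ∀ c, f (C c) = C c := fun c => by simp [hf]
  have hinj' : Function.Injective f := hinj
  have hft : f.FiniteType := by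
    have h1 : (f.comp (C : ℂ →+* MvPolynomial ι ℂ)).FiniteType := by
      have h2 : f.comp (C : ℂ →+* MvPolynomial ι ℂ) = algebraMap ℂ (MvPolynomial π ℂ) := by
        ext c; simp [hf]
      rw [h2, RingHom.finiteType_algebraMap]
      infer_instance
    exact RingHom.FiniteType.of_comp_finiteType h1
  have hfp : f.FinitePresentation := RingHom.FinitePresentation.of_finiteType.mp hft
  -- the image of `D(Q)` is constructible
  set s : Set (PrimeSpectrum (MvPolynomial ι ℂ)) := PrimeSpectrum.comap f ''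
    (PrimeSpectrum.basicOpen Q : Set (PrimeSpectrum (MvPolynomial π ℂ))) with hs
  have hsc : IsConstructible s :=
    PrimeSpectrum.isConstructible_comap_image hfp PrimeSpectrum.isConstructible_basicOpen
  -- the generic point lies in the image
  let η0 : PrimeSpectrum (MvPolynomial π ℂ) := ⟨⊥, Ideal.isPrime_bot⟩
  let η : PrimeSpectrum (MvPolynomial ι ℂ) := ⟨⊥, Ideal.isPrime_bot⟩
  have hη : η ∈ s := by
    refine ⟨η0, ?_, ?_⟩
    · change Q ∉ (⊥ : Ideal (MvPolynomial π ℂ))
      simpa using hQ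
    · apply PrimeSpectrum.ext
      change Ideal.comap f ⊥ = ⊥
      rw [← RingHom.ker_eq_comap_bot]
      exact (RingHom.injective_iff_ker_eq_bot f).mp hinj'
  have hgen : ∀ U : Set (PrimeSpectrum (MvPolynomial ι ℂ)), IsOpen U → U.Nonempty → η ∈ U := by
    intro U hU ⟨p, hp⟩
    obtain ⟨P, hP1, hP2⟩ := (PrimeSpectrum.isTopologicalBasis_basic_opens).exists_subset_of_mem_open
      hp hU
    obtain ⟨⟨P, rfl⟩, h2, h3⟩ := And.intro hP1 hP2
    apply h3
    change P ∉ (⊥ : Ideal (MvPolynomial ι ℂ))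
    intro h4
    apply h2
    have : P = 0 := by simpa using h4
    rw [this]; exact Ideal.zero_mem _
  obtain ⟨U, hU1, hU2, hU3⟩ : ∃ U : Set (PrimeSpectrum (MvPolynomial ι ℂ)), IsOpen U ∧
      U.Nonempty ∧ U ⊆ s := by
    rcases constructible_dichotomy hsc with h | ⟨U, h1, h2, h3⟩
    · exact h
    · exact absurd hη (h3 (hgen U h1 h2))
  obtain ⟨D, ⟨P, rfl⟩, hP2, hP3⟩ :=
    (PrimeSpectrum.isTopologicalBasis_basic_opens).exists_subset_of_mem_open (hgen U hU1 hU2) hU1
  have hP0 : P ≠ 0 := by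
    intro h0
    apply hP2
    rw [h0]; exact Ideal.zero_mem _
  refine ⟨P, hP0, fun y hy => ?_⟩
  -- the maximal ideal of `y`
  let m : Ideal (MvPolynomial ι ℂ) := RingHom.ker (MvPolynomial.eval y)
  have hm : m.IsMaximal := by
    apply RingHom.ker_isMaximal_of_surjective
    intro c
    exact ⟨C c, by simp⟩
  have hmU : (⟨m, hm.isPrime⟩ : PrimeSpectrum (MvPolynomial ι ℂ)) ∈ s := by
    apply hU3
    apply hP3
    change P ∉ m
    intro h
    exact hy h
  obtain ⟨p, hp1, hp2⟩ := hmU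
  have hp1' : Q ∉ p.asIdeal := hp1
  have hp2' : Ideal.comap f p.asIdeal = m := congrArg PrimeSpectrum.asIdeal hp2
  -- a maximal ideal above `p` not containing `Q`
  have hjac : p.asIdeal.jacobson = p.asIdeal :=
    IsJacobsonRing.out inferInstance (p.isPrime.isRadical)
  have hQj : Q ∉ p.asIdeal.jacobson := by rw [hjac]; exact hp1'
  rw [Ideal.jacobson, Submodule.mem_sInf] at hQj
  push Not at hQj
  obtain ⟨n, ⟨hn1, hn2⟩, hn3⟩ := hQj
  obtain ⟨x, hx⟩ := (MvPolynomial.isMaximal_iff_eq_vanishingIdeal_singleton (K := ℂ)).mp hn2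
  have hmem : ∀ q : MvPolynomial π ℂ, q ∈ n ↔ MvPolynomial.eval x q = 0 := by
    intro q
    rw [hx, MvPolynomial.mem_vanishingIdeal_iff]
    simp
  refine ⟨x, fun i => ?_, fun h => hn3 ((hmem Q).mpr h)⟩
  have h1 : (X i - C (y i) : MvPolynomial ι ℂ) ∈ m := by
    change MvPolynomial.eval y (X i - C (y i)) = 0
    simp
  rw [← hp2', Ideal.mem_comap] at h1
  have h2 := (hmem _).mp (hn1 h1)
  rw [map_sub, hfF, hfC, map_sub, MvPolynomial.eval_C, sub_eq_zero] at h2
  exact h2

end BSR.H2OA
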