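import Pool.Agent.BSR.Defs
import Pool.Agent.BSR.H2OA
import Pool.Agent.BSR.H2I

/-! Generic tensors of the form `act M w`: application of the dominance criterion. -/

set_option autoImplicit false

open scoped BigOperators

namespace BSR.H2D

open MvPolynomial

/-- composition of actions -/
theorem act_comp {d : ℕ} {κ ρ τ : Type} [Fintype κ] [Fintype ρ]
    (A : Fin d → Matrix τ ρ ℂ) (M : Fin d → Matrix ρ κ ℂ) (T : Tens d κ) :
    act A (act M T) = act (fun s => A s * M s) T := by
  classical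
  funext j
  unfold act
  simp only [Finset.mul_sum]
  rw [Finset.sum_comm]
  refine Finset.sum_congr rfl fun i2 _ => ?_
  simp only [Matrix.mul_apply]
  rw [Finset.prod_univ_sum, Fintype.piFinset_univ, Finset.sum_mul]
  refine Finset.sum_congr rfl fun i _ => ?_
  rw [Finset.prod_mul_distrib]
  ring

/-- product rule for the derivative at a point -/
theorem eval_pderiv_prod {π α : Type} [DecidableEq α] (x0 : π → ℂ) (p : π) (T : Finset α)
    (f : α → MvPolynomial π ℂ) :
    eval x0 (pderiv p (∏ s ∈ T, f s)) =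
      ∑ s ∈ T, (∏ s' ∈ T.erase s, eval x0 (f s')) * eval x0 (pderiv p (f s)) := by
  induction T using Finset.induction_on with
  | empty => simp
  | insert a T ha ih =>
    rw [Finset.prod_insert ha, pderiv_mul, map_add, map_mul, map_mul, ih, Finset.sum_insert ha,
      Finset.erase_insert ha, map_prod, Finset.mul_sum]
    congr 1
    · ring
    · refine Finset.sum_congr rfl fun s hs => ?_
      have hsa : a ≠ s := fun h => ha (h ▸ hs)
      rw [Finset.erase_insert_of_ne hsa, Finset.prod_insert (by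
        intro h; exact ha (Finset.mem_of_mem_erase h))]
      ring

variable {d r m : ℕ}

/-- the coordinates that stay free -/
abbrev NS (d r m : ℕ) (S : Finset (Fin d → Fin r)) : Type :=
  {i : Fin d → Fin r ⊕ Fin m // ¬ ∃ j ∈ S, i = fun s => Sum.inl (j s)}

/-- the parameters -/
abbrev Pm (d r m : ℕ) (S : Finset (Fin d → Fin r)) : Type :=
  (Fin d × Fin r × Fin m) ⊕ NS d r m S

open Classical in
/-- the free tensor -/
noncomputable def W (S : Finset (Fin d → Fin r)) (i : Fin d → Fin r ⊕ Fin m) :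
    MvPolynomial (Pm d r m S) ℂ :=
  if h : ∃ j ∈ S, i = fun s => Sum.inl (j s) then 0 else X (Sum.inr ⟨i, h⟩)

/-- the matrices `[[1, X_s], [0, 1]]` -/
noncomputable def M (S : Finset (Fin d → Fin r)) (s : Fin d) :
    Fin r ⊕ Fin m → Fin r ⊕ Fin m → MvPolynomial (Pm d r m S) ℂ
  | Sum.inl a, Sum.inl b => if a = b then 1 else 0
  | Sum.inl a, Sum.inr q => X (Sum.inl (s, a, q))
  | Sum.inr _, Sum.inl _ => 0
  | Sum.inr p, Sum.inr q => if p = q then 1 else 0

/-- the parametrisation -/
noncomputable def F (S : Finset (Fin d → Fin r)) (i : Fin d → Fin r ⊕ Fin m) :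
    MvPolynomial (Pm d r m S) ℂ :=
  ∑ i2 : Fin d → Fin r ⊕ Fin m, (∏ s, M S s (i s) (i2 s)) * W S i2

/-- the matrices at a point -/
noncomputable def Mx (S : Finset (Fin d → Fin r)) (x : Pm d r m S → ℂ) (s : Fin d) :
    Matrix (Fin r ⊕ Fin m) (Fin r ⊕ Fin m) ℂ :=
  fun u v => eval x (M S s u v)

/-- the tensor at a point -/
noncomputable def Wx (S : Finset (Fin d → Fin r)) (x : Pm d r m S → ℂ) : Tens d (Fin r ⊕ Fin m) :=
  fun i => eval x (W S i)

theorem eval_F (S : Finset (Fin d → Fin r)) (x : Pm d r m S → ℂ) (i : Fin d → Fin r ⊕ Fin m) :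
    eval x (F S i) = act (Mx S x) (Wx S x) i := by
  simp only [F, act, Mx, Wx, map_sum, map_mul, map_prod]

/-- the matrices `[1 | -X_s]` -/
noncomputable def Ax (S : Finset (Fin d → Fin r)) (x : Pm d r m S → ℂ) (s : Fin d) :
    Matrix (Fin r) (Fin r ⊕ Fin m) ℂ
  | a, Sum.inl b => if a = b then 1 else 0
  | a, Sum.inr q => - x (Sum.inl (s, a, q))

/-- the matrix `[1 | 0]` -/
def E1 (r m : ℕ) : Matrix (Fin r) (Fin r ⊕ Fin m) ℂ
  | a, Sum.inl b => if a = b then 1 else 0
  | _, Sum.inr _ => 0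

theorem Ax_mul (S : Finset (Fin d → Fin r)) (x : Pm d r m S → ℂ) (s : Fin d) :
    Ax S x s * Mx S x s = E1 r m := by
  ext a v
  rw [Matrix.mul_apply, Fintype.sum_sum_type]
  rcases v with b | q
  · simp [Ax, Mx, M, E1, apply_ite (eval x)]
  · simp [Ax, Mx, M, E1, apply_ite (eval x)]

theorem act_E1 (w : Tens d (Fin r ⊕ Fin m)) (j : Fin d → Fin r) :
    act (fun _ => E1 r m) w j = w (fun s => Sum.inl (j s)) := by
  classical
  unfold act
  rw [Finset.sum_eq_single (fun s => Sum.inl (j s))]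
  · simp [E1]
  · intro i _ hi
    obtain ⟨s, hs⟩ : ∃ s, i s ≠ Sum.inl (j s) := by
      by_contra hcon
      push Not at hcon
      exact hi (funext hcon)
    have : E1 r m (j s) (i s) = 0 := by
      rcases h : i s with b | q
      · simp only [E1]
        rw [if_neg]
        intro hjb
        exact hs (by rw [h, hjb])
      · simp [E1]
    rw [Finset.prod_eq_zero (Finset.mem_univ s) this, zero_mul]
  · intro h
    exact absurd (Finset.mem_univ _) h

theorem Wx_S (S : Finset (Fin d → Fin r)) (x : Pm d r m S → ℂ) {j : Fin d → Fin r} (hj : j ∈ S) :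
    Wx S x (fun s => Sum.inl (j s)) = 0 := by
  unfold Wx W
  rw [dif_pos ⟨j, hj, rfl⟩, map_zero]

theorem Wx_NS (S : Finset (Fin d → Fin r)) (x : Pm d r m S → ℂ) (i : NS d r m S) :
    Wx S x i.1 = x (Sum.inr i) := by
  unfold Wx W
  rw [dif_neg i.2, eval_X]

open Classical in
/-- the base point -/
noncomputable def x0 (S : Finset (Fin d → Fin r)) (w : Tens d (Fin r ⊕ Fin m)) :
    Pm d r m S → ℂ
  | Sum.inl _ => 0
  | Sum.inr i => w i.1

theorem Mx_x0 (S : Finset (Fin d → Fin r)) (w : Tens d (Fin r ⊕ Fin m)) (s : Fin d)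
    (u v : Fin r ⊕ Fin m) : eval (x0 S w) (M S s u v) = if u = v then 1 else 0 := by
  rcases u with a | p <;> rcases v with b | q <;> simp [M, x0, apply_ite (eval (x0 S w))]

theorem Wx_x0 (S : Finset (Fin d → Fin r)) (w : Tens d (Fin r ⊕ Fin m))
    (hw0 : ∀ j ∈ S, w (fun s => Sum.inl (j s)) = 0) (i : Fin d → Fin r ⊕ Fin m) :
    eval (x0 S w) (W S i) = w i := by
  unfold W
  split_ifs with h
  · obtain ⟨j, hj, rfl⟩ := h
    rw [map_zero, hw0 j hj]
  · rw [eval_X, x0]

theorem pd_M_inr (S : Finset (Fin d → Fin r)) (w : Tens d (Fin r ⊕ Fin m)) (s : Fin d)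
    (u v : Fin r ⊕ Fin m) (i0 : NS d r m S) :
    eval (x0 S w) (pderiv (Sum.inr i0) (M S s u v)) = 0 := by
  rcases u with a | p <;> rcases v with b | q
  · simp only [M]; split_ifs <;> simp
  · simp only [M]
    rw [pderiv_X_of_ne (by simp), map_zero]
  · simp [M]
  · simp only [M]; split_ifs <;> simp

theorem pd_M_inl (S : Finset (Fin d → Fin r)) (w : Tens d (Fin r ⊕ Fin m)) (s : Fin d)
    (u v : Fin r ⊕ Fin m) (s0 : Fin d) (a0 : Fin r) (q0 : Fin m) :
    eval (x0 S w) (pderiv (Sum.inl (s0, a0, q0)) (M S s u v)) =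
      if s = s0 ∧ u = Sum.inl a0 ∧ v = Sum.inr q0 then 1 else 0 := by
  rcases u with a | p <;> rcases v with b | q
  · simp only [M]; split_ifs <;> simp_all
  · simp only [M]
    by_cases h : s = s0 ∧ a = a0 ∧ q = q0
    · obtain ⟨rfl, rfl, rfl⟩ := h
      simp
    · rw [pderiv_X_of_ne, map_zero, if_neg]
      · rintro ⟨h1, h2, h3⟩
        exact h ⟨h1, Sum.inl.inj h2, Sum.inr.inj h3⟩
      · intro he
        have := Sum.inl.inj he
        simp only [Prod.mk.injEq] at this
        exact h this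
  · simp [M]
  · simp only [M]; split_ifs <;> simp_all

theorem pd_W_inl (S : Finset (Fin d → Fin r)) (i : Fin d → Fin r ⊕ Fin m) (z : Fin d × Fin r × Fin m) :
    pderiv (Sum.inl z) (W S i) = 0 := by
  unfold W
  split_ifs with h
  · simp
  · rw [pderiv_X_of_ne (by simp)]

theorem prod_delta {κ : Type} [DecidableEq κ] (i i2 : Fin d → κ) :
    (∏ s, (if i s = i2 s then (1 : ℂ) else 0)) = if i = i2 then 1 else 0 := by
  classical
  split_ifs with h
  · subst h; simp
  · obtain ⟨s, hs⟩ : ∃ s, i s ≠ i2 s := by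
      by_contra hcon
      push Not at hcon
      exact h (funext hcon)
    exact Finset.prod_eq_zero (Finset.mem_univ s) (if_neg hs)

theorem pd_F_inr (S : Finset (Fin d → Fin r)) (w : Tens d (Fin r ⊕ Fin m))
    (i : Fin d → Fin r ⊕ Fin m) (i0 : NS d r m S) :
    eval (x0 S w) (pderiv (Sum.inr i0) (F S i)) = if i = i0.1 then 1 else 0 := by
  classical
  unfold F
  rw [map_sum, map_sum]
  have h1 : ∀ i2 : Fin d → Fin r ⊕ Fin m,
      eval (x0 S w) (pderiv (Sum.inr i0) ((∏ s, M S s (i s) (i2 s)) * W S i2)) =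
        (if i = i2 then 1 else 0) * (if i2 = i0.1 then 1 else 0) := by
    intro i2
    rw [pderiv_mul, map_add, map_mul, map_mul, eval_pderiv_prod]
    have h2 : (∑ s : Fin d, (∏ s' ∈ Finset.univ.erase s, eval (x0 S w) (M S s' (i s') (i2 s'))) *
        eval (x0 S w) (pderiv (Sum.inr i0) (M S s (i s) (i2 s)))) = 0 := by
      refine Finset.sum_eq_zero fun s _ => ?_
      rw [pd_M_inr, mul_zero]
    rw [h2, zero_mul, zero_add, map_prod]
    simp only [Mx_x0]
    rw [prod_delta]
    congr 1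
    by_cases h : ∃ j ∈ S, i2 = fun s => Sum.inl (j s)
    · unfold W
      rw [dif_pos h, map_zero, map_zero, if_neg]
      rintro rfl
      exact i0.2 h
    · unfold W
      rw [dif_neg h]
      by_cases h3 : i2 = i0.1
      · subst h3
        simp
      · rw [if_neg h3, pderiv_X_of_ne, map_zero]
        intro he
        apply h3
        have := Sum.inr.inj he
        rw [← this]
  simp only [h1]
  rw [Finset.sum_eq_single i]
  · simp
  · intro b _ hb
    rw [if_neg (Ne.symm hb), zero_mul]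
  · intro h
    exact absurd (Finset.mem_univ _) h

theorem pd_F_inl (S : Finset (Fin d → Fin r)) (w : Tens d (Fin r ⊕ Fin m))
    (hw0 : ∀ j ∈ S, w (fun s => Sum.inl (j s)) = 0)
    (i : Fin d → Fin r ⊕ Fin m) (s0 : Fin d) (a0 : Fin r) (q0 : Fin m) :
    eval (x0 S w) (pderiv (Sum.inl (s0, a0, q0)) (F S i)) =
      if i s0 = Sum.inl a0 then w (Function.update i s0 (Sum.inr q0)) else 0 := by
  classical
  unfold F
  rw [map_sum, map_sum]
  have h1 : ∀ i2 : Fin d → Fin r ⊕ Fin m,
      eval (x0 S w) (pderiv (Sum.inl (s0, a0, q0)) ((∏ s, M S s (i s) (i2 s)) * W S i2)) =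
        if i2 = Function.update i s0 (Sum.inr q0) then
          (if i s0 = Sum.inl a0 then w (Function.update i s0 (Sum.inr q0)) else 0) else 0 := by
    intro i2
    rw [pderiv_mul, map_add, map_mul, map_mul, pd_W_inl, map_zero, mul_zero, add_zero,
      eval_pderiv_prod, Wx_x0 S w hw0]
    simp only [Mx_x0, pd_M_inl]
    rw [Finset.sum_eq_single s0]
    · by_cases h2 : i2 = Function.update i s0 (Sum.inr q0)
      · subst h2
        rw [if_pos rfl]
        have h3 : (∏ s' ∈ Finset.univ.erase s0,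
            if i s' = Function.update i s0 (Sum.inr q0) s' then (1 : ℂ) else 0) = 1 := by
          refine Finset.prod_eq_one fun s' hs' => ?_
          rw [Function.update_of_ne (Finset.ne_of_mem_erase hs'), if_pos rfl]
        rw [h3]
        by_cases h4 : i s0 = Sum.inl a0
        · simp [h4]
        · simp [h4]
      · rw [if_neg h2]
        by_cases h4 : i2 s0 = Sum.inr q0
        · obtain ⟨s', hs', hne⟩ : ∃ s', s' ≠ s0 ∧ i s' ≠ i2 s' := by
            by_contra hcon
            push Not at hcon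
            apply h2
            funext s'
            by_cases hs : s' = s0
            · subst hs; rw [Function.update_self, h4]
            · rw [Function.update_of_ne hs, hcon s' hs]
          rw [Finset.prod_eq_zero (Finset.mem_erase.2 ⟨hs', Finset.mem_univ _⟩) (if_neg hne),
            zero_mul, zero_mul]
        · simp [h4]
    · intro b _ hb
      rw [if_neg (fun h => hb h.1), mul_zero]
    · intro h
      exact absurd (Finset.mem_univ _) h
  simp only [h1]
  rw [Finset.sum_ite_eq' Finset.univ (Function.update i s0 (Sum.inr q0))]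
  simp

theorem surj (S : Finset (Fin d → Fin r))
    (w : Tens d (Fin r ⊕ Fin m)) (hw0 : ∀ j ∈ S, w (fun s => Sum.inl (j s)) = 0)
    (hw2 : ∀ lam : (Fin d → Fin r) → ℂ, (∀ j, j ∉ S → lam j = 0) →
      (∀ (s : Fin d) (i : Fin r) (q : Fin m),
        ∑ j : Fin d → Fin r, (if j s = i then
          lam j * w (Function.update (fun s' => Sum.inl (j s')) s (Sum.inr q)) else 0) = 0) →
      lam = 0) [Fintype (Pm d r m S)] :
    Function.Surjective (fun (v : Pm d r m S → ℂ) (i : Fin d → Fin r ⊕ Fin m) =>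
      ∑ p, eval (x0 S w) (pderiv p (F S i)) * v p) := by
  classical
  let L : (Pm d r m S → ℂ) →ₗ[ℂ] ((Fin d → Fin r ⊕ Fin m) → ℂ) :=
    { toFun := fun v i => ∑ p, eval (x0 S w) (pderiv p (F S i)) * v p
      map_add' := fun v v' => by
        funext i
        simp only [Pi.add_apply, mul_add, Finset.sum_add_distrib]
      map_smul' := fun c v => by
        funext i
        simp only [Pi.smul_apply, smul_eq_mul, RingHom.id_apply, Finset.mul_sum]
        refine Finset.sum_congr rfl fun p _ => ?_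
        ring }
  suffices h : LinearMap.range L = ⊤ by
    intro y
    obtain ⟨v, hv⟩ := LinearMap.range_eq_top.1 h y
    exact ⟨v, hv⟩
  by_contra hne
  obtain ⟨f, hf, hle⟩ := Submodule.exists_le_ker_of_lt_top _ (lt_top_iff_ne_top.2 hne)
  set lam2 : (Fin d → Fin r ⊕ Fin m) → ℂ := fun i => f (Pi.single i 1) with hlam2
  have hfe : ∀ y : (Fin d → Fin r ⊕ Fin m) → ℂ, f y = ∑ i, y i * lam2 i := by
    intro y
    conv_lhs => rw [← Finset.univ_sum_single y]
    rw [map_sum]
    refine Finset.sum_congr rfl fun i _ => ?_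
    have : (Pi.single i (y i) : (Fin d → Fin r ⊕ Fin m) → ℂ) =
        y i • (Pi.single i (1 : ℂ) : (Fin d → Fin r ⊕ Fin m) → ℂ) := by
      rw [← Pi.single_smul', smul_eq_mul, mul_one]
    rw [this, map_smul, smul_eq_mul]
  have hkill : ∀ p, ∑ i, eval (x0 S w) (pderiv p (F S i)) * lam2 i = 0 := by
    intro p
    have h1 := hle ⟨Pi.single p 1, rfl⟩
    rw [LinearMap.mem_ker, hfe] at h1
    rw [← h1]
    refine Finset.sum_congr rfl fun i _ => ?_
    congr 1
    show _ = ∑ p', eval (x0 S w) (pderiv p' (F S i)) * (Pi.single p (1 : ℂ) : Pm d r m S → ℂ) p'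
    rw [Finset.sum_eq_single p]
    · rw [Pi.single_eq_same, mul_one]
    · intro b _ hb
      rw [Pi.single_eq_of_ne hb, mul_zero]
    · intro h
      exact absurd (Finset.mem_univ _) h
  have hNS : ∀ i : NS d r m S, lam2 i.1 = 0 := by
    intro i0
    have h1 := hkill (Sum.inr i0)
    simp only [pd_F_inr] at h1
    rw [Finset.sum_eq_single i0.1] at h1
    · simpa using h1
    · intro b _ hb
      rw [if_neg hb, zero_mul]
    · intro h
      exact absurd (Finset.mem_univ _) h
  have hlam : (fun j : Fin d → Fin r => lam2 (fun s => Sum.inl (j s))) = 0 := by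
    refine hw2 _ ?_ ?_
    · intro j hj
      refine hNS ⟨fun s => Sum.inl (j s), ?_⟩
      rintro ⟨j', hj', he⟩
      apply hj
      have : j = j' := by
        funext s
        exact Sum.inl.inj (congrFun he s)
      rw [this]; exact hj'
    · intro s a q
      have h1 := hkill (Sum.inl (s, a, q))
      simp only [pd_F_inl S w hw0] at h1
      refine Eq.trans ?_ h1
      -- compare the two sums through the injection `j ↦ inl ∘ j`
      have hinj : Function.Injective (fun (j : Fin d → Fin r) (s : Fin d) =>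
          (Sum.inl (j s) : Fin r ⊕ Fin m)) := by
        intro j j' h
        funext s
        exact Sum.inl.inj (congrFun h s)
      symm
      rw [← Finset.sum_subset (Finset.subset_univ (Finset.univ.image
        (fun (j : Fin d → Fin r) (s : Fin d) => (Sum.inl (j s) : Fin r ⊕ Fin m))))]
      · rw [Finset.sum_image (fun _ _ _ _ h => hinj h)]
        refine Finset.sum_congr rfl fun j _ => ?_
        by_cases h2 : j s = a
        · rw [if_pos h2, if_pos (congrArg Sum.inl h2)]
          ring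
        · rw [if_neg h2, if_neg (fun h => h2 (Sum.inl.inj h)), zero_mul]
      · intro i _ hi
        have h2 : lam2 i = 0 := by
          refine hNS ⟨i, ?_⟩
          rintro ⟨j, -, rfl⟩
          exact hi (Finset.mem_image.2 ⟨j, Finset.mem_univ _, rfl⟩)
        rw [h2, mul_zero]
  apply hf
  refine LinearMap.ext fun y => ?_
  rw [hfe, LinearMap.zero_apply]
  refine Finset.sum_eq_zero fun i _ => ?_
  by_cases h : ∃ j ∈ S, i = fun s => Sum.inl (j s)
  · obtain ⟨j, -, rfl⟩ := h
    have := congrFun hlam j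
    simp only [Pi.zero_apply] at this
    rw [this, mul_zero]
  · rw [hNS ⟨i, h⟩, mul_zero]

theorem vectors_of_generic_of
    (H2O : ∀ {π ι : Type} [Fintype π] [Fintype ι] (F : ι → MvPolynomial π ℂ),
      Function.Injective (MvPolynomial.aeval F : MvPolynomial ι ℂ →ₐ[ℂ] MvPolynomial π ℂ) →
      ∀ Q : MvPolynomial π ℂ, Q ≠ 0 →
      ∃ P : MvPolynomial ι ℂ, P ≠ 0 ∧ ∀ y : ι → ℂ, MvPolynomial.eval y P ≠ 0 →
        ∃ x : π → ℂ, (∀ i, MvPolynomial.eval x (F i) = y i) ∧ MvPolynomial.eval x Q ≠ 0)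
    (H2I : ∀ {π ι : Type} [Fintype π] [Fintype ι] (F : ι → MvPolynomial π ℂ) (x0 : π → ℂ),
      Function.Surjective (fun (v : π → ℂ) (i : ι) =>
        ∑ p, MvPolynomial.eval x0 (MvPolynomial.pderiv p (F i)) * v p) →
      Function.Injective (MvPolynomial.aeval F : MvPolynomial ι ℂ →ₐ[ℂ] MvPolynomial π ℂ))
    {d r m : ℕ} (S : Finset (Fin d → Fin r))
    (w : Tens d (Fin r ⊕ Fin m)) (hw0 : ∀ j ∈ S, w (fun s => Sum.inl (j s)) = 0)
    (hw1 : ∀ l : Fin r, w (fun _ => Sum.inl l) ≠ 0)
    (hw2 : ∀ lam : (Fin d → Fin r) → ℂ, (∀ j, j ∉ S → lam j = 0) →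
      (∀ (s : Fin d) (i : Fin r) (q : Fin m),
        ∑ j : Fin d → Fin r, (if j s = i then
          lam j * w (Function.update (fun s' => Sum.inl (j s')) s (Sum.inr q)) else 0) = 0) →
      lam = 0) :
    ∃ P : MvPolynomial (Fin d → Fin r ⊕ Fin m) ℂ, P ≠ 0 ∧
      ∀ T : Tens d (Fin r ⊕ Fin m), MvPolynomial.eval T P ≠ 0 →
        ∃ A : Fin d → Matrix (Fin r) (Fin r ⊕ Fin m) ℂ,
          (∀ j ∈ S, act A T j = 0) ∧ (∀ l : Fin r, act A T (fun _ => l) ≠ 0) := by
  classical
  have hdiag : ∀ l : Fin r, ¬ ∃ j ∈ S, (fun _ => Sum.inl l : Fin d → Fin r ⊕ Fin m) =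
      fun s => Sum.inl (j s) := by
    rintro l ⟨j, hj, he⟩
    apply hw1 l
    rw [he]
    exact hw0 j hj
  let Q : MvPolynomial (Pm d r m S) ℂ := ∏ l : Fin r, W S (fun _ => Sum.inl l)
  have hQ : Q ≠ 0 := by
    refine Finset.prod_ne_zero_iff.2 fun l _ => ?_
    unfold W
    rw [dif_neg (hdiag l)]
    exact X_ne_zero _
  obtain ⟨P, hP, hPx⟩ := H2O (F S) (H2I (F S) (x0 S w) (surj S w hw0 hw2)) Q hQ
  refine ⟨P, hP, fun T hT => ?_⟩
  obtain ⟨x, hx, hxQ⟩ := hPx T hT
  have hTeq : T = act (Mx S x) (Wx S x) := by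
    funext i
    rw [← hx i, eval_F]
  have hact : act (Ax S x) T = fun j => Wx S x (fun s => Sum.inl (j s)) := by
    rw [hTeq, act_comp]
    simp only [Ax_mul]
    funext j
    exact act_E1 _ j
  refine ⟨Ax S x, fun j hj => ?_, fun l => ?_⟩
  · rw [hact]
    exact Wx_S S x hj
  · rw [hact]
    intro h0
    apply hxQ
    show eval x (∏ l : Fin r, W S (fun _ => Sum.inl l)) = 0
    rw [map_prod]
    exact Finset.prod_eq_zero (Finset.mem_univ l) h0

theorem vectors_of_generic {d r m : ℕ} (hd : 0 < d) (S : Finset (Fin d → Fin r))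
    (w : Tens d (Fin r ⊕ Fin m)) (hw0 : ∀ j ∈ S, w (fun s => Sum.inl (j s)) = 0)
    (hw1 : ∀ l : Fin r, w (fun _ => Sum.inl l) ≠ 0)
    (hw2 : ∀ lam : (Fin d → Fin r) → ℂ, (∀ j, j ∉ S → lam j = 0) →
      (∀ (s : Fin d) (i : Fin r) (q : Fin m),
        ∑ j : Fin d → Fin r, (if j s = i then
          lam j * w (Function.update (fun s' => Sum.inl (j s')) s (Sum.inr q)) else 0) = 0) →
      lam = 0) :
    ∃ P : MvPolynomial (Fin d → Fin r ⊕ Fin m) ℂ, P ≠ 0 ∧
      ∀ T : Tens d (Fin r ⊕ Fin m), MvPolynomial.eval T P ≠ 0 →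
        ∃ A : Fin d → Matrix (Fin r) (Fin r ⊕ Fin m) ℂ,
          (∀ j ∈ S, act A T j = 0) ∧ (∀ l : Fin r, act A T (fun _ => l) ≠ 0) :=
  vectors_of_generic_of (fun F hF Q hQ => BSR.H2OA.exists_open_of_injective F hF Q hQ)
    (fun F x0 h => BSR.H2I.injective_of_surj_deriv F x0 h) S w hw0 hw1 hw2

end BSR.H2D
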