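import Mathlib

/-!
# The extremal inequality for the block pattern

`∑_{M < r} ∏_{s ≠ M mod d} min (M + 1, x_s) ≤ (r + 2 d)^(d-1) (∑ x_s) / (d² - 1)`.
-/

set_option autoImplicit false

namespace BSR.H3BA

open Finset

/-- weighted AM-GM for two numbers -/
theorem gm (k : ℕ) {b c : ℝ} (hb : 0 ≤ b) (hc : 0 ≤ c) :
    ((k : ℝ) + 1) * c * b ^ k ≤ c ^ (k + 1) + k * b ^ (k + 1) := by
  induction k with
  | zero => simp
  | succ k ih =>
    have h1 := mul_le_mul_of_nonneg_left ih hc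
    have h2 : 0 ≤ ((k : ℝ) + 1) * b ^ k * (c - b) ^ 2 := by positivity
    push_cast
    have e1 : c * (c ^ (k + 1) + k * b ^ (k + 1)) = c ^ (k + 1 + 1) + k * c * b ^ (k + 1) := by ring
    rw [e1] at h1
    have e2 : c * (((k : ℝ) + 1) * c * b ^ k) = ((k : ℝ) + 1) * c ^ 2 * b ^ k := by ring
    rw [e2] at h1
    have e3 : ((k : ℝ) + 1) * b ^ k * (c - b) ^ 2 = ((k : ℝ) + 1) * c ^ 2 * b ^ k -
        2 * ((k : ℝ) + 1) * c * b ^ (k + 1) + ((k : ℝ) + 1) * b ^ (k + 1 + 1) := by ring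
    rw [e3] at h2
    nlinarith [h1, h2]

theorem amgm (n : ℕ) (a : Fin n → ℝ) (ha : ∀ i, 0 ≤ a i) (c : ℝ) (hc : 0 ≤ c)
    (h : ∑ i, a i = n * c) : ∏ i, a i ≤ c ^ n := by
  induction n generalizing c with
  | zero => simp
  | succ n ih =>
    rw [Fin.sum_univ_castSucc] at h
    rw [Fin.prod_univ_castSucc]
    set S := ∑ i : Fin n, a (Fin.castSucc i) with hS
    have hS0 : 0 ≤ S := Finset.sum_nonneg fun i _ => ha _
    obtain ⟨b, hb0, hb⟩ : ∃ b : ℝ, 0 ≤ b ∧ S = n * b := by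
      rcases Nat.eq_zero_or_pos n with rfl | hn
      · exact ⟨0, le_rfl, by simp [hS]⟩
      · refine ⟨S / n, by positivity, ?_⟩
        have : (n : ℝ) ≠ 0 := by positivity
        field_simp
    have h1 := ih (fun i => a (Fin.castSucc i)) (fun i => ha _) b hb0 (by rw [← hb])
    have h2 : (∏ i : Fin n, a (Fin.castSucc i)) * a (Fin.last n) ≤ b ^ n * a (Fin.last n) :=
      mul_le_mul_of_nonneg_right h1 (ha _)
    refine h2.trans ?_
    have h3 : a (Fin.last n) = (n + 1) * c - n * b := by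
      push_cast at h
      linarith
    have h4 := gm n hb0 hc
    rw [h3]
    have e1 : b ^ n * (((n : ℝ) + 1) * c - n * b) = ((n : ℝ) + 1) * c * b ^ n - n * b ^ (n + 1) := by
      ring
    rw [e1]
    linarith

/-- Maclaurin's inequality for the elementary symmetric function of degree `n` of `n + 1` numbers -/
theorem mac (n : ℕ) (a : Fin (n + 1) → ℝ) (ha : ∀ i, 0 ≤ a i) (c : ℝ) (hc : 0 ≤ c)
    (h : ∑ i, a i = (n + 1) * c) :
    ∑ t : Fin (n + 1), ∏ s : Fin (n + 1), (if s = t then 1 else a s) ≤ (n + 1) * c ^ n := by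
  induction n generalizing c with
  | zero => simp
  | succ n ih =>
    rw [Fin.sum_univ_castSucc] at h
    set S := ∑ i : Fin (n + 1), a (Fin.castSucc i) with hS
    have hS0 : 0 ≤ S := Finset.sum_nonneg fun i _ => ha _
    obtain ⟨b, hb0, hb⟩ : ∃ b : ℝ, 0 ≤ b ∧ S = (n + 1) * b := by
      refine ⟨S / (n + 1), by positivity, ?_⟩
      have : (n : ℝ) + 1 ≠ 0 := by positivity
      field_simp
    have h1 := ih (fun i => a (Fin.castSucc i)) (fun i => ha _) b hb0 (by rw [← hb])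
    have h2 := amgm (n + 1) (fun i => a (Fin.castSucc i)) (fun i => ha _) b hb0
      (by push_cast; rw [← hb])
    have e0 : ∑ t : Fin (n + 2), ∏ s : Fin (n + 2), (if s = t then 1 else a s) =
        (∑ t : Fin (n + 1), ∏ s : Fin (n + 1), (if s = t then 1 else a (Fin.castSucc s))) *
          a (Fin.last (n + 1)) + ∏ s : Fin (n + 1), a (Fin.castSucc s) := by
      rw [Fin.sum_univ_castSucc, Finset.sum_mul]
      congr 1
      · refine Finset.sum_congr rfl fun t _ => ?_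
        rw [Fin.prod_univ_castSucc, if_neg (by
          intro h
          exact absurd h.symm (Fin.castSucc_lt_last t).ne)]
        congr 1
        refine Finset.prod_congr rfl fun s _ => ?_
        simp only [Fin.castSucc_inj]
      · rw [Fin.prod_univ_castSucc, if_pos rfl, mul_one]
        refine Finset.prod_congr rfl fun s _ => ?_
        rw [if_neg (Fin.castSucc_lt_last s).ne]
    change ∑ t : Fin (n + 2), ∏ s : Fin (n + 2), (if s = t then 1 else a s) ≤ _
    rw [e0]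
    have h3 : a (Fin.last (n + 1)) = (n + 2) * c - (n + 1) * b := by
      push_cast at h
      linarith
    have h4 := gm n hb0 hc
    have h5 : (∑ t : Fin (n + 1), ∏ s : Fin (n + 1), (if s = t then 1 else a (Fin.castSucc s))) *
        a (Fin.last (n + 1)) ≤ ((n + 1) * b ^ n) * a (Fin.last (n + 1)) :=
      mul_le_mul_of_nonneg_right h1 (ha _)
    have e1 : (((n : ℝ) + 1) * b ^ n) * (((n : ℝ) + 2) * c - (n + 1) * b) + b ^ (n + 1) =
        ((n : ℝ) + 2) * (((n : ℝ) + 1) * c * b ^ n - n * b ^ (n + 1)) := by ring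
    have h6 : ((n : ℝ) + 2) * (((n : ℝ) + 1) * c * b ^ n - n * b ^ (n + 1)) ≤
        ((n : ℝ) + 2) * c ^ (n + 1) := by
      apply mul_le_mul_of_nonneg_left _ (by positivity)
      linarith
    rw [h3] at h5 ⊢
    push_cast
    have e2 : ((n : ℝ) + 1 + 1) = n + 2 := by ring
    rw [e2]
    linarith

/-- the primitive of `u ↦ min u y ^ n` -/
noncomputable def Ph (n : ℕ) (y u : ℝ) : ℝ := (min u y) ^ (n + 1) / (n + 1) + y ^ n * (u - min u y)

theorem Ph_step (n : ℕ) {y u v : ℝ} (hy : 0 ≤ y) (hu : 0 ≤ u) (huv : u ≤ v) :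
    (v - u) * (min u y) ^ n + Ph n y u ≤ Ph n y v := by
  have hn : (0 : ℝ) < (n : ℝ) + 1 := by positivity
  have key : ∀ {b c : ℝ}, 0 ≤ b → 0 ≤ c → (c - b) * b ^ n ≤ c ^ (n + 1) / (n + 1) - b ^ (n + 1) / (n + 1) := by
    intro b c hb hc
    have h := gm n hb hc
    rw [← sub_div, le_div_iff₀ hn]
    have e : (c - b) * b ^ n * ((n : ℝ) + 1) = ((n : ℝ) + 1) * c * b ^ n - (n + 1) * b ^ (n + 1) := by
      ring
    rw [e]
    linarith
  unfold Ph
  rcases le_total u y with h1 | h1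
  · rw [min_eq_left h1]
    rcases le_total v y with h2 | h2
    · rw [min_eq_left h2]
      have := key hu (hu.trans huv)
      simp only [sub_self, mul_zero, add_zero]
      linarith
    · rw [min_eq_right h2]
      have h3 := key hu hy
      have h4 : u ^ n ≤ y ^ n := pow_le_pow_left₀ hu h1 n
      have h5 : u ^ n * (v - y) ≤ y ^ n * (v - y) :=
        mul_le_mul_of_nonneg_right h4 (by linarith)
      have e : (v - u) * u ^ n = (y - u) * u ^ n + u ^ n * (v - y) := by ring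
      rw [e]
      simp only [sub_self, mul_zero, add_zero]
      linarith
  · rw [min_eq_right h1, min_eq_right (h1.trans huv)]
    have e : (v - u) * y ^ n = y ^ n * (v - y) - y ^ n * (u - y) := by ring
    rw [e]
    linarith

theorem Ph_nonneg (n : ℕ) {y u : ℝ} (hy : 0 ≤ y) (hu : 0 ≤ u) : 0 ≤ Ph n y u := by
  unfold Ph
  have h1 : 0 ≤ min u y := le_min hu hy
  have h2 : 0 ≤ u - min u y := by linarith [min_le_left u y]
  positivity

/-- the value at the end -/
theorem Ph_end (k : ℕ) (hk : 1 ≤ k) {y R : ℝ} (hy : 0 ≤ y) (hyR : y ≤ R) :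
    ((k : ℝ) + 1) * (k + 3) * Ph (k + 1) y R ≤ R ^ (k + 1) * ((k + 2) * y) := by
  have hR : 0 ≤ R := hy.trans hyR
  have hk0 : (0 : ℝ) < k := by exact_mod_cast hk
  have hk2 : (0 : ℝ) < (k : ℝ) + 2 := by positivity
  set lam : ℝ := 1 + 1 / (((k : ℝ) + 2) * k) with hlam
  have hlam0 : 0 < lam := by positivity
  have h1 := gm k (mul_nonneg hlam0.le hy) hR
  have h2 : 1 + 1 / ((k : ℝ) + 2) ≤ lam ^ k := by
    have h3 := one_add_mul_le_pow (a := 1 / (((k : ℝ) + 2) * k)) (by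
      have : (0 : ℝ) ≤ 1 / (((k : ℝ) + 2) * k) := by positivity
      linarith) k
    have e : (k : ℝ) * (1 / (((k : ℝ) + 2) * k)) = 1 / ((k : ℝ) + 2) := by
      field_simp
    rw [e] at h3
    exact h3
  -- the main inequality
  have h4 : lam ^ k * (y ^ k * (((k : ℝ) + 1) / (k + 2)) * (((k : ℝ) + 2) * R - (k + 1) * y)) ≤
      R ^ (k + 1) := by
    have e1 : (k : ℝ) * (lam * y) ^ (k + 1) = lam ^ k * (y ^ k * (((k : ℝ) * lam) * y)) := by ring
    have e2 : ((k : ℝ) + 1) * R * (lam * y) ^ k = lam ^ k * (y ^ k * (((k : ℝ) + 1) * R)) := by ring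
    have e3 : (k : ℝ) * lam = ((k : ℝ) + 1) ^ 2 / (k + 2) := by
      rw [hlam]
      field_simp
      ring
    rw [e1, e2, e3] at h1
    have e4 : lam ^ k * (y ^ k * (((k : ℝ) + 1) / (k + 2)) * (((k : ℝ) + 2) * R - (k + 1) * y)) =
        lam ^ k * (y ^ k * (((k : ℝ) + 1) * R)) -
          lam ^ k * (y ^ k * ((((k : ℝ) + 1) ^ 2 / (k + 2)) * y)) := by
      field_simp
    rw [e4]
    linarith
  have hbr : 0 ≤ ((k : ℝ) + 2) * R - (k + 1) * y := by nlinarith
  have h5 : (1 + 1 / ((k : ℝ) + 2)) *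
      (y ^ k * (((k : ℝ) + 1) / (k + 2)) * (((k : ℝ) + 2) * R - (k + 1) * y)) ≤ R ^ (k + 1) := by
    refine le_trans (mul_le_mul_of_nonneg_right h2 ?_) h4
    positivity
  unfold Ph
  rw [min_eq_right hyR]
  push_cast
  have e5 : ((k : ℝ) + 1) * (k + 3) * (y ^ (k + 1 + 1) / ((k : ℝ) + 1 + 1) + y ^ (k + 1) * (R - y)) =
      ((1 + 1 / ((k : ℝ) + 2)) *
      (y ^ k * (((k : ℝ) + 1) / (k + 2)) * (((k : ℝ) + 2) * R - (k + 1) * y))) *
        ((k + 2) * y) := by
    have e6 : (k : ℝ) + 1 + 1 = k + 2 := by ring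
    rw [e6]
    field_simp
    ring
  rw [e5]
  exact mul_le_mul_of_nonneg_right h5 (by positivity)

/-- one block -/
theorem block {n K : ℕ} (x : Fin (n + 1) → ℕ) :
    ∑ t ∈ range (n + 1), ∏ s : Fin (n + 1),
      (if (s : ℕ) = ((n + 1) * K + t) % (n + 1) then (1 : ℝ) else
        min (((((n + 1) * K + t : ℕ) : ℝ)) + 1) (x s)) ≤
      ((n : ℝ) + 1) * (min (((n : ℝ) + 1) * (K + 1)) ((∑ s, (x s : ℝ)) / (n + 1))) ^ n := by
  have hn : (0 : ℝ) < (n : ℝ) + 1 := by positivity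
  set a : Fin (n + 1) → ℝ := fun s => min (((n : ℝ) + 1) * (K + 1)) (x s) with ha
  have ha0 : ∀ s, 0 ≤ a s := fun s => le_min (by positivity) (Nat.cast_nonneg _)
  set c : ℝ := (∑ s, a s) / (n + 1) with hc
  have hc0 : 0 ≤ c := div_nonneg (Finset.sum_nonneg fun s _ => ha0 s) hn.le
  have h1 := mac n a ha0 c hc0 (by rw [hc]; field_simp)
  have h2 : ∑ t ∈ range (n + 1), ∏ s : Fin (n + 1),
      (if (s : ℕ) = ((n + 1) * K + t) % (n + 1) then (1 : ℝ) else
        min (((((n + 1) * K + t : ℕ) : ℝ)) + 1) (x s)) ≤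
      ∑ t : Fin (n + 1), ∏ s : Fin (n + 1), (if s = t then 1 else a s) := by
    rw [Finset.sum_range]
    refine Finset.sum_le_sum fun t _ => ?_
    refine Finset.prod_le_prod ?_ ?_
    · intro s _
      split_ifs
      · exact zero_le_one
      · exact le_min (by positivity) (Nat.cast_nonneg _)
    · intro s _
      have e : ((n + 1) * K + (t : ℕ)) % (n + 1) = t := by
        rw [Nat.mul_add_mod, Nat.mod_eq_of_lt t.2]
      rw [e]
      by_cases hst : s = t
      · rw [if_pos hst, if_pos (by rw [hst])]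
      · rw [if_neg hst, if_neg (fun h => hst (Fin.ext h))]
        refine min_le_min ?_ le_rfl
        have : ((t : ℕ) : ℝ) + 1 ≤ n + 1 := by
          have := t.2
          exact_mod_cast this
        push_cast
        linarith
  refine h2.trans (h1.trans ?_)
  apply mul_le_mul_of_nonneg_left _ hn.le
  apply pow_le_pow_left₀ hc0
  apply le_min
  · rw [hc, div_le_iff₀ hn]
    calc ∑ s, a s ≤ ∑ _s : Fin (n + 1), ((n : ℝ) + 1) * (K + 1) :=
          Finset.sum_le_sum fun s _ => min_le_left _ _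
      _ = ((n : ℝ) + 1) * (K + 1) * (n + 1) := by
          rw [Finset.sum_const, Finset.card_univ, Fintype.card_fin, nsmul_eq_mul]
          push_cast
          ring
  · rw [hc]
    apply div_le_div_of_nonneg_right _ hn.le
    exact Finset.sum_le_sum fun s _ => min_le_right _ _

theorem blocks {n : ℕ} (x : Fin (n + 1) → ℕ) (K : ℕ) :
    ∑ M ∈ range ((n + 1) * K), ∏ s : Fin (n + 1),
      (if (s : ℕ) = M % (n + 1) then (1 : ℝ) else min ((M : ℝ) + 1) (x s)) ≤
      Ph n ((∑ s, (x s : ℝ)) / (n + 1)) (((n : ℝ) + 1) * (K + 1)) := by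
  have hy : (0 : ℝ) ≤ (∑ s, (x s : ℝ)) / (n + 1) := by positivity
  induction K with
  | zero =>
    simp only [mul_zero, range_zero, sum_empty]
    exact Ph_nonneg n hy (by positivity)
  | succ K ih =>
    rw [mul_add, mul_one, Finset.sum_range_add]
    have h1 := block (K := K) x
    have h2 := Ph_step n hy (u := ((n : ℝ) + 1) * (K + 1)) (v := ((n : ℝ) + 1) * ((K + 1 : ℕ) + 1))
      (by positivity) (by push_cast; nlinarith [(Nat.cast_nonneg n : (0 : ℝ) ≤ n)])
    have e : ((n : ℝ) + 1) * ((K + 1 : ℕ) + 1) - ((n : ℝ) + 1) * (K + 1) = n + 1 := by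
      push_cast
      ring
    rw [e] at h2
    linarith

theorem sum_ineq {d r : ℕ} (hd : 3 ≤ d) (x : Fin d → ℕ) (hx : ∀ s, x s ≤ r) :
    (d ^ 2 - 1) * ∑ M ∈ Finset.range r, ∏ s : Fin d,
        (if (s : ℕ) = M % d then 1 else min (M + 1) (x s)) ≤
      (r + 2 * d) ^ (d - 1) * ∑ s, x s := by
  obtain ⟨k, rfl⟩ : ∃ k, d = k + 2 := ⟨d - 2, by omega⟩
  have hk : 1 ≤ k := by omega
  have e1 : k + 2 - 1 = k + 1 := by omega
  rw [e1]
  set y : ℝ := (∑ s, (x s : ℝ)) / ((k + 1 : ℕ) + 1) with hy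
  have hk2 : (0 : ℝ) < ((k + 1 : ℕ) : ℝ) + 1 := by positivity
  have hy0 : 0 ≤ y := by positivity
  have hyr : y ≤ r := by
    rw [hy, div_le_iff₀ hk2]
    calc ∑ s, (x s : ℝ) ≤ ∑ _s : Fin (k + 2), (r : ℝ) :=
          Finset.sum_le_sum fun s _ => by exact_mod_cast hx s
      _ = r * (((k + 1 : ℕ) : ℝ) + 1) := by
          rw [Finset.sum_const, Finset.card_univ, Fintype.card_fin, nsmul_eq_mul]
          push_cast
          ring
  -- the blocks
  set K := r / (k + 2) + 1 with hK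
  have hrK : r ≤ (k + 2) * K := by
    have := Nat.lt_mul_div_succ r (show 0 < k + 2 by omega)
    rw [hK]
    omega
  have hKr : (k + 2) * K ≤ r + (k + 2) := by
    have := Nat.mul_div_le r (k + 2)
    rw [hK]
    ring_nf
    ring_nf at this
    omega
  have h1 := blocks (n := k + 1) x K
  have h2 : ∑ M ∈ range r, ∏ s : Fin (k + 2),
      (if (s : ℕ) = M % (k + 2) then (1 : ℝ) else min ((M : ℝ) + 1) (x s)) ≤
      ∑ M ∈ range ((k + 2) * K), ∏ s : Fin (k + 2),
      (if (s : ℕ) = M % (k + 2) then (1 : ℝ) else min ((M : ℝ) + 1) (x s)) := by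
    apply Finset.sum_le_sum_of_subset_of_nonneg
    · intro M hM
      rw [mem_range] at hM ⊢
      omega
    · intro M _ _
      apply Finset.prod_nonneg
      intro s _
      split_ifs
      · exact zero_le_one
      · exact le_min (by positivity) (Nat.cast_nonneg _)
  have h3 : Ph (k + 1) y ((((k + 1 : ℕ) : ℝ) + 1) * (K + 1)) ≤ Ph (k + 1) y (r + 2 * (k + 2)) := by
    have h4 : (((k + 1 : ℕ) : ℝ) + 1) * (K + 1) ≤ r + 2 * (k + 2) := by
      have : (((k + 2) * K : ℕ) : ℝ) ≤ ((r + (k + 2) : ℕ) : ℝ) := by exact_mod_cast hKr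
      push_cast at this ⊢
      linarith
    have h5 := Ph_step (k + 1) hy0 (u := (((k + 1 : ℕ) : ℝ) + 1) * (K + 1)) (by positivity) h4
    have h6 : 0 ≤ ((r : ℝ) + 2 * (k + 2) - (((k + 1 : ℕ) : ℝ) + 1) * (K + 1)) *
        (min ((((k + 1 : ℕ) : ℝ) + 1) * (K + 1)) y) ^ (k + 1) := by
      apply mul_nonneg (by linarith)
      apply pow_nonneg
      exact le_min (by positivity) hy0
    linarith
  have h7 := Ph_end k hk hy0 (R := (r : ℝ) + 2 * (k + 2)) (by
    have : (0 : ℝ) ≤ k := Nat.cast_nonneg k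
    linarith)
  have h8 : ((k : ℝ) + 2) * y = ∑ s, (x s : ℝ) := by
    rw [hy]
    push_cast
    field_simp
    ring
  rw [h8] at h7
  have h9 : ((k : ℝ) + 1) * (k + 3) * ∑ M ∈ range r, ∏ s : Fin (k + 2),
      (if (s : ℕ) = M % (k + 2) then (1 : ℝ) else min ((M : ℝ) + 1) (x s)) ≤
      (r + 2 * (k + 2)) ^ (k + 1) * ∑ s, (x s : ℝ) := by
    refine le_trans (mul_le_mul_of_nonneg_left (h2.trans (h1.trans h3)) (by positivity)) h7
  have e2 : (k + 2) ^ 2 - 1 = (k + 1) * (k + 3) := by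
    have : (k + 2) ^ 2 = (k + 1) * (k + 3) + 1 := by ring
    omega
  rw [e2]
  have h10 : (((k + 1) * (k + 3) * ∑ M ∈ Finset.range r, ∏ s : Fin (k + 2),
        (if (s : ℕ) = M % (k + 2) then 1 else min (M + 1) (x s)) : ℕ) : ℝ) ≤
      (((r + 2 * (k + 2)) ^ (k + 1) * ∑ s, x s : ℕ) : ℝ) := by
    push_cast
    exact h9
  exact_mod_cast h10

end BSR.H3BA
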