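import Pool.Agent.BSR.Final618Of
import Pool.Agent.BSR.H1A
import Pool.Agent.BSR.H2D
import Pool.Agent.BSR.H3BA
import Pool.Agent.BSR.ASY

set_option autoImplicit false

namespace BSR

open scoped BigOperators Matrix Topology

theorem hallCoreStmt : HallCoreStmt := by
  intro d r m S h
  exact H1A.hall_core S h

theorem vectorsStmt : VectorsStmt := by
  intro d r m hd S w h0 h1 h2
  exact H2D.vectors_of_generic hd S w h0 h1 h2

theorem sumIneqStmt : SumIneqStmt := by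
  intro d r hd x hx
  exact H3BA.sum_ineq hd x hx

theorem asyStmt : AsyStmt := by
  intro d hd ε hε
  exact ASY.asym hd hε

theorem final (d : ℕ) (hd : 3 ≤ d) :
    (∀ n : ℕ, ∃ P : MvPolynomial (Fin d → Fin n) ℂ, P ≠ 0 ∧
      ∀ T : Tens d (Fin n), MvPolynomial.eval T P ≠ 0 →
        (d ^ 2 - 1) * n ≤ (borderSubrank T + 2 * d + 1) ^ (d - 1) +
          2 * (d ^ 2 - 1) * (borderSubrank T + 1) ∧
        borderSubrank T ^ (d - 1) ≤ d ^ 2 * (n + borderSubrank T)) ∧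
    ∀ ε : ℝ, 0 < ε → ∃ N : ℕ, ∀ n ≥ N, ∃ P : MvPolynomial (Fin d → Fin n) ℂ, P ≠ 0 ∧
      ∀ T : Tens d (Fin n), MvPolynomial.eval T P ≠ 0 →
        ((d : ℝ) ^ 2 - 1 - ε) * n ≤ (borderSubrank T : ℝ) ^ (d - 1) ∧
        (borderSubrank T : ℝ) ^ (d - 1) ≤ ((d : ℝ) ^ 2 + ε) * n :=
  final_of hallCoreStmt vectorsStmt sumIneqStmt asyStmt d hd

end BSR
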