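import Pool.Agent.BSR.Defs

/-!
The load of a weight pattern: the combinatorial function that governs the generic border subrank.
-/

set_option autoImplicit false

namespace BSR

open scoped BigOperators

/-- number of positions of weight `≤ 0` in the box `I` -/
def load {d r : ℕ} (a : Fin d → Fin r → ℤ) (I : Fin d → Finset (Fin r)) : ℕ :=
  (Finset.univ.filter fun j : Fin d → Fin r => (∀ s, j s ∈ I s) ∧ ∑ s, a s (j s) ≤ 0).card

/-- some weights have load at most `m` times the size of the box, for every box -/
def Feasible (d r m : ℕ) : Prop :=
  ∃ a : Fin d → Fin r → ℤ, (∀ l, ∑ s, a s l = 0) ∧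
    ∀ I : Fin d → Finset (Fin r), load a I ≤ m * ∑ s, (I s).card

/-- the least `m` -/
noncomputable def loadNumber (d r : ℕ) : ℕ := sInf {m | Feasible d r m}

end BSR
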