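import Pool.Agent.BSR.LowerHall618
import Pool.Agent.BSR.Load618
import Pool.Agent.BSR.Final618

set_option autoImplicit false
set_option backward.isDefEq.respectTransparency false

namespace BSR

open scoped BigOperators Matrix Topology

theorem lower2 {d n r m : ℕ} (hd : 3 ≤ d) (hf : Feasible d r m) (h : m + 2 * r < n) :
    ∃ P : MvPolynomial (Fin d → Fin n) ℂ, P ≠ 0 ∧
      ∀ T : Tens d (Fin n), MvPolynomial.eval T P ≠ 0 → Degenerates T (unitT d (Fin r)) := by
  classical
  obtain ⟨a, h0, ha⟩ := hf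
  obtain ⟨m', rfl⟩ := Nat.exists_eq_add_of_le (show r ≤ n by omega)
  let S : Finset (Fin d → Fin r) := Finset.univ.filter fun j =>
    (¬ ∃ l, ∀ s, j s = l) ∧ ∑ s, a s (j s) ≤ 0
  have hS : ∀ j ∉ S, (¬ ∃ l, ∀ s, j s = l) → 0 < ∑ s, a s (j s) := by
    intro j hj hj2
    by_contra hcon
    exact hj (Finset.mem_filter.2 ⟨Finset.mem_univ _, hj2, not_lt.1 hcon⟩)
  have hdiag : ∀ l : Fin r, (fun _ => l) ∉ S := by
    intro l hl
    exact (Finset.mem_filter.1 hl).2.1 ⟨l, fun _ => rfl⟩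
  have hHall : ∀ I : Fin d → Finset (Fin r), (∀ s, (I s).Nonempty) →
      (S.filter fun j => ∀ s, j s ∈ I s).card + r * ∑ s, (I s).card < m' * ∑ s, (I s).card := by
    intro I hI
    have h1 : (S.filter fun j => ∀ s, j s ∈ I s).card ≤ load a I := by
      refine Finset.card_le_card fun j hj => ?_
      rw [Finset.mem_filter] at hj
      exact Finset.mem_filter.2 ⟨Finset.mem_univ _, hj.2, (Finset.mem_filter.1 hj.1).2.2⟩
    have hsum : 0 < ∑ s, (I s).card :=
      Finset.sum_pos (fun s _ => (hI s).card_pos) ⟨⟨0, by omega⟩, Finset.mem_univ _⟩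
    calc (S.filter fun j => ∀ s, j s ∈ I s).card + r * ∑ s, (I s).card
        ≤ m * ∑ s, (I s).card + r * ∑ s, (I s).card :=
          Nat.add_le_add_right (h1.trans (ha I)) _
      _ = (m + r) * ∑ s, (I s).card := by ring
      _ < m' * ∑ s, (I s).card := Nat.mul_lt_mul_of_pos_right (by omega) hsum
  obtain ⟨W, hW, hinj⟩ := hallCoreStmt S hHall
  obtain ⟨w, hw0, hw1, hw2⟩ := H1W.hall_tensor S hdiag W hW
  obtain ⟨Q, hQ, hQ2⟩ := vectorsStmt (by omega) S w hw0 hw1 (fun lam hlam hk => hinj lam hlam (by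
    intro s i q
    refine (Finset.sum_congr rfl fun j _ => ?_).trans (hk s i q)
    rw [hw2 s q j]))
  let e : Fin r ⊕ Fin m' ≃ Fin (r + m') := finSumFinEquiv
  let f : (Fin d → Fin r ⊕ Fin m') → (Fin d → Fin (r + m')) := fun i s => e (i s)
  have hf : Function.Injective f := by
    intro i i' h
    funext s
    exact e.injective (congrFun h s)
  refine ⟨MvPolynomial.rename f Q, fun h => hQ (MvPolynomial.rename_injective f hf
    (by rw [h, map_zero])), fun T hT => ?_⟩
  rw [MvPolynomial.eval_rename] at hT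
  apply degenerates_equiv e T
  obtain ⟨A, hA0, hA1⟩ := hQ2 (fun i : Fin d → Fin r ⊕ Fin m' => T (fun s => e (i s))) hT
  exact TORUS.degenerates_of_pattern (by omega) a S h0 hS _ A hA0 hA1

theorem feasible_of {d r m : ℕ} (hd : 3 ≤ d)
    (h : (r + 2 * d) ^ (d - 1) + (d ^ 2 - 1) ≤ (d ^ 2 - 1) * m) : Feasible d r m := by
  classical
  have hpos : 0 < d ^ 2 - 1 := by
    have : 3 ^ 2 ≤ d ^ 2 := Nat.pow_le_pow_left hd 2
    omega
  obtain ⟨a, S, h0, hS, hdiag, hcount⟩ := H3A.pattern_count (d := d) (r := r) (by omega)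
  refine ⟨a, h0, fun I => ?_⟩
  have h1 := hcount I
  have h2 := sumIneqStmt hd (fun s => (I s).card) (fun s => by
    have := Finset.card_le_univ (I s)
    simpa using this)
  have h3 : load a I ≤ (S.filter fun j => ∀ s, j s ∈ I s).card + ∑ s, (I s).card := by
    let s0 : Fin d := ⟨0, by omega⟩
    have h4 : load a I ≤ ((S.filter fun j => ∀ s, j s ∈ I s) ∪
        (I s0).image fun l => (fun _ => l : Fin d → Fin r)).card := by
      refine Finset.card_le_card fun j hj => ?_
      have hj2 := (Finset.mem_filter.1 hj).2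
      rw [Finset.mem_union]
      by_cases hjS : j ∈ S
      · exact Or.inl (Finset.mem_filter.2 ⟨hjS, hj2.1⟩)
      · right
        have h5 : ∃ l, ∀ s, j s = l := by
          by_contra hcon
          exact absurd (hS j hjS hcon) (not_lt.2 hj2.2)
        obtain ⟨l, hl⟩ := h5
        refine Finset.mem_image.2 ⟨l, ?_, ?_⟩
        · rw [← hl s0]; exact hj2.1 s0
        · funext s; exact (hl s).symm
    refine h4.trans ((Finset.card_union_le _ _).trans (Nat.add_le_add_left ?_ _))
    refine Finset.card_image_le.trans ?_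
    exact Finset.single_le_sum (f := fun s => (I s).card) (fun _ _ => Nat.zero_le _)
      (Finset.mem_univ s0)
  have h6 : (d ^ 2 - 1) * load a I ≤ (d ^ 2 - 1) * (m * ∑ s, (I s).card) := by
    calc (d ^ 2 - 1) * load a I
        ≤ (d ^ 2 - 1) * ((S.filter fun j => ∀ s, j s ∈ I s).card + ∑ s, (I s).card) :=
          Nat.mul_le_mul_left _ h3
      _ = (d ^ 2 - 1) * (S.filter fun j => ∀ s, j s ∈ I s).card +
          (d ^ 2 - 1) * ∑ s, (I s).card := by ring
      _ ≤ (r + 2 * d) ^ (d - 1) * ∑ s, (I s).card + (d ^ 2 - 1) * ∑ s, (I s).card :=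
          Nat.add_le_add_right ((Nat.mul_le_mul_left _ h1).trans h2) _
      _ = ((r + 2 * d) ^ (d - 1) + (d ^ 2 - 1)) * ∑ s, (I s).card := by ring
      _ ≤ ((d ^ 2 - 1) * m) * ∑ s, (I s).card := Nat.mul_le_mul_right _ h
      _ = _ := by ring
  exact Nat.le_of_mul_le_mul_left h6 hpos

theorem feasible_exists {d : ℕ} (hd : 3 ≤ d) (r : ℕ) : ∃ m, Feasible d r m := by
  refine ⟨(r + 2 * d) ^ (d - 1) + 1, feasible_of hd ?_⟩
  have hpos : 1 ≤ d ^ 2 - 1 := by
    have : 3 ^ 2 ≤ d ^ 2 := Nat.pow_le_pow_left hd 2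
    omega
  nlinarith [Nat.zero_le ((r + 2 * d) ^ (d - 1))]

theorem feasible_loadNumber {d : ℕ} (hd : 3 ≤ d) (r : ℕ) : Feasible d r (loadNumber d r) :=
  Nat.sInf_mem (feasible_exists hd r)

end BSR
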