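import Pool.Agent.BSR.Defs

/-!
Border subrank of tensors (MP_79bff1_ag), piece PARAM (helper582): parameter count for the tensors
with prescribed entries in a flag.
-/

set_option autoImplicit false

open scoped BigOperators Matrix

namespace BSR.PARAM

open BSR

/-- fewer parameters than coordinates: there is a polynomial relation -/
theorem exists_poly_of_card_lt {π ι : Type} [Fintype π] [Fintype ι]
    (h : Fintype.card π < Fintype.card ι) (F : ι → MvPolynomial π ℂ) :
    ∃ P : MvPolynomial ι ℂ, P ≠ 0 ∧
      ∀ x : π → ℂ, MvPolynomial.eval (fun i => MvPolynomial.eval x (F i)) P = 0 := by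
  have hn : ¬ AlgebraicIndependent ℂ F := by
    intro hF
    have h1 := hF.cardinalMk_le_trdeg
    rw [MvPolynomial.trdeg_of_isDomain, Cardinal.lift_uzero, Cardinal.mk_fintype,
      Cardinal.mk_fintype] at h1
    have h2 : Fintype.card ι ≤ Fintype.card π := by exact_mod_cast h1
    omega
  rw [algebraicIndependent_iff_injective_aeval, injective_iff_map_eq_zero] at hn
  push Not at hn
  obtain ⟨P, hP, hP0⟩ := hn
  refine ⟨P, hP0, fun x => ?_⟩
  have h1 : (MvPolynomial.eval x).comp (MvPolynomial.aeval F : MvPolynomial ι ℂ →ₐ[ℂ] _).toRingHom =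
      MvPolynomial.eval (fun i => MvPolynomial.eval x (F i)) := by
    apply MvPolynomial.ringHom_ext
    · intro a
      simp
    · intro i
      simp
  rw [← h1]
  show MvPolynomial.eval x (MvPolynomial.aeval F P) = 0
  rw [hP, map_zero]

variable {d n r : ℕ}

/-- the box -/
def bx (J : Fin d → Fin r ↪ Fin n) (j : Fin d → Fin r) : Fin d → Fin n := fun s => J s (j s)

theorem bx_inj (J : Fin d → Fin r ↪ Fin n) : Function.Injective (bx J) := by
  intro j k h
  ext s
  have h1 := congrFun h s
  have h2 := (J s).injective h1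
  rw [h2]

section generic

open Classical in
/-- the completed rows -/
noncomputable def Qf {R : Type} [CommRing R] (J : Fin d → Fin r ↪ Fin n)
    (M : Fin d → Fin r → Fin n → R) (s : Fin d) (a : Fin r) (l : Fin n) : R :=
  if ∃ b, J s b = l then (if J s a = l then 1 else 0) else M s a l

open Classical in
/-- the entries of the image tensor -/
noncomputable def tt {R : Type} [CommRing R] (Φ Φ0 : Finset (Fin d → Fin r))
    (t : (Fin d → Fin r) → R) (g : Fin d → Fin r → Fin r → R) (k : Fin d → Fin r) : R :=
  if k ∈ Φ then (if k ∈ Φ0 then ∑ i : Fin d → Fin r, (∏ s, g s (k s) (i s)) *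
    (∑ l : Fin r, ∏ s, (if i s = l then (1 : R) else 0)) else 0) else t k

open Classical in
/-- the entries of the tensor from the parameters -/
noncomputable def FF {R : Type} [CommRing R] (Φ Φ0 : Finset (Fin d → Fin r))
    (J : Fin d → Fin r ↪ Fin n)
    (M : Fin d → Fin r → Fin n → R) (τ : (Fin d → Fin n) → R) (t : (Fin d → Fin r) → R)
    (g : Fin d → Fin r → Fin r → R) (i : Fin d → Fin n) : R :=
  if h : ∃ j, bx J j = i then
    (∑ k : Fin d → Fin r, (∏ s, M s (h.choose s) (J s (k s))) * tt Φ Φ0 t g k) -
      ∑ i' ∈ Finset.univ.filter (fun i' : Fin d → Fin n => ¬ ∃ j, bx J j = i'),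
        (∏ s, Qf J M s (h.choose s) (i' s)) * τ i'
  else τ i

theorem map_FF {R S : Type} [CommRing R] [CommRing S] (φ : R →+* S) (Φ Φ0 : Finset (Fin d → Fin r))
    (J : Fin d → Fin r ↪ Fin n)
    (M : Fin d → Fin r → Fin n → R) (τ : (Fin d → Fin n) → R) (t : (Fin d → Fin r) → R)
    (g : Fin d → Fin r → Fin r → R) (i : Fin d → Fin n) :
    φ (FF Φ Φ0 J M τ t g i) = FF Φ Φ0 J (fun s a l => φ (M s a l)) (fun i => φ (τ i))
      (fun k => φ (t k)) (fun s a b => φ (g s a b)) i := by
  classical
  unfold FF
  split_ifs with h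
  · rw [map_sub, map_sum, map_sum]
    congr 1
    · refine Finset.sum_congr rfl fun k _ => ?_
      rw [map_mul, map_prod]
      congr 1
      unfold tt
      split_ifs
      · rw [map_sum]
        refine Finset.sum_congr rfl fun i _ => ?_
        rw [map_mul, map_prod, map_sum]
        congr 1
        refine Finset.sum_congr rfl fun l _ => ?_
        rw [map_prod]
        refine Finset.prod_congr rfl fun s _ => ?_
        split_ifs
        · exact map_one φ
        · exact map_zero φ
      · exact map_zero φ
      · rfl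
    · refine Finset.sum_congr rfl fun i' _ => ?_
      rw [map_mul, map_prod]
      congr 1
      refine Finset.prod_congr rfl fun s _ => ?_
      unfold Qf
      split_ifs
      · exact map_one φ
      · exact map_zero φ
      · rfl
  · rfl

end generic

/-- composition of actions -/
theorem act_act {κ ρ σ : Type} [Fintype κ] [Fintype ρ] [DecidableEq ρ]
    (X : Fin d → Matrix σ ρ ℂ) (V : Fin d → Matrix ρ κ ℂ) (T : Tens d κ) :
    act X (act V T) = act (fun s => X s * V s) T := by
  funext j
  unfold act
  simp_rw [Finset.mul_sum]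
  rw [Finset.sum_comm]
  refine Finset.sum_congr rfl fun i _ => ?_
  have h1 : ∏ s, (X s * V s) (j s) (i s) = ∑ k : Fin d → ρ, ∏ s, (X s (j s) (k s) * V s (k s) (i s)) := by
    simp_rw [Matrix.mul_apply]
    rw [Finset.prod_univ_sum, Fintype.piFinset_univ]
  rw [h1, Finset.sum_mul]
  refine Finset.sum_congr rfl fun k _ => ?_
  rw [Finset.prod_mul_distrib]
  ring

/-- the key identity -/
theorem key (J : Fin d → Fin r ↪ Fin n) (Q : Fin d → Matrix (Fin r) (Fin n) ℂ)
    (hQ : ∀ s a b, Q s a (J s b) = if a = b then 1 else 0) (T : Tens d (Fin n))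
    (j : Fin d → Fin r) [DecidablePred fun i' : Fin d → Fin n => ¬ ∃ j, bx J j = i'] :
    T (bx J j) = act Q T j -
      ∑ i' ∈ Finset.univ.filter (fun i' : Fin d → Fin n => ¬ ∃ j, bx J j = i'),
        (∏ s, Q s (j s) (i' s)) * T i' := by
  classical
  have h1 : act Q T j = ∑ i' ∈ Finset.univ.filter (fun i' : Fin d → Fin n => ∃ j, bx J j = i'),
        (∏ s, Q s (j s) (i' s)) * T i' +
      ∑ i' ∈ Finset.univ.filter (fun i' : Fin d → Fin n => ¬ ∃ j, bx J j = i'),
        (∏ s, Q s (j s) (i' s)) * T i' := by
    unfold act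
    rw [← Finset.sum_filter_add_sum_filter_not Finset.univ
      (fun i' : Fin d → Fin n => ∃ j, bx J j = i')]
  have h2 : ∑ i' ∈ Finset.univ.filter (fun i' : Fin d → Fin n => ∃ j, bx J j = i'),
        (∏ s, Q s (j s) (i' s)) * T i' = T (bx J j) := by
    rw [Finset.sum_eq_single_of_mem (bx J j)]
    · have : ∏ s, Q s (j s) (bx J j s) = 1 := by
        refine Finset.prod_eq_one fun s _ => ?_
        unfold bx
        rw [hQ, if_pos rfl]
      rw [this, one_mul]
    · rw [Finset.mem_filter]
      exact ⟨Finset.mem_univ _, j, rfl⟩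
    · intro i' hi' hne
      obtain ⟨k, rfl⟩ := (Finset.mem_filter.1 hi').2
      have hjk : k ≠ j := by
        rintro rfl
        exact hne rfl
      obtain ⟨s, hs⟩ := Function.ne_iff.1 hjk
      have : ∏ s, Q s (j s) (bx J k s) = 0 := by
        refine Finset.prod_eq_zero (Finset.mem_univ s) ?_
        unfold bx
        rw [hQ, if_neg (fun h => hs h.symm)]
      rw [this, zero_mul]
  rw [h1, h2]
  ring

open Classical in
/-- the parameters -/
abbrev Par (Φ : Finset (Fin d → Fin r)) (J : Fin d → Fin r ↪ Fin n) : Type :=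
  (Fin d × Fin r × Fin n) ⊕ ({i : Fin d → Fin n // ¬ ∃ j, bx J j = i} ⊕
    ({k : Fin d → Fin r // ¬ k ∈ Φ} ⊕ (Fin d × Fin r × Fin r)))

open Classical in
theorem card_par (Φ : Finset (Fin d → Fin r)) (J : Fin d → Fin r ↪ Fin n)
    (hcard : d * (r * n) + d * r ^ 2 < Φ.card) :
    Fintype.card (Par Φ J) < Fintype.card (Fin d → Fin n) := by
  have h1 : Fintype.card {i : Fin d → Fin n // ∃ j, bx J j = i} = Fintype.card (Fin d → Fin r) :=
    Fintype.card_congr (Equiv.ofInjective (bx J) (bx_inj J)).symm
  have h2 : Fintype.card {i : Fin d → Fin n // ¬ ∃ j, bx J j = i} =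
      Fintype.card (Fin d → Fin n) - Fintype.card {i : Fin d → Fin n // ∃ j, bx J j = i} :=
    Fintype.card_subtype_compl _
  have h3 : Fintype.card {k : Fin d → Fin r // ¬ k ∈ Φ} =
      Fintype.card (Fin d → Fin r) - Fintype.card {k : Fin d → Fin r // k ∈ Φ} :=
    Fintype.card_subtype_compl _
  have h4 : Fintype.card {k : Fin d → Fin r // k ∈ Φ} = Φ.card := Fintype.card_coe Φ
  have h5 : Fintype.card {i : Fin d → Fin n // ∃ j, bx J j = i} ≤ Fintype.card (Fin d → Fin n) :=
    Fintype.card_subtype_le _
  have h6 : Φ.card ≤ Fintype.card (Fin d → Fin r) := Finset.card_le_univ _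
  unfold Par
  rw [Fintype.card_sum, Fintype.card_sum, Fintype.card_sum, h2, h3, h4, h1, Fintype.card_prod,
    Fintype.card_prod, Fintype.card_prod, Fintype.card_prod]
  rw [h1] at h5
  simp only [Fintype.card_fin] at *
  rw [sq] at hcard
  omega

theorem param (Φ Φ0 : Finset (Fin d → Fin r)) (J : Fin d → Fin r ↪ Fin n)
    (hcard : d * (r * n) + d * r ^ 2 < Φ.card) :
    ∃ P : MvPolynomial (Fin d → Fin n) ℂ, P ≠ 0 ∧
      ∀ (T : Tens d (Fin n)) (V : Fin d → Matrix (Fin r) (Fin n) ℂ)
        (g : Fin d → Matrix (Fin r) (Fin r) ℂ),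
        (∀ s, ((V s).submatrix id (J s)).det ≠ 0) →
        (∀ j ∈ Φ, act V T j = if j ∈ Φ0 then act g (unitT d (Fin r)) j else 0) →
        MvPolynomial.eval T P = 0 := by
  classical
  let F : (Fin d → Fin n) → MvPolynomial (Par Φ J) ℂ := FF Φ Φ0 J
    (fun s a l => MvPolynomial.X (Sum.inl (s, a, l)))
    (fun i => if h : ¬ ∃ j, bx J j = i then MvPolynomial.X (Sum.inr (Sum.inl ⟨i, h⟩)) else 0)
    (fun k => if h : ¬ k ∈ Φ then MvPolynomial.X (Sum.inr (Sum.inr (Sum.inl ⟨k, h⟩))) else 0)
    (fun s a b => MvPolynomial.X (Sum.inr (Sum.inr (Sum.inr (s, a, b)))))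
  obtain ⟨P, hP0, hP⟩ := exists_poly_of_card_lt (card_par Φ J hcard) F
  refine ⟨P, hP0, fun T V g hV hΦ => ?_⟩
  -- the matrices
  let X : Fin d → Matrix (Fin r) (Fin r) ℂ := fun s => ((V s).submatrix id (J s))⁻¹
  let Q : Fin d → Matrix (Fin r) (Fin n) ℂ := fun s => X s * V s
  have hQ : ∀ s a b, Q s a (J s b) = if a = b then 1 else 0 := by
    intro s a b
    have h1 : X s * (V s).submatrix id (J s) = 1 :=
      Matrix.nonsing_inv_mul _ (isUnit_iff_ne_zero.2 (hV s))
    have h2 := congrFun (congrFun h1 a) b
    rw [Matrix.one_apply] at h2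
    rw [← h2]
    rfl
  -- the parameter point
  let x : Par Φ J → ℂ := Sum.elim
    (fun p => if h : ∃ b, J p.1 b = p.2.2 then X p.1 p.2.1 h.choose else Q p.1 p.2.1 p.2.2)
    (Sum.elim (fun i => T i.1) (Sum.elim (fun k => act V T k.1) (fun p => g p.1 p.2.1 p.2.2)))
  have hF : ∀ i, MvPolynomial.eval x (F i) = T i := by
    intro i
    have e1 : MvPolynomial.eval x (F i) = FF Φ Φ0 J
        (fun s a l => if h : ∃ b, J s b = l then X s a h.choose else Q s a l)
        (fun i => if ¬ ∃ j, bx J j = i then T i else 0)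
        (fun k => if ¬ k ∈ Φ then act V T k else 0)
        (fun s a b => g s a b) i := by
      show (MvPolynomial.eval x) (FF Φ Φ0 J _ _ _ _ i) = _
      rw [map_FF]
      congr 1
      · funext s a l
        rw [MvPolynomial.eval_X]
        rfl
      · funext i
        by_cases h : ¬ ∃ j, bx J j = i
        · rw [dif_pos h, if_pos h, MvPolynomial.eval_X]
          rfl
        · rw [dif_neg h, if_neg h, map_zero]
      · funext k
        by_cases h : ¬ k ∈ Φ
        · rw [dif_pos h, if_pos h, MvPolynomial.eval_X]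
          rfl
        · rw [dif_neg h, if_neg h, map_zero]
      · funext s a b
        rw [MvPolynomial.eval_X]
        rfl
    rw [e1]
    unfold FF
    by_cases h : ∃ j, bx J j = i
    · rw [dif_pos h]
      have hM : ∀ s a b, (if h : ∃ b', J s b' = J s b then X s a h.choose else Q s a (J s b)) = X s a b := by
        intro s a b
        have h1 : ∃ b', J s b' = J s b := ⟨b, rfl⟩
        rw [dif_pos h1]
        congr 1
        exact (J s).injective h1.choose_spec
      have hQf : ∀ s a l, Qf J (fun s a l => if h : ∃ b, J s b = l then X s a h.choose else Q s a l)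
          s a l = Q s a l := by
        intro s a l
        unfold Qf
        by_cases h1 : ∃ b, J s b = l
        · rw [if_pos h1]
          obtain ⟨b, rfl⟩ := h1
          rw [hQ]
          by_cases h2 : a = b
          · rw [if_pos h2, if_pos (by rw [h2])]
          · rw [if_neg h2, if_neg (fun h3 => h2 ((J s).injective h3))]
        · rw [if_neg h1]
          exact dif_neg h1
      have ht : ∀ k, tt Φ Φ0 (fun k => if ¬ k ∈ Φ then act V T k else 0) (fun s a b => g s a b) k =
          act V T k := by
        intro k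
        unfold tt
        by_cases h1 : k ∈ Φ
        · rw [if_pos h1, hΦ k h1]
          rfl
        · rw [if_neg h1]
          exact if_pos h1
      have hk := key J Q hQ T h.choose
      rw [h.choose_spec] at hk
      rw [hk]
      congr 1
      · have e2 : act Q T h.choose = act X (act V T) h.choose := by rw [act_act]
        rw [e2]
        unfold act
        refine Finset.sum_congr rfl fun k _ => ?_
        have e3 := ht k
        unfold act at e3
        rw [e3]
        congr 1
        refine Finset.prod_congr rfl fun s _ => ?_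
        exact hM s _ _
      · refine Finset.sum_congr rfl fun i' hi' => ?_
        refine congrArg₂ (· * ·) (Finset.prod_congr rfl fun s _ => hQf s _ _) ?_
        exact if_pos (Finset.mem_filter.1 hi').2
    · rw [dif_neg h]
      exact if_pos h
  have h1 := hP x
  have h2 : (fun i => MvPolynomial.eval x (F i)) = T := funext hF
  rw [h2] at h1
  exact h1

end BSR.PARAM
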