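import Pool.Agent.BSR.Load618
import Pool.Agent.BSR.PARAM

/-!
Border subrank of tensors (MP_79bff1_ag), piece PBOXA (helper985): completion of the rows by unit
vectors, and the parameter count for a sub-box.
-/

set_option autoImplicit false

open scoped BigOperators Matrix

namespace BSR.PBOXA

open BSR

theorem rows_aux {r : ℕ} (W : Matrix (Fin r) (Fin r) ℂ) (hW : W.det ≠ 0) (S : Finset (Fin r)) :
    ∃ f : Fin r → Fin r,
      (Matrix.of fun a c => if a ∈ S then (if c = f a then (1 : ℂ) else 0) else W a c).det ≠ 0 := by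
  classical
  induction S using Finset.induction_on with
  | empty =>
    refine ⟨id, ?_⟩
    have : (Matrix.of fun a c => if a ∈ (∅ : Finset (Fin r)) then
        (if c = id a then (1 : ℂ) else 0) else W a c) = W := by
      ext a c
      simp
    rw [this]
    exact hW
  | insert b S hb ih =>
    obtain ⟨f, hf⟩ := ih
    set M : Matrix (Fin r) (Fin r) ℂ :=
      Matrix.of fun a c => if a ∈ S then (if c = f a then (1 : ℂ) else 0) else W a c with hM
    have h1 := Matrix.det_eq_sum_mul_adjugate_row M b
    obtain ⟨c, hc⟩ : ∃ c, M.adjugate c b ≠ 0 := by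
      by_contra hcon
      push Not at hcon
      apply hf
      rw [h1]
      exact Finset.sum_eq_zero fun c _ => by rw [hcon c, mul_zero]
    rw [Matrix.adjugate_apply] at hc
    refine ⟨Function.update f b c, ?_⟩
    have h2 : (Matrix.of fun a c' => if a ∈ insert b S then
        (if c' = Function.update f b c a then (1 : ℂ) else 0) else W a c') =
        M.updateRow b (Pi.single c 1) := by
      ext a c'
      by_cases hab : a = b
      · subst hab
        rw [Matrix.updateRow_self]
        simp [Pi.single_apply]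
      · rw [Matrix.updateRow_ne hab]
        simp [hM, hab]
    rw [h2]
    exact hc

theorem rows {r : ℕ} (W : Matrix (Fin r) (Fin r) ℂ) (hW : W.det ≠ 0) (I : Finset (Fin r)) :
    ∃ f : Fin r → Fin r,
      (Matrix.of fun a c => if a ∈ I then W a c else if c = f a then (1 : ℂ) else 0).det ≠ 0 := by
  obtain ⟨f, hf⟩ := rows_aux W hW Iᶜ
  refine ⟨f, ?_⟩
  have h : (Matrix.of fun a c => if a ∈ I then W a c else if c = f a then (1 : ℂ) else 0) =
      (Matrix.of fun a c => if a ∈ Iᶜ then (if c = f a then (1 : ℂ) else 0) else W a c) := by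
    ext a c
    by_cases ha : a ∈ I
    · simp [ha]
    · simp [ha]
  rw [h]
  exact hf

/-- the matrix of the sub-box -/
noncomputable def WW {n r : ℕ} (J : Fin r ↪ Fin n) (I : Finset (Fin r)) (f : Fin r → Fin r)
    (V : Matrix (Fin r) (Fin n) ℂ) : Matrix (Fin r) (Fin r) ℂ :=
  Matrix.of fun a c => if a ∈ I then V a (J c) else if c = f a then (1 : ℂ) else 0

/-- if the determinant does not vanish, `f` is injective outside `I` -/
theorem inj_of_det {n r : ℕ} (J : Fin r ↪ Fin n) (I : Finset (Fin r)) (f : Fin r → Fin r)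
    (V : Matrix (Fin r) (Fin n) ℂ) (h : (WW J I f V).det ≠ 0) :
    Set.InjOn f (↑Iᶜ : Set (Fin r)) := by
  intro a ha b hb hab
  by_contra hne
  apply h
  refine Matrix.det_zero_of_row_eq hne ?_
  rw [Finset.mem_coe, Finset.mem_compl] at ha hb
  funext c
  unfold WW
  rw [Matrix.of_apply, Matrix.of_apply, if_neg ha, if_neg hb, hab]

open Classical in
/-- the entries, with the rows over `f (Iᶜ)` constant -/
noncomputable def MM {R : Type} [CommRing R] {n r : ℕ} (J : Fin r ↪ Fin n) (I : Finset (Fin r))
    (f : Fin r → Fin r) (x : Fin r → Fin n → R) (c : Fin r) (l : Fin n) : R :=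
  if h : ∃ a, a ∉ I ∧ f a = c then (if l = J h.choose then 1 else 0) else x c l

open Classical in
/-- the parameters -/
abbrev Par {d n r : ℕ} (Φ : Finset (Fin d → Fin r)) (J : Fin d → Fin r ↪ Fin n)
    (I : Fin d → Finset (Fin r)) (f : Fin d → Fin r → Fin r) : Type :=
  ({p : Fin d × Fin r // ¬ ∃ a, a ∉ I p.1 ∧ f p.1 a = p.2} × Fin n) ⊕
    ({i : Fin d → Fin n // ¬ ∃ j, PARAM.bx J j = i} ⊕
    ({k : Fin d → Fin r // ¬ k ∈ Φ} ⊕ (Fin d × Fin r × Fin r)))

open Classical in
theorem card_one {d r : ℕ} (I : Fin d → Finset (Fin r)) (f : Fin d → Fin r → Fin r)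
    (hf : ∀ s, Set.InjOn (f s) (↑(I s)ᶜ : Set (Fin r))) :
    Fintype.card {p : Fin d × Fin r // ¬ ∃ a, a ∉ I p.1 ∧ f p.1 a = p.2} = ∑ s, (I s).card := by
  have e : {p : Fin d × Fin r // ¬ ∃ a, a ∉ I p.1 ∧ f p.1 a = p.2} ≃
      (Σ s : Fin d, {c : Fin r // ¬ ∃ a, a ∉ I s ∧ f s a = c}) :=
    { toFun := fun p => ⟨p.1.1, ⟨p.1.2, p.2⟩⟩
      invFun := fun q => ⟨(q.1, q.2.1), q.2.2⟩
      left_inv := fun p => rfl
      right_inv := fun q => rfl }
  rw [Fintype.card_congr e, Fintype.card_sigma]
  refine Finset.sum_congr rfl fun s _ => ?_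
  have h1 : Fintype.card {c : Fin r // ¬ ∃ a, a ∉ I s ∧ f s a = c} =
      Fintype.card (Fin r) - Fintype.card {c : Fin r // ∃ a, a ∉ I s ∧ f s a = c} :=
    Fintype.card_subtype_compl _
  have h2 : Fintype.card {c : Fin r // ∃ a, a ∉ I s ∧ f s a = c} = ((I s)ᶜ.image (f s)).card := by
    rw [Fintype.card_subtype]
    congr 1
    ext c
    simp
  have h3 : ((I s)ᶜ.image (f s)).card = ((I s)ᶜ).card := Finset.card_image_of_injOn (hf s)
  have h4 : ((I s)ᶜ).card = r - (I s).card := by
    rw [Finset.card_compl, Fintype.card_fin]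
  have h5 : (I s).card ≤ r := by
    have := Finset.card_le_univ (I s)
    rwa [Fintype.card_fin] at this
  rw [h1, h2, h3, h4, Fintype.card_fin]
  omega

open Classical in
theorem card_par {d n r : ℕ} (Φ : Finset (Fin d → Fin r)) (J : Fin d → Fin r ↪ Fin n)
    (I : Fin d → Finset (Fin r)) (f : Fin d → Fin r → Fin r)
    (hf : ∀ s, Set.InjOn (f s) (↑(I s)ᶜ : Set (Fin r)))
    (hcard : n * ∑ s, (I s).card + d * r ^ 2 < Φ.card) :
    Fintype.card (Par Φ J I f) < Fintype.card (Fin d → Fin n) := by
  have h1 : Fintype.card {i : Fin d → Fin n // ∃ j, PARAM.bx J j = i} =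
      Fintype.card (Fin d → Fin r) :=
    Fintype.card_congr (Equiv.ofInjective (PARAM.bx J) (PARAM.bx_inj J)).symm
  have h2 : Fintype.card {i : Fin d → Fin n // ¬ ∃ j, PARAM.bx J j = i} =
      Fintype.card (Fin d → Fin n) - Fintype.card {i : Fin d → Fin n // ∃ j, PARAM.bx J j = i} :=
    Fintype.card_subtype_compl _
  have h3 : Fintype.card {k : Fin d → Fin r // ¬ k ∈ Φ} =
      Fintype.card (Fin d → Fin r) - Fintype.card {k : Fin d → Fin r // k ∈ Φ} :=
    Fintype.card_subtype_compl _
  have h4 : Fintype.card {k : Fin d → Fin r // k ∈ Φ} = Φ.card := Fintype.card_coe Φ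
  have h5 : Fintype.card {i : Fin d → Fin n // ∃ j, PARAM.bx J j = i} ≤
      Fintype.card (Fin d → Fin n) :=
    Fintype.card_subtype_le _
  have h6 : Φ.card ≤ Fintype.card (Fin d → Fin r) := Finset.card_le_univ _
  unfold Par
  rw [Fintype.card_sum, Fintype.card_sum, Fintype.card_sum, h2, h3, h4, h1, Fintype.card_prod,
    Fintype.card_prod, Fintype.card_prod, card_one I f hf]
  rw [h1] at h5
  simp only [Fintype.card_fin] at *
  rw [sq] at hcard
  rw [mul_comm] at hcard
  omega

theorem map_MM {R S : Type} [CommRing R] [CommRing S] (φ : R →+* S) {n r : ℕ} (J : Fin r ↪ Fin n)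
    (I : Finset (Fin r)) (f : Fin r → Fin r) (x : Fin r → Fin n → R) (c : Fin r) (l : Fin n) :
    φ (MM J I f x c l) = MM J I f (fun c l => φ (x c l)) c l := by
  unfold MM
  split_ifs
  · exact map_one φ
  · exact map_zero φ
  · rfl

theorem param_box {d n r : ℕ} (Φ Φ0 : Finset (Fin d → Fin r)) (J : Fin d → Fin r ↪ Fin n)
    (I : Fin d → Finset (Fin r)) (f : Fin d → Fin r → Fin r)
    (hΦ : ∀ j ∈ Φ, ∀ s, j s ∈ I s)
    (hcard : n * ∑ s, (I s).card + d * r ^ 2 < Φ.card) :
    ∃ P : MvPolynomial (Fin d → Fin n) ℂ, P ≠ 0 ∧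
      ∀ (T : Tens d (Fin n)) (V : Fin d → Matrix (Fin r) (Fin n) ℂ)
        (g : Fin d → Matrix (Fin r) (Fin r) ℂ),
        (∀ s, (Matrix.of fun a c => if a ∈ I s then V s a (J s c)
          else if c = f s a then (1 : ℂ) else 0).det ≠ 0) →
        (∀ j ∈ Φ, act V T j = if j ∈ Φ0 then act g (unitT d (Fin r)) j else 0) →
        MvPolynomial.eval T P = 0 := by
  classical
  by_cases hf : ∀ s, Set.InjOn (f s) (↑(I s)ᶜ : Set (Fin r))
  swap
  · refine ⟨1, one_ne_zero, fun T V g hV _ => ?_⟩
    exact absurd (fun s => inj_of_det (J s) (I s) (f s) (V s) (hV s)) hf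
  let F : (Fin d → Fin n) → MvPolynomial (Par Φ J I f) ℂ := PARAM.FF Φ Φ0 J
    (fun s => MM (J s) (I s) (f s) (fun c l =>
      if h : ¬ ∃ a, a ∉ I s ∧ f s a = c then MvPolynomial.X (Sum.inl (⟨(s, c), h⟩, l)) else 0))
    (fun i => if h : ¬ ∃ j, PARAM.bx J j = i then MvPolynomial.X (Sum.inr (Sum.inl ⟨i, h⟩)) else 0)
    (fun k => if h : ¬ k ∈ Φ then MvPolynomial.X (Sum.inr (Sum.inr (Sum.inl ⟨k, h⟩))) else 0)
    (fun s a b => MvPolynomial.X (Sum.inr (Sum.inr (Sum.inr (s, a, b)))))
  obtain ⟨P, hP0, hP⟩ := PARAM.exists_poly_of_card_lt (card_par Φ J I f hf hcard) F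
  refine ⟨P, hP0, fun T V g hV hΦV => ?_⟩
  -- the completed matrices
  let V2 : Fin d → Matrix (Fin r) (Fin n) ℂ := fun s => Matrix.of fun a l =>
    if a ∈ I s then V s a l else if l = J s (f s a) then 1 else 0
  have hV2 : ∀ s, ((V2 s).submatrix id (J s)).det ≠ 0 := by
    intro s
    have e : (V2 s).submatrix id (J s) = (Matrix.of fun a c => if a ∈ I s then V s a (J s c)
          else if c = f s a then (1 : ℂ) else 0) := by
      ext a c
      show (if a ∈ I s then V s a (J s c) else if J s c = J s (f s a) then (1 : ℂ) else 0) =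
        (if a ∈ I s then V s a (J s c) else if c = f s a then (1 : ℂ) else 0)
      by_cases ha : a ∈ I s
      · rw [if_pos ha, if_pos ha]
      · rw [if_neg ha, if_neg ha]
        by_cases hc : c = f s a
        · rw [if_pos hc, if_pos (by rw [hc])]
        · rw [if_neg hc, if_neg (fun h => hc ((J s).injective h))]
    rw [e]
    exact hV s
  have hΦ2 : ∀ j ∈ Φ, act V2 T j = if j ∈ Φ0 then act g (unitT d (Fin r)) j else 0 := by
    intro j hj
    rw [← hΦV j hj]
    unfold act
    refine Finset.sum_congr rfl fun i _ => ?_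
    congr 1
    refine Finset.prod_congr rfl fun s _ => ?_
    show (if j s ∈ I s then V s (j s) (i s) else if i s = J s (f s (j s)) then (1 : ℂ) else 0) = _
    rw [if_pos (hΦ j hj s)]
  -- the matrices
  let X : Fin d → Matrix (Fin r) (Fin r) ℂ := fun s => ((V2 s).submatrix id (J s))⁻¹
  let Q : Fin d → Matrix (Fin r) (Fin n) ℂ := fun s => X s * V2 s
  have hQ : ∀ s a b, Q s a (J s b) = if a = b then 1 else 0 := by
    intro s a b
    have h1 : X s * (V2 s).submatrix id (J s) = 1 :=
      Matrix.nonsing_inv_mul _ (isUnit_iff_ne_zero.2 (hV2 s))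
    have h2 := congrFun (congrFun h1 a) b
    rw [Matrix.one_apply] at h2
    rw [← h2]
    rfl
  -- the rows over `f (Iᶜ)`
  have hX : ∀ s a, a ∉ I s → ∀ b, X s (f s a) b = if a = b then 1 else 0 := by
    intro s a ha b
    have h1 : (V2 s).submatrix id (J s) * X s = 1 :=
      Matrix.mul_nonsing_inv _ (isUnit_iff_ne_zero.2 (hV2 s))
    have h2 := congrFun (congrFun h1 a) b
    rw [Matrix.one_apply, Matrix.mul_apply] at h2
    rw [← h2]
    rw [Finset.sum_eq_single (f s a)]
    · show _ = (if a ∈ I s then V s a (J s (f s a)) else if J s (f s a) = J s (f s a) then (1 : ℂ)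
        else 0) * _
      rw [if_neg ha, if_pos rfl, one_mul]
    · intro c _ hc
      show (if a ∈ I s then V s a (J s c) else if J s c = J s (f s a) then (1 : ℂ)
        else 0) * _ = 0
      rw [if_neg ha, if_neg (fun h => hc ((J s).injective h)), zero_mul]
    · intro h
      exact absurd (Finset.mem_univ _) h
  have hQ2 : ∀ s a, a ∉ I s → ∀ l, (¬ ∃ b, J s b = l) → Q s (f s a) l = 0 := by
    intro s a ha l hl
    show (X s * V2 s) (f s a) l = 0
    rw [Matrix.mul_apply]
    rw [Finset.sum_eq_single a]
    · rw [hX s a ha, if_pos rfl, one_mul]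
      show (if a ∈ I s then V s a l else if l = J s (f s a) then (1 : ℂ) else 0) = 0
      rw [if_neg ha, if_neg (fun h => hl ⟨_, h.symm⟩)]
    · intro b _ hb
      rw [hX s a ha, if_neg (fun h => hb h.symm), zero_mul]
    · intro h
      exact absurd (Finset.mem_univ _) h
  -- the parameter point
  let x : Par Φ J I f → ℂ := Sum.elim
    (fun p => if h : ∃ b, J p.1.1.1 b = p.2 then X p.1.1.1 p.1.1.2 h.choose
      else Q p.1.1.1 p.1.1.2 p.2)
    (Sum.elim (fun i => T i.1) (Sum.elim (fun k => act V2 T k.1) (fun p => g p.1 p.2.1 p.2.2)))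
  have hF : ∀ i, MvPolynomial.eval x (F i) = T i := by
    intro i
    have e1 : MvPolynomial.eval x (F i) = PARAM.FF Φ Φ0 J
        (fun s a l => if h : ∃ b, J s b = l then X s a h.choose else Q s a l)
        (fun i => if ¬ ∃ j, PARAM.bx J j = i then T i else 0)
        (fun k => if ¬ k ∈ Φ then act V2 T k else 0)
        (fun s a b => g s a b) i := by
      show (MvPolynomial.eval x) (PARAM.FF Φ Φ0 J _ _ _ _ i) = _
      rw [PARAM.map_FF]
      congr 1
      · funext s a l
        rw [map_MM]
        unfold MM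
        by_cases h : ∃ a', a' ∉ I s ∧ f s a' = a
        · rw [dif_pos h]
          have hs := h.choose_spec
          set a' := h.choose with ha'
          by_cases hl : ∃ b, J s b = l
          · rw [dif_pos hl]
            have hls := hl.choose_spec
            have hx := hX s a' hs.1 hl.choose
            rw [hs.2] at hx
            rw [hx]
            by_cases hab : a' = hl.choose
            · rw [if_pos hab, if_pos (by rw [hab, hls])]
            · rw [if_neg hab, if_neg (fun h5 => hab ((J s).injective (by rw [← h5, hls])))]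
          · rw [dif_neg hl]
            have hx := hQ2 s a' hs.1 l hl
            rw [hs.2] at hx
            rw [hx, if_neg (fun h5 => hl ⟨_, h5.symm⟩)]
        · rw [dif_neg h]
          show (MvPolynomial.eval x) (if h : ¬ ∃ a', a' ∉ I s ∧ f s a' = a then
            (MvPolynomial.X (Sum.inl (⟨(s, a), h⟩, l)) : MvPolynomial (Par Φ J I f) ℂ) else 0) = _
          rw [dif_pos h, MvPolynomial.eval_X]
          rfl
      · funext i
        by_cases h : ¬ ∃ j, PARAM.bx J j = i
        · rw [dif_pos h, if_pos h, MvPolynomial.eval_X]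
          rfl
        · rw [dif_neg h, if_neg h, map_zero]
      · funext k
        by_cases h : ¬ k ∈ Φ
        · rw [dif_pos h, if_pos h, MvPolynomial.eval_X]
          rfl
        · rw [dif_neg h, if_neg h, map_zero]
      · funext s a b
        rw [MvPolynomial.eval_X]
        rfl
    rw [e1]
    unfold PARAM.FF
    by_cases h : ∃ j, PARAM.bx J j = i
    · rw [dif_pos h]
      have hM : ∀ s a b, (if h : ∃ b', J s b' = J s b then X s a h.choose else Q s a (J s b)) =
          X s a b := by
        intro s a b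
        have h1 : ∃ b', J s b' = J s b := ⟨b, rfl⟩
        rw [dif_pos h1]
        congr 1
        exact (J s).injective h1.choose_spec
      have hQf : ∀ s a l, PARAM.Qf J (fun s a l => if h : ∃ b, J s b = l then X s a h.choose
          else Q s a l) s a l = Q s a l := by
        intro s a l
        unfold PARAM.Qf
        by_cases h1 : ∃ b, J s b = l
        · rw [if_pos h1]
          obtain ⟨b, rfl⟩ := h1
          rw [hQ]
          by_cases h2 : a = b
          · rw [if_pos h2, if_pos (by rw [h2])]
          · rw [if_neg h2, if_neg (fun h3 => h2 ((J s).injective h3))]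
        · rw [if_neg h1]
          exact dif_neg h1
      have ht : ∀ k, PARAM.tt Φ Φ0 (fun k => if ¬ k ∈ Φ then act V2 T k else 0)
          (fun s a b => g s a b) k = act V2 T k := by
        intro k
        unfold PARAM.tt
        by_cases h1 : k ∈ Φ
        · rw [if_pos h1, hΦ2 k h1]
          rfl
        · rw [if_neg h1]
          exact if_pos h1
      have hk := PARAM.key J Q hQ T h.choose
      rw [h.choose_spec] at hk
      rw [hk]
      congr 1
      · have e2 : act Q T h.choose = act X (act V2 T) h.choose := by rw [PARAM.act_act]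
        rw [e2]
        unfold act
        refine Finset.sum_congr rfl fun k _ => ?_
        have e3 := ht k
        unfold act at e3
        rw [e3]
        congr 1
        refine Finset.prod_congr rfl fun s _ => ?_
        exact hM s _ _
      · refine Finset.sum_congr rfl fun i' hi' => ?_
        refine congrArg₂ (· * ·) (Finset.prod_congr rfl fun s _ => hQf s _ _) ?_
        exact if_pos (Finset.mem_filter.1 hi').2
    · rw [dif_neg h]
      exact if_pos h
  have h1 := hP x
  have h2 : (fun i => MvPolynomial.eval x (F i)) = T := funext hF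
  rw [h2] at h1
  exact h1

end BSR.PBOXA

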