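import Pool.Agent.BSR.Upper2_618
import Pool.Agent.BSR.Lower2_618
import Pool.Agent.BSR.LOADA
import Pool.Agent.BSR.LIM
import Pool.Agent.BSR.ASLA
import Pool.Agent.BSR.PBOXA

set_option autoImplicit false
set_option backward.isDefEq.respectTransparency false

namespace BSR

open scoped BigOperators Matrix Topology
open Filter

theorem rowsStmt : RowsStmt := by
  intro r W hW I
  exact PBOXA.rows W hW I

theorem paramBoxStmt : ParamBoxStmt := by
  intro d n r Φ Φ0 J I f hΦ hcard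
  exact PBOXA.param_box Φ Φ0 J I f hΦ hcard

theorem loadNumber_mono {d : ℕ} (hd : 3 ≤ d) : Monotone (loadNumber d) := by
  intro r r' h
  exact Nat.sInf_le (LOADA.feasible_mono h le_rfl (feasible_loadNumber hd r'))

theorem loadNumber_blowup {d : ℕ} (hd : 3 ≤ d) (k r : ℕ) :
    loadNumber d (k * r) ≤ k ^ (d - 1) * loadNumber d r :=
  Nat.sInf_le (LOADA.blowup (by omega) k (feasible_loadNumber hd r))

theorem loadNumber_lower {d r : ℕ} (hd : 3 ≤ d) (hr : 0 < r) :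
    r ^ (d - 1) ≤ d ^ 2 * loadNumber d r :=
  LOADA.feasible_lower (by omega) (feasible_loadNumber hd r) hr

theorem loadNumber_upper {d : ℕ} (hd : 3 ≤ d) (r : ℕ) :
    (d ^ 2 - 1) * loadNumber d r ≤ (r + 2 * d) ^ (d - 1) + 2 * (d ^ 2 - 1) := by
  have hpos : 0 < d ^ 2 - 1 := by
    have : 3 ^ 2 ≤ d ^ 2 := Nat.pow_le_pow_left hd 2
    omega
  obtain ⟨K, hK⟩ : ∃ K, K = d ^ 2 - 1 := ⟨_, rfl⟩
  obtain ⟨A, hA⟩ : ∃ A, A = (r + 2 * d) ^ (d - 1) := ⟨_, rfl⟩
  rw [← hK] at hpos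
  have h1 : Feasible d r (A / K + 2) := by
    refine feasible_of hd ?_
    rw [← hK, ← hA]
    have h2 := Nat.div_add_mod A K
    have h3 := Nat.mod_lt A hpos
    have h4 : K * (A / K + 2) = K * (A / K) + 2 * K := by ring
    omega
  have h2 : loadNumber d r ≤ A / K + 2 := Nat.sInf_le h1
  rw [← hK, ← hA]
  calc K * loadNumber d r ≤ K * (A / K + 2) := Nat.mul_le_mul_left _ h2
    _ = K * (A / K) + 2 * K := by ring
    _ ≤ A + 2 * K := Nat.add_le_add_right (Nat.mul_div_le A K) _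

/-- finite form -/
theorem both2 {d : ℕ} (n : ℕ) (hd : 3 ≤ d) :
    ∃ P : MvPolynomial (Fin d → Fin n) ℂ, P ≠ 0 ∧
      ∀ T : Tens d (Fin n), MvPolynomial.eval T P ≠ 0 →
        loadNumber d (borderSubrank T) ≤ n + d * borderSubrank T ∧
        n ≤ loadNumber d (borderSubrank T + 1) + 2 * (borderSubrank T + 1) := by
  classical
  obtain ⟨P0, hP0, hup⟩ := upper2_of (n := n) rowsStmt paramBoxStmt hd
  have hex : ∀ r : ℕ, ∃ P : MvPolynomial (Fin d → Fin n) ℂ, P ≠ 0 ∧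
      (loadNumber d r + 2 * r < n →
        ∀ T : Tens d (Fin n), MvPolynomial.eval T P ≠ 0 → Degenerates T (unitT d (Fin r))) := by
    intro r
    by_cases h : loadNumber d r + 2 * r < n
    · obtain ⟨P, hP, hP2⟩ := lower2 hd (feasible_loadNumber hd r) h
      exact ⟨P, hP, fun _ => hP2⟩
    · exact ⟨1, one_ne_zero, fun h' => absurd h' h⟩
  choose P hPne hP using hex
  refine ⟨P0 * ∏ r ∈ Finset.range (n + 1), P r,
    mul_ne_zero hP0 (Finset.prod_ne_zero_iff.2 fun r _ => hPne r), fun T hT => ?_⟩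
  rw [map_mul, map_prod] at hT
  refine ⟨Nat.sInf_le (hup T (left_ne_zero_of_mul hT)).2, ?_⟩
  by_contra hcon
  push Not at hcon
  have h2 := Finset.prod_ne_zero_iff.1 (right_ne_zero_of_mul hT) (borderSubrank T + 1)
    (Finset.mem_range.2 (by omega))
  have h3 := le_borderSubrank (d := d) (by omega) T (hP _ hcon T h2)
  omega

/-- the limit of the normalised load number -/
theorem load_limit {d : ℕ} (hd : 3 ≤ d) :
    ∃ c : ℝ, ((d : ℝ) ^ 2 - 1 ≤ c ∧ c ≤ (d : ℝ) ^ 2) ∧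
      Tendsto (fun r : ℕ => (loadNumber d r : ℝ) / (r : ℝ) ^ (d - 1)) atTop (𝓝 c⁻¹) ∧
      ∀ r : ℕ, 0 < r → (r : ℝ) ^ (d - 1) ≤ c * loadNumber d r := by
  obtain ⟨L, hL0, hLlim, hLle⟩ := LIM.limit_exists (D := d - 1) (by omega) (loadNumber d)
    (loadNumber_mono hd) (fun k r => loadNumber_blowup hd k r)
  have hd3 : (3 : ℝ) ≤ d := by exact_mod_cast hd
  have hD9 : (9 : ℝ) ≤ (d : ℝ) ^ 2 := by nlinarith
  have hK : (0 : ℝ) < (d : ℝ) ^ 2 - 1 := by linarith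
  have hcast : (((d ^ 2 - 1 : ℕ)) : ℝ) = (d : ℝ) ^ 2 - 1 := by
    have : 1 ≤ d ^ 2 := Nat.one_le_pow _ _ (by omega)
    push_cast [this]
    ring
  have hlow : 1 / (d : ℝ) ^ 2 ≤ L := by
    refine ge_of_tendsto hLlim ?_
    filter_upwards [eventually_gt_atTop 0] with r hr
    have h1 := loadNumber_lower hd hr
    have h2 : (r : ℝ) ^ (d - 1) ≤ (d : ℝ) ^ 2 * loadNumber d r := by exact_mod_cast h1
    have hr' : (0 : ℝ) < (r : ℝ) ^ (d - 1) := by positivity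
    rw [div_le_div_iff₀ (by linarith) hr']
    linarith
  have hup : L ≤ 1 / ((d : ℝ) ^ 2 - 1) := by
    have h1 : Tendsto (fun r : ℕ => (1 + (2 * (d : ℝ)) / (r : ℝ)) ^ (d - 1) / ((d : ℝ) ^ 2 - 1) +
        (2 / (r : ℝ)) ^ (d - 1)) atTop (𝓝 ((1 + 0) ^ (d - 1) / ((d : ℝ) ^ 2 - 1) + 0 ^ (d - 1))) := by
      have e1 := tendsto_const_div_atTop_nhds_zero_nat (2 * (d : ℝ))
      have e2 := tendsto_const_div_atTop_nhds_zero_nat (2 : ℝ)
      exact (((tendsto_const_nhds.add e1).pow (d - 1)).div_const _).add (e2.pow (d - 1))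
    rw [add_zero, one_pow, zero_pow (by omega), add_zero] at h1
    refine le_of_tendsto_of_tendsto hLlim h1 ?_
    filter_upwards [eventually_gt_atTop 0] with r hr
    have h2 := loadNumber_upper hd r
    have h3 : ((d : ℝ) ^ 2 - 1) * loadNumber d r ≤
        ((r : ℝ) + 2 * d) ^ (d - 1) + 2 * ((d : ℝ) ^ 2 - 1) := by
      rw [← hcast]
      exact_mod_cast h2
    have hr0 : (0 : ℝ) < r := by exact_mod_cast hr
    have hr' : (0 : ℝ) < (r : ℝ) ^ (d - 1) := by positivity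
    have e1 : (1 + (2 * (d : ℝ)) / (r : ℝ)) ^ (d - 1) = ((r : ℝ) + 2 * d) ^ (d - 1) / r ^ (d - 1) := by
      rw [← div_pow]
      congr 1
      field_simp
    have e2 : (2 / (r : ℝ)) ^ (d - 1) = 2 ^ (d - 1) / r ^ (d - 1) := div_pow _ _ _
    have e3 : (2 : ℝ) ≤ 2 ^ (d - 1) := by
      have : (2 : ℝ) ^ 1 ≤ 2 ^ (d - 1) := pow_le_pow_right₀ (by norm_num) (by omega)
      simpa using this
    rw [e1, e2, div_le_iff₀ hr', add_mul, div_mul_cancel₀ _ hr'.ne', div_mul_eq_mul_div,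
      div_mul_cancel₀ _ hr'.ne']
    have h4 : (loadNumber d r : ℝ) ≤
        (((r : ℝ) + 2 * d) ^ (d - 1) + 2 * ((d : ℝ) ^ 2 - 1)) / ((d : ℝ) ^ 2 - 1) := by
      rw [le_div_iff₀ hK]
      linarith
    refine h4.trans ?_
    rw [add_div, mul_div_cancel_right₀ _ hK.ne']
    linarith
  have hLpos : 0 < L := lt_of_lt_of_le (by positivity) hlow
  refine ⟨L⁻¹, ⟨?_, ?_⟩, ?_, fun r hr => ?_⟩
  · rw [le_inv_comm₀ hK hLpos, inv_eq_one_div]
    exact hup
  · rw [inv_le_comm₀ hLpos (by positivity), inv_eq_one_div]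
    exact hlow
  · rw [inv_inv]
    exact hLlim
  · have h1 := hLle r hr
    have hr' : (0 : ℝ) < (r : ℝ) ^ (d - 1) := by
      have : (0 : ℝ) < r := by exact_mod_cast hr
      positivity
    rw [le_div_iff₀ hr'] at h1
    rw [inv_mul_eq_div, le_div_iff₀ hLpos]
    linarith

/-- the asymptotic value of the generic border subrank -/
theorem final2 (d : ℕ) (hd : 3 ≤ d) :
    ∃ c : ℝ, ((d : ℝ) ^ 2 - 1 ≤ c ∧ c ≤ (d : ℝ) ^ 2) ∧
      Tendsto (fun r : ℕ => (r : ℝ) ^ (d - 1) / loadNumber d r) atTop (𝓝 c) ∧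
      (∀ r : ℕ, 0 < r → (r : ℝ) ^ (d - 1) / loadNumber d r ≤ c) ∧
      (∀ ε : ℝ, 0 < ε → ∃ N : ℕ, ∀ n ≥ N, ∃ P : MvPolynomial (Fin d → Fin n) ℂ, P ≠ 0 ∧
        ∀ T : Tens d (Fin n), MvPolynomial.eval T P ≠ 0 →
          (c - ε) * n ≤ (borderSubrank T : ℝ) ^ (d - 1) ∧
          (borderSubrank T : ℝ) ^ (d - 1) ≤ (c + ε) * n) ∧
      ∀ n : ℕ, ∃ P : MvPolynomial (Fin d → Fin n) ℂ, P ≠ 0 ∧
        ∀ T : Tens d (Fin n), MvPolynomial.eval T P ≠ 0 →
          (loadNumber d (borderSubrank T) ≤ n + d * borderSubrank T ∧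
            n ≤ loadNumber d (borderSubrank T + 1) + 2 * (borderSubrank T + 1)) ∧
          (d ^ 2 - 1) * n ≤ (borderSubrank T + 2 * d + 1) ^ (d - 1) +
            2 * (d ^ 2 - 1) * (borderSubrank T + 1) ∧
          borderSubrank T ^ (d - 1) ≤ d ^ 2 * (n + borderSubrank T) := by
  obtain ⟨c, ⟨hc1, hc2⟩, hlim, hle⟩ := load_limit hd
  have hd3 : (3 : ℝ) ≤ d := by exact_mod_cast hd
  have hc0 : 0 < c := by nlinarith
  refine ⟨c, ⟨hc1, hc2⟩, ?_, fun r hr => ?_, fun ε hε => ?_, fun n => ?_⟩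
  · have h1 := hlim.inv₀ (inv_ne_zero hc0.ne')
    rw [inv_inv] at h1
    refine h1.congr fun r => ?_
    rw [inv_div]
  · rcases Nat.eq_zero_or_pos (loadNumber d r) with h0 | h0
    · rw [h0, Nat.cast_zero, div_zero]
      exact hc0.le
    · rw [div_le_iff₀ (by exact_mod_cast h0)]
      exact hle r hr
  · obtain ⟨n0, hn0⟩ := ASLA.asym_of_limit hd (loadNumber d) (inv_pos.2 hc0) hlim hε
    refine ⟨n0, fun n hn => ?_⟩
    obtain ⟨P, hP, h⟩ := both2 n hd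
    refine ⟨P, hP, fun T hT => ?_⟩
    have h1 := hn0 n hn (borderSubrank T) (h T hT).1 (h T hT).2
    rw [inv_inv] at h1
    exact h1
  · obtain ⟨P, hP, h⟩ := both2 n hd
    obtain ⟨P', hP', h'⟩ := (final d hd).1 n
    refine ⟨P * P', mul_ne_zero hP hP', fun T hT => ?_⟩
    rw [map_mul] at hT
    exact ⟨h T (left_ne_zero_of_mul hT), h' T (right_ne_zero_of_mul hT)⟩

end BSR
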