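import Pool.Agent.BSR.Defs

/-!
Project BSR (helper618), piece H1W: the tensor with prescribed entries next to the corner.
-/

set_option autoImplicit false

namespace BSR.H1W

open BSR

theorem hall_tensor {d r m : ℕ} (S : Finset (Fin d → Fin r))
    (hdiag : ∀ l : Fin r, (fun _ => l) ∉ S)
    (W : Fin d → Fin m → (Fin d → Fin r) → ℂ)
    (hW : ∀ s q j j', (∀ s', s' ≠ s → j s' = j' s') → W s q j = W s q j') :
    ∃ w : Tens d (Fin r ⊕ Fin m), (∀ j ∈ S, w (fun s => Sum.inl (j s)) = 0) ∧
      (∀ l : Fin r, w (fun _ => Sum.inl l) ≠ 0) ∧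
      ∀ (s : Fin d) (q : Fin m) (j : Fin d → Fin r),
        w (Function.update (fun s' => Sum.inl (j s')) s (Sum.inr q)) = W s q j := by
  classical
  let P : (Fin d → Fin r ⊕ Fin m) → (Fin d) × (Fin m) × (Fin d → Fin r) → Prop :=
    fun i t => i = Function.update (fun s' => Sum.inl (t.2.2 s')) t.1 (Sum.inr t.2.1)
  let w : Tens d (Fin r ⊕ Fin m) := fun i =>
    if h : ∃ t, P i t then W h.choose.1 h.choose.2.1 h.choose.2.2
    else if ∃ j ∈ S, i = fun s => Sum.inl (j s) then 0 else 1
  have hno : ∀ j : Fin d → Fin r, ¬ ∃ t, P (fun s => Sum.inl (j s)) t := by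
    rintro j ⟨t, ht⟩
    have h1 : (Sum.inl (j t.1) : Fin r ⊕ Fin m) =
        Function.update (fun s' => (Sum.inl (t.2.2 s') : Fin r ⊕ Fin m)) t.1
          (Sum.inr t.2.1) t.1 := congrFun ht t.1
    rw [Function.update_self] at h1
    exact absurd h1 (by simp)
  refine ⟨w, ?_, ?_, ?_⟩
  · intro j hj
    show (if h : ∃ t, P (fun s => Sum.inl (j s)) t then W h.choose.1 h.choose.2.1 h.choose.2.2
      else if ∃ j' ∈ S, (fun s => (Sum.inl (j s) : Fin r ⊕ Fin m)) = fun s => Sum.inl (j' s)
        then (0 : ℂ) else 1) = 0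
    rw [dif_neg (hno j), if_pos ⟨j, hj, rfl⟩]
  · intro l
    show (if h : ∃ t, P (fun _ => Sum.inl l) t then W h.choose.1 h.choose.2.1 h.choose.2.2
      else if ∃ j' ∈ S, (fun _ => (Sum.inl l : Fin r ⊕ Fin m)) = fun s => Sum.inl (j' s)
        then (0 : ℂ) else 1) ≠ 0
    rw [dif_neg (hno fun _ => l), if_neg]
    · exact one_ne_zero
    · rintro ⟨j, hj, he⟩
      apply hdiag l
      have h2 : (fun _ => l) = j := funext fun s => Sum.inl_injective (congrFun he s)
      rw [h2]
      exact hj
  · intro s q j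
    have hex : ∃ t, P (Function.update (fun s' => Sum.inl (j s')) s (Sum.inr q)) t :=
      ⟨(s, q, j), rfl⟩
    show (if h : ∃ t, P (Function.update (fun s' => Sum.inl (j s')) s (Sum.inr q)) t
      then W h.choose.1 h.choose.2.1 h.choose.2.2
      else if ∃ j' ∈ S, (Function.update (fun s' => (Sum.inl (j s') : Fin r ⊕ Fin m)) s
        (Sum.inr q)) = fun s => Sum.inl (j' s) then (0 : ℂ) else 1) = W s q j
    rw [dif_pos hex]
    have hs : Function.update (fun s' => (Sum.inl (j s') : Fin r ⊕ Fin m)) s (Sum.inr q) =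
        Function.update (fun s' => Sum.inl (hex.choose.2.2 s')) hex.choose.1
          (Sum.inr hex.choose.2.1) := hex.choose_spec
    generalize hex.choose = t at hs
    obtain ⟨s₁, q₁, j₁⟩ := t
    dsimp only at hs ⊢
    have h1 : s₁ = s := by
      by_contra hne
      have h2 := congrFun hs s₁
      rw [Function.update_of_ne hne, Function.update_self] at h2
      exact absurd h2 (by simp)
    subst h1
    have h3 : q₁ = q := by
      have h2 := congrFun hs s₁
      rw [Function.update_self, Function.update_self] at h2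
      exact (Sum.inr_injective h2).symm
    subst h3
    refine hW s₁ q₁ j₁ j fun s' hs' => ?_
    have h2 := congrFun hs s'
    rw [Function.update_of_ne hs', Function.update_of_ne hs'] at h2
    exact (Sum.inl_injective h2).symm

end BSR.H1W
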