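import Mathlib

/-! The pattern of `d` types and the count (written by helper524). -/

set_option autoImplicit false

open scoped BigOperators

namespace BSR.H3A

/-- the weights -/
def wt (d r : ℕ) (s : Fin d) (i : Fin r) : ℤ :=
  if (s : ℕ) = (i : ℕ) % d then -((d : ℤ) - 1) * ((d : ℤ) ^ 2) ^ (i : ℕ) else ((d : ℤ) ^ 2) ^ (i : ℕ)

lemma wt_sum {d r : ℕ} (hd : 2 ≤ d) (i : Fin r) : ∑ s, wt d r s i = 0 := by
  have h0 : (i : ℕ) % d < d := Nat.mod_lt _ (by omega)
  let t : Fin d := ⟨(i : ℕ) % d, h0⟩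
  have h1 : ∀ s : Fin d, wt d r s i = ((d : ℤ) ^ 2) ^ (i : ℕ) -
      (if s = t then (d : ℤ) * ((d : ℤ) ^ 2) ^ (i : ℕ) else 0) := by
    intro s
    unfold wt
    by_cases h : s = t
    · rw [if_pos (by rw [h]), if_pos h]; ring
    · rw [if_neg (fun h' => h (Fin.ext h')), if_neg h]; ring
  rw [Finset.sum_congr rfl fun s _ => h1 s, Finset.sum_sub_distrib, Finset.sum_ite_eq' Finset.univ t,
    if_pos (Finset.mem_univ t), Finset.sum_const, Finset.card_univ, Fintype.card_fin, nsmul_eq_mul]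
  ring

theorem pattern_count {d r : ℕ} (hd : 2 ≤ d) :
    ∃ (a : Fin d → Fin r → ℤ) (S : Finset (Fin d → Fin r)),
      (∀ i, ∑ s, a s i = 0) ∧
      (∀ j, j ∉ S → (¬ ∃ l, ∀ s, j s = l) → 0 < ∑ s, a s (j s)) ∧
      (∀ l : Fin r, (fun _ => l) ∉ S) ∧
      ∀ I : Fin d → Finset (Fin r), (S.filter fun j => ∀ s, j s ∈ I s).card ≤
        ∑ M ∈ Finset.range r, ∏ s : Fin d,
          (if (s : ℕ) = M % d then 1 else min (M + 1) (I s).card) := by
  classical
  let good : (Fin d → Fin r) → Fin r → Prop := fun j M =>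
    (∀ s, j s ≤ M) ∧ ∀ s : Fin d, (s : ℕ) = (M : ℕ) % d → j s = M
  refine ⟨wt d r, Finset.univ.filter fun j => (¬ ∃ l, ∀ s, j s = l) ∧ ∃ M, good j M,
    wt_sum hd, ?_, ?_, ?_⟩
  · intro j hj hn
    have hS : ¬ ∃ M, good j M := fun h => hj (Finset.mem_filter.2 ⟨Finset.mem_univ _, hn, h⟩)
    have hne : (Finset.univ : Finset (Fin d)).Nonempty := ⟨⟨0, by omega⟩, Finset.mem_univ _⟩
    obtain ⟨s0, -, hs0⟩ := Finset.exists_max_image Finset.univ j hne
    -- the maximum
    have hM : ∀ s, j s ≤ j s0 := fun s => hs0 s (Finset.mem_univ s)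
    have h0 : (j s0 : ℕ) % d < d := Nat.mod_lt _ (by omega)
    let t : Fin d := ⟨(j s0 : ℕ) % d, h0⟩
    have ht : j t ≠ j s0 := by
      intro h
      apply hS
      refine ⟨j s0, hM, fun s hs => ?_⟩
      have : s = t := Fin.ext hs
      rw [this, h]
    have htlt : (j t : ℕ) < (j s0 : ℕ) := lt_of_le_of_ne (hM t) (fun h => ht (Fin.ext h))
    have hst : s0 ≠ t := fun h => ht (by rw [← h])
    obtain ⟨N, hN⟩ : ∃ N, (j s0 : ℕ) = N + 1 := ⟨(j s0 : ℕ) - 1, by omega⟩
    have hdz : (2 : ℤ) ≤ d := by exact_mod_cast hd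
    set D : ℤ := (d : ℤ) ^ 2 with hD
    have hD1 : 1 ≤ D := by rw [hD]; nlinarith
    have hDN : 0 < D ^ N := by positivity
    have key : ∀ s : Fin d, s ≠ s0 → -((d : ℤ) - 1) * D ^ N ≤ wt d r s (j s) := by
      intro s _
      unfold wt
      split_ifs with h
      · -- the negative weight: the value is not the maximum
        have hlt : (j s : ℕ) ≤ N := by
          have h3 : (j s : ℕ) ≠ (j s0 : ℕ) := by
            intro h4
            apply hS
            refine ⟨j s0, hM, fun s' hs' => ?_⟩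
            have h5 : s' = s := Fin.ext (by rw [hs', h, h4])
            rw [h5]
            exact Fin.ext h4
          have := hM s
          have h6 : (j s : ℕ) ≤ (j s0 : ℕ) := this
          omega
        have h7 : D ^ (j s : ℕ) ≤ D ^ N := pow_le_pow_right₀ hD1 hlt
        nlinarith
      · have h8 : (0 : ℤ) < D ^ (j s : ℕ) := by positivity
        nlinarith
    have key0 : wt d r s0 (j s0) = D ^ (N + 1) := by
      unfold wt
      rw [if_neg (fun h => hst (Fin.ext h)), hN]
    rw [← Finset.add_sum_erase Finset.univ (fun s => wt d r s (j s)) (Finset.mem_univ s0)]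
    rw [key0]
    have h9 : ∑ s ∈ Finset.univ.erase s0, (-((d : ℤ) - 1) * D ^ N) ≤
        ∑ s ∈ Finset.univ.erase s0, wt d r s (j s) :=
      Finset.sum_le_sum fun s hs => key s (Finset.ne_of_mem_erase hs)
    rw [Finset.sum_const, Finset.card_erase_of_mem (Finset.mem_univ s0), Finset.card_univ,
      Fintype.card_fin, nsmul_eq_mul] at h9
    have h10 : ((d - 1 : ℕ) : ℤ) = (d : ℤ) - 1 := by omega
    rw [h10] at h9
    have h11 : D ^ (N + 1) = D * D ^ N := by ring
    have h12 : 0 < D ^ (N + 1) + ((d : ℤ) - 1) * (-((d : ℤ) - 1) * D ^ N) := by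
      rw [h11, hD]
      have : (d : ℤ) ^ 2 * ((d : ℤ) ^ 2) ^ N + ((d : ℤ) - 1) * (-((d : ℤ) - 1) * ((d : ℤ) ^ 2) ^ N) =
        (2 * (d : ℤ) - 1) * ((d : ℤ) ^ 2) ^ N := by ring
      rw [this]
      have : (0 : ℤ) < ((d : ℤ) ^ 2) ^ N := by positivity
      nlinarith
    linarith
  · intro l h
    rw [Finset.mem_filter] at h
    exact h.2.1 ⟨l, fun _ => rfl⟩
  · intro I
    have hsub : ((Finset.univ.filter fun j : Fin d → Fin r => (¬ ∃ l, ∀ s, j s = l) ∧
        ∃ M, good j M).filter fun j => ∀ s, j s ∈ I s) ⊆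
        (Finset.univ : Finset (Fin r)).biUnion fun M => Fintype.piFinset fun s : Fin d =>
          if (s : ℕ) = (M : ℕ) % d then {M} else (I s).filter fun i => i ≤ M := by
      intro j hj
      rw [Finset.mem_filter, Finset.mem_filter] at hj
      obtain ⟨⟨-, -, M, hM1, hM2⟩, hI⟩ := hj
      rw [Finset.mem_biUnion]
      refine ⟨M, Finset.mem_univ _, ?_⟩
      rw [Fintype.mem_piFinset]
      intro s
      split_ifs with h
      · rw [Finset.mem_singleton]
        exact hM2 s h
      · rw [Finset.mem_filter]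
        exact ⟨hI s, hM1 s⟩
    refine (Finset.card_le_card hsub).trans (Finset.card_biUnion_le.trans ?_)
    rw [Finset.sum_range]
    refine Finset.sum_le_sum fun M _ => ?_
    rw [Fintype.card_piFinset]
    refine Finset.prod_le_prod' fun s _ => ?_
    split_ifs with h
    · rw [Finset.card_singleton]
    · refine le_min ?_ (Finset.card_le_card (Finset.filter_subset _ _))
      have h1 : (I s).filter (fun i => i ≤ M) ⊆ Finset.Iic M := by
        intro i hi
        rw [Finset.mem_filter] at hi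
        rw [Finset.mem_Iic]
        exact hi.2
      refine (Finset.card_le_card h1).trans ?_
      rw [Fin.card_Iic]

end BSR.H3A
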