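import Pool.Agent.BSR.Lower618
import Pool.Agent.BSR.H1W
import Pool.Agent.BSR.H3A

set_option autoImplicit false
set_option backward.isDefEq.respectTransparency false

namespace BSR

open scoped BigOperators Matrix Topology

/-- statement of the parameter count -/
def HallCoreStmt : Prop := ∀ {d r m : ℕ} (S : Finset (Fin d → Fin r))
    (_ : ∀ I : Fin d → Finset (Fin r), (∀ s, (I s).Nonempty) →
      (S.filter fun j => ∀ s, j s ∈ I s).card + r * ∑ s, (I s).card < m * ∑ s, (I s).card),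
    ∃ W : Fin d → Fin m → (Fin d → Fin r) → ℂ,
      (∀ s q j j', (∀ s', s' ≠ s → j s' = j' s') → W s q j = W s q j') ∧
      ∀ lam : (Fin d → Fin r) → ℂ, (∀ j, j ∉ S → lam j = 0) →
        (∀ (s : Fin d) (i : Fin r) (q : Fin m),
          ∑ j : Fin d → Fin r, (if j s = i then lam j * W s q j else 0) = 0) →
        lam = 0

def VectorsStmt : Prop := ∀ {d r m : ℕ} (_ : 0 < d) (S : Finset (Fin d → Fin r))
    (w : Tens d (Fin r ⊕ Fin m)) (_ : ∀ j ∈ S, w (fun s => Sum.inl (j s)) = 0)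
    (_ : ∀ l : Fin r, w (fun _ => Sum.inl l) ≠ 0)
    (_ : ∀ lam : (Fin d → Fin r) → ℂ, (∀ j, j ∉ S → lam j = 0) →
      (∀ (s : Fin d) (i : Fin r) (q : Fin m),
        ∑ j : Fin d → Fin r, (if j s = i then
          lam j * w (Function.update (fun s' => Sum.inl (j s')) s (Sum.inr q)) else 0) = 0) →
      lam = 0),
    ∃ P : MvPolynomial (Fin d → Fin r ⊕ Fin m) ℂ, P ≠ 0 ∧
      ∀ T : Tens d (Fin r ⊕ Fin m), MvPolynomial.eval T P ≠ 0 →
        ∃ A : Fin d → Matrix (Fin r) (Fin r ⊕ Fin m) ℂ,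
          (∀ j ∈ S, act A T j = 0) ∧ (∀ l : Fin r, act A T (fun _ => l) ≠ 0)

def SumIneqStmt : Prop := ∀ {d r : ℕ} (_ : 3 ≤ d) (x : Fin d → ℕ) (_ : ∀ s, x s ≤ r),
    (d ^ 2 - 1) * ∑ M ∈ Finset.range r, ∏ s : Fin d,
        (if (s : ℕ) = M % d then 1 else min (M + 1) (x s)) ≤
      (r + 2 * d) ^ (d - 1) * ∑ s, x s

theorem lower_hall_of (H1 : HallCoreStmt) (H2 : VectorsStmt) (H3 : SumIneqStmt) {d n r : ℕ}
    (hd : 3 ≤ d) (h : (r + 2 * d) ^ (d - 1) + 2 * (d ^ 2 - 1) * r < (d ^ 2 - 1) * n) :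
    ∃ P : MvPolynomial (Fin d → Fin n) ℂ, P ≠ 0 ∧
      ∀ T : Tens d (Fin n), MvPolynomial.eval T P ≠ 0 → Degenerates T (unitT d (Fin r)) := by
  classical
  have hpos : 0 < d ^ 2 - 1 := by
    have : 3 ^ 2 ≤ d ^ 2 := Nat.pow_le_pow_left hd 2
    omega
  have hrn : r ≤ n := by
    have h1 : (d ^ 2 - 1) * r ≤ (d ^ 2 - 1) * n := by
      have : (d ^ 2 - 1) * r ≤ 2 * (d ^ 2 - 1) * r := by
        rw [mul_assoc]
        exact Nat.le_mul_of_pos_left _ (by norm_num)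
      omega
    exact Nat.le_of_mul_le_mul_left h1 hpos
  obtain ⟨m, rfl⟩ := Nat.exists_eq_add_of_le hrn
  have hm : (r + 2 * d) ^ (d - 1) + (d ^ 2 - 1) * r < (d ^ 2 - 1) * m := by
    have h1 : (d ^ 2 - 1) * (r + m) = (d ^ 2 - 1) * r + (d ^ 2 - 1) * m := by ring
    have h2 : 2 * (d ^ 2 - 1) * r = (d ^ 2 - 1) * r + (d ^ 2 - 1) * r := by ring
    omega
  obtain ⟨a, S, h0, hS, hdiag, hcount⟩ := H3A.pattern_count (d := d) (r := r) (by omega)
  have hHall : ∀ I : Fin d → Finset (Fin r), (∀ s, (I s).Nonempty) →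
      (S.filter fun j => ∀ s, j s ∈ I s).card + r * ∑ s, (I s).card < m * ∑ s, (I s).card := by
    intro I hI
    have h1 := hcount I
    have h2 := H3 hd (fun s => (I s).card) (fun s => by
      have := Finset.card_le_univ (I s)
      simpa using this)
    have hsum : 0 < ∑ s, (I s).card :=
      Finset.sum_pos (fun s _ => (hI s).card_pos) ⟨⟨0, by omega⟩, Finset.mem_univ _⟩
    have h3 : (d ^ 2 - 1) * (S.filter fun j => ∀ s, j s ∈ I s).card ≤
        (r + 2 * d) ^ (d - 1) * ∑ s, (I s).card := (Nat.mul_le_mul_left _ h1).trans h2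
    have h4 : ((r + 2 * d) ^ (d - 1) + (d ^ 2 - 1) * r) * ∑ s, (I s).card <
        ((d ^ 2 - 1) * m) * ∑ s, (I s).card := Nat.mul_lt_mul_of_pos_right hm hsum
    have h5 : (d ^ 2 - 1) * ((S.filter fun j => ∀ s, j s ∈ I s).card + r * ∑ s, (I s).card) <
        (d ^ 2 - 1) * (m * ∑ s, (I s).card) := by
      calc (d ^ 2 - 1) * ((S.filter fun j => ∀ s, j s ∈ I s).card + r * ∑ s, (I s).card)
          = (d ^ 2 - 1) * (S.filter fun j => ∀ s, j s ∈ I s).card +
            ((d ^ 2 - 1) * r) * ∑ s, (I s).card := by ring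
        _ ≤ (r + 2 * d) ^ (d - 1) * ∑ s, (I s).card + ((d ^ 2 - 1) * r) * ∑ s, (I s).card :=
            Nat.add_le_add_right h3 _
        _ = ((r + 2 * d) ^ (d - 1) + (d ^ 2 - 1) * r) * ∑ s, (I s).card := by ring
        _ < _ := h4
        _ = _ := by ring
    exact Nat.lt_of_mul_lt_mul_left h5
  obtain ⟨W, hW, hinj⟩ := H1 S hHall
  obtain ⟨w, hw0, hw1, hw2⟩ := H1W.hall_tensor S hdiag W hW
  obtain ⟨Q, hQ, hQ2⟩ := H2 (by omega) S w hw0 hw1 (fun lam hlam hk => hinj lam hlam (by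
    intro s i q
    refine (Finset.sum_congr rfl fun j _ => ?_).trans (hk s i q)
    rw [hw2 s q j]))
  let e : Fin r ⊕ Fin m ≃ Fin (r + m) := finSumFinEquiv
  let f : (Fin d → Fin r ⊕ Fin m) → (Fin d → Fin (r + m)) := fun i s => e (i s)
  have hf : Function.Injective f := by
    intro i i' h
    funext s
    exact e.injective (congrFun h s)
  refine ⟨MvPolynomial.rename f Q, fun h => hQ (MvPolynomial.rename_injective f hf
    (by rw [h, map_zero])), fun T hT => ?_⟩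
  rw [MvPolynomial.eval_rename] at hT
  apply degenerates_equiv e T
  obtain ⟨A, hA0, hA1⟩ := hQ2 (fun i : Fin d → Fin r ⊕ Fin m => T (fun s => e (i s))) hT
  exact TORUS.degenerates_of_pattern (by omega) a S h0 hS _ A hA0 hA1

end BSR
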