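import Pool.Agent.BSR.Upper618
import Pool.Agent.BSR.LowerHall618

set_option autoImplicit false

namespace BSR

open scoped BigOperators Matrix Topology

def AsyStmt : Prop := ∀ {d : ℕ} (_ : 3 ≤ d) {ε : ℝ} (_ : 0 < ε),
    ∃ N : ℕ, ∀ n ≥ N, ∀ q : ℕ, q ^ (d - 1) ≤ d ^ 2 * (n + q) →
      (∀ r : ℕ, (r + 2 * d) ^ (d - 1) + 2 * (d ^ 2 - 1) * r < (d ^ 2 - 1) * n → r ≤ q) →
      ((d : ℝ) ^ 2 - 1 - ε) * n ≤ (q : ℝ) ^ (d - 1) ∧
        (q : ℝ) ^ (d - 1) ≤ ((d : ℝ) ^ 2 + ε) * n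

theorem both_of (H1 : HallCoreStmt) (H2 : VectorsStmt) (H3 : SumIneqStmt) {d : ℕ} (n : ℕ)
    (hd : 3 ≤ d) :
    ∃ P : MvPolynomial (Fin d → Fin n) ℂ, P ≠ 0 ∧
      ∀ T : Tens d (Fin n), MvPolynomial.eval T P ≠ 0 →
        (borderSubrank T) ^ (d - 1) ≤ d ^ 2 * (n + borderSubrank T) ∧
        ∀ r : ℕ, (r + 2 * d) ^ (d - 1) + 2 * (d ^ 2 - 1) * r < (d ^ 2 - 1) * n →
          r ≤ borderSubrank T := by
  classical
  obtain ⟨P0, hP0, hup⟩ := upper (d := d) (n := n) (by omega)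
  have hex : ∀ r : ℕ, ∃ P : MvPolynomial (Fin d → Fin n) ℂ, P ≠ 0 ∧
      ((r + 2 * d) ^ (d - 1) + 2 * (d ^ 2 - 1) * r < (d ^ 2 - 1) * n →
        ∀ T : Tens d (Fin n), MvPolynomial.eval T P ≠ 0 → Degenerates T (unitT d (Fin r))) := by
    intro r
    by_cases h : (r + 2 * d) ^ (d - 1) + 2 * (d ^ 2 - 1) * r < (d ^ 2 - 1) * n
    · obtain ⟨P, hP, hP2⟩ := lower_hall_of H1 H2 H3 hd h
      exact ⟨P, hP, fun _ => hP2⟩
    · exact ⟨1, one_ne_zero, fun h' => absurd h' h⟩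
  choose P hPne hP using hex
  refine ⟨P0 * ∏ r ∈ Finset.range (n + 1), P r,
    mul_ne_zero hP0 (Finset.prod_ne_zero_iff.2 fun r _ => hPne r), fun T hT => ?_⟩
  rw [map_mul, map_prod] at hT
  refine ⟨hup T (left_ne_zero_of_mul hT), fun r hr => ?_⟩
  have hpos : 0 < d ^ 2 - 1 := by
    have : 3 ^ 2 ≤ d ^ 2 := Nat.pow_le_pow_left hd 2
    omega
  have hrn : r ≤ n := by
    have h1 : (d ^ 2 - 1) * r ≤ (d ^ 2 - 1) * n := by
      have : (d ^ 2 - 1) * r ≤ 2 * (d ^ 2 - 1) * r := by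
        rw [mul_assoc]
        exact Nat.le_mul_of_pos_left _ (by norm_num)
      omega
    exact Nat.le_of_mul_le_mul_left h1 hpos
  have h2 := Finset.prod_ne_zero_iff.1 (right_ne_zero_of_mul hT) r
    (Finset.mem_range.2 (Nat.lt_succ_of_le hrn))
  exact le_borderSubrank (by omega) T (hP r hr T h2)

theorem final_of (H1 : HallCoreStmt) (H2 : VectorsStmt) (H3 : SumIneqStmt) (H4 : AsyStmt)
    (d : ℕ) (hd : 3 ≤ d) :
    (∀ n : ℕ, ∃ P : MvPolynomial (Fin d → Fin n) ℂ, P ≠ 0 ∧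
      ∀ T : Tens d (Fin n), MvPolynomial.eval T P ≠ 0 →
        (d ^ 2 - 1) * n ≤ (borderSubrank T + 2 * d + 1) ^ (d - 1) +
          2 * (d ^ 2 - 1) * (borderSubrank T + 1) ∧
        borderSubrank T ^ (d - 1) ≤ d ^ 2 * (n + borderSubrank T)) ∧
    ∀ ε : ℝ, 0 < ε → ∃ N : ℕ, ∀ n ≥ N, ∃ P : MvPolynomial (Fin d → Fin n) ℂ, P ≠ 0 ∧
      ∀ T : Tens d (Fin n), MvPolynomial.eval T P ≠ 0 →
        ((d : ℝ) ^ 2 - 1 - ε) * n ≤ (borderSubrank T : ℝ) ^ (d - 1) ∧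
        (borderSubrank T : ℝ) ^ (d - 1) ≤ ((d : ℝ) ^ 2 + ε) * n := by
  refine ⟨fun n => ?_, fun ε hε => ?_⟩
  · obtain ⟨P, hP, h⟩ := both_of H1 H2 H3 n hd
    refine ⟨P, hP, fun T hT => ⟨?_, (h T hT).1⟩⟩
    by_contra hcon
    push Not at hcon
    have h1 := (h T hT).2 (borderSubrank T + 1) (by
      have : borderSubrank T + 1 + 2 * d = borderSubrank T + 2 * d + 1 := by ring
      rw [this]; exact hcon)
    omega
  · obtain ⟨N, hN⟩ := H4 hd hε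
    refine ⟨N, fun n hn => ?_⟩
    obtain ⟨P, hP, h⟩ := both_of H1 H2 H3 n hd
    exact ⟨P, hP, fun T hT => hN n hn (borderSubrank T) (h T hT).1 (h T hT).2⟩

end BSR
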