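import Pool.Agent.BSR.TRDEG
import Pool.Agent.BSR.PARAM

/-!
Border subrank of tensors (MP_79bff1_ag), piece H1 (helper574): generic injectivity by a parameter
count.
-/

set_option autoImplicit false

open scoped BigOperators Matrix

namespace BSR.H1B



/-- the columns of the flattening in the direction `s` -/
abbrev Col (d r : ℕ) (s : Fin d) : Type := {s' : Fin d // s' ≠ s} → Fin r

section glue
variable {d r : ℕ}

/-- the index with `s`-th entry `i` and the other entries `c` -/
def gl (s : Fin d) (i : Fin r) (c : Col d r s) : Fin d → Fin r :=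
  (Equiv.funSplitAt s (Fin r)).symm (i, c)

theorem sum_gl {M : Type*} [AddCommMonoid M] (s : Fin d) (f : (Fin d → Fin r) → M) :
    ∑ j, f j = ∑ i : Fin r, ∑ c : Col d r s, f (gl s i c) := by
  rw [← (Equiv.funSplitAt s (Fin r)).symm.sum_comp, Fintype.sum_prod_type]
  rfl

theorem gl_same (s : Fin d) (i : Fin r) (c : Col d r s) : gl s i c s = i := by
  simp [gl, Equiv.funSplitAt, Equiv.piSplitAt]

theorem gl_off (s : Fin d) (i : Fin r) (c : Col d r s) (s' : {s' : Fin d // s' ≠ s}) :
    gl s i c s' = c s' := by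
  obtain ⟨s', h⟩ := s'
  simp [gl, Equiv.funSplitAt, Equiv.piSplitAt, h]

theorem gl_eta (s : Fin d) (j : Fin d → Fin r) : gl s (j s) (fun s' => j s') = j := by
  funext s'
  by_cases h : s' = s
  · subst h; rw [gl_same]
  · exact gl_off s (j s) (fun s' => j s') ⟨s', h⟩

end glue

section pivot

/-- linearly independent rows of a matrix contain an invertible square block -/
theorem exists_cols {ι γ : Type} [Fintype ι] [DecidableEq ι] [Fintype γ] (A : ι → γ → ℂ)
    (h : LinearIndependent ℂ A) : ∃ κ : ι → γ, (Matrix.of fun i i' => A i (κ i')).det ≠ 0 := by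
  classical
  -- the columns span
  let v : γ → (ι → ℂ) := fun c i => A i c
  have hspan : Submodule.span ℂ (Set.range v) = ⊤ := by
    by_contra hne
    obtain ⟨f, hf0, hf⟩ := Submodule.exists_le_ker_of_lt_top _ (lt_top_iff_ne_top.2 hne)
    rw [Fintype.linearIndependent_iff] at h
    apply hf0
    have h2 := h (fun i => f (Pi.single i 1)) (by
      funext c
      have h3 : v c ∈ LinearMap.ker f := hf (Submodule.subset_span ⟨c, rfl⟩)
      rw [LinearMap.mem_ker] at h3
      rw [Pi.zero_apply, ← h3, Finset.sum_apply]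
      have h4 : v c = ∑ i, v c i • (Pi.single i (1 : ℂ) : ι → ℂ) := by
        funext i
        simp [Finset.sum_apply, Pi.single_apply]
      conv_rhs => rw [h4]
      rw [map_sum]
      refine Finset.sum_congr rfl fun i _ => ?_
      rw [map_smul, Pi.smul_apply, smul_eq_mul, smul_eq_mul, mul_comm])
    refine LinearMap.pi_ext' fun i => ?_
    ext
    simpa using h2 i
  obtain ⟨κ0, a, ha, hsp, hli⟩ := exists_linearIndependent' ℂ v
  rw [hspan] at hsp
  let b : Module.Basis κ0 ℂ (ι → ℂ) := Module.Basis.mk hli (by rw [hsp])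
  have e : κ0 ≃ ι := b.indexEquiv (Pi.basisFun ℂ ι)
  refine ⟨fun i => a (e.symm i), ?_⟩
  have hli2 : LinearIndependent ℂ (fun i : ι => v (a (e.symm i))) := hli.comp e.symm e.symm.injective
  have h5 : LinearIndependent ℂ (Matrix.of fun i i' => A i (a (e.symm i'))).col := hli2
  rw [Matrix.linearIndependent_cols_iff_isUnit, Matrix.isUnit_iff_isUnit_det] at h5
  exact h5.ne_zero

/-- pivots of a matrix -/
theorem exists_pivot {r : ℕ} {γ : Type} [Fintype γ] (A : Fin r → γ → ℂ) (hA : A ≠ 0) :
    ∃ (I : Finset (Fin r)) (κ : I → γ) (P : Fin r → Fin r → ℂ), I.Nonempty ∧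
      (Matrix.of fun i i' : I => A i (κ i')).det ≠ 0 ∧ (∀ a b, b ∉ I → P a b = 0) ∧
      (∀ a ∈ I, ∀ b, P a b = if a = b then 1 else 0) ∧ ∀ a c, A a c = ∑ b, P a b * A b c := by
  classical
  obtain ⟨κ0, a, ha, hsp, hli⟩ := exists_linearIndependent' ℂ A
  have : Finite κ0 := Finite.of_injective a ha
  have : Fintype κ0 := Fintype.ofFinite κ0
  set I : Finset (Fin r) := Finset.univ.image a with hI
  have hmem : ∀ k, a k ∈ I := fun k => Finset.mem_image_of_mem a (Finset.mem_univ k)
  let e : κ0 ≃ I := Equiv.ofBijective (fun k => ⟨a k, hmem k⟩) ⟨fun k k' h => ha (congrArg Subtype.val h),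
    fun i => by
      obtain ⟨k, _, hk⟩ := Finset.mem_image.1 i.2
      exact ⟨k, Subtype.ext hk⟩⟩
  have hliI : LinearIndependent ℂ (fun i : I => A i) := by
    have h1 : LinearIndependent ℂ (fun i : I => (A ∘ a) (e.symm i)) := hli.comp e.symm e.symm.injective
    have h2 : (fun i : I => (A ∘ a) (e.symm i)) = fun i : I => A i := by
      funext i
      have h3 : a (e.symm i) = i := congrArg Subtype.val (e.apply_symm_apply i)
      show A (a (e.symm i)) = A i
      rw [h3]
    rwa [h2] at h1
  obtain ⟨κ, hκ⟩ := exists_cols (fun i : I => A i) hliI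
  have hrow : ∀ x : Fin r, ∃ p : Fin r → ℂ, (∀ b, b ∉ I → p b = 0) ∧
      (x ∈ I → ∀ b, p b = if x = b then 1 else 0) ∧ ∀ c, A x c = ∑ b, p b * A b c := by
    intro x
    by_cases hx : x ∈ I
    · refine ⟨fun b => if x = b then 1 else 0, fun b hb => if_neg ?_, fun _ _ => rfl, fun c => ?_⟩
      · rintro rfl; exact hb hx
      · simp
    · have h1 : A x ∈ Submodule.span ℂ (Set.range (A ∘ a)) := by
        rw [hsp]; exact Submodule.subset_span ⟨x, rfl⟩
      rw [Submodule.mem_span_range_iff_exists_fun] at h1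
      obtain ⟨c0, hc0⟩ := h1
      refine ⟨fun b => ∑ k, if a k = b then c0 k else 0, fun b hb => ?_, fun h => absurd h hx, fun c => ?_⟩
      · refine Finset.sum_eq_zero fun k _ => ?_
        rw [if_neg]; rintro rfl; exact hb (hmem k)
      · rw [← hc0, Finset.sum_apply]
        simp_rw [Finset.sum_mul]
        rw [Finset.sum_comm]
        refine Finset.sum_congr rfl fun k _ => ?_
        simp
  choose P hP1 hP2 hP3 using hrow
  refine ⟨I, κ, P, ?_, hκ, hP1, fun a ha b => hP2 a ha b, hP3⟩
  rw [Finset.nonempty_iff_ne_empty]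
  intro h0
  apply hA
  funext x c
  rw [hP3 x c, Pi.zero_apply, Pi.zero_apply]
  refine Finset.sum_eq_zero fun b _ => ?_
  rw [hP1 x b (by rw [h0]; exact Finset.notMem_empty b), zero_mul]

end pivot


section generic
variable {d r m : ℕ} {R : Type} [CommRing R]

/-- the tensor from the parameters -/
noncomputable def lamR (B : Fin d → Fin r → Fin r → R) (mu : (Fin d → Fin r) → R)
    (j : Fin d → Fin r) : R :=
  ∑ i : Fin d → Fin r, (∏ s, B s (j s) (i s)) * mu i

open Classical in
/-- the vectors from the parameters -/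
noncomputable def FR (I : Fin d → Finset (Fin r)) (κ : ∀ s, I s → Col d r s)
    (B : Fin d → Fin r → Fin r → R) (mu : (Fin d → Fin r) → R) (Y : ∀ s, I s → I s → R)
    (w : ∀ s, Fin m → Col d r s → R) (s : Fin d) (q : Fin m) (c : Col d r s) : R :=
  if h : ∃ i, κ s i = c then
    -∑ i' : I s, Y s h.choose i' * ∑ c' : Col d r s,
      (if ∃ i, κ s i = c' then 0 else lamR B mu (gl s i' c') * w s q c')
  else w s q c

theorem map_FR {S : Type} [CommRing S] (φ : R →+* S) (I : Fin d → Finset (Fin r))
    (κ : ∀ s, I s → Col d r s)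
    (B : Fin d → Fin r → Fin r → R) (mu : (Fin d → Fin r) → R) (Y : ∀ s, I s → I s → R)
    (w : ∀ s, Fin m → Col d r s → R) (s : Fin d) (q : Fin m) (c : Col d r s) :
    φ (FR I κ B mu Y w s q c) = FR I κ (fun s a b => φ (B s a b)) (fun j => φ (mu j))
      (fun s a b => φ (Y s a b)) (fun s q c => φ (w s q c)) s q c := by
  classical
  unfold FR
  split_ifs with h
  · rw [map_neg, map_sum]
    congr 1
    refine Finset.sum_congr rfl fun i' _ => ?_
    rw [map_mul, map_sum]
    congr 1
    refine Finset.sum_congr rfl fun c' _ => ?_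
    split_ifs
    · exact map_zero φ
    · rw [map_mul]
      congr 1
      unfold lamR
      rw [map_sum]
      refine Finset.sum_congr rfl fun i _ => ?_
      rw [map_mul, map_prod]
  · rfl

end generic

section param
variable {d r m : ℕ}

open Classical in
/-- the parameters -/
abbrev Par (m : ℕ) (S : Finset (Fin d → Fin r)) (I : Fin d → Finset (Fin r))
    (κ : ∀ s, I s → Col d r s) : Type :=
  {j : Fin d → Fin r // j ∈ S.filter fun j => ∀ s, j s ∈ I s} ⊕
    ((Σ s, {i : Fin r // i ∉ I s} × {i : Fin r // i ∈ I s}) ⊕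
      ((Σ s, {i : Fin r // i ∈ I s} × {i : Fin r // i ∈ I s}) ⊕
        (Σ s, Fin m × {c : Col d r s // ¬ ∃ i, κ s i = c})))

open Classical in
theorem card_par (S : Finset (Fin d → Fin r)) (I : Fin d → Finset (Fin r))
    (κ : ∀ s, I s → Col d r s) (hκ : ∀ s, Function.Injective (κ s))
    (h : (S.filter fun j => ∀ s, j s ∈ I s).card + r * ∑ s, (I s).card < m * ∑ s, (I s).card) :
    Fintype.card (Par m S I κ) < Fintype.card (Σ s : Fin d, Fin m × Col d r s) := by
  have h1 : ∀ s, Fintype.card {c : Col d r s // ¬ ∃ i, κ s i = c} + (I s).card =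
      Fintype.card (Col d r s) := by
    intro s
    have e1 : Fintype.card {c : Col d r s // ∃ i, κ s i = c} = (I s).card := by
      rw [← Fintype.card_coe (I s)]
      exact Fintype.card_congr (Equiv.ofInjective (κ s) (hκ s)).symm
    have e2 : Fintype.card {c : Col d r s // ¬ ∃ i, κ s i = c} =
      Fintype.card (Col d r s) - Fintype.card {c : Col d r s // ∃ i, κ s i = c} :=
      Fintype.card_subtype_compl _
    have e3 : Fintype.card {c : Col d r s // ∃ i, κ s i = c} ≤ Fintype.card (Col d r s) :=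
      Fintype.card_subtype_le _
    omega
  have h2 : ∀ s, Fintype.card {i : Fin r // i ∉ I s} + (I s).card = r := by
    intro s
    have e1 : Fintype.card {i : Fin r // i ∈ I s} = (I s).card := Fintype.card_coe (I s)
    have e2 : Fintype.card {i : Fin r // ¬ i ∈ I s} =
      Fintype.card (Fin r) - Fintype.card {i : Fin r // i ∈ I s} :=
      Fintype.card_subtype_compl _
    have e3 : Fintype.card {i : Fin r // i ∈ I s} ≤ Fintype.card (Fin r) :=
      Fintype.card_subtype_le _
    rw [Fintype.card_fin] at e2 e3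
    omega
  have h3 : (∑ s, Fintype.card {i : Fin r // i ∉ I s} * (I s).card) +
      ∑ s, (I s).card * (I s).card = r * ∑ s, (I s).card := by
    rw [← Finset.sum_add_distrib, Finset.mul_sum]
    refine Finset.sum_congr rfl fun s _ => ?_
    rw [← Nat.add_mul, h2 s]
  have h4 : (∑ s, m * Fintype.card {c : Col d r s // ¬ ∃ i, κ s i = c}) + m * ∑ s, (I s).card =
      ∑ s, m * Fintype.card (Col d r s) := by
    rw [Finset.mul_sum, ← Finset.sum_add_distrib]
    refine Finset.sum_congr rfl fun s _ => ?_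
    rw [← Nat.mul_add, h1 s]
  have h5 : Fintype.card (Par m S I κ) = (S.filter fun j => ∀ s, j s ∈ I s).card +
      ((∑ s, Fintype.card {i : Fin r // i ∉ I s} * (I s).card) + (∑ s, (I s).card * (I s).card +
        ∑ s, m * Fintype.card {c : Col d r s // ¬ ∃ i, κ s i = c})) := by
    unfold Par
    rw [Fintype.card_sum, Fintype.card_sum, Fintype.card_sum, Fintype.card_sigma,
      Fintype.card_sigma, Fintype.card_sigma, Fintype.card_coe]
    congr 1
    congr 1
    · refine Finset.sum_congr rfl fun s _ => ?_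
      rw [Fintype.card_prod, Fintype.card_coe]
    congr 1
    · refine Finset.sum_congr rfl fun s _ => ?_
      rw [Fintype.card_prod, Fintype.card_coe]
    · refine Finset.sum_congr rfl fun s _ => ?_
      rw [Fintype.card_prod, Fintype.card_fin]
  have h6 : Fintype.card (Σ s : Fin d, Fin m × Col d r s) = ∑ s, m * Fintype.card (Col d r s) := by
    rw [Fintype.card_sigma]
    refine Finset.sum_congr rfl fun s _ => ?_
    rw [Fintype.card_prod, Fintype.card_fin]
  rw [h5, h6]
  omega

/-- invariance under one coordinate after the other -/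
theorem lam_eq (P : Fin d → Fin r → Fin r → ℂ) (lam : (Fin d → Fin r) → ℂ)
    (h : ∀ s (i : Fin r) (c : Col d r s), lam (gl s i c) = ∑ b, P s i b * lam (gl s b c)) :
    lamR P lam = lam := by
  classical
  -- act
  have hact : ∀ M : Fin d → Matrix (Fin r) (Fin r) ℂ, act M lam = lamR (fun s a b => M s a b) lam :=
    fun M => rfl
  have key : ∀ F : Finset (Fin d), act (fun s => if s ∈ F then Matrix.of (P s) else 1) lam = lam := by
    intro F
    induction F using Finset.induction_on with
    | empty =>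
      funext j
      simp only [Finset.notMem_empty, if_false]
      unfold act
      rw [Finset.sum_eq_single j]
      · simp
      · intro i _ hi
        obtain ⟨s, hs⟩ := Function.ne_iff.1 hi
        rw [Finset.prod_eq_zero (Finset.mem_univ s), zero_mul]
        show (1 : Matrix (Fin r) (Fin r) ℂ) (j s) (i s) = 0
        rw [Matrix.one_apply, if_neg (fun h => hs h.symm)]
      · intro h; exact absurd (Finset.mem_univ j) h
    | insert s F hs ih =>
      have h1 : (fun s' => if s' ∈ insert s F then Matrix.of (P s') else 1) =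
          fun s' => (if s' = s then Matrix.of (P s) else 1) * (if s' ∈ F then Matrix.of (P s') else 1) := by
        funext s'
        by_cases h2 : s' = s
        · subst h2
          rw [if_pos (Finset.mem_insert_self _ _), if_pos rfl, if_neg hs, mul_one]
        · rw [if_neg h2, one_mul]
          simp [Finset.mem_insert, h2]
      rw [h1, ← PARAM.act_act, ih]
      funext j
      unfold act
      rw [sum_gl s]
      have h3 : ∀ (b : Fin r) (c : Col d r s),
          (∏ s', (if s' = s then Matrix.of (P s) else (1 : Matrix (Fin r) (Fin r) ℂ)) (j s') (gl s b c s')) *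
            lam (gl s b c) = if (fun s' : {s' // s' ≠ s} => j s') = c then P s (j s) b * lam (gl s b c) else 0 := by
        intro b c
        rw [Fintype.prod_eq_mul_prod_subtype_ne _ s, if_pos rfl, gl_same]
        by_cases hc : (fun s' : {s' // s' ≠ s} => j s') = c
        · rw [if_pos hc, Finset.prod_eq_one, mul_one]
          · rfl
          · intro s' _
            rw [if_neg s'.2, gl_off, ← hc, Matrix.one_apply_eq]
        · rw [if_neg hc]
          obtain ⟨s', hs'⟩ := Function.ne_iff.1 hc
          rw [Finset.prod_eq_zero (Finset.mem_univ s'), mul_zero, zero_mul]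
          rw [if_neg s'.2, gl_off, Matrix.one_apply, if_neg hs']
      simp_rw [h3]
      simp only [Finset.sum_ite_eq, Finset.mem_univ, if_true]
      rw [← h s (j s) (fun s' => j s'), gl_eta]
  have h1 := key Finset.univ
  rw [hact] at h1
  simpa using h1

theorem param (S : Finset (Fin d → Fin r)) (I : Fin d → Finset (Fin r))
    (κ : ∀ s, I s → Col d r s) (hκ : ∀ s, Function.Injective (κ s))
    (h : (S.filter fun j => ∀ s, j s ∈ I s).card + r * ∑ s, (I s).card < m * ∑ s, (I s).card) :
    ∃ Q : MvPolynomial (Σ s : Fin d, Fin m × Col d r s) ℂ, Q ≠ 0 ∧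
      ∀ (ω : (Σ s : Fin d, Fin m × Col d r s) → ℂ) (lam : (Fin d → Fin r) → ℂ)
        (P : Fin d → Fin r → Fin r → ℂ),
        (∀ j, j ∉ S → lam j = 0) →
        (∀ s, (Matrix.of fun i i' : I s => lam (gl s i (κ s i'))).det ≠ 0) →
        (∀ s a b, b ∉ I s → P s a b = 0) → (∀ s, ∀ a ∈ I s, ∀ b, P s a b = if a = b then 1 else 0) →
        (∀ s (i : Fin r) (c : Col d r s), lam (gl s i c) = ∑ b, P s i b * lam (gl s b c)) →
        (∀ s (i : Fin r) (q : Fin m), ∑ c : Col d r s, lam (gl s i c) * ω ⟨s, q, c⟩ = 0) →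
        MvPolynomial.eval ω Q = 0 := by
  classical
  let F : (Σ s : Fin d, Fin m × Col d r s) → MvPolynomial (Par m S I κ) ℂ := fun x => FR I κ
    (fun s a b => if hb : b ∈ I s then (if ha : a ∉ I s then
      MvPolynomial.X (Sum.inr (Sum.inl ⟨s, ⟨a, ha⟩, ⟨b, hb⟩⟩)) else (if a = b then 1 else 0)) else 0)
    (fun j => if hj : j ∈ S.filter fun j => ∀ s, j s ∈ I s then MvPolynomial.X (Sum.inl ⟨j, hj⟩) else 0)
    (fun s a b => MvPolynomial.X (Sum.inr (Sum.inr (Sum.inl ⟨s, a, b⟩))))
    (fun s q c => if hc : ¬ ∃ i, κ s i = c then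
      MvPolynomial.X (Sum.inr (Sum.inr (Sum.inr ⟨s, q, ⟨c, hc⟩⟩))) else 0) x.1 x.2.1 x.2.2
  obtain ⟨Q, hQ0, hQ⟩ := TRDEG.exists_poly_of_card_lt (card_par S I κ hκ h) F
  refine ⟨Q, hQ0, fun ω lam P hS hdet hP1 hP2 hP3 hker => ?_⟩
  let G : ∀ s, Matrix (I s) (I s) ℂ := fun s => Matrix.of fun i i' : I s => lam (gl s i (κ s i'))
  let x : Par m S I κ → ℂ := Sum.elim (fun j => lam j.1)
    (Sum.elim (fun p => P p.1 p.2.1 p.2.2)
      (Sum.elim (fun p => (G p.1)⁻¹ p.2.1 p.2.2) (fun p => ω ⟨p.1, p.2.1, p.2.2.1⟩)))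
  have hF : ∀ y, MvPolynomial.eval x (F y) = ω y := by
    rintro ⟨s, q, c⟩
    have e1 : MvPolynomial.eval x (F ⟨s, q, c⟩) = FR I κ P
        (fun j => if j ∈ S.filter fun j => ∀ s, j s ∈ I s then lam j else 0)
        (fun s a b => (G s)⁻¹ a b) (fun s q c => if ¬ ∃ i, κ s i = c then ω ⟨s, q, c⟩ else 0) s q c := by
      show (MvPolynomial.eval x) (FR I κ _ _ _ _ s q c) = _
      rw [map_FR]
      congr 1
      · funext s a b
        by_cases hb : b ∈ I s
        · by_cases ha : a ∉ I s
          · rw [dif_pos hb, dif_pos ha, MvPolynomial.eval_X]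
            rfl
          · rw [dif_pos hb, dif_neg ha, hP2 s a (not_not.1 ha) b]
            split_ifs
            · exact map_one _
            · exact map_zero _
        · rw [dif_neg hb, map_zero, hP1 s a b hb]
      · funext j
        by_cases hj : j ∈ S.filter fun j => ∀ s, j s ∈ I s
        · rw [dif_pos hj, if_pos hj, MvPolynomial.eval_X]
          rfl
        · rw [dif_neg hj, if_neg hj, map_zero]
      · funext s a b
        rw [MvPolynomial.eval_X]
        rfl
      · funext s q c
        by_cases hc : ¬ ∃ i, κ s i = c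
        · rw [dif_pos hc, if_pos hc, MvPolynomial.eval_X]
          rfl
        · rw [dif_neg hc, if_neg hc, map_zero]
    rw [e1]
    have hlam : lamR P (fun j => if j ∈ S.filter fun j => ∀ s, j s ∈ I s then lam j else 0) = lam := by
      refine Eq.trans ?_ (lam_eq P lam hP3)
      funext j
      unfold lamR
      refine Finset.sum_congr rfl fun i _ => ?_
      by_cases hi : ∀ s, i s ∈ I s
      · congr 1
        by_cases hiS : i ∈ S
        · exact if_pos (Finset.mem_filter.2 ⟨hiS, hi⟩)
        · exact (if_neg (fun h => hiS (Finset.mem_filter.1 h).1)).trans (hS i hiS).symm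
      · push Not at hi
        obtain ⟨s, hs⟩ := hi
        rw [Finset.prod_eq_zero (Finset.mem_univ s) (hP1 s _ _ hs), zero_mul, zero_mul]
    unfold FR
    rw [hlam]
    by_cases hc : ∃ i, κ s i = c
    · rw [dif_pos hc]
      have hch := hc.choose_spec
      set i0 := hc.choose with hi0
      -- the linear system
      have hsys : ∀ i' : I s, ∑ c' : Col d r s, (if ∃ i, κ s i = c' then 0 else
          lam (gl s i' c') * (if ¬ ∃ i, κ s i = c' then ω ⟨s, q, c'⟩ else 0)) =
          - ∑ i'' : I s, G s i' i'' * ω ⟨s, q, κ s i''⟩ := by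
        intro i'
        have h1 := hker s i' q
        rw [← Finset.sum_filter_add_sum_filter_not Finset.univ (fun c' => ∃ i, κ s i = c')] at h1
        have h2 : ∑ c' ∈ Finset.univ.filter (fun c' => ∃ i, κ s i = c'), lam (gl s i' c') * ω ⟨s, q, c'⟩ =
            ∑ i'' : I s, G s i' i'' * ω ⟨s, q, κ s i''⟩ := by
          have h3 : Finset.univ.filter (fun c' => ∃ i, κ s i = c') = Finset.univ.image (κ s) := by
            ext c'; simp
          rw [h3, Finset.sum_image (fun a _ b _ hab => hκ s hab)]
          rfl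
        rw [h2] at h1
        rw [eq_neg_iff_add_eq_zero, add_comm]
        refine Eq.trans ?_ h1
        congr 1
        rw [Finset.sum_filter]
        refine Finset.sum_congr rfl fun c' _ => ?_
        by_cases hc' : ∃ i, κ s i = c'
        · rw [if_pos hc', if_neg (not_not.2 hc')]
        · rw [if_neg hc', if_pos hc', if_pos hc']
      simp_rw [hsys]
      have h4 : (G s)⁻¹ * G s = 1 := Matrix.nonsing_inv_mul _ (isUnit_iff_ne_zero.2 (hdet s))
      rw [← Finset.sum_neg_distrib]
      simp_rw [← mul_neg, neg_neg, Finset.mul_sum]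
      rw [Finset.sum_comm]
      have h5 : ∀ i'' : I s, ∑ i' : I s, (G s)⁻¹ i0 i' * (G s i' i'' * ω ⟨s, q, κ s i''⟩) =
          if i0 = i'' then ω ⟨s, q, κ s i''⟩ else 0 := by
        intro i''
        have h6 := congrFun (congrFun h4 i0) i''
        rw [Matrix.mul_apply, Matrix.one_apply] at h6
        simp_rw [← mul_assoc]
        rw [← Finset.sum_mul, h6]
        split_ifs
        · rw [one_mul]
        · rw [zero_mul]
      rw [Finset.sum_congr rfl fun i'' _ => h5 i'']
      rw [Finset.sum_ite_eq, if_pos (Finset.mem_univ _), hch]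
    · rw [dif_neg hc]
      exact if_pos hc
  have h1 := hQ x
  have h2 : (fun i => MvPolynomial.eval x (F i)) = ω := funext hF
  rw [h2] at h1
  exact h1

end param

/-- generic injectivity -/
theorem hall_core {d r m : ℕ} (S : Finset (Fin d → Fin r))
    (hHall : ∀ I : Fin d → Finset (Fin r), (∀ s, (I s).Nonempty) →
      (S.filter fun j => ∀ s, j s ∈ I s).card + r * ∑ s, (I s).card < m * ∑ s, (I s).card) :
    ∃ W : Fin d → Fin m → (Fin d → Fin r) → ℂ,
      (∀ s q j j', (∀ s', s' ≠ s → j s' = j' s') → W s q j = W s q j') ∧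
      ∀ lam : (Fin d → Fin r) → ℂ, (∀ j, j ∉ S → lam j = 0) →
        (∀ (s : Fin d) (i : Fin r) (q : Fin m),
          ∑ j : Fin d → Fin r, (if j s = i then lam j * W s q j else 0) = 0) →
        lam = 0 := by
  classical
  -- the polynomials
  have hex : ∀ χ : (Σ I : Fin d → Finset (Fin r), ∀ s, I s → Col d r s),
      ∃ Q : MvPolynomial (Σ s : Fin d, Fin m × Col d r s) ℂ, Q ≠ 0 ∧
      ((∀ s, (χ.1 s).Nonempty) → (∀ s, Function.Injective (χ.2 s)) →
      ∀ (ω : (Σ s : Fin d, Fin m × Col d r s) → ℂ) (lam : (Fin d → Fin r) → ℂ)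
        (P : Fin d → Fin r → Fin r → ℂ),
        (∀ j, j ∉ S → lam j = 0) →
        (∀ s, (Matrix.of fun i i' : χ.1 s => lam (gl s i (χ.2 s i'))).det ≠ 0) →
        (∀ s a b, b ∉ χ.1 s → P s a b = 0) →
        (∀ s, ∀ a ∈ χ.1 s, ∀ b, P s a b = if a = b then 1 else 0) →
        (∀ s (i : Fin r) (c : Col d r s), lam (gl s i c) = ∑ b, P s i b * lam (gl s b c)) →
        (∀ s (i : Fin r) (q : Fin m), ∑ c : Col d r s, lam (gl s i c) * ω ⟨s, q, c⟩ = 0) →
        MvPolynomial.eval ω Q = 0) := by
    rintro ⟨I, κ⟩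
    by_cases h1 : (∀ s, (I s).Nonempty) ∧ ∀ s, Function.Injective (κ s)
    · obtain ⟨Q, hQ0, hQ⟩ := param S I κ h1.2 (hHall I h1.1)
      exact ⟨Q, hQ0, fun _ _ => hQ⟩
    · exact ⟨1, one_ne_zero, fun h2 h3 => absurd ⟨h2, h3⟩ h1⟩
  choose Q hQ0 hQ using hex
  have : Fintype (Σ I : Fin d → Finset (Fin r), ∀ s, I s → Col d r s) := Fintype.ofFinite _
  have hprod : ∏ χ, Q χ ≠ 0 := Finset.prod_ne_zero_iff.2 fun χ _ => hQ0 χ
  obtain ⟨ω, hω⟩ : ∃ ω, MvPolynomial.eval ω (∏ χ, Q χ) ≠ 0 := by
    by_contra hcon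
    push Not at hcon
    exact hprod (MvPolynomial.funext fun x => by rw [hcon x, map_zero])
  refine ⟨fun s q j => ω ⟨s, q, fun s' => j s'⟩, fun s q j j' hjj => ?_, fun lam hS hker => ?_⟩
  · have h1 : (fun s' : {s' : Fin d // s' ≠ s} => j s'.1) = (fun s' => j' s'.1) :=
      funext fun s' => hjj s'.1 s'.2
    show ω ⟨s, q, fun s' : {s' : Fin d // s' ≠ s} => j s'.1⟩ =
      ω ⟨s, q, fun s' : {s' : Fin d // s' ≠ s} => j' s'.1⟩
    rw [h1]
  by_contra hlam
  have hne : ∀ s, (fun (i : Fin r) (c : Col d r s) => lam (gl s i c)) ≠ 0 := by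
    intro s h0
    apply hlam
    funext j
    have := congrFun (congrFun h0 (j s)) (fun s' => j s')
    rw [gl_eta] at this
    exact this
  choose I κ P hI hdet hP1 hP2 hP3 using fun s => exists_pivot _ (hne s)
  have hκ : ∀ s, Function.Injective (κ s) := by
    intro s a b hab
    by_contra hne'
    exact hdet s (Matrix.det_zero_of_column_eq hne' fun i => by
      rw [Matrix.of_apply, Matrix.of_apply, hab])
  rw [map_prod, Finset.prod_ne_zero_iff] at hω
  apply hω ⟨I, κ⟩ (Finset.mem_univ _)
  refine hQ ⟨I, κ⟩ hI hκ ω lam P hS hdet hP1 hP2 hP3 fun s i q => ?_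
  have h1 := hker s i q
  rw [sum_gl s, Finset.sum_eq_single i] at h1
  · rw [← h1]
    refine Finset.sum_congr rfl fun c _ => ?_
    rw [gl_same, if_pos rfl]
    have h2 : (fun s' : {s' : Fin d // s' ≠ s} => gl s i c s'.1) = c := funext fun s' => gl_off s i c s'
    show lam (gl s i c) * ω ⟨s, q, c⟩ = lam (gl s i c) *
      ω ⟨s, q, fun s' : {s' : Fin d // s' ≠ s} => gl s i c s'.1⟩
    rw [h2]
  · intro i' _ hne'
    refine Finset.sum_eq_zero fun c _ => ?_
    rw [gl_same, if_neg hne']
  · intro h; exact absurd (Finset.mem_univ i) h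

end BSR.H1B
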