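import Mathlib

set_option autoImplicit false

/-! The image of a dominant polynomial map contains a nonempty Zariski-open set. -/

namespace BSR.H2OB

open PrimeSpectrum in
theorem exists_open_of_injective {π ι : Type} [Fintype π] [Fintype ι]
    (F : ι → MvPolynomial π ℂ)
    (hinj : Function.Injective (MvPolynomial.aeval F : MvPolynomial ι ℂ →ₐ[ℂ] MvPolynomial π ℂ))
    (Q : MvPolynomial π ℂ) (hQ : Q ≠ 0) :
    ∃ P : MvPolynomial ι ℂ, P ≠ 0 ∧ ∀ y : ι → ℂ, MvPolynomial.eval y P ≠ 0 →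
      ∃ x : π → ℂ, (∀ i, MvPolynomial.eval x (F i) = y i) ∧ MvPolynomial.eval x Q ≠ 0 := by
  set φ : MvPolynomial ι ℂ →+* MvPolynomial π ℂ :=
    ((MvPolynomial.aeval F : MvPolynomial ι ℂ →ₐ[ℂ] MvPolynomial π ℂ) :
      MvPolynomial ι ℂ →+* MvPolynomial π ℂ) with hφ
  have hφinj : Function.Injective φ := hinj
  have hft : φ.FiniteType := by
    refine RingHom.FiniteType.of_comp_finiteType (f := algebraMap ℂ (MvPolynomial ι ℂ)) ?_
    have h1 : φ.comp (algebraMap ℂ (MvPolynomial ι ℂ)) = algebraMap ℂ (MvPolynomial π ℂ) :=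
      (MvPolynomial.aeval F : MvPolynomial ι ℂ →ₐ[ℂ] MvPolynomial π ℂ).comp_algebraMap
    rw [h1]
    exact RingHom.finiteType_algebraMap.2 inferInstance
  have hfp : φ.FinitePresentation := RingHom.FinitePresentation.of_finiteType.1 hft
  have hcon : Topology.IsConstructible
      ((PrimeSpectrum.comap φ) '' (basicOpen Q : Set (PrimeSpectrum (MvPolynomial π ℂ)))) :=
    isConstructible_comap_image hfp (isConstructible_basicOpen)
  obtain ⟨S, hS⟩ := exists_constructibleSetData_iff.2 hcon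
  -- the generic point
  let ηx : PrimeSpectrum (MvPolynomial π ℂ) := ⟨⊥, Ideal.isPrime_bot⟩
  let ηy : PrimeSpectrum (MvPolynomial ι ℂ) := ⟨⊥, Ideal.isPrime_bot⟩
  have hη : PrimeSpectrum.comap φ ηx = ηy := by
    ext p
    simp only [PrimeSpectrum.comap_asIdeal, Ideal.mem_comap, ηx, ηy, Ideal.mem_bot]
    exact map_eq_zero_iff φ hφinj
  have hmem : ηy ∈ S.toSet := by
    rw [hS]
    refine ⟨ηx, ?_, hη⟩
    rw [SetLike.mem_coe, mem_basicOpen]
    exact hQ
  rw [ConstructibleSetData.toSet, Set.mem_iUnion₂] at hmem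
  obtain ⟨Cd, hCd, hmemC⟩ := hmem
  have hf : Cd.f ≠ 0 := by
    intro h0
    apply hmemC.2
    rw [mem_zeroLocus, Set.singleton_subset_iff, h0]
    exact Ideal.zero_mem _
  have hg : ∀ i, Cd.g i = 0 := by
    intro i
    have h1 := hmemC.1
    rw [mem_zeroLocus] at h1
    have h2 := h1 (Set.mem_range_self i)
    simpa [ηy] using h2
  refine ⟨Cd.f, hf, fun y hy => ?_⟩
  -- the point of the spectrum given by `y`
  let my : PrimeSpectrum (MvPolynomial ι ℂ) :=
    ⟨RingHom.ker (MvPolynomial.eval y), RingHom.ker_isPrime _⟩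
  have hmy : my ∈ S.toSet := by
    rw [ConstructibleSetData.toSet, Set.mem_iUnion₂]
    refine ⟨Cd, hCd, ?_, ?_⟩
    · rw [mem_zeroLocus]
      rintro _ ⟨i, rfl⟩
      rw [hg i]
      exact Ideal.zero_mem _
    · intro h0
      rw [mem_zeroLocus, Set.singleton_subset_iff] at h0
      exact hy h0
  rw [hS] at hmy
  obtain ⟨q, hqQ, hq⟩ := hmy
  have hQq : Q ∉ q.asIdeal := by
    rw [SetLike.mem_coe, mem_basicOpen] at hqQ
    exact hqQ
  have hqp : q.asIdeal.IsPrime := q.isPrime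
  have hex : ∃ x ∈ MvPolynomial.zeroLocus ℂ q.asIdeal, MvPolynomial.eval x Q ≠ 0 := by
    by_contra hcon
    push Not at hcon
    apply hQq
    rw [← MvPolynomial.IsPrime.vanishingIdeal_zeroLocus (K := ℂ) q.asIdeal,
      MvPolynomial.mem_vanishingIdeal_iff]
    intro x hx
    have := hcon x hx
    simpa [MvPolynomial.aeval_eq_eval] using this
  obtain ⟨x, hx, hxQ⟩ := hex
  refine ⟨x, fun i => ?_, hxQ⟩
  have h1 : (MvPolynomial.X i - MvPolynomial.C (y i) : MvPolynomial ι ℂ) ∈ my.asIdeal := by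
    show MvPolynomial.eval y _ = 0
    simp
  rw [← hq, PrimeSpectrum.comap_asIdeal, Ideal.mem_comap] at h1
  rw [MvPolynomial.mem_zeroLocus_iff] at hx
  have h2 := hx _ h1
  have h3 : φ (MvPolynomial.X i - MvPolynomial.C (y i)) = F i - MvPolynomial.C (y i) := by
    rw [map_sub]
    congr 1
    · simp [hφ]
    · simp [hφ]
  rw [h3] at h2
  have h4 : MvPolynomial.eval x (F i) - y i = 0 := by
    simpa [MvPolynomial.aeval_eq_eval] using h2
  exact sub_eq_zero.1 h4

end BSR.H2OB
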