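import Mathlib

set_option autoImplicit false

open scoped BigOperators

namespace BSR.H3BB

/-- tangent line inequality -/
lemma tang (n : ℕ) {x y : ℝ} (hx : 0 ≤ x) (hy : 0 ≤ y) :
    y ^ (n + 1) + (n + 1) * y ^ n * (x - y) ≤ x ^ (n + 1) := by
  induction n with
  | zero => simp
  | succ n ih =>
    have h1 := mul_le_mul_of_nonneg_left ih hx
    have h2 : 0 ≤ ((n : ℝ) + 1) * (y ^ n * (x - y) ^ 2) := by positivity
    have e1 : x ^ (n + 1 + 1) = x * x ^ (n + 1) := by ring
    rw [e1]
    push_cast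
    have e2 : x * (y ^ (n + 1) + (n + 1) * y ^ n * (x - y)) -
        (y ^ (n + 1 + 1) + ((n : ℝ) + 1 + 1) * y ^ (n + 1) * (x - y)) =
        ((n : ℝ) + 1) * (y ^ n * (x - y) ^ 2) := by ring
    linarith

lemma amgm (a : ℕ) {p q : ℝ} (hp : 0 ≤ p) (hq : 0 ≤ q) :
    p ^ a * q ≤ ((a * p + q) / (a + 1)) ^ (a + 1) := by
  have hm : 0 ≤ (a * p + q) / ((a : ℝ) + 1) := by positivity
  have h := tang a hm hp
  have e : p ^ (a + 1) + (a + 1) * p ^ a * ((a * p + q) / ((a : ℝ) + 1) - p) = p ^ a * q := by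
    field_simp
    ring
  linarith

section

variable {ι : Type*} [DecidableEq ι]

/-- Maclaurin's inequality for the elementary symmetric polynomials of degree `n` and `n - 1` -/
lemma macl (a : ι → ℝ) (ha : ∀ i, 0 ≤ a i) (s : Finset ι) (hs : s.Nonempty) :
    ∀ n : ℕ, s.card = n + 1 →
      ∏ i ∈ s, a i ≤ ((∑ i ∈ s, a i) / (n + 1)) ^ (n + 1) ∧
      ∑ t ∈ s, ∏ i ∈ s.erase t, a i ≤ (n + 1) * ((∑ i ∈ s, a i) / (n + 1)) ^ n := by
  induction hs using Finset.Nonempty.cons_induction with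
  | singleton j =>
    intro n hn
    have h0 : n = 0 := by simpa using hn.symm
    subst h0
    simp
  | cons j s hj hs ih =>
    intro n' hn'
    rw [Finset.card_cons] at hn'
    obtain ⟨n, hn⟩ : ∃ n, s.card = n + 1 := ⟨s.card - 1, by
      have := hs.card_pos
      omega⟩
    have hn2 : n' = n + 1 := by omega
    subst hn2
    obtain ⟨h1, h2⟩ := ih n hn
    set S := ∑ i ∈ s, a i with hS
    have hS0 : 0 ≤ S := Finset.sum_nonneg fun i _ => ha i
    set u := S / ((n : ℝ) + 1) with hu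
    have hu0 : 0 ≤ u := by positivity
    have hSu : S = (n + 1) * u := by
      rw [hu]
      field_simp
    set x := a j with hx
    have hx0 : 0 ≤ x := ha j
    rw [Finset.sum_cons, Finset.prod_cons, Finset.sum_cons]
    have hE : ∑ t ∈ s, ∏ i ∈ (Finset.cons j s hj).erase t, a i =
        x * ∑ t ∈ s, ∏ i ∈ s.erase t, a i := by
      rw [Finset.mul_sum]
      refine Finset.sum_congr rfl fun t ht => ?_
      have hjt : j ≠ t := fun h => hj (h ▸ ht)
      have e1 : (Finset.cons j s hj).erase t = Finset.cons j (s.erase t)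
          (fun h => hj (Finset.mem_of_mem_erase h)) := by
        ext z
        simp only [Finset.mem_erase, Finset.mem_cons]
        constructor
        · rintro ⟨h1, h2 | h2⟩
          · exact Or.inl h2
          · exact Or.inr ⟨h1, h2⟩
        · rintro (h1 | ⟨h1, h2⟩)
          · exact ⟨h1 ▸ hjt, Or.inl h1⟩
          · exact ⟨h1, Or.inr h2⟩
      rw [e1, Finset.prod_cons]
    have hE0 : ∏ i ∈ (Finset.cons j s hj).erase j, a i = ∏ i ∈ s, a i := by
      congr 1
      ext z
      simp only [Finset.mem_erase, Finset.mem_cons]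
      constructor
      · rintro ⟨h1, h2 | h2⟩
        · exact absurd h2 h1
        · exact h2
      · intro h
        exact ⟨fun h' => hj (h' ▸ h), Or.inr h⟩
    rw [hE, hE0]
    push_cast
    have hU : (x + S) / ((n : ℝ) + 1 + 1) = ((n + 1) * u + x) / (n + 2) := by
      rw [hSu]
      ring
    rw [hU]
    constructor
    · have h3 := amgm (n + 1) hu0 hx0
      have e : (((n + 1 : ℕ) : ℝ) * u + x) / (((n + 1 : ℕ) : ℝ) + 1) =
          ((n + 1) * u + x) / (n + 2) := by
        push_cast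
        ring
      rw [e] at h3
      calc x * ∏ i ∈ s, a i ≤ x * u ^ (n + 1) := mul_le_mul_of_nonneg_left h1 hx0
        _ = u ^ (n + 1) * x := by ring
        _ ≤ _ := h3
    · have h3 := amgm n (p := (n + 2) * u) (q := (n + 1) * x + u) (by positivity) (by positivity)
      have e : ((n : ℝ) * ((n + 2) * u) + ((n + 1) * x + u)) / ((n : ℝ) + 1) =
          (n + 1) * u + x := by
        field_simp
        ring
      rw [e] at h3
      have hpos : (0 : ℝ) < ((n : ℝ) + 2) ^ n := by positivity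
      have h4 : u ^ n * ((n + 1) * x + u) ≤
          ((n : ℝ) + 1 + 1) * (((n + 1) * u + x) / (n + 2)) ^ (n + 1) := by
        clear_value u
        have e6 : ((((n : ℝ) + 1) * u + x) / ((n : ℝ) + 2)) ^ (n + 1) =
            (((n : ℝ) + 1) * u + x) ^ (n + 1) / ((n : ℝ) + 2) ^ (n + 1) := div_pow _ _ _
        rw [e6, mul_div_assoc', le_div_iff₀ (by positivity)]
        calc u ^ n * ((n + 1) * x + u) * ((n : ℝ) + 2) ^ (n + 1)
            = ((n : ℝ) + 2) * (((n + 2) * u) ^ n * ((n + 1) * x + u)) := by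
              rw [mul_pow]
              ring
          _ ≤ ((n : ℝ) + 2) * ((n + 1) * u + x) ^ (n + 1) :=
              mul_le_mul_of_nonneg_left h3 (by positivity)
          _ = ((n : ℝ) + 1 + 1) * ((n + 1) * u + x) ^ (n + 1) := by ring
      calc ∏ i ∈ s, a i + x * ∑ t ∈ s, ∏ i ∈ s.erase t, a i
          ≤ u ^ (n + 1) + x * ((n + 1) * u ^ n) :=
            add_le_add h1 (mul_le_mul_of_nonneg_left h2 hx0)
        _ = u ^ n * ((n + 1) * x + u) := by ring
        _ ≤ _ := h4

end

/-- the antiderivative of `min u y ^ n` -/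
noncomputable def G (n : ℕ) (y u : ℝ) : ℝ :=
  min u y ^ (n + 1) / (n + 1) + y ^ n * (u - min u y)

lemma G_step (n : ℕ) {y u v : ℝ} (hy : 0 ≤ y) (hu : 0 ≤ u) (huv : u ≤ v) :
    min u y ^ n * (v - u) ≤ G n y v - G n y u := by
  unfold G
  have h1 : min u y ≤ min v y := min_le_min_right y huv
  have h0 : 0 ≤ min u y := le_min hu hy
  have h2 : min u y ≤ y := min_le_right u y
  have h3 := tang n (h0.trans h1) h0
  have h4 : u - min u y ≤ v - min v y := by
    rcases le_total u y with h | h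
    · rw [min_eq_left h]
      have := min_le_left v y
      linarith
    · rw [min_eq_right h, min_eq_right (h.trans huv)]
      linarith
  have h5 : min u y ^ n ≤ y ^ n := pow_le_pow_left₀ h0 h2 n
  have h6 : min u y ^ n * ((v - min v y) - (u - min u y)) ≤
      y ^ n * ((v - min v y) - (u - min u y)) :=
    mul_le_mul_of_nonneg_right h5 (by linarith)
  have h7 : min u y ^ n * (min v y - min u y) ≤
      min v y ^ (n + 1) / (n + 1) - min u y ^ (n + 1) / (n + 1) := by
    rw [← sub_div, le_div_iff₀ (by positivity)]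
    linarith
  nlinarith

lemma G_sum (n : ℕ) {y c : ℝ} (hy : 0 ≤ y) (hc : 0 ≤ c) (N : ℕ) :
    ∑ k ∈ Finset.range N, c * min (c * (k + 1)) y ^ n ≤ G n y (c * (N + 1)) := by
  have h0 : 0 ≤ G n y c := by
    unfold G
    have h1 : 0 ≤ min c y := le_min hc hy
    have h2 : 0 ≤ c - min c y := sub_nonneg.2 (min_le_left c y)
    positivity
  have key : ∀ N : ℕ, ∑ k ∈ Finset.range N, c * min (c * (k + 1)) y ^ n ≤
      G n y (c * (N + 1)) - G n y c := by
    intro N
    induction N with
    | zero => simp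
    | succ N ih =>
      rw [Finset.sum_range_succ]
      have h1 := G_step n (y := y) (u := c * (N + 1)) (v := c * (((N + 1 : ℕ) : ℝ) + 1)) hy
        (by positivity) (by push_cast; nlinarith)
      have e : c * (((N + 1 : ℕ) : ℝ) + 1) - c * (N + 1) = c := by push_cast; ring
      rw [e] at h1
      linarith
  linarith [key N]

/-- the numerical inequality -/
lemma fin_ineq (e : ℕ) {y R : ℝ} (hy : 0 ≤ y) (hyR : y ≤ R) :
    (((e : ℝ) + 2) * (e + 4)) * (y ^ (e + 3) / (e + 3) + y ^ (e + 2) * (R - y)) ≤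
      R ^ (e + 2) * ((e + 3) * y) := by
  -- here `d = e + 3`, `n = e + 2`
  have hR : 0 ≤ R := hy.trans hyR
  have hq : 0 ≤ R - (e + 2) * y / (e + 3) := by
    have : ((e : ℝ) + 2) * y / (e + 3) ≤ y := by
      rw [div_le_iff₀ (by positivity)]
      nlinarith
    linarith
  have h1 := amgm (e + 1) (p := (e + 2) * y / ((e + 3) * (e + 1))) (q := R - (e + 2) * y / (e + 3))
    (by positivity) hq
  have e1 : (((e + 1 : ℕ) : ℝ) * ((e + 2) * y / ((e + 3) * (e + 1))) +
      (R - (e + 2) * y / (e + 3))) / (((e + 1 : ℕ) : ℝ) + 1) = R / (e + 2) := by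
    push_cast
    field_simp
    ring
  rw [e1] at h1
  -- the constant
  have h2 : ((e : ℝ) + 4) * ((e + 3) * (e + 1)) ^ (e + 1) ≤ (e + 3) * ((e + 2) ^ 2) ^ (e + 1) := by
    have h3 := tang e (x := ((e : ℝ) + 2) ^ 2) (y := (e + 3) * (e + 1)) (by positivity)
      (by positivity)
    have e2 : ((e : ℝ) + 2) ^ 2 - (e + 3) * (e + 1) = 1 := by ring
    rw [e2, mul_one] at h3
    have h4 := mul_le_mul_of_nonneg_left h3 (by positivity : (0 : ℝ) ≤ e + 3)
    have e3 : ((e : ℝ) + 3) * (((e + 3) * (e + 1)) ^ (e + 1) + (e + 1) * ((e + 3) * (e + 1)) ^ e) =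
        (e + 4) * ((e + 3) * (e + 1)) ^ (e + 1) := by
      rw [pow_succ]
      ring
    rw [e3] at h4
    exact h4
  have h5 : y ^ (e + 1) * (R - (e + 2) * y / (e + 3)) * ((e + 2) ^ (e + 1) * (e + 2) ^ (e + 2)) ≤
      ((e + 3) * (e + 1)) ^ (e + 1) * R ^ (e + 2) := by
    rw [div_pow, mul_pow, div_pow, div_mul_eq_mul_div, div_le_div_iff₀ (by positivity)
      (by positivity)] at h1
    nlinarith [h1]
  have e4 : y ^ (e + 3) / (e + 3) + y ^ (e + 2) * (R - y) =
      y * (y ^ (e + 1) * (R - (e + 2) * y / (e + 3))) := by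
    field_simp
    ring
  rw [e4]
  set W := y ^ (e + 1) * (R - (e + 2) * y / (e + 3)) with hW
  have hW0 : 0 ≤ W := by positivity
  have hP : (0 : ℝ) < ((e : ℝ) + 2) ^ (e + 1) * (e + 2) ^ (e + 1) := by positivity
  have h6 : ((e : ℝ) + 2) * (e + 4) * W ≤ R ^ (e + 2) * (e + 3) := by
    refine le_of_mul_le_mul_right ?_ hP
    calc ((e : ℝ) + 2) * (e + 4) * W * ((e + 2) ^ (e + 1) * (e + 2) ^ (e + 1))
        = (e + 4) * (W * ((e + 2) ^ (e + 1) * (e + 2) ^ (e + 2))) := by
          rw [pow_succ ((e : ℝ) + 2) (e + 1)]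
          ring
      _ ≤ (e + 4) * (((e + 3) * (e + 1)) ^ (e + 1) * R ^ (e + 2)) :=
          mul_le_mul_of_nonneg_left h5 (by positivity)
      _ = R ^ (e + 2) * ((e + 4) * ((e + 3) * (e + 1)) ^ (e + 1)) := by ring
      _ ≤ R ^ (e + 2) * ((e + 3) * ((e + 2) ^ 2) ^ (e + 1)) :=
          mul_le_mul_of_nonneg_left h2 (by positivity)
      _ = R ^ (e + 2) * (e + 3) * ((e + 2) ^ (e + 1) * (e + 2) ^ (e + 1)) := by
          rw [← pow_mul, two_mul, pow_add]
          ring
  nlinarith [mul_le_mul_of_nonneg_right h6 hy]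

/-- sums over blocks -/
lemma sum_blocks (d : ℕ) (f : ℕ → ℝ) (N : ℕ) :
    ∑ M ∈ Finset.range (d * N), f M =
      ∑ k ∈ Finset.range N, ∑ t ∈ Finset.range d, f (d * k + t) := by
  induction N with
  | zero => simp
  | succ N ih => rw [Nat.mul_succ, Finset.sum_range_add, ih, Finset.sum_range_succ]

theorem sum_ineq {d r : ℕ} (hd : 3 ≤ d) (x : Fin d → ℕ) (hx : ∀ s, x s ≤ r) :
    (d ^ 2 - 1) * ∑ M ∈ Finset.range r, ∏ s : Fin d,
        (if (s : ℕ) = M % d then 1 else min (M + 1) (x s)) ≤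
      (r + 2 * d) ^ (d - 1) * ∑ s, x s := by
  obtain ⟨e, rfl⟩ : ∃ e, d = e + 3 := ⟨d - 3, by omega⟩
  have hd1 : (e + 3) ^ 2 - 1 = (e + 2) * (e + 4) := by
    have h : (e + 3) ^ 2 = (e + 2) * (e + 4) + 1 := by ring
    omega
  have hd2 : e + 3 - 1 = e + 2 := by omega
  rw [hd1, hd2]
  set f : ℕ → ℝ := fun M => ∏ s : Fin (e + 3),
    (if (s : ℕ) = M % (e + 3) then (1 : ℝ) else min ((M : ℝ) + 1) (x s)) with hf
  have hf0 : ∀ M, 0 ≤ f M := by
    intro M
    refine Finset.prod_nonneg fun s _ => ?_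
    split_ifs
    · exact zero_le_one
    · exact le_min (by positivity) (by positivity)
  have hcast : ((∑ M ∈ Finset.range r, ∏ s : Fin (e + 3),
      (if (s : ℕ) = M % (e + 3) then 1 else min (M + 1) (x s)) : ℕ) : ℝ) =
      ∑ M ∈ Finset.range r, f M := by
    rw [Nat.cast_sum]
    refine Finset.sum_congr rfl fun M _ => ?_
    rw [Nat.cast_prod]
    refine Finset.prod_congr rfl fun s _ => ?_
    split_ifs
    · simp
    · push_cast
      rfl
  set N := r / (e + 3) + 1 with hN
  have hdN : r ≤ (e + 3) * N := by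
    rw [hN]
    have := Nat.lt_mul_div_succ r (show 0 < e + 3 by omega)
    exact this.le
  have hdN2 : (e + 3) * (N + 1) ≤ r + 2 * (e + 3) := by
    rw [hN]
    have := Nat.mul_div_le r (e + 3)
    nlinarith
  set X : ℝ := ∑ s, (x s : ℝ) with hX
  have hX0 : 0 ≤ X := Finset.sum_nonneg fun s _ => by positivity
  set y : ℝ := X / (e + 3) with hy
  have hy0 : 0 ≤ y := by positivity
  have hXy : X = (e + 3) * y := by
    rw [hy]
    field_simp
  have hyr : y ≤ r := by
    rw [hy, div_le_iff₀ (by positivity)]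
    calc X ≤ ∑ _s : Fin (e + 3), (r : ℝ) :=
          Finset.sum_le_sum fun s _ => by exact_mod_cast hx s
      _ = r * (e + 3) := by
        rw [Finset.sum_const, Finset.card_univ, Fintype.card_fin, nsmul_eq_mul]
        push_cast
        ring
  -- one block
  have hblock : ∀ k : ℕ, ∑ t ∈ Finset.range (e + 3), f ((e + 3) * k + t) ≤
      ((e : ℝ) + 3) * min (((e : ℝ) + 3) * (k + 1)) y ^ (e + 2) := by
    intro k
    set c : ℝ := ((e : ℝ) + 3) * (k + 1) with hc
    have hc0 : 0 ≤ c := by positivity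
    set a : Fin (e + 3) → ℝ := fun s => min c (x s) with ha
    have ha0 : ∀ s, 0 ≤ a s := fun s => le_min hc0 (by positivity)
    have h1 : ∀ t : Fin (e + 3), f ((e + 3) * k + t) ≤ ∏ s ∈ Finset.univ.erase t, a s := by
      intro t
      have ht : ((e + 3) * k + (t : ℕ)) % (e + 3) = t := by
        rw [Nat.mul_add_mod]
        exact Nat.mod_eq_of_lt t.2
      rw [hf]
      simp only
      rw [ht, ← Finset.mul_prod_erase Finset.univ _ (Finset.mem_univ t)]
      simp only [if_true, one_mul]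
      refine Finset.prod_le_prod (fun s _ => ?_) fun s hs => ?_
      · split_ifs
        · exact zero_le_one
        · exact le_min (by positivity) (by positivity)
      · have hst : (s : ℕ) ≠ t := fun h => (Finset.ne_of_mem_erase hs) (Fin.ext h)
        rw [if_neg hst]
        refine min_le_min_right _ ?_
        rw [hc]
        have : (t : ℕ) + 1 ≤ e + 3 := t.2
        have h2 : ((t : ℕ) : ℝ) + 1 ≤ (e : ℝ) + 3 := by exact_mod_cast this
        push_cast
        nlinarith
    have h2 := (macl a ha0 Finset.univ Finset.univ_nonempty (e + 2) (by simp)).2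
    have h3 : (∑ s, a s) / (((e + 2 : ℕ) : ℝ) + 1) ≤ min c y := by
      have e3 : (((e + 2 : ℕ) : ℝ) + 1) = (e : ℝ) + 3 := by push_cast; ring
      rw [e3]
      refine le_min ?_ ?_
      · rw [div_le_iff₀ (by positivity)]
        calc ∑ s, a s ≤ ∑ _s : Fin (e + 3), c :=
              Finset.sum_le_sum fun s _ => min_le_left _ _
          _ = c * (e + 3) := by
            rw [Finset.sum_const, Finset.card_univ, Fintype.card_fin, nsmul_eq_mul]
            push_cast
            ring
      · rw [hy]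
        refine div_le_div_of_nonneg_right ?_ (by positivity)
        exact Finset.sum_le_sum fun s _ => min_le_right _ _
    have h4 : 0 ≤ (∑ s, a s) / (((e + 2 : ℕ) : ℝ) + 1) := by
      have : 0 ≤ ∑ s, a s := Finset.sum_nonneg fun s _ => ha0 s
      positivity
    calc ∑ t ∈ Finset.range (e + 3), f ((e + 3) * k + t)
        = ∑ t : Fin (e + 3), f ((e + 3) * k + t) :=
          Finset.sum_range fun t => f ((e + 3) * k + t)
      _ ≤ ∑ t : Fin (e + 3), ∏ s ∈ Finset.univ.erase t, a s := Finset.sum_le_sum fun t _ => h1 t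
      _ ≤ _ := h2
      _ ≤ (((e + 2 : ℕ) : ℝ) + 1) * min c y ^ (e + 2) :=
          mul_le_mul_of_nonneg_left (pow_le_pow_left₀ h4 h3 _) (by positivity)
      _ = _ := by push_cast; ring
  have hsum : ∑ M ∈ Finset.range r, f M ≤ G (e + 2) y (r + 2 * (e + 3)) := by
    calc ∑ M ∈ Finset.range r, f M ≤ ∑ M ∈ Finset.range ((e + 3) * N), f M :=
          Finset.sum_le_sum_of_subset_of_nonneg (Finset.range_mono hdN) fun M _ _ => hf0 M
      _ = _ := sum_blocks (e + 3) f N
      _ ≤ ∑ k ∈ Finset.range N, ((e : ℝ) + 3) * min (((e : ℝ) + 3) * (k + 1)) y ^ (e + 2) :=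
          Finset.sum_le_sum fun k _ => hblock k
      _ ≤ G (e + 2) y (((e : ℝ) + 3) * (N + 1)) := G_sum (e + 2) hy0 (by positivity) N
      _ ≤ G (e + 2) y (r + 2 * (e + 3)) := by
          have h5 : ((e : ℝ) + 3) * (N + 1) ≤ r + 2 * (e + 3) := by exact_mod_cast hdN2
          have h6 := G_step (e + 2) hy0 (by positivity : (0 : ℝ) ≤ ((e : ℝ) + 3) * (N + 1)) h5
          have h7 : 0 ≤ min (((e : ℝ) + 3) * (N + 1)) y ^ (e + 2) *
              ((r + 2 * ((e : ℝ) + 3)) - ((e : ℝ) + 3) * (N + 1)) := by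
            refine mul_nonneg (pow_nonneg (le_min (by positivity) hy0) _) (by linarith)
          linarith
  have hyR : y ≤ (r : ℝ) + 2 * (e + 3) := by
    have : (0 : ℝ) ≤ 2 * (e + 3) := by positivity
    linarith
  have hG : G (e + 2) y ((r : ℝ) + 2 * (e + 3)) =
      y ^ (e + 3) / (e + 3) + y ^ (e + 2) * ((r : ℝ) + 2 * (e + 3) - y) := by
    unfold G
    rw [min_eq_right hyR]
    push_cast
    ring
  have hfin := fin_ineq e hy0 hyR
  rw [← hG, ← hXy] at hfin
  have hreal : (((e : ℝ) + 2) * (e + 4)) * ∑ M ∈ Finset.range r, f M ≤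
      ((r : ℝ) + 2 * (e + 3)) ^ (e + 2) * X :=
    (mul_le_mul_of_nonneg_left hsum (by positivity)).trans hfin
  rw [← hcast] at hreal
  have hXc : X = ((∑ s, x s : ℕ) : ℝ) := by
    rw [hX]
    push_cast
    rfl
  rw [hXc] at hreal
  exact_mod_cast hreal

end BSR.H3BB
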