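import Pool.Agent.BSR.Load618
import Pool.Agent.BSR.Basic618

/-!
Blow up, monotonicity and a lower bound for the load of a weight pattern.
-/

set_option autoImplicit false

namespace BSR.LOADB

open scoped BigOperators

private lemma sum_coord {d k : ℕ} (s : Fin d) (g : Fin k → ℕ) :
    ∑ t : Fin d → Fin k, g (t s) = k ^ (d - 1) * ∑ τ, g τ := by
  have h1 := Finset.prod_univ_sum (fun _ : Fin d => (Finset.univ : Finset (Fin k)))
    (fun s' τ => if s' = s then g τ else 1)
  rw [Fintype.piFinset_univ] at h1
  have h2 : ∀ t : Fin d → Fin k, ∏ s', (if s' = s then g (t s') else 1) = g (t s) := by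
    intro t
    rw [Finset.prod_eq_single s]
    · rw [if_pos rfl]
    · intro b _ hb
      rw [if_neg hb]
    · intro h
      exact absurd (Finset.mem_univ _) h
  simp only [h2] at h1
  rw [← h1, ← Finset.mul_prod_erase Finset.univ _ (Finset.mem_univ s)]
  have h3 : ∏ s' ∈ Finset.univ.erase s, ∑ τ : Fin k, (if s' = s then g τ else 1) =
      k ^ (d - 1) := by
    have h4 : ∀ s' ∈ Finset.univ.erase s, ∑ τ : Fin k, (if s' = s then g τ else 1) = k := by
      intro s' hs'
      simp [Finset.ne_of_mem_erase hs']
    rw [Finset.prod_congr rfl h4, Finset.prod_const, Finset.card_erase_of_mem (Finset.mem_univ s),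
      Finset.card_univ, Fintype.card_fin]
  rw [h3]
  simp only [if_true]
  ring

theorem blowup {d r m : ℕ} (hd : 0 < d) (k : ℕ) (h : Feasible d r m) :
    Feasible d (k * r) (k ^ (d - 1) * m) := by
  classical
  have _ := hd
  obtain ⟨a, ha, hI⟩ := h
  refine ⟨fun s p => a s (finProdFinEquiv.symm p).2, fun l => ha _, ?_⟩
  intro I
  set K : Fin k → Fin d → Finset (Fin r) := fun τ s =>
    Finset.univ.filter fun l => finProdFinEquiv (τ, l) ∈ I s with hK
  have h1 : load (fun s p => a s (finProdFinEquiv.symm p).2) I ≤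
      ∑ t : Fin d → Fin k, load a (fun s => K (t s) s) := by
    unfold load
    rw [Finset.card_eq_sum_card_fiberwise (t := (Finset.univ : Finset (Fin d → Fin k)))
      (f := fun (j : Fin d → Fin (k * r)) s => (finProdFinEquiv.symm (j s)).1)
      (fun _ _ => Finset.mem_coe.2 (Finset.mem_univ _))]
    refine Finset.sum_le_sum fun t _ => ?_
    refine Finset.card_le_card_of_injOn
      (fun (j : Fin d → Fin (k * r)) s => (finProdFinEquiv.symm (j s)).2) ?_ ?_
    · intro j hj
      rw [Finset.mem_coe, Finset.mem_filter, Finset.mem_filter] at hj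
      rw [Finset.mem_coe, Finset.mem_filter]
      refine ⟨Finset.mem_univ _, fun s => ?_, hj.1.2.2⟩
      simp only [hK, Finset.mem_filter]
      refine ⟨Finset.mem_univ _, ?_⟩
      have h2 := congrFun hj.2 s
      rw [← h2, Prod.mk.eta, Equiv.apply_symm_apply]
      exact hj.1.2.1 s
    · intro j hj j' hj' hjj
      rw [Finset.mem_coe, Finset.mem_filter] at hj hj'
      funext s
      apply finProdFinEquiv.symm.injective
      refine Prod.ext ?_ ?_
      · exact (congrFun hj.2 s).trans (congrFun hj'.2 s).symm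
      · exact congrFun hjj s
  have h2 : ∀ s, ∑ τ, (K τ s).card ≤ (I s).card := by
    intro s
    rw [Finset.card_eq_sum_card_fiberwise (s := I s) (t := (Finset.univ : Finset (Fin k)))
      (f := fun p : Fin (k * r) => (finProdFinEquiv.symm p).1)
      (fun _ _ => Finset.mem_coe.2 (Finset.mem_univ _))]
    refine Finset.sum_le_sum fun τ _ => ?_
    refine Finset.card_le_card_of_injOn (fun l => finProdFinEquiv (τ, l)) ?_ ?_
    · intro l hl
      rw [Finset.mem_coe] at hl
      simp only [hK, Finset.mem_filter] at hl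
      rw [Finset.mem_coe, Finset.mem_filter]
      refine ⟨hl.2, ?_⟩
      simp
    · intro l _ l' _ hll
      have := finProdFinEquiv.injective hll
      exact (Prod.ext_iff.1 this).2
  calc load (fun s p => a s (finProdFinEquiv.symm p).2) I
      ≤ ∑ t : Fin d → Fin k, load a (fun s => K (t s) s) := h1
    _ ≤ ∑ t : Fin d → Fin k, m * ∑ s, (K (t s) s).card :=
        Finset.sum_le_sum fun t _ => hI _
    _ = m * ∑ s, ∑ t : Fin d → Fin k, (K (t s) s).card := by
        rw [← Finset.mul_sum, Finset.sum_comm]
    _ = m * ∑ s, k ^ (d - 1) * ∑ τ, (K τ s).card := by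
        congr 1
        exact Finset.sum_congr rfl fun s _ => sum_coord s fun τ => (K τ s).card
    _ ≤ m * ∑ s, k ^ (d - 1) * (I s).card :=
        Nat.mul_le_mul_left _ (Finset.sum_le_sum fun s _ => Nat.mul_le_mul_left _ (h2 s))
    _ = k ^ (d - 1) * m * ∑ s, (I s).card := by
        rw [← Finset.mul_sum]
        ring

theorem feasible_mono {d r r' m m' : ℕ} (hr : r ≤ r') (hm : m ≤ m') (h : Feasible d r' m) :
    Feasible d r m' := by
  classical
  obtain ⟨a, ha, hI⟩ := h
  refine ⟨fun s l => a s (Fin.castLE hr l), fun l => ha _, ?_⟩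
  intro I
  have h1 : load (fun s l => a s (Fin.castLE hr l)) I ≤
      load a (fun s => (I s).map (Fin.castLEEmb hr)) := by
    unfold load
    refine Finset.card_le_card_of_injOn (fun (j : Fin d → Fin r) s => Fin.castLE hr (j s)) ?_ ?_
    · intro j hj
      rw [Finset.mem_coe, Finset.mem_filter] at hj
      rw [Finset.mem_coe, Finset.mem_filter]
      refine ⟨Finset.mem_univ _, fun s => ?_, hj.2.2⟩
      exact Finset.mem_map.2 ⟨j s, hj.2.1 s, rfl⟩
    · intro j _ j' _ hjj
      funext s
      exact Fin.castLE_injective hr (congrFun hjj s)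
  calc load (fun s l => a s (Fin.castLE hr l)) I
      ≤ load a (fun s => (I s).map (Fin.castLEEmb hr)) := h1
    _ ≤ m * ∑ s, ((I s).map (Fin.castLEEmb hr)).card := hI _
    _ = m * ∑ s, (I s).card := by simp only [Finset.card_map]
    _ ≤ m' * ∑ s, (I s).card := Nat.mul_le_mul_right _ hm

theorem feasible_lower {d r m : ℕ} (hd : 2 ≤ d) (h : Feasible d r m) (hr : 0 < r) :
    r ^ (d - 1) ≤ d ^ 2 * m := by
  classical
  obtain ⟨a, ha, hI⟩ := h
  have : NeZero d := ⟨by omega⟩
  have h1 := hI (fun _ => Finset.univ)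
  have h2 : r ^ d ≤ d * load a (fun _ => Finset.univ) := by
    unfold load
    refine count _ (fun _ => Equiv.refl _) (fun c => Equiv.addRight c) fun j => ?_
    by_contra hcon
    push Not at hcon
    have h3 : ∀ c : Fin d, 0 < ∑ s, a s (j (s + c)) := by
      intro c
      have h4 := hcon c
      rw [Finset.mem_filter, not_and, not_and, not_le] at h4
      exact h4 (Finset.mem_univ _) (fun _ => Finset.mem_univ _)
    have h5 : 0 < ∑ c : Fin d, ∑ s, a s (j (s + c)) :=
      Finset.sum_pos (fun c _ => h3 c) ⟨0, Finset.mem_univ _⟩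
    have h6 : ∑ c : Fin d, ∑ s, a s (j (s + c)) = 0 := by
      rw [Finset.sum_comm]
      have h7 : ∀ s : Fin d, ∑ c : Fin d, a s (j (s + c)) = ∑ u, a s (j u) := fun s =>
        Equiv.sum_comp (Equiv.addLeft s) fun u => a s (j u)
      simp only [h7]
      rw [Finset.sum_comm]
      exact Finset.sum_eq_zero fun u _ => ha (j u)
    omega
  have h8 : ∑ _s : Fin d, (Finset.univ : Finset (Fin r)).card = d * r := by
    rw [Finset.sum_const, Finset.card_univ, Finset.card_univ, Fintype.card_fin, Fintype.card_fin,
      smul_eq_mul]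
  rw [h8] at h1
  have h9 : r ^ (d - 1) * r ≤ d ^ 2 * m * r := by
    calc r ^ (d - 1) * r = r ^ d := by
          rw [← pow_succ]
          congr 1
          omega
      _ ≤ d * load a (fun _ => Finset.univ) := h2
      _ ≤ d * (m * (d * r)) := Nat.mul_le_mul_left _ h1
      _ = d ^ 2 * m * r := by ring
  exact Nat.le_of_mul_le_mul_right h9 hr

end BSR.LOADB
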