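import Pool.Agent.BSR.Limit618

set_option autoImplicit false
set_option backward.isDefEq.respectTransparency false

namespace BSR

open scoped BigOperators Matrix Topology
open Filter

/-- integer weights from real weights -/
theorem weights_of {d r : ℕ} (hd : 0 < d) (w : Fin d → Fin r → ℝ) (c : Fin r → ℝ)
    (hc : ∀ i, ∑ s, w s i ≤ c i) :
    ∃ a : Fin d → Fin r → ℤ, (∀ i, ∑ s, a s i = 0) ∧
      ∀ j : Fin d → Fin r, c (j ⟨0, hd⟩) + d < ∑ s, w s (j s) → 0 < ∑ s, a s (j s) := by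
  obtain ⟨e, rfl⟩ : ∃ e, d = e + 1 := ⟨d - 1, by omega⟩
  refine ⟨Fin.cons (fun i => -∑ s : Fin e, ⌊w s.succ i⌋) (fun s i => ⌊w s.succ i⌋), fun i => ?_,
    fun j hj => ?_⟩
  · rw [Fin.sum_univ_succ]
    simp
  · rw [Fin.sum_univ_succ]
    simp only [Fin.cons_zero, Fin.cons_succ]
    have h0 : (⟨0, hd⟩ : Fin (e + 1)) = 0 := rfl
    rw [h0] at hj
    have h1 := hc (j 0)
    rw [Fin.sum_univ_succ] at h1 hj
    have h2 : (∑ s : Fin e, (⌊w s.succ (j 0)⌋ : ℝ)) ≤ ∑ s : Fin e, w s.succ (j 0) :=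
      Finset.sum_le_sum fun s _ => Int.floor_le _
    have h3 : (∑ s : Fin e, w s.succ (j s.succ)) - e ≤
        ∑ s : Fin e, (⌊w s.succ (j s.succ)⌋ : ℝ) := by
      have : ∑ s : Fin e, (w s.succ (j s.succ) - 1) ≤
          ∑ s : Fin e, (⌊w s.succ (j s.succ)⌋ : ℝ) :=
        Finset.sum_le_sum fun s _ => (Int.sub_one_lt_floor _).le
      rw [Finset.sum_sub_distrib] at this
      simpa using this
    have h4 : (0 : ℝ) < ((-∑ s : Fin e, ⌊w s.succ (j 0)⌋ +
        ∑ s : Fin e, ⌊w s.succ (j s.succ)⌋ : ℤ) : ℝ) := by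
      push_cast at hj ⊢
      linarith
    exact_mod_cast h4

theorem limit2_of (SVD : SVDStmt) (MATCH : MatchStmt) {d n r : ℕ} (hd : 2 ≤ d)
    (T : Tens d (Fin n)) (hT : Degenerates T (unitT d (Fin r))) :
    ∃ (Φ Φ0 : Finset (Fin d → Fin r)) (V : Fin d → Matrix (Fin r) (Fin n) ℂ)
      (g : Fin d → Matrix (Fin r) (Fin r) ℂ) (σ : Fin d → Equiv.Perm (Fin r))
      (a : Fin d → Fin r → ℤ),
      (∀ i, ∑ s, a s i = 0) ∧ (∀ j : Fin d → Fin r, ∑ s, a s (j s) ≤ 0 →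
        (fun s => σ s (j s)) ∈ Φ) ∧ (∀ s, V s * (V s)ᴴ = 1) ∧
      ∀ j ∈ Φ, act V T j = if j ∈ Φ0 then act g (unitT d (Fin r)) j else 0 := by
  classical
  have : NeZero d := ⟨by omega⟩
  -- a sequence
  obtain ⟨X, hX, hXlim⟩ := mem_closure_iff_seq_limit.1 hT
  choose A0 hA0 using hX
  have hA0' : Tendsto (fun k => act (A0 k) T) atTop (𝓝 (unitT d (Fin r))) := by
    have : (fun k => act (A0 k) T) = X := by funext k; exact hA0 k
    rw [this]; exact hXlim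
  obtain ⟨N, hN⟩ := eventually_atTop.1 (eventually_right_inv hd T A0 hA0')
  let A : ℕ → Fin d → Matrix (Fin r) (Fin n) ℂ := fun k => A0 (k + N)
  have hA : Tendsto (fun k => act (A k) T) atTop (𝓝 (unitT d (Fin r))) :=
    hA0'.comp (tendsto_add_atTop_nat N)
  have hinv : ∀ k s, ∃ B : Matrix (Fin n) (Fin r) ℂ, A k s * B = 1 := fun k s =>
    hN (k + N) (Nat.le_add_left N k) s
  clear_value A
  choose B hB using hinv
  have hsvd := fun k s => SVD (A k s) (B k s) (hB k s)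
  choose U x V hU1 hU2 hV hx hanti hAeq using hsvd
  obtain ⟨𝒰, h𝒰⟩ : ∃ 𝒰 : Ultrafilter ℕ, (𝒰 : Filter ℕ) ≤ atTop :=
    ⟨Filter.hyperfilter ℕ, by
      rw [← Nat.cofinite_eq_atTop]; exact Filter.hyperfilter_le_cofinite⟩
  have hUl := fun s => lim_isometry (fun k => U k s) (fun k => hU1 k s) 𝒰
  have hVl := fun s => lim_isometry (fun k => V k s) (fun k => hV k s) 𝒰
  choose U0 hU0 hUlim using hUl
  choose V0 hV0 hVlim using hVl
  have hU0' : ∀ s, (U0 s)ᴴ * U0 s = 1 := fun s => mul_eq_one_comm.1 (hU0 s)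
  -- the products of singular values
  let p : (Fin d → Fin r) → ℕ → ℝ := fun j k => ∏ s, x k s (j s)
  have hp : ∀ j k, 0 < p j k := fun j k => Finset.prod_pos fun s _ => hx k s (j s)
  -- y
  have hy : ∀ k j, act (fun s => (U k s)ᴴ) (act (A k) T) j = (p j k : ℂ) * act (V k) T j := by
    intro k j
    rw [act_act]
    have h1 : (fun s => (U k s)ᴴ * A k s) =
        fun s => Matrix.diagonal (fun i => (x k s i : ℂ)) * V k s := by
      funext s
      rw [hAeq k s, ← Matrix.mul_assoc, ← Matrix.mul_assoc, hU2 k s, Matrix.one_mul]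
    rw [h1, act_diag]
    simp [p]
  let S' : Tens d (Fin r) := act (fun s => (U0 s)ᴴ) (unitT d (Fin r))
  have hUstar : ∀ s, Tendsto (fun k => (U k s)ᴴ) 𝒰 (𝓝 ((U0 s)ᴴ)) := by
    intro s
    have hc : Continuous fun M : Matrix (Fin r) (Fin r) ℂ => Mᴴ :=
      Continuous.matrix_conjTranspose continuous_id
    exact (hc.tendsto _).comp (hUlim s)
  have hylim : ∀ j, Tendsto (fun k => (p j k : ℂ) * act (V k) T j) 𝒰 (𝓝 (S' j)) := by
    intro j
    have h1 := tendsto_act (l := (𝒰 : Filter ℕ)) (A := fun k s => (U k s)ᴴ)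
      (A0 := fun s => (U0 s)ᴴ) (T := fun k => act (A k) T) hUstar (hA.mono_left h𝒰) j
    refine h1.congr fun k => ?_
    exact hy k j
  let t : Tens d (Fin r) := act V0 T
  have htlim : ∀ j, Tendsto (fun k => act (V k) T j) 𝒰 (𝓝 (t j)) := fun j =>
    tendsto_act (l := (𝒰 : Filter ℕ)) (A := V) (A0 := V0) (T := fun _ => T) hVlim
      tendsto_const_nhds j
  let Φ : Finset (Fin d → Fin r) := Finset.univ.filter fun j => ¬ Tendsto (p j) 𝒰 (𝓝 0)
  let Φ0 : Finset (Fin d → Fin r) := Finset.univ.filter fun j => ¬ Tendsto (p j) 𝒰 atTop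
  have hmemΦ : ∀ j, j ∈ Φ ↔ ¬ Tendsto (p j) 𝒰 (𝓝 0) := fun j => by simp [Φ]
  have hmemΦ0 : ∀ j, j ∈ Φ0 ↔ ¬ Tendsto (p j) 𝒰 atTop := fun j => by simp [Φ0]
  -- F1
  have F1 : ∀ j, j ∉ Φ → S' j = 0 := by
    intro j hj
    rw [hmemΦ, not_not] at hj
    have h1 : Tendsto (fun k => (p j k : ℂ)) 𝒰 (𝓝 ((0 : ℝ) : ℂ)) :=
      (Complex.continuous_ofReal.tendsto 0).comp hj
    have h2 := h1.mul (htlim j)
    rw [Complex.ofReal_zero, zero_mul] at h2
    exact tendsto_nhds_unique (hylim j) h2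
  -- F3
  have F3 : ∀ j, j ∉ Φ0 → t j = 0 := by
    intro j hj
    rw [hmemΦ0, not_not] at hj
    have h1 : Tendsto (fun k => ((p j k)⁻¹ : ℝ)) 𝒰 (𝓝 0) := tendsto_inv_atTop_zero.comp hj
    have h1' : Tendsto (fun k => (((p j k)⁻¹ : ℝ) : ℂ)) 𝒰 (𝓝 ((0 : ℝ) : ℂ)) :=
      (Complex.continuous_ofReal.tendsto 0).comp h1
    have h2 := h1'.mul (hylim j)
    rw [Complex.ofReal_zero, zero_mul] at h2
    refine tendsto_nhds_unique (htlim j) (h2.congr fun k => ?_)
    have h3 : (p j k : ℂ) ≠ 0 := by exact_mod_cast (hp j k).ne'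
    push_cast
    rw [← mul_assoc, inv_mul_cancel₀ h3, one_mul]
  -- limits on Φ ∩ Φ0
  have F4 : ∀ j : {j // j ∈ Φ ∧ j ∈ Φ0}, ∃ c : ℝ, 0 < c ∧ Tendsto (p j.1) 𝒰 (𝓝 c) := by
    rintro ⟨j, hj1, hj2⟩
    rw [hmemΦ] at hj1
    rw [hmemΦ0] at hj2
    obtain ⟨ε, hε, h1⟩ := bdd_below_of_not_tendsto 𝒰 (p j) (hp j) hj1
    obtain ⟨C, h2⟩ := bdd_above_of_not_tendsto 𝒰 (p j) hj2
    obtain ⟨c, hc, hlim⟩ := (isCompact_Icc (a := ε) (b := C)).ultrafilter_le_nhds (𝒰.map (p j))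
      (Filter.le_principal_iff.2 (Filter.mem_map.2 (by
        filter_upwards [h1, h2] with k hk1 hk2
        exact ⟨hk1, hk2⟩)))
    exact ⟨c, lt_of_lt_of_le hε hc.1, hlim⟩
  choose c hc hclim using F4
  -- product form
  obtain ⟨z, hz⟩ : ∃ z : Fin d → Fin r → ℝ, ∀ j : {j // j ∈ Φ ∧ j ∈ Φ0},
      Real.log (c j) = ∑ s, z s (j.1 s) := by
    let L : (Fin d → Fin r → ℝ) →ₗ[ℝ] ({j // j ∈ Φ ∧ j ∈ Φ0} → ℝ) :=
      { toFun := fun z j => ∑ s, z s (j.1 s)
        map_add' := by intro z z'; funext j; simp [Finset.sum_add_distrib]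
        map_smul' := by intro a z; funext j; simp [Finset.mul_sum] }
    have hcl : IsClosed (LinearMap.range L : Set ({j // j ∈ Φ ∧ j ∈ Φ0} → ℝ)) :=
      Submodule.closed_of_finiteDimensional _
    have hlim : Tendsto (fun k => L (fun s i => Real.log (x k s i))) 𝒰
        (𝓝 (fun j => Real.log (c j))) := by
      refine tendsto_pi_nhds.2 fun j => ?_
      have h1 := (Real.continuousAt_log (hc j).ne').tendsto.comp (hclim j)
      refine h1.congr fun k => ?_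
      show Real.log (p j.1 k) = ∑ s, Real.log (x k s (j.1 s))
      exact Real.log_prod (fun s _ => (hx k s (j.1 s)).ne')
    have hmem := hcl.mem_of_tendsto hlim (Filter.Eventually.of_forall fun k => ⟨_, rfl⟩)
    obtain ⟨z, hz⟩ := hmem
    exact ⟨z, fun j => (congrFun hz j).symm⟩
  obtain ⟨σ, f, hf, hne⟩ := MATCH hd (fun s => (U0 s)ᴴ) (fun s h0 => by
    have h1 := congrArg Matrix.det (hU0 s)
    rw [Matrix.det_mul, h0, mul_zero, Matrix.det_one] at h1
    exact zero_ne_one h1)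
  have hσ : ∀ i, (fun s => σ s i) ∈ Φ := by
    intro i
    have h1 : (fun s => f s (σ s i)) ∈ Φ := by
      by_contra hcon
      exact hne i (F1 _ hcon)
    rw [hmemΦ] at h1 ⊢
    intro h2
    apply h1
    refine squeeze_zero (fun k => (hp _ k).le) (fun k => ?_) h2
    exact Finset.prod_le_prod (fun s _ => (hx k s _).le) (fun s _ => hanti k s (hf s (σ s i)))
  have hlow : ∀ i, ∃ ε > 0, ∀ᶠ k in (𝒰 : Filter ℕ), ε ≤ p (fun s => σ s i) k :=
    fun i => bdd_below_of_not_tendsto 𝒰 _ (hp _) ((hmemΦ _).1 (hσ i))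
  choose ε hε hev using hlow
  have hev' : ∀ᶠ k in (𝒰 : Filter ℕ), ∀ i, ε i ≤ p (fun s => σ s i) k :=
    Filter.eventually_all.2 hev
  have hd0 : 0 < d := by omega
  have hsm : ∀ᶠ k in (𝒰 : Filter ℕ), ∀ j : Fin d → Fin r, (fun s => σ s (j s)) ∉ Φ →
      p (fun s => σ s (j s)) k < ε (j ⟨0, hd0⟩) * Real.exp (-(d + 1 : ℝ)) := by
    refine Filter.eventually_all.2 fun j => ?_
    by_cases hj : (fun s => σ s (j s)) ∈ Φ
    · exact Filter.Eventually.of_forall fun k h => absurd hj h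
    · have h1 : Tendsto (p (fun s => σ s (j s))) 𝒰 (𝓝 0) := by
        rw [hmemΦ, not_not] at hj
        exact hj
      have h2 : 0 < ε (j ⟨0, hd0⟩) * Real.exp (-(d + 1 : ℝ)) := mul_pos (hε _) (Real.exp_pos _)
      filter_upwards [h1.eventually (gt_mem_nhds h2)] with k hk _
      exact hk
  obtain ⟨k, hk1, hk2⟩ := (hev'.and hsm).exists
  have hlogp : ∀ j : Fin d → Fin r, ∑ s, (-Real.log (x k s (σ s (j s)))) =
      -Real.log (p (fun s => σ s (j s)) k) := by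
    intro j
    rw [Finset.sum_neg_distrib]
    congr 1
    exact (Real.log_prod (fun s _ => (hx k s (σ s (j s))).ne')).symm
  obtain ⟨a, ha0, ha⟩ := weights_of hd0 (fun s i => -Real.log (x k s (σ s i)))
    (fun i => -Real.log (ε i)) (fun i => by
      have h1 := hlogp (fun _ => i)
      rw [h1]
      exact neg_le_neg (Real.log_le_log (hε i) (hk1 i)))
  refine ⟨Φ, Φ0, V0, fun s => Matrix.diagonal (fun i => (Real.exp (-z s i) : ℂ)) * (U0 s)ᴴ,
    σ, a, ha0, ?_, hV0, ?_⟩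
  · intro j hj
    by_contra hcon
    have h1 := hk2 j hcon
    have h2 : 0 < ∑ s, a s (j s) := by
      apply ha
      rw [hlogp]
      have h3 : Real.log (p (fun s => σ s (j s)) k) <
          Real.log (ε (j ⟨0, hd0⟩) * Real.exp (-(d + 1 : ℝ))) := Real.log_lt_log (hp _ k) h1
      rw [Real.log_mul (hε _).ne' (Real.exp_pos _).ne', Real.log_exp] at h3
      linarith
    omega
  · intro j hj
    by_cases hj0 : j ∈ Φ0
    · rw [if_pos hj0, act_diag]
      have h1 := hz ⟨j, hj, hj0⟩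
      have h2 : (∏ s, (Real.exp (-z s (j s)) : ℂ)) = ((c ⟨j, hj, hj0⟩ : ℝ) : ℂ)⁻¹ := by
        have h3 : ∏ s, Real.exp (-z s (j s)) = (c ⟨j, hj, hj0⟩)⁻¹ := by
          rw [← Real.exp_sum, Finset.sum_neg_distrib, Real.exp_neg, ← h1,
            Real.exp_log (hc _)]
        rw [← Complex.ofReal_inv, ← h3, Complex.ofReal_prod]
      show t j = _
      have h4 : Tendsto (fun k => (p j k : ℂ)) 𝒰 (𝓝 ((c ⟨j, hj, hj0⟩ : ℝ) : ℂ)) :=
        (Complex.continuous_ofReal.tendsto _).comp (hclim ⟨j, hj, hj0⟩)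
      have h5 := tendsto_nhds_unique (hylim j) (h4.mul (htlim j))
      have h6 : ((c ⟨j, hj, hj0⟩ : ℝ) : ℂ) ≠ 0 := by exact_mod_cast (hc _).ne'
      show t j = (∏ s, (Real.exp (-z s (j s)) : ℂ)) * S' j
      rw [h2, h5, ← mul_assoc, inv_mul_cancel₀ h6, one_mul]
    · rw [if_neg hj0]
      exact F3 j hj0

end BSR
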