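import Pool.Agent.BSR.Basic618

set_option autoImplicit false
set_option backward.isDefEq.respectTransparency false

namespace BSR

open scoped BigOperators Matrix Topology
open Filter

/-- statement of the singular value decomposition -/
def SVDStmt : Prop := ∀ {r n : ℕ} (A : Matrix (Fin r) (Fin n) ℂ) (B : Matrix (Fin n) (Fin r) ℂ)
    (_ : A * B = 1),
    ∃ (U : Matrix (Fin r) (Fin r) ℂ) (x : Fin r → ℝ) (V : Matrix (Fin r) (Fin n) ℂ),
      U * Uᴴ = 1 ∧ Uᴴ * U = 1 ∧ V * Vᴴ = 1 ∧ (∀ i, 0 < x i) ∧ Antitone x ∧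
      A = U * Matrix.diagonal (fun i => (x i : ℂ)) * V

/-- statement of the matching lemma -/
def MatchStmt : Prop := ∀ {d r : ℕ} (_ : 2 ≤ d) (h : Fin d → Matrix (Fin r) (Fin r) ℂ)
    (_ : ∀ s, (h s).det ≠ 0),
    ∃ (σ : Fin d → Equiv.Perm (Fin r)) (f : Fin d → Fin r → Fin r), (∀ s i, i ≤ f s i) ∧
      ∀ i, act h (unitT d (Fin r)) (fun s => f s (σ s i)) ≠ 0

/-- along an ultrafilter a positive function either tends to zero or is bounded below -/
theorem bdd_below_of_not_tendsto (𝒰 : Ultrafilter ℕ) (p : ℕ → ℝ) (hp : ∀ k, 0 < p k)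
    (h : ¬ Tendsto p 𝒰 (𝓝 0)) : ∃ ε > 0, ∀ᶠ k in (𝒰 : Filter ℕ), ε ≤ p k := by
  by_contra hcon
  push Not at hcon
  apply h
  rw [Metric.tendsto_nhds]
  intro ε hε
  filter_upwards [hcon ε hε] with k hk
  rw [Real.dist_eq, sub_zero, abs_of_pos (hp k)]
  exact hk

theorem bdd_above_of_not_tendsto (𝒰 : Ultrafilter ℕ) (p : ℕ → ℝ)
    (h : ¬ Tendsto p 𝒰 atTop) : ∃ C, ∀ᶠ k in (𝒰 : Filter ℕ), p k ≤ C := by
  by_contra hcon
  push Not at hcon
  apply h
  rw [tendsto_atTop]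
  intro C
  filter_upwards [hcon C] with k hk
  exact hk.le

theorem limit_of (SVD : SVDStmt) (MATCH : MatchStmt) {d n r : ℕ} (hd : 2 ≤ d)
    (T : Tens d (Fin n)) (hT : Degenerates T (unitT d (Fin r))) :
    ∃ (Φ Φ0 : Finset (Fin d → Fin r)) (V : Fin d → Matrix (Fin r) (Fin n) ℂ)
      (g : Fin d → Matrix (Fin r) (Fin r) ℂ),
      r ^ d ≤ d * Φ.card ∧ (∀ s, V s * (V s)ᴴ = 1) ∧
      ∀ j ∈ Φ, act V T j = if j ∈ Φ0 then act g (unitT d (Fin r)) j else 0 := by
  classical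
  have : NeZero d := ⟨by omega⟩
  -- a sequence
  obtain ⟨X, hX, hXlim⟩ := mem_closure_iff_seq_limit.1 hT
  choose A0 hA0 using hX
  have hA0' : Tendsto (fun k => act (A0 k) T) atTop (𝓝 (unitT d (Fin r))) := by
    have : (fun k => act (A0 k) T) = X := by funext k; exact hA0 k
    rw [this]; exact hXlim
  obtain ⟨N, hN⟩ := eventually_atTop.1 (eventually_right_inv hd T A0 hA0')
  let A : ℕ → Fin d → Matrix (Fin r) (Fin n) ℂ := fun k => A0 (k + N)
  have hA : Tendsto (fun k => act (A k) T) atTop (𝓝 (unitT d (Fin r))) :=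
    hA0'.comp (tendsto_add_atTop_nat N)
  have hinv : ∀ k s, ∃ B : Matrix (Fin n) (Fin r) ℂ, A k s * B = 1 := fun k s =>
    hN (k + N) (Nat.le_add_left N k) s
  clear_value A
  choose B hB using hinv
  have hsvd := fun k s => SVD (A k s) (B k s) (hB k s)
  choose U x V hU1 hU2 hV hx hanti hAeq using hsvd
  obtain ⟨𝒰, h𝒰⟩ : ∃ 𝒰 : Ultrafilter ℕ, (𝒰 : Filter ℕ) ≤ atTop :=
    ⟨Filter.hyperfilter ℕ, by
      rw [← Nat.cofinite_eq_atTop]; exact Filter.hyperfilter_le_cofinite⟩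
  have hUl := fun s => lim_isometry (fun k => U k s) (fun k => hU1 k s) 𝒰
  have hVl := fun s => lim_isometry (fun k => V k s) (fun k => hV k s) 𝒰
  choose U0 hU0 hUlim using hUl
  choose V0 hV0 hVlim using hVl
  have hU0' : ∀ s, (U0 s)ᴴ * U0 s = 1 := fun s => mul_eq_one_comm.1 (hU0 s)
  -- the products of singular values
  let p : (Fin d → Fin r) → ℕ → ℝ := fun j k => ∏ s, x k s (j s)
  have hp : ∀ j k, 0 < p j k := fun j k => Finset.prod_pos fun s _ => hx k s (j s)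
  -- y
  have hy : ∀ k j, act (fun s => (U k s)ᴴ) (act (A k) T) j = (p j k : ℂ) * act (V k) T j := by
    intro k j
    rw [act_act]
    have h1 : (fun s => (U k s)ᴴ * A k s) =
        fun s => Matrix.diagonal (fun i => (x k s i : ℂ)) * V k s := by
      funext s
      rw [hAeq k s, ← Matrix.mul_assoc, ← Matrix.mul_assoc, hU2 k s, Matrix.one_mul]
    rw [h1, act_diag]
    simp [p]
  let S' : Tens d (Fin r) := act (fun s => (U0 s)ᴴ) (unitT d (Fin r))
  have hUstar : ∀ s, Tendsto (fun k => (U k s)ᴴ) 𝒰 (𝓝 ((U0 s)ᴴ)) := by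
    intro s
    have hc : Continuous fun M : Matrix (Fin r) (Fin r) ℂ => Mᴴ :=
      Continuous.matrix_conjTranspose continuous_id
    exact (hc.tendsto _).comp (hUlim s)
  have hylim : ∀ j, Tendsto (fun k => (p j k : ℂ) * act (V k) T j) 𝒰 (𝓝 (S' j)) := by
    intro j
    have h1 := tendsto_act (l := (𝒰 : Filter ℕ)) (A := fun k s => (U k s)ᴴ)
      (A0 := fun s => (U0 s)ᴴ) (T := fun k => act (A k) T) hUstar (hA.mono_left h𝒰) j
    refine h1.congr fun k => ?_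
    exact hy k j
  let t : Tens d (Fin r) := act V0 T
  have htlim : ∀ j, Tendsto (fun k => act (V k) T j) 𝒰 (𝓝 (t j)) := fun j =>
    tendsto_act (l := (𝒰 : Filter ℕ)) (A := V) (A0 := V0) (T := fun _ => T) hVlim
      tendsto_const_nhds j
  let Φ : Finset (Fin d → Fin r) := Finset.univ.filter fun j => ¬ Tendsto (p j) 𝒰 (𝓝 0)
  let Φ0 : Finset (Fin d → Fin r) := Finset.univ.filter fun j => ¬ Tendsto (p j) 𝒰 atTop
  have hmemΦ : ∀ j, j ∈ Φ ↔ ¬ Tendsto (p j) 𝒰 (𝓝 0) := fun j => by simp [Φ]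
  have hmemΦ0 : ∀ j, j ∈ Φ0 ↔ ¬ Tendsto (p j) 𝒰 atTop := fun j => by simp [Φ0]
  -- F1
  have F1 : ∀ j, j ∉ Φ → S' j = 0 := by
    intro j hj
    rw [hmemΦ, not_not] at hj
    have h1 : Tendsto (fun k => (p j k : ℂ)) 𝒰 (𝓝 ((0 : ℝ) : ℂ)) :=
      (Complex.continuous_ofReal.tendsto 0).comp hj
    have h2 := h1.mul (htlim j)
    rw [Complex.ofReal_zero, zero_mul] at h2
    exact tendsto_nhds_unique (hylim j) h2
  -- F3
  have F3 : ∀ j, j ∉ Φ0 → t j = 0 := by
    intro j hj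
    rw [hmemΦ0, not_not] at hj
    have h1 : Tendsto (fun k => ((p j k)⁻¹ : ℝ)) 𝒰 (𝓝 0) := tendsto_inv_atTop_zero.comp hj
    have h1' : Tendsto (fun k => (((p j k)⁻¹ : ℝ) : ℂ)) 𝒰 (𝓝 ((0 : ℝ) : ℂ)) :=
      (Complex.continuous_ofReal.tendsto 0).comp h1
    have h2 := h1'.mul (hylim j)
    rw [Complex.ofReal_zero, zero_mul] at h2
    refine tendsto_nhds_unique (htlim j) (h2.congr fun k => ?_)
    have h3 : (p j k : ℂ) ≠ 0 := by exact_mod_cast (hp j k).ne'
    push_cast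
    rw [← mul_assoc, inv_mul_cancel₀ h3, one_mul]
  -- limits on Φ ∩ Φ0
  have F4 : ∀ j : {j // j ∈ Φ ∧ j ∈ Φ0}, ∃ c : ℝ, 0 < c ∧ Tendsto (p j.1) 𝒰 (𝓝 c) := by
    rintro ⟨j, hj1, hj2⟩
    rw [hmemΦ] at hj1
    rw [hmemΦ0] at hj2
    obtain ⟨ε, hε, h1⟩ := bdd_below_of_not_tendsto 𝒰 (p j) (hp j) hj1
    obtain ⟨C, h2⟩ := bdd_above_of_not_tendsto 𝒰 (p j) hj2
    obtain ⟨c, hc, hlim⟩ := (isCompact_Icc (a := ε) (b := C)).ultrafilter_le_nhds (𝒰.map (p j))
      (Filter.le_principal_iff.2 (Filter.mem_map.2 (by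
        filter_upwards [h1, h2] with k hk1 hk2
        exact ⟨hk1, hk2⟩)))
    exact ⟨c, lt_of_lt_of_le hε hc.1, hlim⟩
  choose c hc hclim using F4
  -- product form
  obtain ⟨z, hz⟩ : ∃ z : Fin d → Fin r → ℝ, ∀ j : {j // j ∈ Φ ∧ j ∈ Φ0},
      Real.log (c j) = ∑ s, z s (j.1 s) := by
    let L : (Fin d → Fin r → ℝ) →ₗ[ℝ] ({j // j ∈ Φ ∧ j ∈ Φ0} → ℝ) :=
      { toFun := fun z j => ∑ s, z s (j.1 s)
        map_add' := by intro z z'; funext j; simp [Finset.sum_add_distrib]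
        map_smul' := by intro a z; funext j; simp [Finset.mul_sum] }
    have hcl : IsClosed (LinearMap.range L : Set ({j // j ∈ Φ ∧ j ∈ Φ0} → ℝ)) :=
      Submodule.closed_of_finiteDimensional _
    have hlim : Tendsto (fun k => L (fun s i => Real.log (x k s i))) 𝒰
        (𝓝 (fun j => Real.log (c j))) := by
      refine tendsto_pi_nhds.2 fun j => ?_
      have h1 := (Real.continuousAt_log (hc j).ne').tendsto.comp (hclim j)
      refine h1.congr fun k => ?_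
      show Real.log (p j.1 k) = ∑ s, Real.log (x k s (j.1 s))
      exact Real.log_prod (fun s _ => (hx k s (j.1 s)).ne')
    have hmem := hcl.mem_of_tendsto hlim (Filter.Eventually.of_forall fun k => ⟨_, rfl⟩)
    obtain ⟨z, hz⟩ := hmem
    exact ⟨z, fun j => (congrFun hz j).symm⟩
  refine ⟨Φ, Φ0, V0, fun s => Matrix.diagonal (fun i => (Real.exp (-z s i) : ℂ)) * (U0 s)ᴴ,
    ?_, hV0, ?_⟩
  · -- counting
    obtain ⟨σ, f, hf, hne⟩ := MATCH hd (fun s => (U0 s)ᴴ) (fun s h0 => by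
      have h1 := congrArg Matrix.det (hU0 s)
      rw [Matrix.det_mul, h0, mul_zero, Matrix.det_one] at h1
      exact zero_ne_one h1)
    have hσ : ∀ i, (fun s => σ s i) ∈ Φ := by
      intro i
      have h1 : (fun s => f s (σ s i)) ∈ Φ := by
        by_contra hcon
        exact hne i (F1 _ hcon)
      rw [hmemΦ] at h1 ⊢
      intro h2
      apply h1
      refine squeeze_zero (fun k => (hp _ k).le) (fun k => ?_) h2
      exact Finset.prod_le_prod (fun s _ => (hx k s _).le) (fun s _ => hanti k s (hf s (σ s i)))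
    refine count Φ σ (fun c => Equiv.addRight c) fun a => ?_
    by_contra hcon
    push Not at hcon
    have h1 : ∀ c : Fin d, Tendsto (p (fun s => σ s (a (s + c)))) 𝒰 (𝓝 0) := by
      intro c
      have := hcon c
      rw [hmemΦ, not_not] at this
      exact this
    have h2 : Tendsto (fun k => ∏ c : Fin d, p (fun s => σ s (a (s + c))) k) 𝒰 (𝓝 0) := by
      have h3 := tendsto_finsetProd (Finset.univ : Finset (Fin d)) (fun c _ => h1 c)
      have h4 : (∏ _c : Fin d, (0 : ℝ)) = 0 :=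
        Finset.prod_eq_zero (Finset.mem_univ (0 : Fin d)) rfl
      rw [h4] at h3
      exact h3
    have h3 : ∀ k, ∏ c : Fin d, p (fun s => σ s (a (s + c))) k =
        ∏ u : Fin d, p (fun s => σ s (a u)) k := by
      intro k
      show ∏ c : Fin d, ∏ s, x k s (σ s (a (s + c))) = ∏ u : Fin d, ∏ s, x k s (σ s (a u))
      rw [Finset.prod_comm]
      rw [Finset.prod_comm (f := fun u s => x k s (σ s (a u)))]
      refine Finset.prod_congr rfl fun s _ => ?_
      exact Equiv.prod_comp (Equiv.addLeft s) (fun u => x k s (σ s (a u)))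
    simp only [h3] at h2
    have h4 : ∀ u : Fin d, ∃ ε > 0, ∀ᶠ k in (𝒰 : Filter ℕ), ε ≤ p (fun s => σ s (a u)) k :=
      fun u => bdd_below_of_not_tendsto 𝒰 _ (hp _) ((hmemΦ _).1 (hσ (a u)))
    choose ε hε hev using h4
    have h5 : ∀ᶠ k in (𝒰 : Filter ℕ), ∏ u, ε u ≤ ∏ u : Fin d, p (fun s => σ s (a u)) k := by
      have : ∀ᶠ k in (𝒰 : Filter ℕ), ∀ u, ε u ≤ p (fun s => σ s (a u)) k :=
        Filter.eventually_all.2 hev
      filter_upwards [this] with k hk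
      exact Finset.prod_le_prod (fun u _ => (hε u).le) (fun u _ => hk u)
    have h6 := ge_of_tendsto h2 h5
    have h7 : 0 < ∏ u, ε u := Finset.prod_pos fun u _ => hε u
    linarith
  · intro j hj
    by_cases hj0 : j ∈ Φ0
    · rw [if_pos hj0, act_diag]
      have h1 := hz ⟨j, hj, hj0⟩
      have h2 : (∏ s, (Real.exp (-z s (j s)) : ℂ)) = ((c ⟨j, hj, hj0⟩ : ℝ) : ℂ)⁻¹ := by
        have h3 : ∏ s, Real.exp (-z s (j s)) = (c ⟨j, hj, hj0⟩)⁻¹ := by
          rw [← Real.exp_sum, Finset.sum_neg_distrib, Real.exp_neg, ← h1,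
            Real.exp_log (hc _)]
        rw [← Complex.ofReal_inv, ← h3, Complex.ofReal_prod]
      show t j = _
      have h4 : Tendsto (fun k => (p j k : ℂ)) 𝒰 (𝓝 ((c ⟨j, hj, hj0⟩ : ℝ) : ℂ)) :=
        (Complex.continuous_ofReal.tendsto _).comp (hclim ⟨j, hj, hj0⟩)
      have h5 := tendsto_nhds_unique (hylim j) (h4.mul (htlim j))
      have h6 : ((c ⟨j, hj, hj0⟩ : ℝ) : ℂ) ≠ 0 := by exact_mod_cast (hc _).ne'
      show t j = (∏ s, (Real.exp (-z s (j s)) : ℂ)) * S' j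
      rw [h2, h5, ← mul_assoc, inv_mul_cancel₀ h6, one_mul]
    · rw [if_neg hj0]
      exact F3 j hj0

end BSR
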