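import Pool.Agent.BSR.Defs

/-!
# BSR, piece NUM: the pattern and its loads
-/

set_option autoImplicit false

open scoped BigOperators Matrix

namespace BSR.NUM

/-- the times -/
def tau {d r : ℕ} (L : Fin d) (x : Fin d × Fin r) : ℕ :=
  if x.1 = L then (x.2 : ℕ) else r + x.2 * d + x.1

/-- the weights -/
def wt {d r : ℕ} (L : Fin d) (s : Fin d) (i : Fin r) : ℤ :=
  if s = L then -((d : ℤ) - 1) * (d : ℤ) ^ (i : ℕ) else (d : ℤ) ^ (i : ℕ)

theorem tau_last {d r : ℕ} (L : Fin d) (i : Fin r) : tau L (L, i) = i := by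
  simp [tau]

theorem tau_ne {d r : ℕ} (L : Fin d) (s : Fin d) (h : s ≠ L) (i : Fin r) :
    tau L (s, i) = r + i * d + s := by
  simp [tau, h]

theorem div_lem {d a b x y : ℕ} (hx : x < d) (hy : y < d) (h : a * d + x = b * d + y) :
    a = b ∧ x = y := by
  rcases Nat.lt_trichotomy a b with h1 | h1 | h1
  · have h2 : (a + 1) * d ≤ b * d := Nat.mul_le_mul_right d h1
    rw [Nat.add_mul, Nat.one_mul] at h2
    omega
  · subst h1
    exact ⟨rfl, by omega⟩
  · have h2 : (b + 1) * d ≤ a * d := Nat.mul_le_mul_right d h1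
    rw [Nat.add_mul, Nat.one_mul] at h2
    omega

theorem tau_inj {d r : ℕ} (L : Fin d) : Function.Injective (tau L : Fin d × Fin r → ℕ) := by
  rintro ⟨s, i⟩ ⟨s', i'⟩ h
  have hi := i.2
  have hi' := i'.2
  by_cases h1 : s = L
  · by_cases h2 : s' = L
    · subst h1
      subst h2
      rw [tau_last, tau_last] at h
      rw [Fin.ext h]
    · subst h1
      rw [tau_last, tau_ne _ _ h2, Nat.add_assoc] at h
      omega
  · by_cases h2 : s' = L
    · subst h2
      rw [tau_last, tau_ne _ _ h1, Nat.add_assoc] at h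
      omega
    · rw [tau_ne _ _ h1, tau_ne _ _ h2, Nat.add_assoc, Nat.add_assoc] at h
      obtain ⟨h3, h4⟩ := div_lem s.2 s'.2 (Nat.add_left_cancel h)
      rw [Fin.ext h3, Fin.ext h4]

theorem card_pi {d r : ℕ} (L s : Fin d) (hs : s ≠ L) (i : Fin r) :
    (Fintype.piFinset (fun s' : Fin d => if s' = s then {i} else
      if s' = L then Finset.Ici i else Finset.Iic i)).card = (r - i) * (i + 1) ^ (d - 2) := by
  rw [Fintype.card_piFinset, ← Finset.mul_prod_erase Finset.univ _ (Finset.mem_univ s),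
    ← Finset.mul_prod_erase (Finset.univ.erase s) _
      (Finset.mem_erase.2 ⟨hs.symm, Finset.mem_univ L⟩), if_pos rfl, if_neg hs.symm, if_pos rfl,
    Finset.card_singleton, one_mul, Fin.card_Ici]
  congr 1
  have h1 : ∀ x ∈ (Finset.univ.erase s).erase L,
      (if x = s then {i} else if x = L then Finset.Ici i else Finset.Iic i).card = (i : ℕ) + 1 := by
    intro x hx
    rw [Finset.mem_erase, Finset.mem_erase] at hx
    rw [if_neg hx.2.1, if_neg hx.1, Fin.card_Iic]
  rw [Finset.prod_congr rfl h1, Finset.prod_const, Finset.card_erase_of_mem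
    (Finset.mem_erase.2 ⟨hs.symm, Finset.mem_univ L⟩), Finset.card_erase_of_mem
    (Finset.mem_univ s), Finset.card_univ, Fintype.card_fin, Nat.sub_sub]

theorem pattern_exists {d r m : ℕ} (hd : 3 ≤ d)
    (hm : ∀ i < r, (i + 1) ^ (d - 2) * (r - i) ≤ m) :
    ∃ (a : Fin d → Fin r → ℤ) (S : Finset (Fin d → Fin r)) (τ : Fin d × Fin r → ℕ),
      Function.Injective τ ∧ (∀ i, ∑ s, a s i = 0) ∧
      (∀ j ∉ S, (¬ ∃ l, ∀ s, j s = l) → 0 < ∑ s, a s (j s)) ∧
      (∀ l : Fin r, (fun _ => l) ∉ S) ∧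
      (∀ s i, (S.filter fun j => j s = i ∧ ∀ s', s' ≠ s → τ (s', j s') < τ (s, i)).card ≤ m) := by
  classical
  obtain ⟨L, -⟩ : ∃ L : Fin d, L = L := ⟨⟨d - 1, by omega⟩, rfl⟩
  refine ⟨wt L, Finset.univ.filter (fun j => (∀ s, s ≠ L → j s ≤ j L) ∧ ¬ ∃ l, ∀ s, j s = l),
    tau L, tau_inj L, ?_, ?_, ?_, ?_⟩
  · intro i
    rw [← Finset.add_sum_erase Finset.univ _ (Finset.mem_univ L)]
    have h1 : ∀ x ∈ Finset.univ.erase L, wt L x i = (d : ℤ) ^ (i : ℕ) := by
      intro x hx
      rw [wt, if_neg (Finset.ne_of_mem_erase hx)]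
    rw [Finset.sum_congr rfl h1, Finset.sum_const, Finset.card_erase_of_mem (Finset.mem_univ L),
      Finset.card_univ, Fintype.card_fin, wt, if_pos rfl, nsmul_eq_mul,
      Nat.cast_sub (by omega : 1 ≤ d)]
    push_cast
    ring
  · intro j hj hnc
    have h1 : ∃ s, s ≠ L ∧ j L < j s := by
      by_contra hcon
      push Not at hcon
      exact hj (Finset.mem_filter.2 ⟨Finset.mem_univ _, hcon, hnc⟩)
    obtain ⟨s, hs, hlt⟩ := h1
    rw [← Finset.add_sum_erase Finset.univ _ (Finset.mem_univ L),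
      ← Finset.add_sum_erase (Finset.univ.erase L) _ (Finset.mem_erase.2 ⟨hs, Finset.mem_univ s⟩)]
    have h2 : 0 ≤ ∑ x ∈ (Finset.univ.erase L).erase s, wt L x (j x) := by
      refine Finset.sum_nonneg fun x hx => ?_
      rw [Finset.mem_erase, Finset.mem_erase] at hx
      rw [wt, if_neg hx.2.1]
      positivity
    have hd' : (1 : ℤ) ≤ (d : ℤ) := by omega
    have h3 : (d : ℤ) ^ ((j L : ℕ) + 1) ≤ (d : ℤ) ^ (j s : ℕ) :=
      pow_le_pow_right₀ hd' hlt
    have h4 : 0 < (d : ℤ) ^ (j L : ℕ) := by positivity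
    rw [wt, if_pos rfl, wt, if_neg hs]
    rw [pow_succ] at h3
    nlinarith
  · intro l hl
    exact (Finset.mem_filter.1 hl).2.2 ⟨l, fun _ => rfl⟩
  · intro s i
    have hi := i.2
    by_cases hs : s = L
    · subst hs
      obtain ⟨s', hs'⟩ : ∃ s' : Fin d, s' ≠ s := by
        by_contra hcon
        push Not at hcon
        have h1 := hcon ⟨0, by omega⟩
        have h2 := hcon ⟨1, by omega⟩
        have h3 := congrArg Fin.val (h1.trans h2.symm)
        simp at h3
      refine le_trans (le_of_eq ?_) (Nat.zero_le m)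
      rw [Finset.card_eq_zero, Finset.filter_eq_empty_iff]
      rintro j - ⟨-, h2⟩
      have h3 := h2 s' hs'
      rw [tau_last, tau_ne _ _ hs', Nat.add_assoc] at h3
      omega
    · refine le_trans ?_ (hm i hi)
      rw [mul_comm, ← card_pi L s hs i]
      refine Finset.card_le_card ?_
      intro j hj
      obtain ⟨h1, h2, h3⟩ := Finset.mem_filter.1 hj
      obtain ⟨-, h4, -⟩ := Finset.mem_filter.1 h1
      rw [Fintype.mem_piFinset]
      intro x
      by_cases hx : x = s
      · rw [if_pos hx, Finset.mem_singleton, hx, h2]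
      · rw [if_neg hx]
        by_cases hxL : x = L
        · rw [if_pos hxL, Finset.mem_Ici, hxL, ← h2]
          exact h4 s hs
        · rw [if_neg hxL, Finset.mem_Iic]
          have h5 := h3 x hx
          rw [tau_ne _ _ hxL, tau_ne _ _ hs, Nat.add_assoc, Nat.add_assoc] at h5
          by_contra hcon
          have h6 : (i : ℕ) < (j x : ℕ) := by
            rw [not_le] at hcon
            exact hcon
          have h7 : ((i : ℕ) + 1) * d ≤ (j x : ℕ) * d := Nat.mul_le_mul_right d h6
          rw [Nat.add_mul, Nat.one_mul] at h7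
          have h8 := s.2
          omega

end BSR.NUM
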