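import Pool.Agent.BSR.Defs

/-! BSR-TORUS: degeneration to the unit tensor from a weight pattern -/

set_option autoImplicit false

open scoped BigOperators Matrix
open Filter Topology

namespace BSR.TORUS

variable {d r : ℕ} {κ : Type} [Fintype κ]

lemma act_scale (w : Fin d → Fin r → ℂ) (A : Fin d → Matrix (Fin r) κ ℂ) (T : Tens d κ)
    (j : Fin d → Fin r) :
    act (fun s => Matrix.of fun i c => w s i * A s i c) T j = (∏ s, w s (j s)) * act A T j := by
  unfold act
  rw [Finset.mul_sum]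
  refine Finset.sum_congr rfl fun i _ => ?_
  simp only [Matrix.of_apply]
  rw [Finset.prod_mul_distrib]
  ring

lemma prod_w (hd : 0 < d) {e : ℂ} (he : e ≠ 0) (a : Fin d → Fin r → ℤ) (c : Fin r → ℂ)
    (j : Fin d → Fin r) :
    ∏ s, (e ^ a s (j s) * (if s = ⟨0, hd⟩ then (c (j s))⁻¹ else 1)) =
      e ^ (∑ s, a s (j s)) * (c (j ⟨0, hd⟩))⁻¹ := by
  rw [Finset.prod_mul_distrib]
  congr 1
  · induction (Finset.univ : Finset (Fin d)) using Finset.induction_on with
    | empty => simp
    | insert x s hx ih => rw [Finset.prod_insert hx, Finset.sum_insert hx, zpow_add₀ he, ih]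
  · rw [Finset.prod_ite_eq' Finset.univ (⟨0, hd⟩ : Fin d) (fun s => (c (j s))⁻¹)]
    simp

lemma unitT_const (hd : 0 < d) (l : Fin r) : unitT d (Fin r) (fun _ => l) = 1 := by
  unfold unitT
  rw [Finset.sum_eq_single l]
  · simp
  · intro b _ hb
    exact Finset.prod_eq_zero (Finset.mem_univ (⟨0, hd⟩ : Fin d)) (if_neg (Ne.symm hb))
  · intro h
    exact absurd (Finset.mem_univ l) h

lemma unitT_ne {j : Fin d → Fin r} (hj : ¬ ∃ l, ∀ s, j s = l) : unitT d (Fin r) j = 0 := by
  unfold unitT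
  refine Finset.sum_eq_zero fun l _ => ?_
  push Not at hj
  obtain ⟨s, hs⟩ := hj l
  exact Finset.prod_eq_zero (Finset.mem_univ s) (if_neg hs)

theorem degenerates_of_pattern {d r : ℕ} {κ : Type} [Fintype κ] (hd : 0 < d)
    (a : Fin d → Fin r → ℤ) (S : Finset (Fin d → Fin r)) (h0 : ∀ i, ∑ s, a s i = 0)
    (hS : ∀ j ∉ S, (¬ ∃ l, ∀ s, j s = l) → 0 < ∑ s, a s (j s))
    (T : Tens d κ) (A : Fin d → Matrix (Fin r) κ ℂ)
    (hzero : ∀ j ∈ S, act A T j = 0) (hne : ∀ l : Fin r, act A T (fun _ => l) ≠ 0) :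
    Degenerates T (unitT d (Fin r)) := by
  set c : Fin r → ℂ := fun l => act A T (fun _ => l) with hc
  set e : ℕ → ℂ := fun k => 1 / ((k : ℂ) + 1) with he
  have hek : ∀ k, e k ≠ 0 := fun k => one_div_ne_zero (Nat.cast_add_one_ne_zero k)
  have het : Tendsto e atTop (𝓝 0) := tendsto_one_div_add_atTop_nhds_zero_nat
  set B : ℕ → Fin d → Matrix (Fin r) κ ℂ := fun k s => Matrix.of fun i x =>
    ((e k) ^ a s i * (if s = ⟨0, hd⟩ then (c i)⁻¹ else 1)) * A s i x with hB
  have hact : ∀ k j, act (B k) T j =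
      ((e k) ^ (∑ s, a s (j s)) * (c (j ⟨0, hd⟩))⁻¹) * act A T j := by
    intro k j
    rw [← prod_w hd (hek k) a c j]
    exact act_scale (fun s i => (e k) ^ a s i * (if s = ⟨0, hd⟩ then (c i)⁻¹ else 1)) A T j
  refine mem_closure_of_tendsto (f := fun k => act (B k) T) (b := atTop) ?_
    (Eventually.of_forall fun k => ⟨B k, rfl⟩)
  rw [tendsto_pi_nhds]
  intro j
  simp only [hact]
  by_cases hj : ∃ l, ∀ s, j s = l
  · obtain ⟨l, hl⟩ := hj
    obtain rfl : j = fun _ => l := funext hl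
    rw [unitT_const hd]
    have : ∀ k, ((e k) ^ (∑ s, a s l) * (c l)⁻¹) * act A T (fun _ => l) = 1 := by
      intro k
      rw [h0, zpow_zero, one_mul]
      exact inv_mul_cancel₀ (hne l)
    simp only [this]
    exact tendsto_const_nhds
  · rw [unitT_ne hj]
    by_cases hjS : j ∈ S
    · simp only [hzero j hjS, mul_zero]
      exact tendsto_const_nhds
    · have h1 := hS j hjS hj
      obtain ⟨m, hm⟩ := Int.eq_ofNat_of_zero_le h1.le
      rw [hm] at h1
      have hm0 : m ≠ 0 := by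
        rintro rfl
        simp at h1
      simp only [hm, zpow_natCast]
      have h2 : Tendsto (fun k => (e k) ^ m) atTop (𝓝 0) := by
        have := het.pow m
        rwa [zero_pow hm0] at this
      have h3 := (h2.mul_const (c (j ⟨0, hd⟩))⁻¹).mul_const (act A T j)
      rwa [zero_mul, zero_mul] at h3

end BSR.TORUS
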