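import Pool.Agent.BSR.Defs

/-!
# Polynomial vectors by successive cross products
-/

set_option autoImplicit false

open scoped BigOperators Matrix

namespace BSR.VEC

open Finset

/-- solution of a linear system by Cramer's rule, with its value at a point -/
theorem cross {σ : Type} (T0 : σ → ℂ) {m : ℕ} (B : Matrix (Fin m) (Fin m) (MvPolynomial σ ℂ))
    (b : Fin m → MvPolynomial σ ℂ)
    (hB : (B.map (MvPolynomial.eval T0)).det ≠ 0) (hb : ∀ q, MvPolynomial.eval T0 (b q) = 0) :
    ∃ (x0 : MvPolynomial σ ℂ) (y : Fin m → MvPolynomial σ ℂ),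
      (∀ q, b q * x0 + ∑ p, B q p * y p = 0) ∧ MvPolynomial.eval T0 x0 ≠ 0 ∧
        ∀ p, MvPolynomial.eval T0 (y p) = 0 := by
  refine ⟨B.det, fun p => -(B.adjugate *ᵥ b) p, ?_, ?_, ?_⟩
  · intro q
    have h1 : (B *ᵥ (B.adjugate *ᵥ b)) q = B.det * b q := by
      rw [Matrix.mulVec_mulVec, Matrix.mul_adjugate, Matrix.smul_mulVec, Matrix.one_mulVec]
      simp
    have h2 : (B *ᵥ (B.adjugate *ᵥ b)) q = ∑ p, B q p * (B.adjugate *ᵥ b) p := rfl
    have h3 : ∑ p, B q p * -(B.adjugate *ᵥ b) p = -(B.det * b q) := by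
      rw [← h1, h2, ← Finset.sum_neg_distrib]
      exact Finset.sum_congr rfl fun p _ => by ring
    rw [h3]; ring
  · have h1 : MvPolynomial.eval T0 B.det = (B.map (MvPolynomial.eval T0)).det := by
      rw [RingHom.map_det]; rfl
    rw [h1]; exact hB
  · intro p
    have h1 : (B.adjugate *ᵥ b) p = ∑ q, B.adjugate p q * b q := rfl
    rw [map_neg, h1, map_sum, neg_eq_zero]
    refine Finset.sum_eq_zero fun q _ => ?_
    rw [map_mul, hb q, mul_zero]

/-- scaled Vandermonde matrices are nonsingular -/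
theorem det_ne {m : ℕ} (A : Matrix (Fin m) (Fin m) ℂ) (D x : Fin m → ℂ) (hD : ∀ q, D q ≠ 0)
    (hx : Function.Injective x) (hA : ∀ q p, A q p = D q * x q ^ (p : ℕ)) : A.det ≠ 0 := by
  have h1 : A = Matrix.of fun q p => D q * Matrix.vandermonde x q p := by
    ext q p
    rw [hA, Matrix.of_apply, Matrix.vandermonde_apply]
  rw [h1, Matrix.det_mul_column]
  exact mul_ne_zero (Finset.prod_ne_zero_iff.2 fun q _ => hD q)
    (Matrix.det_vandermonde_ne_zero_iff.2 hx)

section

variable {d r m : ℕ}

/-- the node of a tuple with one coordinate forgotten -/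
noncomputable def nd (s0 : Fin d) (i : Fin d → Fin r ⊕ Fin m) : ℕ :=
  (Fintype.equivFin (Fin d → Option (Fin r ⊕ Fin m))
    (fun s => if s = s0 then none else some (i s)) : ℕ)

theorem nd_congr {s0 : Fin d} {i i' : Fin d → Fin r ⊕ Fin m} (h : ∀ s, s ≠ s0 → i s = i' s) :
    nd s0 i = nd s0 i' := by
  unfold nd
  have : (fun s => if s = s0 then none else some (i s)) =
      (fun s => if s = s0 then none else some (i' s)) := by
    funext s
    by_cases hs : s = s0
    · simp [hs]
    · simp [hs, h s hs]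
  rw [this]

theorem nd_inj {s0 : Fin d} {i i' : Fin d → Fin r ⊕ Fin m} (h : nd s0 i = nd s0 i') :
    ∀ s, s ≠ s0 → i s = i' s := by
  intro s hs
  unfold nd at h
  have h1 := (Fintype.equivFin (Fin d → Option (Fin r ⊕ Fin m))).injective (Fin.ext h)
  have h2 := congrFun h1 s
  simpa [hs] using h2

theorem nd_lt (s0 : Fin d) (i : Fin d → Fin r ⊕ Fin m) :
    nd s0 i < Fintype.card (Fin d → Option (Fin r ⊕ Fin m)) := Fin.is_lt _

open Classical in
/-- the special tensor -/
noncomputable def T0 (i : Fin d → Fin r ⊕ Fin m) : ℂ :=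
  if ∃ l : Fin r, i = fun _ => Sum.inl l then 1
  else ∑ s : Fin d, Sum.elim (fun _ => (0 : ℂ)) (fun q : Fin m => ((nd s i : ℕ) : ℂ) ^ (q : ℕ)) (i s)

theorem T0_const (l : Fin r) : T0 (d := d) (m := m) (fun _ => Sum.inl l) = 1 := by
  unfold T0
  exact if_pos ⟨l, rfl⟩

theorem T0_inl (j : Fin d → Fin r) (hj : ∀ l : Fin r, (fun _ => l) ≠ j) :
    T0 (m := m) (fun s => Sum.inl (j s)) = 0 := by
  unfold T0
  rw [if_neg]
  · exact Finset.sum_eq_zero fun s _ => rfl
  · rintro ⟨l, hl⟩
    exact hj l (funext fun s => (Sum.inl_injective (congrFun hl s)).symm)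

theorem T0_inr (j : Fin d → Fin r) (s0 : Fin d) (q : Fin m) :
    T0 (Function.update (fun s => Sum.inl (j s)) s0 (Sum.inr q)) =
      ((nd (m := m) s0 (fun s => Sum.inl (j s)) : ℕ) : ℂ) ^ (q : ℕ) := by
  unfold T0
  rw [if_neg]
  · rw [Finset.sum_eq_single s0]
    · rw [Function.update_self, Sum.elim_inr]
      congr 2
      exact nd_congr fun s hs => Function.update_of_ne hs _ _
    · intro s _ hs
      rw [Function.update_of_ne hs, Sum.elim_inl]
    · intro h; exact absurd (Finset.mem_univ _) h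
  · rintro ⟨l, hl⟩
    have := congrFun hl s0
    rw [Function.update_self] at this
    exact Sum.inr_ne_inl this

/-- the generic tensor applied to the vectors with indices `j` -/
noncomputable def FF (v : Fin d → Fin r → (Fin r ⊕ Fin m) → MvPolynomial (Fin d → Fin r ⊕ Fin m) ℂ)
    (j : Fin d → Fin r) : MvPolynomial (Fin d → Fin r ⊕ Fin m) ℂ :=
  ∑ i : Fin d → Fin r ⊕ Fin m, (∏ s, v s (j s) (i s)) * MvPolynomial.X i

/-- coefficients of the functional -/
noncomputable def coef
    (v : Fin d → Fin r → (Fin r ⊕ Fin m) → MvPolynomial (Fin d → Fin r ⊕ Fin m) ℂ)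
    (s0 : Fin d) (j : Fin d → Fin r) (l : Fin r ⊕ Fin m) :
    MvPolynomial (Fin d → Fin r ⊕ Fin m) ℂ :=
  ∑ i : Fin d → Fin r ⊕ Fin m,
    if l = i s0 then (∏ s ∈ Finset.univ.erase s0, v s (j s) (i s)) * MvPolynomial.X i else 0

theorem FF_eq (v w : Fin d → Fin r → (Fin r ⊕ Fin m) → MvPolynomial (Fin d → Fin r ⊕ Fin m) ℂ)
    (s0 : Fin d) (j : Fin d → Fin r) (h : ∀ s, s ≠ s0 → w s (j s) = v s (j s)) :
    FF w j = ∑ l, w s0 (j s0) l * coef v s0 j l := by
  unfold FF coef
  simp only [Finset.mul_sum]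
  rw [Finset.sum_comm]
  refine Finset.sum_congr rfl fun i _ => ?_
  have h1 : ∀ l : Fin r ⊕ Fin m, w s0 (j s0) l *
      (if l = i s0 then (∏ s ∈ Finset.univ.erase s0, v s (j s) (i s)) * MvPolynomial.X i else 0) =
      if l = i s0 then w s0 (j s0) (i s0) *
        ((∏ s ∈ Finset.univ.erase s0, v s (j s) (i s)) * MvPolynomial.X i) else 0 := by
    intro l
    split_ifs with hl
    · rw [hl]
    · rw [mul_zero]
  rw [Finset.sum_congr rfl fun l _ => h1 l, Finset.sum_ite_eq' Finset.univ (i s0),
    if_pos (Finset.mem_univ _), ← Finset.mul_prod_erase Finset.univ _ (Finset.mem_univ s0),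
    mul_assoc]
  congr 2
  exact Finset.prod_congr rfl fun s hs => by rw [h s (Finset.ne_of_mem_erase hs)]

theorem eval_coef (v : Fin d → Fin r → (Fin r ⊕ Fin m) → MvPolynomial (Fin d → Fin r ⊕ Fin m) ℂ)
    (T : (Fin d → Fin r ⊕ Fin m) → ℂ) (c : Fin d → Fin r → ℂ)
    (hv : ∀ s i l, MvPolynomial.eval T (v s i l) = if l = Sum.inl i then c s i else 0)
    (s0 : Fin d) (j : Fin d → Fin r) (l : Fin r ⊕ Fin m) :
    MvPolynomial.eval T (coef v s0 j l) = (∏ s ∈ Finset.univ.erase s0, c s (j s)) *
      T (Function.update (fun s => Sum.inl (j s)) s0 l) := by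
  unfold coef
  rw [map_sum, Finset.sum_eq_single (Function.update (fun s => Sum.inl (j s)) s0 l)]
  · rw [Function.update_self, if_pos rfl, map_mul, map_prod, MvPolynomial.eval_X]
    congr 1
    refine Finset.prod_congr rfl fun s hs => ?_
    rw [hv, Function.update_of_ne (Finset.ne_of_mem_erase hs), if_pos rfl]
  · intro i _ hi
    by_cases hl : l = i s0
    · rw [if_pos hl, map_mul, map_prod]
      have h1 : ∃ s, s ≠ s0 ∧ i s ≠ Sum.inl (j s) := by
        by_contra hcon
        push Not at hcon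
        apply hi
        funext s
        by_cases hs : s = s0
        · subst hs; rw [Function.update_self, hl]
        · rw [Function.update_of_ne hs, hcon s hs]
      obtain ⟨s, hs, hne⟩ := h1
      rw [Finset.prod_eq_zero (Finset.mem_erase.2 ⟨hs, Finset.mem_univ s⟩), zero_mul]
      rw [hv, if_neg hne]
    · rw [if_neg hl, map_zero]
  · intro h; exact absurd (Finset.mem_univ _) h

/-- one step -/
theorem step (S : Finset (Fin d → Fin r)) (hdiag : ∀ l : Fin r, (fun _ => l) ∉ S)
    (s0 : Fin d) (i0 : Fin r) (L : Finset (Fin d → Fin r)) (hLS : ∀ j ∈ L, j ∈ S)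
    (hLi : ∀ j ∈ L, j s0 = i0) (hcard : L.card ≤ m)
    (v : Fin d → Fin r → (Fin r ⊕ Fin m) → MvPolynomial (Fin d → Fin r ⊕ Fin m) ℂ)
    (hv : ∀ s i, ∃ c : ℂ, c ≠ 0 ∧
      ∀ l, MvPolynomial.eval T0 (v s i l) = if l = Sum.inl i then c else 0) :
    ∃ x : (Fin r ⊕ Fin m) → MvPolynomial (Fin d → Fin r ⊕ Fin m) ℂ,
      (∃ c : ℂ, c ≠ 0 ∧ ∀ l, MvPolynomial.eval T0 (x l) = if l = Sum.inl i0 then c else 0) ∧
      ∀ j ∈ L, ∑ l, x l * coef v s0 j l = 0 := by
  choose c hc0 hc using hv
  -- enumeration of `L`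
  have hemb : Nonempty (L ↪ Fin m) := by
    rw [Function.Embedding.nonempty_iff_card_le]
    simpa using hcard
  obtain ⟨g⟩ := hemb
  classical
  set N := Fintype.card (Fin d → Option (Fin r ⊕ Fin m)) with hN
  -- rows
  let B : Matrix (Fin m) (Fin m) (MvPolynomial (Fin d → Fin r ⊕ Fin m) ℂ) := fun q p =>
    if h : ∃ j : L, g j = q then coef v s0 h.choose.1 (Sum.inr p)
    else MvPolynomial.C (((N + (q : ℕ) : ℕ) : ℂ) ^ (p : ℕ))
  let b : Fin m → MvPolynomial (Fin d → Fin r ⊕ Fin m) ℂ := fun q =>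
    if h : ∃ j : L, g j = q then coef v s0 h.choose.1 (Sum.inl i0) else 0
  let D : Fin m → ℂ := fun q =>
    if h : ∃ j : L, g j = q then ∏ s ∈ Finset.univ.erase s0, c s (h.choose.1 s) else 1
  let z : Fin m → ℕ := fun q =>
    if h : ∃ j : L, g j = q then nd (m := m) s0 (fun s => Sum.inl (h.choose.1 s)) else N + (q : ℕ)
  have hz : Function.Injective z := by
    intro q q' hqq
    simp only [z] at hqq
    by_cases h : ∃ j : L, g j = q
    · by_cases h' : ∃ j : L, g j = q'
      · rw [dif_pos h, dif_pos h'] at hqq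
        have h1 := nd_inj hqq
        have h2 : h.choose = h'.choose := by
          apply Subtype.ext
          funext s
          by_cases hs : s = s0
          · subst hs
            rw [hLi _ h.choose.2, hLi _ h'.choose.2]
          · exact Sum.inl_injective (h1 s hs)
        rw [← h.choose_spec, ← h'.choose_spec, h2]
      · rw [dif_pos h, dif_neg h'] at hqq
        have := nd_lt (m := m) s0 (fun s => Sum.inl (h.choose.1 s))
        omega
    · by_cases h' : ∃ j : L, g j = q'
      · rw [dif_neg h, dif_pos h'] at hqq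
        have := nd_lt (m := m) s0 (fun s => Sum.inl (h'.choose.1 s))
        omega
      · rw [dif_neg h, dif_neg h'] at hqq
        apply Fin.ext
        omega
  have hBdet : (B.map (MvPolynomial.eval T0)).det ≠ 0 := by
    refine det_ne _ D (fun q => ((z q : ℕ) : ℂ)) ?_ ?_ ?_
    · intro q
      simp only [D]
      split_ifs with h
      · exact Finset.prod_ne_zero_iff.2 fun s _ => hc0 _ _
      · exact one_ne_zero
    · exact fun q q' h => hz (Nat.cast_injective h)
    · intro q p
      simp only [Matrix.map_apply, B, D, z]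
      by_cases h : ∃ j : L, g j = q
      · rw [dif_pos h, dif_pos h, dif_pos h, eval_coef v T0 c hc, T0_inr]
      · rw [dif_neg h, dif_neg h, dif_neg h, MvPolynomial.eval_C, one_mul]
  have hb0 : ∀ q, MvPolynomial.eval T0 (b q) = 0 := by
    intro q
    simp only [b]
    by_cases h : ∃ j : L, g j = q
    · rw [dif_pos h, eval_coef v T0 c hc]
      have h1 : Function.update (fun s => (Sum.inl (h.choose.1 s) : Fin r ⊕ Fin m)) s0
          (Sum.inl i0) = fun s => Sum.inl (h.choose.1 s) := by
        rw [← hLi _ h.choose.2]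
        exact Function.update_eq_self _ _
      rw [h1, T0_inl, mul_zero]
      intro l hl
      exact hdiag l (hl ▸ hLS _ h.choose.2)
    · rw [dif_neg h, map_zero]
  obtain ⟨x0, y, hxy, hx0, hy⟩ := cross T0 B b hBdet hb0
  refine ⟨fun l => Sum.elim (fun i => if i = i0 then x0 else 0) y l,
    ⟨MvPolynomial.eval T0 x0, hx0, ?_⟩, ?_⟩
  · rintro (i | q)
    · by_cases hi : i = i0
      · simp [hi]
      · simp [hi]
    · simp [hy q]
  · intro j hj
    have h : ∃ j' : L, g j' = g ⟨j, hj⟩ := ⟨⟨j, hj⟩, rfl⟩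
    have hch : h.choose = ⟨j, hj⟩ := g.injective h.choose_spec
    have h1 := hxy (g ⟨j, hj⟩)
    simp only [b, B, dif_pos h, hch] at h1
    rw [Fintype.sum_sum_type]
    simp only [Sum.elim_inl, Sum.elim_inr, ite_mul, zero_mul, Finset.sum_ite_eq',
      Finset.mem_univ, if_true]
    rw [← h1]
    congr 1
    · ring
    · exact Finset.sum_congr rfl fun p _ => by ring

theorem poly_vectors {d r m : ℕ} (hd : 2 ≤ d) (S : Finset (Fin d → Fin r))
    (τ : Fin d × Fin r → ℕ) (hτ : Function.Injective τ) (hdiag : ∀ l : Fin r, (fun _ => l) ∉ S)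
    (hload : ∀ s i, (S.filter fun j => j s = i ∧ ∀ s', s' ≠ s → τ (s', j s') < τ (s, i)).card ≤ m) :
    ∃ (T0 : Tens d (Fin r ⊕ Fin m))
      (v : Fin d → Fin r → (Fin r ⊕ Fin m) → MvPolynomial (Fin d → Fin r ⊕ Fin m) ℂ),
      (∀ j ∈ S, ∑ i : Fin d → Fin r ⊕ Fin m, (∏ s, v s (j s) (i s)) * MvPolynomial.X i = 0) ∧
      (∀ l : Fin r, ∑ i : Fin d → Fin r ⊕ Fin m,
        (∏ s, MvPolynomial.eval T0 (v s l (i s))) * T0 i ≠ 0) := by
  classical
  have key : ∀ t : ℕ, ∃ v : Fin d → Fin r → (Fin r ⊕ Fin m) →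
      MvPolynomial (Fin d → Fin r ⊕ Fin m) ℂ,
      (∀ s i, ∃ c : ℂ, c ≠ 0 ∧
        ∀ l, MvPolynomial.eval T0 (v s i l) = if l = Sum.inl i then c else 0) ∧
      ∀ j ∈ S, (∀ s, τ (s, j s) < t) → FF v j = 0 := by
    intro t
    induction t with
    | zero =>
      refine ⟨fun s i l => if l = Sum.inl i then 1 else 0, fun s i => ⟨1, one_ne_zero, fun l => ?_⟩,
        fun j _ hj => absurd (hj ⟨0, by omega⟩) (Nat.not_lt_zero _)⟩
      by_cases h : l = Sum.inl i <;> simp [h]
    | succ t ih =>
      obtain ⟨v, hv, hF⟩ := ih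
      by_cases hex : ∃ a : Fin d × Fin r, τ a = t
      · obtain ⟨⟨s0, i0⟩, ht⟩ := hex
        obtain ⟨x, hx, hxL⟩ := step S hdiag s0 i0
          (S.filter fun j => j s0 = i0 ∧ ∀ s', s' ≠ s0 → τ (s', j s') < τ (s0, i0))
          (fun j hj => (Finset.mem_filter.1 hj).1) (fun j hj => (Finset.mem_filter.1 hj).2.1)
          (hload s0 i0) v hv
        refine ⟨fun s i => if s = s0 ∧ i = i0 then x else v s i, ?_, ?_⟩
        · intro s i
          by_cases hsi : s = s0 ∧ i = i0
          · obtain ⟨rfl, rfl⟩ := hsi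
            simpa using hx
          · simpa [hsi] using hv s i
        · intro j hj hjt
          by_cases hs0 : j s0 = i0
          · have hjL : j ∈ S.filter fun j => j s0 = i0 ∧ ∀ s', s' ≠ s0 →
                τ (s', j s') < τ (s0, i0) := by
              refine Finset.mem_filter.2 ⟨hj, hs0, fun s' hs' => ?_⟩
              have h1 := hjt s'
              have h2 : τ (s', j s') ≠ τ (s0, i0) := fun h => hs' (congrArg Prod.fst (hτ h))
              omega
            rw [FF_eq v _ s0 j (fun s hs => by simp [hs])]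
            have h3 := hxL j hjL
            rw [← h3]
            exact Finset.sum_congr rfl fun l _ => by simp [hs0]
          · have h4 : FF (fun s i => if s = s0 ∧ i = i0 then x else v s i) j = FF v j := by
              unfold FF
              refine Finset.sum_congr rfl fun i _ => ?_
              congr 1
              refine Finset.prod_congr rfl fun s _ => ?_
              have h5 : ¬ (s = s0 ∧ j s = i0) := by
                rintro ⟨rfl, h⟩; exact hs0 h
              simp only [h5, if_false]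
            rw [h4]
            refine hF j hj fun s => ?_
            have h1 := hjt s
            have h2 : τ (s, j s) ≠ t := by
              intro h
              have h6 := hτ (h.trans ht.symm)
              have h7 := congrArg Prod.fst h6
              have h8 := congrArg Prod.snd h6
              simp only at h7 h8
              subst h7
              exact hs0 h8
            omega
      · refine ⟨v, hv, fun j hj hjt => hF j hj fun s => ?_⟩
        have h1 := hjt s
        have h2 : τ (s, j s) ≠ t := fun h => hex ⟨_, h⟩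
        omega
  obtain ⟨v, hv, hF⟩ := key ((Finset.univ.sup τ) + 1)
  choose c hc0 hc using hv
  refine ⟨T0, v, fun j hj => ?_, fun l => ?_⟩
  · exact hF j hj fun s => Nat.lt_succ_of_le (Finset.le_sup (f := τ) (Finset.mem_univ _))
  · rw [Finset.sum_eq_single (fun _ => Sum.inl l)]
    · rw [T0_const, mul_one]
      refine Finset.prod_ne_zero_iff.2 fun s _ => ?_
      rw [hc, if_pos rfl]
      exact hc0 s l
    · intro i _ hi
      have h1 : ∃ s, i s ≠ Sum.inl l := by
        by_contra hcon
        push Not at hcon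
        exact hi (funext hcon)
      obtain ⟨s, hs⟩ := h1
      rw [Finset.prod_eq_zero (Finset.mem_univ s), zero_mul]
      rw [hc, if_neg hs]
    · intro h; exact absurd (Finset.mem_univ _) h

end

end BSR.VEC
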