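import Pool.Agent.BSR.Basic618
import Pool.Agent.BSR.VEC
import Pool.Agent.BSR.TORUS
import Pool.Agent.BSR.AMGM
import Pool.Agent.BSR.NUM

set_option autoImplicit false
set_option backward.isDefEq.respectTransparency false

namespace BSR

open scoped BigOperators Matrix Topology

theorem degenerates_equiv {d r : ℕ} {κ κ' : Type} [Fintype κ] [Fintype κ'] (e : κ ≃ κ')
    (T : Tens d κ') (h : Degenerates (fun i : Fin d → κ => T (fun s => e (i s))) (unitT d (Fin r))) :
    Degenerates T (unitT d (Fin r)) := by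
  classical
  refine closure_mono ?_ h
  rintro _ ⟨A, rfl⟩
  refine ⟨fun s => (A s).submatrix id e.symm, ?_⟩
  funext j
  simp only [act, Matrix.submatrix_apply, id]
  refine Fintype.sum_equiv (Equiv.arrowCongr (Equiv.refl _) e.symm) _ _ fun i => ?_
  simp [Equiv.arrowCongr]

/-- the abstract lower bound: a pattern with an order of small loads -/
theorem lower_abs {d n r m : ℕ} (hd : 2 ≤ d) (hn : r + m = n)
    (a : Fin d → Fin r → ℤ) (S : Finset (Fin d → Fin r)) (τ : Fin d × Fin r → ℕ)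
    (hτ : Function.Injective τ) (h0 : ∀ i, ∑ s, a s i = 0)
    (hS : ∀ j ∉ S, (¬ ∃ l, ∀ s, j s = l) → 0 < ∑ s, a s (j s))
    (hdiag : ∀ l : Fin r, (fun _ => l) ∉ S)
    (hload : ∀ s i, (S.filter fun j => j s = i ∧ ∀ s', s' ≠ s → τ (s', j s') < τ (s, i)).card ≤ m) :
    ∃ P : MvPolynomial (Fin d → Fin n) ℂ, P ≠ 0 ∧
      ∀ T : Tens d (Fin n), MvPolynomial.eval T P ≠ 0 → Degenerates T (unitT d (Fin r)) := by
  classical
  obtain ⟨T0, v, hv1, hv2⟩ := VEC.poly_vectors hd S τ hτ hdiag hload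
  let e : Fin r ⊕ Fin m ≃ Fin n := finSumFinEquiv.trans (finCongr hn)
  let f : (Fin d → Fin r ⊕ Fin m) → (Fin d → Fin n) := fun i s => e (i s)
  have hf : Function.Injective f := by
    intro i i' h
    funext s
    exact e.injective (congrFun h s)
  let Q : MvPolynomial (Fin d → Fin r ⊕ Fin m) ℂ :=
    ∏ l : Fin r, ∑ i : Fin d → Fin r ⊕ Fin m, (∏ s, v s l (i s)) * MvPolynomial.X i
  have hQ : Q ≠ 0 := by
    intro h
    have h1 : MvPolynomial.eval T0 Q = 0 := by rw [h, map_zero]
    rw [map_prod, Finset.prod_eq_zero_iff] at h1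
    obtain ⟨l, _, hl⟩ := h1
    refine hv2 l ?_
    rw [← hl, map_sum]
    refine Finset.sum_congr rfl fun i _ => ?_
    rw [map_mul, map_prod, MvPolynomial.eval_X]
  refine ⟨MvPolynomial.rename f Q, fun h => hQ (MvPolynomial.rename_injective f hf (by rw [h, map_zero])),
    fun T hT => ?_⟩
  rw [MvPolynomial.eval_rename] at hT
  apply degenerates_equiv e T
  have hT' : MvPolynomial.eval (fun i : Fin d → Fin r ⊕ Fin m => T (fun s => e (i s))) Q ≠ 0 := hT
  generalize (fun i : Fin d → Fin r ⊕ Fin m => T (fun s => e (i s))) = T' at hT' ⊢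
  have hact : ∀ j, act (fun s => Matrix.of fun a b => MvPolynomial.eval T' (v s a b)) T' j =
      MvPolynomial.eval T' (∑ i : Fin d → Fin r ⊕ Fin m, (∏ s, v s (j s) (i s)) * MvPolynomial.X i) := by
    intro j
    simp only [act, Matrix.of_apply, map_sum, map_mul, map_prod, MvPolynomial.eval_X]
  refine TORUS.degenerates_of_pattern (by omega) a S h0 hS T'
    (fun s => Matrix.of fun a b => MvPolynomial.eval T' (v s a b)) (fun j hj => ?_) (fun l => ?_)
  · rw [hact, hv1 j hj, map_zero]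
  · rw [hact]
    rw [map_prod, Finset.prod_ne_zero_iff] at hT'
    exact hT' l (Finset.mem_univ l)

theorem lower_one {d n r : ℕ} (hd : 3 ≤ d)
    (h : (d - 2) ^ (d - 2) * (r + 1) ^ (d - 1) + (d - 1) ^ (d - 1) * r ≤ (d - 1) ^ (d - 1) * n) :
    ∃ P : MvPolynomial (Fin d → Fin n) ℂ, P ≠ 0 ∧
      ∀ T : Tens d (Fin n), MvPolynomial.eval T P ≠ 0 → Degenerates T (unitT d (Fin r)) := by
  have hpos : 0 < (d - 1) ^ (d - 1) := pow_pos (by omega) _
  have hrn : r ≤ n := by
    refine Nat.le_of_mul_le_mul_left ?_ hpos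
    exact (Nat.le_add_left _ _).trans h
  have hm : ∀ i < r, (i + 1) ^ (d - 2) * (r - i) ≤ n - r := by
    intro i hi
    have h1 := AMGM.amgm (d - 2) (i + 1) (r - i) (by omega)
    have h2 : d - 2 + 1 = d - 1 := by omega
    have h3 : i + 1 + (r - i) = r + 1 := by omega
    rw [h2, h3] at h1
    have h4 : (d - 1) ^ (d - 1) * ((i + 1) ^ (d - 2) * (r - i) + r) ≤ (d - 1) ^ (d - 1) * n := by
      refine le_trans ?_ h
      rw [mul_add]
      refine Nat.add_le_add_right ?_ _
      rw [mul_comm]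
      exact h1
    have h5 := Nat.le_of_mul_le_mul_left h4 hpos
    omega
  obtain ⟨a, S, τ, hτ, h0, hS, hdiag, hload⟩ := NUM.pattern_exists hd hm
  exact lower_abs (by omega) (by omega : r + (n - r) = n) a S τ hτ h0 hS hdiag hload

end BSR
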