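import Pool.Agent.BSR.Defs

set_option autoImplicit false

open scoped BigOperators Matrix

namespace BSR.PERM

theorem exists_lev {r : ℕ} (h : Matrix (Fin r) (Fin r) ℂ) (hdet : h.det ≠ 0) :
    ∃ lev : Fin r → Fin r, (∀ c, h (lev c) c ≠ 0) ∧ ∀ s c, lev c < s → h s c = 0 := by
  classical
  have h1 : ∀ c, ∃ s, h s c ≠ 0 := by
    intro c
    by_contra hc
    push Not at hc
    exact hdet (Matrix.det_eq_zero_of_column_eq_zero c hc)
  have h2 : ∀ c, ∃ l, h l c ≠ 0 ∧ ∀ s, l < s → h s c = 0 := by
    intro c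
    have hne : (Finset.univ.filter (fun s => h s c ≠ 0)).Nonempty := by
      obtain ⟨s, hs⟩ := h1 c
      exact ⟨s, by simp [hs]⟩
    refine ⟨(Finset.univ.filter (fun s => h s c ≠ 0)).max' hne, ?_, ?_⟩
    · exact (Finset.mem_filter.1 (Finset.max'_mem _ hne)).2
    · intro s hs
      by_contra h3
      have h4 : s ∈ Finset.univ.filter (fun s => h s c ≠ 0) := by simp [h3]
      exact absurd (Finset.le_max' _ s h4) (not_le.2 hs)
  choose lev hl1 hl2 using h2
  exact ⟨lev, hl1, fun s c hs => hl2 c s hs⟩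

theorem exists_permanent_ne_zero {r : ℕ} (h : Matrix (Fin r) (Fin r) ℂ) (hdet : h.det ≠ 0) :
    ∃ f : Fin r → Fin r, (∀ i, i ≤ f i) ∧ (h.submatrix f id).permanent ≠ 0 := by
  classical
  obtain ⟨lev, hl1, hl2⟩ := exists_lev h hdet
  set e : Equiv.Perm (Fin r) := Tuple.sort lev with he
  have hmono : Monotone (lev ∘ e) := Tuple.monotone_sort lev
  refine ⟨fun i => lev (e i), ?_, ?_⟩
  · intro i
    by_contra hlt
    have hlt' : lev (e i) < i := not_le.1 hlt
    apply hdet
    rw [Matrix.det_apply]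
    refine Finset.sum_eq_zero fun σ _ => ?_
    have hex : ∃ k ∈ Finset.Iic i, i ≤ σ (e k) := by
      by_contra hcon
      push Not at hcon
      have hcard : (Finset.Iic i).card ≤ (Finset.Iio i).card := by
        refine Finset.card_le_card_of_injOn (fun k => σ (e k)) ?_ ?_
        · intro k hk
          exact Finset.mem_coe.2 (Finset.mem_Iio.2 (hcon k hk))
        · intro k _ l _ hkl
          exact e.injective (σ.injective hkl)
      rw [Fin.card_Iic, Fin.card_Iio] at hcard
      omega
    obtain ⟨k, hk, hik⟩ := hex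
    have h1 : lev (e k) ≤ lev (e i) := hmono (Finset.mem_Iic.1 hk)
    have h2 : h (σ (e k)) (e k) = 0 := hl2 _ _ (lt_of_le_of_lt h1 (lt_of_lt_of_le hlt' hik))
    have h3 : (∏ j, h (σ j) j) = 0 :=
      Finset.prod_eq_zero (f := fun j => h (σ j) j) (Finset.mem_univ (e k)) h2
    rw [h3, smul_zero]
  · set D : ℂ := ∏ c, h (lev c) c with hD
    have hD0 : D ≠ 0 := Finset.prod_ne_zero_iff.2 fun c _ => hl1 c
    have hterm : ∀ σ : Equiv.Perm (Fin r),
        (∏ c, (h.submatrix (fun i => lev (e i)) id) (σ c) c) =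
          if (∀ c, lev (e (σ c)) = lev c) then D else 0 := by
      intro σ
      split_ifs with hs
      · rw [hD]
        refine Finset.prod_congr rfl fun c _ => ?_
        rw [Matrix.submatrix_apply, hs c]
        rfl
      · by_contra hne
        apply hs
        have h1 : ∀ c, h (lev (e (σ c))) c ≠ 0 := by
          intro c hc
          exact hne (Finset.prod_eq_zero (Finset.mem_univ c) hc)
        have h2 : ∀ c ∈ Finset.univ, (lev (e (σ c)) : ℕ) ≤ (lev c : ℕ) := by
          intro c _
          by_contra h3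
          exact h1 c (hl2 _ _ (Fin.lt_def.2 (not_le.1 h3)))
        have h3 : ∑ c, (lev (e (σ c)) : ℕ) = ∑ c, (lev c : ℕ) :=
          Equiv.sum_comp (σ.trans e) (fun c => (lev c : ℕ))
        have h4 := (Finset.sum_eq_sum_iff_of_le h2).1 h3
        intro c
        exact Fin.ext (h4 c (Finset.mem_univ c))
    have hperm : (h.submatrix (fun i => lev (e i)) id).permanent =
        ((Finset.univ.filter fun σ : Equiv.Perm (Fin r) =>
          ∀ c, lev (e (σ c)) = lev c).card : ℂ) * D := by
      rw [Matrix.permanent, Finset.sum_congr rfl fun σ _ => hterm σ, ← Finset.sum_filter,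
        Finset.sum_const, nsmul_eq_mul]
    rw [hperm]
    refine mul_ne_zero ?_ hD0
    have hpos : 0 < (Finset.univ.filter fun σ : Equiv.Perm (Fin r) =>
          ∀ c, lev (e (σ c)) = lev c).card := by
      refine Finset.card_pos.2 ⟨e⁻¹, ?_⟩
      simp
    exact_mod_cast hpos.ne'

end BSR.PERM
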