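import Pool.Agent.BSR.Defs
import Pool.Agent.BSR.PERM

/-! Matching from the unit tensor (BSR-MATCH). -/

set_option autoImplicit false

open scoped BigOperators Matrix

open Equiv

namespace BSR.MATCH

/-- the coordinates of the image of the unit tensor -/
theorem act_unit {d r : ℕ} (h : Fin d → Matrix (Fin r) (Fin r) ℂ) (j : Fin d → Fin r) :
    act h (unitT d (Fin r)) j = ∑ l, ∏ s, h s (j s) l := by
  unfold act unitT
  simp only [Finset.mul_sum]
  rw [Finset.sum_comm]
  refine Finset.sum_congr rfl fun l _ => ?_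
  have e : ∏ s, h s (j s) l = ∏ s, ∑ x, h s (j s) x * (if x = l then (1 : ℂ) else 0) := by
    refine Finset.prod_congr rfl fun s _ => ?_
    simp
  rw [e, Finset.prod_univ_sum, Fintype.piFinset_univ]
  refine Finset.sum_congr rfl fun i _ => ?_
  rw [Finset.prod_mul_distrib]

/-- the sign character for `s < 2`, the trivial one for `s ≥ 2` -/
noncomputable def cc {d r : ℕ} (s : Fin d) (π : Perm (Fin r)) : ℂ :=
  if (s : ℕ) < 2 then ((Perm.sign π : ℤ) : ℂ) else 1

theorem cc_mul {d r : ℕ} (s : Fin d) (π τ : Perm (Fin r)) : cc s (π * τ) = cc s π * cc s τ := by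
  unfold cc
  split_ifs
  · rw [Perm.sign_mul]
    push_cast
    ring
  · rw [mul_one]

/-- the alternating or symmetric sum -/
noncomputable def DD {d r : ℕ} (H : Fin d → Matrix (Fin r) (Fin r) ℂ) (s : Fin d)
    (L : Fin r → Fin r) : ℂ :=
  ∑ π : Perm (Fin r), cc s π * ∏ i, H s (π i) (L i)

theorem DD_perm {d r : ℕ} (H : Fin d → Matrix (Fin r) (Fin r) ℂ) (s : Fin d)
    (τ : Perm (Fin r)) : DD H s τ = cc s τ * DD H s id := by
  unfold DD
  rw [← Equiv.sum_comp (Equiv.mulRight τ), Finset.mul_sum]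
  refine Finset.sum_congr rfl fun π _ => ?_
  rw [Equiv.coe_mulRight, cc_mul, mul_comm (cc s π), mul_assoc]
  congr 2
  rw [← Equiv.prod_comp τ (fun i => H s (π i) (id i))]
  rfl

theorem DD_det {d r : ℕ} (H : Fin d → Matrix (Fin r) (Fin r) ℂ) {s : Fin d} (hs : (s : ℕ) < 2)
    (L : Fin r → Fin r) : DD H s L = (Matrix.of fun i j => H s i (L j)).det := by
  unfold DD cc
  rw [Matrix.det_apply']
  refine Finset.sum_congr rfl fun π _ => ?_
  rw [if_pos hs]
  rfl

theorem DD_zero {d r : ℕ} (H : Fin d → Matrix (Fin r) (Fin r) ℂ) {s : Fin d} (hs : (s : ℕ) < 2)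
    {L : Fin r → Fin r} (hL : ¬ Function.Injective L) : DD H s L = 0 := by
  rw [DD_det H hs]
  unfold Function.Injective at hL
  push Not at hL
  obtain ⟨a, b, h1, h2⟩ := hL
  refine Matrix.det_zero_of_column_eq h2 fun k => ?_
  simp [h1]

theorem prod_cc {d r : ℕ} (hd : 2 ≤ d) (τ : Perm (Fin r)) : ∏ s : Fin d, cc s τ = 1 := by
  obtain ⟨e, rfl⟩ : ∃ e, d = e + 2 := ⟨d - 2, by omega⟩
  rw [Fin.prod_univ_succ, Fin.prod_univ_succ]
  have h1 : ∀ s : Fin e, cc (s.succ.succ : Fin (e + 2)) τ = 1 := by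
    intro s
    unfold cc
    rw [if_neg]
    simp
  have h2 : cc (0 : Fin (e + 2)) τ = ((Perm.sign τ : ℤ) : ℂ) := by
    unfold cc
    rw [if_pos]
    simp
  have h3 : cc ((0 : Fin (e + 1)).succ : Fin (e + 2)) τ = ((Perm.sign τ : ℤ) : ℂ) := by
    unfold cc
    rw [if_pos]
    simp
  rw [h2, h3, Finset.prod_congr rfl fun s _ => h1 s, Finset.prod_const_one, mul_one]
  rcases Int.units_eq_one_or (Perm.sign τ) with h | h <;> simp [h]

/-- the total sum -/
theorem total {d r : ℕ} (hd : 2 ≤ d) (h : Fin d → Matrix (Fin r) (Fin r) ℂ)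
    (f : Fin d → Fin r → Fin r) :
    ∑ σ : Fin d → Perm (Fin r), (∏ s, cc s (σ s)) *
        ∏ i, act h (unitT d (Fin r)) (fun s => f s (σ s i)) =
      (r.factorial : ℂ) * ∏ s, DD (fun s => (h s).submatrix (f s) id) s id := by
  set H : Fin d → Matrix (Fin r) (Fin r) ℂ := fun s => (h s).submatrix (f s) id with hH
  have e1 : ∀ σ : Fin d → Perm (Fin r), (∏ s, cc s (σ s)) *
        ∏ i, act h (unitT d (Fin r)) (fun s => f s (σ s i)) =
      ∑ L : Fin r → Fin r, ∏ s, (cc s (σ s) * ∏ i, H s (σ s i) (L i)) := by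
    intro σ
    have e2 : ∏ i, act h (unitT d (Fin r)) (fun s => f s (σ s i)) =
        ∑ L : Fin r → Fin r, ∏ i, ∏ s, H s (σ s i) (L i) := by
      simp only [act_unit]
      rw [Finset.prod_univ_sum, Fintype.piFinset_univ]
      rfl
    rw [e2, Finset.mul_sum]
    refine Finset.sum_congr rfl fun L _ => ?_
    rw [Finset.prod_comm, ← Finset.prod_mul_distrib]
  simp only [e1]
  rw [Finset.sum_comm]
  have e3 : ∀ L : Fin r → Fin r, ∑ σ : Fin d → Perm (Fin r),
      ∏ s, (cc s (σ s) * ∏ i, H s (σ s i) (L i)) = ∏ s, DD H s L := by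
    intro L
    unfold DD
    rw [Finset.prod_univ_sum, Fintype.piFinset_univ]
  simp only [e3]
  have e4 : ∑ τ : Perm (Fin r), ∏ s, DD H s id = ∑ L : Fin r → Fin r, ∏ s, DD H s L := by
    refine Finset.sum_of_injOn (fun τ => (τ : Fin r → Fin r))
      (fun a _ b _ hab => Equiv.coe_fn_injective hab) (fun _ _ => Finset.mem_coe.2 (Finset.mem_univ _)) ?_ ?_
    · intro L _ hL
      have hni : ¬ Function.Injective L := by
        intro hi
        apply hL
        refine ⟨Equiv.ofBijective L ((Finite.injective_iff_bijective).1 hi), by simp, rfl⟩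
      exact Finset.prod_eq_zero (Finset.mem_univ (⟨0, by omega⟩ : Fin d)) (DD_zero H (by simp) hni)
    · intro τ _
      simp only [DD_perm]
      rw [Finset.prod_mul_distrib, prod_cc hd, one_mul]
  rw [← e4, Finset.sum_const, Finset.card_univ, Fintype.card_perm, Fintype.card_fin, nsmul_eq_mul]

theorem matching_of
    (PERM : ∀ {r : ℕ} (h : Matrix (Fin r) (Fin r) ℂ), h.det ≠ 0 →
      ∃ f : Fin r → Fin r, (∀ i, i ≤ f i) ∧ (h.submatrix f id).permanent ≠ 0)
    {d r : ℕ} (hd : 2 ≤ d) (h : Fin d → Matrix (Fin r) (Fin r) ℂ)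
    (hdet : ∀ s, (h s).det ≠ 0) :
    ∃ (σ : Fin d → Equiv.Perm (Fin r)) (f : Fin d → Fin r → Fin r), (∀ s i, i ≤ f s i) ∧
      ∀ i, act h (unitT d (Fin r)) (fun s => f s (σ s i)) ≠ 0 := by
  choose g hg1 hg2 using fun s => PERM (h s) (hdet s)
  set f : Fin d → Fin r → Fin r := fun s => if (s : ℕ) < 2 then id else g s with hf
  have hf1 : ∀ s : Fin d, (s : ℕ) < 2 → f s = id := fun s hs => if_pos hs
  have hf2 : ∀ s : Fin d, ¬ (s : ℕ) < 2 → f s = g s := fun s hs => if_neg hs
  have hne : ∀ s, DD (fun s => (h s).submatrix (f s) id) s id ≠ 0 := by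
    intro s
    by_cases hs : (s : ℕ) < 2
    · rw [DD_det _ hs]
      have e : (Matrix.of fun i j => (h s).submatrix (f s) id i (id j)) = h s := by
        ext i j
        rw [Matrix.of_apply, Matrix.submatrix_apply, hf1 s hs]
        rfl
      rw [e]
      exact hdet s
    · have e : DD (fun s => (h s).submatrix (f s) id) s id =
          ((h s).submatrix (g s) id).permanent := by
        unfold DD Matrix.permanent
        refine Finset.sum_congr rfl fun π _ => ?_
        rw [cc, if_neg hs, one_mul]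
        refine Finset.prod_congr rfl fun i _ => ?_
        change h s (f s (π i)) i = h s (g s (π i)) i
        rw [hf2 s hs]
      rw [e]
      exact hg2 s
  have htot := total hd h f
  have hr : (r.factorial : ℂ) * ∏ s, DD (fun s => (h s).submatrix (f s) id) s id ≠ 0 :=
    mul_ne_zero (Nat.cast_ne_zero.2 (Nat.factorial_ne_zero r))
      (Finset.prod_ne_zero_iff.2 fun s _ => hne s)
  rw [← htot] at hr
  obtain ⟨σ, -, hσ⟩ := Finset.exists_ne_zero_of_sum_ne_zero hr
  refine ⟨σ, f, fun s i => ?_, fun i => ?_⟩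
  · by_cases hs : (s : ℕ) < 2
    · rw [hf1 s hs]
      exact le_refl i
    · rw [hf2 s hs]
      exact hg1 s i
  · exact Finset.prod_ne_zero_iff.1 (right_ne_zero_of_mul hσ) i (Finset.mem_univ i)

theorem matching {d r : ℕ} (hd : 2 ≤ d) (h : Fin d → Matrix (Fin r) (Fin r) ℂ)
    (hdet : ∀ s, (h s).det ≠ 0) :
    ∃ (σ : Fin d → Equiv.Perm (Fin r)) (f : Fin d → Fin r → Fin r), (∀ s i, i ≤ f s i) ∧
      ∀ i, act h (unitT d (Fin r)) (fun s => f s (σ s i)) ≠ 0 :=
  matching_of (fun h hh => BSR.PERM.exists_permanent_ne_zero h hh) hd h hdet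

end BSR.MATCH
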