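import Mathlib
import Pool.Agent.BSR.Defs

set_option autoImplicit false

open scoped BigOperators Matrix

namespace BSR.MINOR

/-- a right invertible matrix has an invertible maximal minor -/
theorem exists_minor {r n : ℕ} (V : Matrix (Fin r) (Fin n) ℂ) (B : Matrix (Fin n) (Fin r) ℂ)
    (h : V * B = 1) : ∃ J : Fin r ↪ Fin n, (V.submatrix id J).det ≠ 0 := by
  have hspan : Submodule.span ℂ (Set.range V.col) = ⊤ := by
    rw [← Matrix.range_mulVecLin, LinearMap.range_eq_top]
    intro x
    refine ⟨B.mulVec x, ?_⟩
    rw [Matrix.mulVecLin_apply, Matrix.mulVec_mulVec, h, Matrix.one_mulVec]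
  have hr : Module.finrank ℂ (Submodule.span ℂ (Set.range V.col)) = r := by
    rw [hspan, finrank_top, Module.finrank_fin_fun]
  obtain ⟨f, hf, -, hli⟩ := Submodule.exists_fun_fin_finrank_span_eq ℂ (Set.range V.col)
  choose J hJ using fun i : Fin r => hf (Fin.cast hr.symm i)
  have hinj : Function.Injective J := by
    intro a b hab
    have h1 : f (Fin.cast hr.symm a) = f (Fin.cast hr.symm b) := by
      rw [← hJ a, ← hJ b, hab]
    have h2 := hli.injective h1
    exact Fin.cast_injective _ h2
  refine ⟨⟨J, hinj⟩, ?_⟩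
  have h3 : LinearIndependent ℂ (V.submatrix id J).col := by
    have h4 : (V.submatrix id J).col = f ∘ Fin.cast hr.symm := by
      funext i
      exact hJ i
    rw [h4]
    exact hli.comp _ (Fin.cast_injective _)
  have h5 := Matrix.linearIndependent_cols_iff_isUnit.1 h3
  rw [Matrix.isUnit_iff_isUnit_det] at h5
  exact h5.ne_zero

end BSR.MINOR
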