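import Pool.Agent.BSR.Load618
import Pool.Agent.BSR.PARAM

/-!
Border subrank of tensors (MP_79bff1_ag), piece PBOX (helper283): parameter count for a sub-box.
-/

set_option autoImplicit false

open scoped BigOperators Matrix

namespace BSR.PBOXB

open BSR BSR.PARAM

theorem rows {r : ℕ} (W : Matrix (Fin r) (Fin r) ℂ) (hW : W.det ≠ 0) (I : Finset (Fin r)) :
    ∃ f : Fin r → Fin r,
      (Matrix.of fun a c => if a ∈ I then W a c else if c = f a then (1 : ℂ) else 0).det ≠ 0 := by
  classical
  have key : ∀ S : Finset (Fin r), ∃ f : Fin r → Fin r,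
      (Matrix.of fun a c => if a ∉ S then W a c else if c = f a then (1 : ℂ) else 0).det ≠ 0 := by
    intro S
    induction S using Finset.induction_on with
    | empty =>
      refine ⟨id, ?_⟩
      have : (Matrix.of fun a c => if a ∉ (∅ : Finset (Fin r)) then W a c
          else if c = id a then (1 : ℂ) else 0) = W := by
        ext a c; simp
      rw [this]; exact hW
    | insert a0 S ha0 ih =>
      obtain ⟨f, hf⟩ := ih
      set A : Matrix (Fin r) (Fin r) ℂ :=
        Matrix.of fun a c => if a ∉ S then W a c else if c = f a then (1 : ℂ) else 0 with hA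
      have hex : ∃ c, A.adjugate c a0 ≠ 0 := by
        by_contra hno
        push Not at hno
        apply hf
        have h1 := congrFun (congrFun (Matrix.mul_adjugate A) a0) a0
        rw [Matrix.mul_apply, Matrix.smul_apply, Matrix.one_apply_eq, smul_eq_mul, mul_one] at h1
        rw [← h1]
        exact Finset.sum_eq_zero (fun c _ => by rw [hno c, mul_zero])
      obtain ⟨c0, hc0⟩ := hex
      rw [Matrix.adjugate_apply] at hc0
      refine ⟨Function.update f a0 c0, ?_⟩
      have : (Matrix.of fun a c => if a ∉ insert a0 S then W a c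
          else if c = Function.update f a0 c0 a then (1 : ℂ) else 0)
          = A.updateRow a0 (Pi.single c0 1) := by
        ext a c
        by_cases h : a = a0
        · subst h
          rw [Matrix.updateRow_self]
          simp [Pi.single_apply]
        · rw [Matrix.updateRow_ne h]
          simp [hA, h]
      rw [this]; exact hc0
  obtain ⟨f, hf⟩ := key Iᶜ
  refine ⟨f, ?_⟩
  have : (Matrix.of fun a c => if a ∈ I then W a c else if c = f a then (1 : ℂ) else 0)
      = Matrix.of fun a c => if a ∉ Iᶜ then W a c else if c = f a then (1 : ℂ) else 0 := by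
    ext a c
    simp
  rw [this]; exact hf

variable {d n r : ℕ}

open Classical in
/-- the parameters -/
abbrev Par' (Φ : Finset (Fin d → Fin r)) (J : Fin d → Fin r ↪ Fin n)
    (I : Fin d → Finset (Fin r)) (f : Fin d → Fin r → Fin r) : Type :=
  (Σ s : Fin d, {b : Fin r // ¬ ∃ a, a ∉ I s ∧ f s a = b} × Fin n) ⊕
    ({i : Fin d → Fin n // ¬ ∃ j, bx J j = i} ⊕
    ({k : Fin d → Fin r // ¬ k ∈ Φ} ⊕ (Fin d × Fin r × Fin r)))

open Classical in
theorem card_rows (I : Finset (Fin r)) (f : Fin r → Fin r)
    (hinj : ∀ a, a ∉ I → ∀ a', a' ∉ I → f a = f a' → a = a') :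
    Fintype.card {b : Fin r // ¬ ∃ a, a ∉ I ∧ f a = b} = I.card := by
  have h1 : (Finset.univ.filter fun b : Fin r => ∃ a, a ∉ I ∧ f a = b) = (Iᶜ).image f := by
    ext b; simp
  have h2 : ((Iᶜ).image f).card = (Iᶜ).card := by
    apply Finset.card_image_of_injOn
    intro a ha a' ha' h
    exact hinj a (by simpa using ha) a' (by simpa using ha') h
  have h3 : Fintype.card {b : Fin r // ¬ ∃ a, a ∉ I ∧ f a = b}
      = Fintype.card (Fin r) - Fintype.card {b : Fin r // ∃ a, a ∉ I ∧ f a = b} :=
    Fintype.card_subtype_compl _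
  rw [h3, Fintype.card_subtype, h1, h2, Finset.card_compl, Fintype.card_fin]
  have := Finset.card_le_univ I
  rw [Fintype.card_fin] at this
  omega

open Classical in
theorem card_par' (Φ : Finset (Fin d → Fin r)) (J : Fin d → Fin r ↪ Fin n)
    (I : Fin d → Finset (Fin r)) (f : Fin d → Fin r → Fin r)
    (hinj : ∀ s, ∀ a, a ∉ I s → ∀ a', a' ∉ I s → f s a = f s a' → a = a')
    (hcard : n * ∑ s, (I s).card + d * r ^ 2 < Φ.card) :
    Fintype.card (Par' Φ J I f) < Fintype.card (Fin d → Fin n) := by
  have h1 : Fintype.card {i : Fin d → Fin n // ∃ j, bx J j = i} = Fintype.card (Fin d → Fin r) :=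
    Fintype.card_congr (Equiv.ofInjective (bx J) (bx_inj J)).symm
  have h2 : Fintype.card {i : Fin d → Fin n // ¬ ∃ j, bx J j = i} =
      Fintype.card (Fin d → Fin n) - Fintype.card {i : Fin d → Fin n // ∃ j, bx J j = i} :=
    Fintype.card_subtype_compl _
  have h3 : Fintype.card {k : Fin d → Fin r // ¬ k ∈ Φ} =
      Fintype.card (Fin d → Fin r) - Fintype.card {k : Fin d → Fin r // k ∈ Φ} :=
    Fintype.card_subtype_compl _
  have h4 : Fintype.card {k : Fin d → Fin r // k ∈ Φ} = Φ.card := Fintype.card_coe Φ
  have h5 : Fintype.card {i : Fin d → Fin n // ∃ j, bx J j = i} ≤ Fintype.card (Fin d → Fin n) :=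
    Fintype.card_subtype_le _
  have h6 : Φ.card ≤ Fintype.card (Fin d → Fin r) := Finset.card_le_univ _
  have h7 : Fintype.card (Σ s : Fin d, {b : Fin r // ¬ ∃ a, a ∉ I s ∧ f s a = b} × Fin n)
      = n * ∑ s, (I s).card := by
    rw [Fintype.card_sigma, Finset.mul_sum]
    apply Finset.sum_congr rfl
    intro s _
    rw [Fintype.card_prod, card_rows (I s) (f s) (hinj s), Fintype.card_fin, mul_comm]
  unfold Par'
  rw [Fintype.card_sum, Fintype.card_sum, Fintype.card_sum, h2, h3, h4, h1, h7,
    Fintype.card_prod, Fintype.card_prod]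
  rw [h1] at h5
  simp only [Fintype.card_fin] at *
  rw [sq] at hcard
  omega

theorem param_box {d n r : ℕ} (Φ Φ0 : Finset (Fin d → Fin r)) (J : Fin d → Fin r ↪ Fin n)
    (I : Fin d → Finset (Fin r)) (f : Fin d → Fin r → Fin r)
    (hΦ : ∀ j ∈ Φ, ∀ s, j s ∈ I s)
    (hcard : n * ∑ s, (I s).card + d * r ^ 2 < Φ.card) :
    ∃ P : MvPolynomial (Fin d → Fin n) ℂ, P ≠ 0 ∧
      ∀ (T : Tens d (Fin n)) (V : Fin d → Matrix (Fin r) (Fin n) ℂ)
        (g : Fin d → Matrix (Fin r) (Fin r) ℂ),
        (∀ s, (Matrix.of fun a c => if a ∈ I s then V s a (J s c)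
          else if c = f s a then (1 : ℂ) else 0).det ≠ 0) →
        (∀ j ∈ Φ, act V T j = if j ∈ Φ0 then act g (unitT d (Fin r)) j else 0) →
        MvPolynomial.eval T P = 0 := by
  classical
  by_cases hinj : ∀ s, ∀ a, a ∉ I s → ∀ a', a' ∉ I s → f s a = f s a' → a = a'
  swap
  · -- two equal rows: the determinant vanishes
    push Not at hinj
    obtain ⟨s, a, ha, a', ha', hff, hne⟩ := hinj
    refine ⟨1, one_ne_zero, fun T V g hdet _ => ?_⟩
    exfalso
    apply hdet s
    apply Matrix.det_zero_of_row_eq hne
    funext c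
    simp [ha, ha', hff]
  let F : (Fin d → Fin n) → MvPolynomial (Par' Φ J I f) ℂ := FF Φ Φ0 J
    (fun s b l => if h : ∃ a, a ∉ I s ∧ f s a = b then
        MvPolynomial.C (if J s h.choose = l then 1 else 0)
      else MvPolynomial.X (Sum.inl ⟨s, ⟨b, h⟩, l⟩))
    (fun i => if h : ¬ ∃ j, bx J j = i then MvPolynomial.X (Sum.inr (Sum.inl ⟨i, h⟩)) else 0)
    (fun k => if h : ¬ k ∈ Φ then MvPolynomial.X (Sum.inr (Sum.inr (Sum.inl ⟨k, h⟩))) else 0)
    (fun s a b => MvPolynomial.X (Sum.inr (Sum.inr (Sum.inr (s, a, b)))))
  obtain ⟨P, hP0, hP⟩ := exists_poly_of_card_lt (card_par' Φ J I f hinj hcard) F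
  refine ⟨P, hP0, fun T V' g hV' hΦ' => ?_⟩
  -- the completed matrices
  let V : Fin d → Matrix (Fin r) (Fin n) ℂ := fun s => Matrix.of fun a l =>
    if a ∈ I s then V' s a l else if l = J s (f s a) then 1 else 0
  have hV : ∀ s, ((V s).submatrix id (J s)).det ≠ 0 := by
    intro s
    have : (V s).submatrix id (J s) = Matrix.of fun a c => if a ∈ I s then V' s a (J s c)
          else if c = f s a then (1 : ℂ) else 0 := by
      ext a c
      show (if a ∈ I s then V' s a (J s c) else if J s c = J s (f s a) then (1 : ℂ) else 0) = _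
      simp only [Matrix.of_apply, EmbeddingLike.apply_eq_iff_eq]
    rw [this]; exact hV' s
  have hΦV : ∀ j ∈ Φ, act V T j = if j ∈ Φ0 then act g (unitT d (Fin r)) j else 0 := by
    intro j hj
    rw [← hΦ' j hj]
    unfold act
    refine Finset.sum_congr rfl fun i _ => ?_
    congr 1
    refine Finset.prod_congr rfl fun s _ => ?_
    show (if j s ∈ I s then V' s (j s) (i s) else _) = _
    rw [if_pos (hΦ j hj s)]
  let X : Fin d → Matrix (Fin r) (Fin r) ℂ := fun s => ((V s).submatrix id (J s))⁻¹
  let Q : Fin d → Matrix (Fin r) (Fin n) ℂ := fun s => X s * V s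
  have hQ : ∀ s a b, Q s a (J s b) = if a = b then 1 else 0 := by
    intro s a b
    have h1 : X s * (V s).submatrix id (J s) = 1 :=
      Matrix.nonsing_inv_mul _ (isUnit_iff_ne_zero.2 (hV s))
    have h2 := congrFun (congrFun h1 a) b
    rw [Matrix.one_apply] at h2
    rw [← h2]
    rfl
  have hXrow : ∀ s a, a ∉ I s → ∀ b, X s (f s a) b = if a = b then 1 else 0 := by
    intro s a ha b
    have h1 : (V s).submatrix id (J s) * X s = 1 :=
      Matrix.mul_nonsing_inv _ (isUnit_iff_ne_zero.2 (hV s))
    have h2 := congrFun (congrFun h1 a) b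
    rw [Matrix.one_apply, Matrix.mul_apply] at h2
    rw [← h2, Finset.sum_eq_single (f s a)]
    · have : (V s).submatrix id (J s) a (f s a) = 1 := by
        show (if a ∈ I s then V' s a (J s (f s a)) else if J s (f s a) = J s (f s a) then (1 : ℂ)
          else 0) = 1
        rw [if_neg ha, if_pos rfl]
      rw [this, one_mul]
    · intro c _ hc
      have : (V s).submatrix id (J s) a c = 0 := by
        show (if a ∈ I s then V' s a (J s c) else if J s c = J s (f s a) then (1 : ℂ)
          else 0) = 0
        rw [if_neg ha, if_neg (fun h => hc ((J s).injective h))]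
      rw [this, zero_mul]
    · intro h; exact absurd (Finset.mem_univ _) h
  have hQrow : ∀ s a, a ∉ I s → ∀ l, Q s (f s a) l = if l = J s (f s a) then 1 else 0 := by
    intro s a ha l
    show (X s * V s) (f s a) l = _
    rw [Matrix.mul_apply, Finset.sum_eq_single a]
    · rw [hXrow s a ha a, if_pos rfl, one_mul]
      show (if a ∈ I s then V' s a l else if l = J s (f s a) then (1 : ℂ) else 0) = _
      rw [if_neg ha]
    · intro b _ hb
      rw [hXrow s a ha b, if_neg (fun h => hb h.symm), zero_mul]
    · intro h; exact absurd (Finset.mem_univ _) h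
  -- the parameter point
  let x : Par' Φ J I f → ℂ := Sum.elim
    (fun p => if h : ∃ b, J p.1 b = p.2.2 then X p.1 p.2.1.1 h.choose else Q p.1 p.2.1.1 p.2.2)
    (Sum.elim (fun i => T i.1) (Sum.elim (fun k => act V T k.1) (fun p => g p.1 p.2.1 p.2.2)))
  have hF : ∀ i, MvPolynomial.eval x (F i) = T i := by
    intro i
    have e1 : MvPolynomial.eval x (F i) = FF Φ Φ0 J
        (fun s a l => if h : ∃ b, J s b = l then X s a h.choose else Q s a l)
        (fun i => if ¬ ∃ j, bx J j = i then T i else 0)
        (fun k => if ¬ k ∈ Φ then act V T k else 0)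
        (fun s a b => g s a b) i := by
      show (MvPolynomial.eval x) (FF Φ Φ0 J _ _ _ _ i) = _
      rw [map_FF]
      congr 1
      · funext s b l
        by_cases h : ∃ a, a ∉ I s ∧ f s a = b
        · rw [dif_pos h, MvPolynomial.eval_C]
          obtain ⟨ha, hb⟩ := h.choose_spec
          by_cases h' : ∃ b', J s b' = l
          · rw [dif_pos h']
            have h3 := hXrow s h.choose ha h'.choose
            rw [hb] at h3
            rw [h3]
            have h4 : J s h.choose = l ↔ h.choose = h'.choose := by
              constructor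
              · intro h5
                exact (J s).injective (h5.trans h'.choose_spec.symm)
              · intro h5
                rw [h5]; exact h'.choose_spec
            by_cases h6 : h.choose = h'.choose
            · rw [if_pos h6, if_pos (h4.mpr h6)]
            · rw [if_neg h6, if_neg (fun h7 => h6 (h4.mp h7))]
          · rw [dif_neg h']
            have h3 := hQrow s h.choose ha l
            rw [hb] at h3
            rw [h3, if_neg (fun h5 => h' ⟨_, h5⟩), if_neg (fun h5 => h' ⟨_, h5.symm⟩)]
        · rw [dif_neg h, MvPolynomial.eval_X]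
          rfl
      · funext i
        by_cases h : ¬ ∃ j, bx J j = i
        · rw [dif_pos h, if_pos h, MvPolynomial.eval_X]
          rfl
        · rw [dif_neg h, if_neg h, map_zero]
      · funext k
        by_cases h : ¬ k ∈ Φ
        · rw [dif_pos h, if_pos h, MvPolynomial.eval_X]
          rfl
        · rw [dif_neg h, if_neg h, map_zero]
      · funext s a b
        rw [MvPolynomial.eval_X]
        rfl
    rw [e1]
    unfold FF
    by_cases h : ∃ j, bx J j = i
    · rw [dif_pos h]
      have hM : ∀ s a b, (if h : ∃ b', J s b' = J s b then X s a h.choose else Q s a (J s b)) = X s a b := by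
        intro s a b
        have h1 : ∃ b', J s b' = J s b := ⟨b, rfl⟩
        rw [dif_pos h1]
        congr 1
        exact (J s).injective h1.choose_spec
      have hQf : ∀ s a l, Qf J (fun s a l => if h : ∃ b, J s b = l then X s a h.choose else Q s a l)
          s a l = Q s a l := by
        intro s a l
        unfold Qf
        by_cases h1 : ∃ b, J s b = l
        · rw [if_pos h1]
          obtain ⟨b, rfl⟩ := h1
          rw [hQ]
          by_cases h2 : a = b
          · rw [if_pos h2, if_pos (by rw [h2])]
          · rw [if_neg h2, if_neg (fun h3 => h2 ((J s).injective h3))]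
        · rw [if_neg h1]
          exact dif_neg h1
      have ht : ∀ k, tt Φ Φ0 (fun k => if ¬ k ∈ Φ then act V T k else 0) (fun s a b => g s a b) k =
          act V T k := by
        intro k
        unfold tt
        by_cases h1 : k ∈ Φ
        · rw [if_pos h1, hΦV k h1]
          rfl
        · rw [if_neg h1]
          exact if_pos h1
      have hk := key J Q hQ T h.choose
      rw [h.choose_spec] at hk
      rw [hk]
      congr 1
      · have e2 : act Q T h.choose = act X (act V T) h.choose := by rw [act_act]
        rw [e2]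
        unfold act
        refine Finset.sum_congr rfl fun k _ => ?_
        have e3 := ht k
        unfold act at e3
        rw [e3]
        congr 1
        refine Finset.prod_congr rfl fun s _ => ?_
        exact hM s _ _
      · refine Finset.sum_congr rfl fun i' hi' => ?_
        refine congrArg₂ (· * ·) (Finset.prod_congr rfl fun s _ => hQf s _ _) ?_
        exact if_pos (Finset.mem_filter.1 hi').2
    · rw [dif_neg h]
      exact if_pos h
  have h1 := hP x
  have h2 : (fun i => MvPolynomial.eval x (F i)) = T := funext hF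
  rw [h2] at h1
  exact h1

end BSR.PBOXB

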