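import Pool.Agent.BSR.Defs

set_option autoImplicit false

/-!
Singular value decomposition with sorted positive singular values (piece BSR-SVD).
-/

namespace BSR.SVD

open scoped BigOperators Matrix ComplexOrder

theorem svd {r n : ℕ} (A : Matrix (Fin r) (Fin n) ℂ) (B : Matrix (Fin n) (Fin r) ℂ) (h : A * B = 1) :
    ∃ (U : Matrix (Fin r) (Fin r) ℂ) (x : Fin r → ℝ) (V : Matrix (Fin r) (Fin n) ℂ),
      U * Uᴴ = 1 ∧ Uᴴ * U = 1 ∧ V * Vᴴ = 1 ∧ (∀ i, 0 < x i) ∧ Antitone x ∧
      A = U * Matrix.diagonal (fun i => (x i : ℂ)) * V := by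
  classical
  have hinj : Function.Injective A.vecMul := by
    intro v w hvw
    have h1 : (v ᵥ* A) ᵥ* B = (w ᵥ* A) ᵥ* B := by
      have h2 : v ᵥ* A = w ᵥ* A := hvw
      rw [h2]
    rwa [Matrix.vecMul_vecMul, Matrix.vecMul_vecMul, h, Matrix.vecMul_one, Matrix.vecMul_one] at h1
  have hM : (A * Aᴴ).PosDef := Matrix.PosDef.mul_conjTranspose_self A hinj
  set lam : Fin r → ℝ := hM.1.eigenvalues with hlam
  have hpos : ∀ i, 0 < lam i := fun i => hM.eigenvalues_pos i
  set U0 : Matrix (Fin r) (Fin r) ℂ := (hM.1.eigenvectorUnitary : Matrix (Fin r) (Fin r) ℂ) with hU0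
  have hU1 : U0 * U0ᴴ = 1 := by
    have := Unitary.coe_mul_star_self hM.1.eigenvectorUnitary
    simpa [Matrix.star_eq_conjTranspose] using this
  have hU2 : U0ᴴ * U0 = 1 := by
    have := Unitary.coe_star_mul_self hM.1.eigenvectorUnitary
    simpa [Matrix.star_eq_conjTranspose] using this
  have hsp : A * Aᴴ = U0 * Matrix.diagonal (fun i => (lam i : ℂ)) * U0ᴴ := by
    have h3 := hM.1.spectral_theorem
    rw [Unitary.conjStarAlgAut_apply] at h3
    exact h3
  have hD : U0ᴴ * (A * Aᴴ) * U0 = Matrix.diagonal (fun i => (lam i : ℂ)) := by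
    rw [hsp]
    calc U0ᴴ * (U0 * Matrix.diagonal (fun i => (lam i : ℂ)) * U0ᴴ) * U0
        = (U0ᴴ * U0) * Matrix.diagonal (fun i => (lam i : ℂ)) * (U0ᴴ * U0) := by
          simp only [Matrix.mul_assoc]
      _ = _ := by rw [hU2, Matrix.one_mul, Matrix.mul_one]
  set σ : Equiv.Perm (Fin r) := Tuple.sort (fun i => - lam i) with hσ
  have hmono : Monotone ((fun i => - lam i) ∘ σ) := Tuple.monotone_sort _
  set U : Matrix (Fin r) (Fin r) ℂ := U0.submatrix id σ with hU
  have hUU1 : U * Uᴴ = 1 := by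
    rw [hU, Matrix.conjTranspose_submatrix, Matrix.submatrix_mul_equiv, hU1]
    simp
  have hUU2 : Uᴴ * U = 1 := by
    have h4 : Uᴴ * U = (U0ᴴ * U0).submatrix σ σ := by
      rw [hU, Matrix.conjTranspose_submatrix]
      exact Matrix.submatrix_mul_equiv U0ᴴ U0 σ (Equiv.refl _) σ
    rw [h4, hU2]
    exact Matrix.submatrix_one_equiv σ
  have hDU : Uᴴ * (A * Aᴴ) * U = Matrix.diagonal (fun i => (lam (σ i) : ℂ)) := by
    have h5 : Uᴴ * (A * Aᴴ) * U = (U0ᴴ * (A * Aᴴ) * U0).submatrix σ σ := by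
      ext i j
      simp only [hU, Matrix.mul_apply, Matrix.submatrix_apply, Matrix.conjTranspose_apply, id]
    rw [h5, hD]
    ext i j
    by_cases hij : i = j
    · subst hij; simp
    · have : σ i ≠ σ j := fun hh => hij (σ.injective hh)
      simp [hij]
  set x : Fin r → ℝ := fun i => Real.sqrt (lam (σ i)) with hx
  have hxpos : ∀ i, 0 < x i := fun i => Real.sqrt_pos.mpr (hpos _)
  have hxx : ∀ i, ((x i : ℂ))⁻¹ * (lam (σ i) : ℂ) * ((x i : ℂ))⁻¹ = 1 := by
    intro i
    have h6 : (lam (σ i) : ℂ) = (x i : ℂ) * (x i : ℂ) := by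
      rw [← Complex.ofReal_mul]
      congr 1
      exact (Real.mul_self_sqrt (hpos _).le).symm
    have h7 : (x i : ℂ) ≠ 0 := by exact_mod_cast (hxpos i).ne'
    rw [h6]
    field_simp
  refine ⟨U, x, Matrix.diagonal (fun i => ((x i : ℂ))⁻¹) * (Uᴴ * A), hUU1, hUU2, ?_, hxpos, ?_, ?_⟩
  · rw [Matrix.conjTranspose_mul, Matrix.conjTranspose_mul, Matrix.conjTranspose_conjTranspose,
      Matrix.diagonal_conjTranspose]
    have h8 : (star (fun i => ((x i : ℂ))⁻¹)) = fun i => ((x i : ℂ))⁻¹ := by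
      funext i
      simp [Pi.star_apply]
    rw [h8]
    calc Matrix.diagonal (fun i => ((x i : ℂ))⁻¹) * (Uᴴ * A) * (Aᴴ * U * Matrix.diagonal (fun i => ((x i : ℂ))⁻¹))
        = Matrix.diagonal (fun i => ((x i : ℂ))⁻¹) * (Uᴴ * (A * Aᴴ) * U) * Matrix.diagonal (fun i => ((x i : ℂ))⁻¹) := by
          simp only [Matrix.mul_assoc]
      _ = 1 := by
          rw [hDU, Matrix.diagonal_mul_diagonal, Matrix.diagonal_mul_diagonal]
          simp only [hxx]
          exact Matrix.diagonal_one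
  · intro i j hij
    have := hmono hij
    simp only [Function.comp] at this
    exact Real.sqrt_le_sqrt (by linarith)
  · have h9 : Matrix.diagonal (fun i => (x i : ℂ)) * Matrix.diagonal (fun i => ((x i : ℂ))⁻¹) = 1 := by
      rw [Matrix.diagonal_mul_diagonal]
      have : (fun i => (x i : ℂ) * ((x i : ℂ))⁻¹) = fun _ => 1 := by
        funext i
        have h7 : (x i : ℂ) ≠ 0 := by exact_mod_cast (hxpos i).ne'
        exact mul_inv_cancel₀ h7
      rw [this]
      exact Matrix.diagonal_one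
    calc A = (U * Uᴴ) * A := by rw [hUU1, Matrix.one_mul]
      _ = U * (Matrix.diagonal (fun i => (x i : ℂ)) * Matrix.diagonal (fun i => ((x i : ℂ))⁻¹)) * (Uᴴ * A) := by
          rw [h9, Matrix.mul_one, Matrix.mul_assoc]
      _ = _ := by simp only [Matrix.mul_assoc]

end BSR.SVD
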