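import Pool.Agent.BSR.Defs

/-! Fewer parameters than coordinates give a polynomial relation (written by helper429). -/

set_option autoImplicit false

open scoped BigOperators Matrix

namespace BSR.TRDEG

theorem exists_poly_of_card_lt {π ι : Type} [Fintype π] [Fintype ι]
    (h : Fintype.card π < Fintype.card ι) (F : ι → MvPolynomial π ℂ) :
    ∃ P : MvPolynomial ι ℂ, P ≠ 0 ∧
      ∀ x : π → ℂ, MvPolynomial.eval (fun i => MvPolynomial.eval x (F i)) P = 0 := by
  have hF : ¬ AlgebraicIndependent ℂ F := by
    intro hF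
    have h1 := hF.cardinalMk_le_trdeg
    rw [MvPolynomial.trdeg_of_isDomain] at h1
    simp only [Cardinal.mk_fintype, Cardinal.lift_id, Nat.cast_le] at h1
    omega
  rw [algebraicIndependent_iff] at hF
  push Not at hF
  obtain ⟨P, hP, hP0⟩ := hF
  refine ⟨P, hP0, fun x => ?_⟩
  have h2 := congrArg (MvPolynomial.eval x) hP
  rw [map_zero, MvPolynomial.aeval_def, MvPolynomial.algebraMap_eq,
    MvPolynomial.hom_eval₂] at h2
  rw [← h2, MvPolynomial.eval, MvPolynomial.coe_eval₂Hom]
  congr 1
  ext c
  simp

end BSR.TRDEG
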