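import Pool.Agent.BSR.Upper618
import Pool.Agent.BSR.Limit2_618
import Pool.Agent.BSR.Load618
import Pool.Agent.BSR.H3BA

set_option autoImplicit false
set_option backward.isDefEq.respectTransparency false

namespace BSR

open scoped BigOperators Matrix Topology

theorem limit2 {d n r : ℕ} (hd : 2 ≤ d) (T : Tens d (Fin n))
    (hT : Degenerates T (unitT d (Fin r))) :
    ∃ (Φ Φ0 : Finset (Fin d → Fin r)) (V : Fin d → Matrix (Fin r) (Fin n) ℂ)
      (g : Fin d → Matrix (Fin r) (Fin r) ℂ) (σ : Fin d → Equiv.Perm (Fin r))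
      (a : Fin d → Fin r → ℤ),
      (∀ i, ∑ s, a s i = 0) ∧ (∀ j : Fin d → Fin r, ∑ s, a s (j s) ≤ 0 →
        (fun s => σ s (j s)) ∈ Φ) ∧ (∀ s, V s * (V s)ᴴ = 1) ∧
      ∀ j ∈ Φ, act V T j = if j ∈ Φ0 then act g (unitT d (Fin r)) j else 0 :=
  limit2_of (fun A B h => SVD.svd A B h) (fun hd h hdet => MATCH.matching hd h hdet) hd T hT

/-- statement of the row replacement -/
def RowsStmt : Prop := ∀ {r : ℕ} (W : Matrix (Fin r) (Fin r) ℂ) (_ : W.det ≠ 0)
    (I : Finset (Fin r)),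
    ∃ f : Fin r → Fin r,
      (Matrix.of fun a c => if a ∈ I then W a c else if c = f a then (1 : ℂ) else 0).det ≠ 0

/-- statement of the parameter count for a box -/
def ParamBoxStmt : Prop := ∀ {d n r : ℕ} (Φ Φ0 : Finset (Fin d → Fin r))
    (J : Fin d → Fin r ↪ Fin n)
    (I : Fin d → Finset (Fin r)) (f : Fin d → Fin r → Fin r)
    (_ : ∀ j ∈ Φ, ∀ s, j s ∈ I s)
    (_ : n * ∑ s, (I s).card + d * r ^ 2 < Φ.card),
    ∃ P : MvPolynomial (Fin d → Fin n) ℂ, P ≠ 0 ∧
      ∀ (T : Tens d (Fin n)) (V : Fin d → Matrix (Fin r) (Fin n) ℂ)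
        (g : Fin d → Matrix (Fin r) (Fin r) ℂ),
        (∀ s, (Matrix.of fun a c => if a ∈ I s then V s a (J s c)
          else if c = f s a then (1 : ℂ) else 0).det ≠ 0) →
        (∀ j ∈ Φ, act V T j = if j ∈ Φ0 then act g (unitT d (Fin r)) j else 0) →
        MvPolynomial.eval T P = 0

theorem load_le_prod {d r : ℕ} (a : Fin d → Fin r → ℤ) (I : Fin d → Finset (Fin r)) :
    load a I ≤ ∏ s, (I s).card := by
  classical
  rw [← Fintype.card_piFinset]
  refine Finset.card_le_card fun j hj => ?_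
  rw [Finset.mem_filter] at hj
  exact Fintype.mem_piFinset.2 hj.2.1

/-- small boxes have a small load -/
theorem load_small {d n r : ℕ} (hd : 3 ≤ d) (hb : r ^ (d - 1) ≤ d ^ 2 * (n + r))
    (a : Fin d → Fin r → ℤ) (I : Fin d → Finset (Fin r)) (hI : ∑ s, (I s).card ≤ r) :
    load a I ≤ (n + d * r) * ∑ s, (I s).card := by
  refine (load_le_prod a I).trans ?_
  obtain ⟨x, hx⟩ : ∃ x, x = ∑ s, (I s).card := ⟨_, rfl⟩
  rw [← hx] at hI ⊢
  have hd0 : (0 : ℝ) < d := by
    have : 0 < d := by omega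
    exact_mod_cast this
  have h1 := H3BA.amgm d (fun s => ((I s).card : ℝ)) (fun s => by positivity) ((x : ℝ) / d)
    (by positivity) (by
      have e1 : (d : ℝ) * ((x : ℝ) / d) = x := mul_div_cancel₀ (x : ℝ) hd0.ne'
      rw [e1, hx]
      exact (Nat.cast_sum Finset.univ fun s => (I s).card).symm)
  have h2 : (d : ℝ) ^ d * ∏ s, ((I s).card : ℝ) ≤ (x : ℝ) ^ d := by
    rw [div_pow, le_div_iff₀ (by positivity)] at h1
    linarith
  have h3 : d ^ d * ∏ s, (I s).card ≤ x ^ d := by exact_mod_cast h2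
  have h4 : x ^ d = x * x ^ (d - 1) := by
    rw [← pow_succ']
    congr 1
    omega
  have h5 : x ^ d ≤ x * (d ^ 2 * (n + r)) := by
    rw [h4]
    exact Nat.mul_le_mul_left _ ((Nat.pow_le_pow_left hI _).trans hb)
  have h6 : d ^ 2 ≤ d ^ d := Nat.pow_le_pow_right (by omega) (by omega)
  have h7 : d ^ d * ∏ s, (I s).card ≤ d ^ d * ((n + d * r) * x) := by
    calc d ^ d * ∏ s, (I s).card ≤ x * (d ^ 2 * (n + r)) := h3.trans h5
      _ = d ^ 2 * ((n + r) * x) := by ring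
      _ ≤ d ^ d * ((n + r) * x) := Nat.mul_le_mul_right _ h6
      _ ≤ d ^ d * ((n + d * r) * x) := by
          refine Nat.mul_le_mul_left _ (Nat.mul_le_mul_right _ ?_)
          exact Nat.add_le_add_left (Nat.le_mul_of_pos_left _ (by omega)) _
  exact Nat.le_of_mul_le_mul_left h7 (by positivity)

theorem upper2_one_of (ROWS : RowsStmt) (PBOX : ParamBoxStmt) {d n r : ℕ} (hd : 3 ≤ d)
    (hb : r ^ (d - 1) ≤ d ^ 2 * (n + r)) :
    ∃ P : MvPolynomial (Fin d → Fin n) ℂ, P ≠ 0 ∧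
      ∀ T : Tens d (Fin n), MvPolynomial.eval T P ≠ 0 → Degenerates T (unitT d (Fin r)) →
        Feasible d r (n + d * r) := by
  classical
  let Idx := Finset (Fin d → Fin r) × Finset (Fin d → Fin r) × (Fin d → Fin r ↪ Fin n) ×
    (Fin d → Finset (Fin r)) × (Fin d → Fin r → Fin r)
  have hex : ∀ x : Idx, ∃ P : MvPolynomial (Fin d → Fin n) ℂ, P ≠ 0 ∧
      ((∀ j ∈ x.1, ∀ s, j s ∈ x.2.2.2.1 s) →
      n * ∑ s, (x.2.2.2.1 s).card + d * r ^ 2 < x.1.card →
      ∀ (T : Tens d (Fin n)) (V : Fin d → Matrix (Fin r) (Fin n) ℂ)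
        (g : Fin d → Matrix (Fin r) (Fin r) ℂ),
        (∀ s, (Matrix.of fun a c => if a ∈ x.2.2.2.1 s then V s a (x.2.2.1 s c)
          else if c = x.2.2.2.2 s a then (1 : ℂ) else 0).det ≠ 0) →
        (∀ j ∈ x.1, act V T j = if j ∈ x.2.1 then act g (unitT d (Fin r)) j else 0) →
        MvPolynomial.eval T P = 0) := by
    intro x
    by_cases hx1 : ∀ j ∈ x.1, ∀ s, j s ∈ x.2.2.2.1 s
    · by_cases hx2 : n * ∑ s, (x.2.2.2.1 s).card + d * r ^ 2 < x.1.card
      · obtain ⟨P, hP, hP2⟩ := PBOX x.1 x.2.1 x.2.2.1 x.2.2.2.1 x.2.2.2.2 hx1 hx2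
        exact ⟨P, hP, fun _ _ => hP2⟩
      · exact ⟨1, one_ne_zero, fun _ h => absurd h hx2⟩
    · exact ⟨1, one_ne_zero, fun h => absurd h hx1⟩
  choose P hP0 hP using hex
  refine ⟨∏ x : Idx, P x, Finset.prod_ne_zero_iff.2 fun x _ => hP0 x, fun T hT hdeg => ?_⟩
  obtain ⟨Φ, Φ0, V, g, σ, a, ha0, haΦ, hV, hact⟩ := limit2 (by omega) T hdeg
  refine ⟨a, ha0, fun I => ?_⟩
  by_contra hcon
  push Not at hcon
  have hbig : r < ∑ s, (I s).card := by
    by_contra hle
    push Not at hle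
    exact absurd (load_small hd hb a I hle) (not_le.2 hcon)
  have hminor : ∀ s, ∃ J : Fin r ↪ Fin n, ((V s).submatrix id J).det ≠ 0 := fun s =>
    MINOR.exists_minor (V s) _ (hV s)
  choose J hJ using hminor
  let I' : Fin d → Finset (Fin r) := fun s => (I s).map (σ s).toEmbedding
  have hrows := fun s => ROWS ((V s).submatrix id (J s)) (hJ s) (I' s)
  choose f hf using hrows
  let Φ' : Finset (Fin d → Fin r) := Φ.filter fun j => ∀ s, j s ∈ I' s
  apply hT
  rw [map_prod]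
  refine Finset.prod_eq_zero (Finset.mem_univ ((Φ', Φ0, J, I', f) : Idx)) ?_
  refine hP (Φ', Φ0, J, I', f) ?_ ?_ T V g (fun s => hf s) ?_
  · intro j hj
    exact (Finset.mem_filter.1 hj).2
  · show n * ∑ s, (I' s).card + d * r ^ 2 < Φ'.card
    have h1 : ∑ s, (I' s).card = ∑ s, (I s).card :=
      Finset.sum_congr rfl fun s _ => Finset.card_map _
    have h2 : load a I ≤ Φ'.card := by
      refine Finset.card_le_card_of_injOn (fun j s => σ s (j s)) ?_ ?_
      · intro j hj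
        have hj' := (Finset.mem_filter.1 hj).2
        refine Finset.mem_coe.2 (Finset.mem_filter.2 ⟨haΦ j hj'.2, fun s => ?_⟩)
        exact Finset.mem_map.2 ⟨j s, hj'.1 s, rfl⟩
      · intro j _ j' _ h
        funext s
        exact (σ s).injective (congrFun h s)
    rw [h1]
    refine lt_of_le_of_lt ?_ (lt_of_lt_of_le hcon h2)
    calc n * ∑ s, (I s).card + d * r ^ 2 = n * ∑ s, (I s).card + d * r * r := by ring
      _ ≤ n * ∑ s, (I s).card + d * r * ∑ s, (I s).card :=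
          Nat.add_le_add_left (Nat.mul_le_mul_left _ hbig.le) _
      _ = (n + d * r) * ∑ s, (I s).card := by ring
  · intro j hj
    exact hact j (Finset.mem_filter.1 hj).1

/-- generic upper bound in terms of the load -/
theorem upper2_of (ROWS : RowsStmt) (PBOX : ParamBoxStmt) {d n : ℕ} (hd : 3 ≤ d) :
    ∃ P : MvPolynomial (Fin d → Fin n) ℂ, P ≠ 0 ∧
      ∀ T : Tens d (Fin n), MvPolynomial.eval T P ≠ 0 →
        (borderSubrank T) ^ (d - 1) ≤ d ^ 2 * (n + borderSubrank T) ∧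
        Feasible d (borderSubrank T) (n + d * borderSubrank T) := by
  classical
  obtain ⟨P0, hP0, hup⟩ := upper (d := d) (n := n) (by omega)
  have hex : ∀ r : ℕ, ∃ P : MvPolynomial (Fin d → Fin n) ℂ, P ≠ 0 ∧
      (r ^ (d - 1) ≤ d ^ 2 * (n + r) → ∀ T : Tens d (Fin n), MvPolynomial.eval T P ≠ 0 →
        Degenerates T (unitT d (Fin r)) → Feasible d r (n + d * r)) := by
    intro r
    by_cases h : r ^ (d - 1) ≤ d ^ 2 * (n + r)
    · obtain ⟨P, hP, hP2⟩ := upper2_one_of ROWS PBOX hd h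
      exact ⟨P, hP, fun _ => hP2⟩
    · exact ⟨1, one_ne_zero, fun h' => absurd h' h⟩
  choose P hPne hP using hex
  refine ⟨P0 * ∏ r ∈ Finset.range (n + 1), P r,
    mul_ne_zero hP0 (Finset.prod_ne_zero_iff.2 fun r _ => hPne r), fun T hT => ?_⟩
  rw [map_mul, map_prod] at hT
  have h0 := hup T (left_ne_zero_of_mul hT)
  refine ⟨h0, ?_⟩
  have h1 := degenerates_borderSubrank (d := d) (by omega) T
  have h2 : borderSubrank T ≤ n := BDD.le_of_degenerates (by omega) T h1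
  have h3 := Finset.prod_ne_zero_iff.1 (right_ne_zero_of_mul hT) (borderSubrank T)
    (Finset.mem_range.2 (Nat.lt_succ_of_le h2))
  exact hP (borderSubrank T) h0 T h3 h1

end BSR
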