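import Pool.Agent.BSR.Limit618
import Pool.Agent.BSR.SVD
import Pool.Agent.BSR.MATCH
import Pool.Agent.BSR.PARAM
import Pool.Agent.BSR.MINOR
import Pool.Agent.BSR.BDD

set_option autoImplicit false
set_option backward.isDefEq.respectTransparency false

namespace BSR

open scoped BigOperators Matrix Topology

theorem limit {d n r : ℕ} (hd : 2 ≤ d) (T : Tens d (Fin n))
    (hT : Degenerates T (unitT d (Fin r))) :
    ∃ (Φ Φ0 : Finset (Fin d → Fin r)) (V : Fin d → Matrix (Fin r) (Fin n) ℂ)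
      (g : Fin d → Matrix (Fin r) (Fin r) ℂ),
      r ^ d ≤ d * Φ.card ∧ (∀ s, V s * (V s)ᴴ = 1) ∧
      ∀ j ∈ Φ, act V T j = if j ∈ Φ0 then act g (unitT d (Fin r)) j else 0 :=
  limit_of (fun A B h => SVD.svd A B h) (fun hd h hdet => MATCH.matching hd h hdet) hd T hT

/-- generic tensors do not degenerate to the unit tensor of size `r` if `r^(d-1) > d^2 (n+r)` -/
theorem upper_one {d n r : ℕ} (hd : 2 ≤ d) (h : d ^ 2 * (n + r) < r ^ (d - 1)) :
    ∃ P : MvPolynomial (Fin d → Fin n) ℂ, P ≠ 0 ∧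
      ∀ T : Tens d (Fin n), MvPolynomial.eval T P ≠ 0 → ¬ Degenerates T (unitT d (Fin r)) := by
  classical
  let Idx := Finset (Fin d → Fin r) × Finset (Fin d → Fin r) × (Fin d → Fin r ↪ Fin n)
  have hex : ∀ x : Idx, ∃ P : MvPolynomial (Fin d → Fin n) ℂ, P ≠ 0 ∧
      (d * (r * n) + d * r ^ 2 < x.1.card →
      ∀ (T : Tens d (Fin n)) (V : Fin d → Matrix (Fin r) (Fin n) ℂ)
        (g : Fin d → Matrix (Fin r) (Fin r) ℂ),
        (∀ s, ((V s).submatrix id (x.2.2 s)).det ≠ 0) →
        (∀ j ∈ x.1, act V T j = if j ∈ x.2.1 then act g (unitT d (Fin r)) j else 0) →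
        MvPolynomial.eval T P = 0) := by
    intro x
    by_cases hx : d * (r * n) + d * r ^ 2 < x.1.card
    · obtain ⟨P, hP, hP2⟩ := PARAM.param x.1 x.2.1 x.2.2 hx
      exact ⟨P, hP, fun _ => hP2⟩
    · exact ⟨1, one_ne_zero, fun h => absurd h hx⟩
  choose P hP0 hP using hex
  refine ⟨∏ x : Idx, P x, Finset.prod_ne_zero_iff.2 fun x _ => hP0 x, fun T hT hdeg => hT ?_⟩
  obtain ⟨Φ, Φ0, V, g, hcard, hV, hact⟩ := limit hd T hdeg
  have hminor : ∀ s, ∃ J : Fin r ↪ Fin n, ((V s).submatrix id J).det ≠ 0 := fun s =>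
    MINOR.exists_minor (V s) _ (hV s)
  choose J hJ using hminor
  rw [map_prod]
  refine Finset.prod_eq_zero (Finset.mem_univ ((Φ, Φ0, J) : Idx)) ?_
  refine hP (Φ, Φ0, J) ?_ T V g hJ hact
  show d * (r * n) + d * r ^ 2 < Φ.card
  have hr : 0 < r := by
    rcases Nat.eq_zero_or_pos r with h0 | h0
    · subst h0
      rw [zero_pow (by omega)] at h
      exact absurd h (Nat.not_lt_zero _)
    · exact h0
  by_contra hcon
  push Not at hcon
  have h1 : r ^ d ≤ d * (d * (r * n) + d * r ^ 2) := hcard.trans (Nat.mul_le_mul_left d hcon)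
  have h2 : d * (d * (r * n) + d * r ^ 2) = r * (d ^ 2 * (n + r)) := by ring
  have h3 : r ^ d = r * r ^ (d - 1) := by
    rw [← pow_succ']
    congr 1
    omega
  rw [h2, h3] at h1
  exact absurd (Nat.le_of_mul_le_mul_left h1 hr) (not_le.2 h)

theorem degenerates_mono {d n r q : ℕ} (hd : 0 < d) (hqr : q ≤ r) (T : Tens d (Fin n))
    (h : Degenerates T (unitT d (Fin r))) : Degenerates T (unitT d (Fin q)) := by
  classical
  let E : Fin d → Matrix (Fin q) (Fin r) ℂ := fun _ a b => if Fin.castLE hqr a = b then 1 else 0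
  have hE : act E (unitT d (Fin r)) = unitT d (Fin q) := by
    funext j
    rw [act_unitT]
    have h1 : ∀ l : Fin r, (∏ s, E s (j s) l) = if ∀ s, Fin.castLE hqr (j s) = l then 1 else 0 := by
      intro l
      by_cases hl : ∀ s, Fin.castLE hqr (j s) = l
      · rw [if_pos hl]
        exact Finset.prod_eq_one fun s _ => if_pos (hl s)
      · rw [if_neg hl]
        push Not at hl
        obtain ⟨s, hs⟩ := hl
        exact Finset.prod_eq_zero (Finset.mem_univ s) (if_neg hs)
    have h2 : ∀ l : Fin q, (∏ s, (if j s = l then (1 : ℂ) else 0)) =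
        if ∀ s, j s = l then 1 else 0 := by
      intro l
      by_cases hl : ∀ s, j s = l
      · rw [if_pos hl]
        exact Finset.prod_eq_one fun s _ => if_pos (hl s)
      · rw [if_neg hl]
        push Not at hl
        obtain ⟨s, hs⟩ := hl
        exact Finset.prod_eq_zero (Finset.mem_univ s) (if_neg hs)
    simp only [h1]
    show _ = ∑ l : Fin q, ∏ s, (if j s = l then (1 : ℂ) else 0)
    simp only [h2]
    let s0 : Fin d := ⟨0, hd⟩
    rw [Finset.sum_eq_single (Fin.castLE hqr (j s0)), Finset.sum_eq_single (j s0)]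
    · refine if_congr ?_ rfl rfl
      exact forall_congr' fun s => (Fin.castLE_injective hqr).eq_iff
    · intro l _ hl
      exact if_neg fun hh => hl (hh s0).symm
    · intro hh; exact absurd (Finset.mem_univ _) hh
    · intro l _ hl
      exact if_neg fun hh => hl (hh s0).symm
    · intro hh; exact absurd (Finset.mem_univ _) hh
  have hcont : Continuous fun S : Tens d (Fin r) => act E S := by
    refine continuous_pi fun j => ?_
    simp only [act]
    fun_prop
  have h3 : act E (unitT d (Fin r)) ∈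
      closure ((fun S => act E S) '' (Set.range fun A : Fin d → Matrix (Fin r) (Fin n) ℂ => act A T)) :=
    (image_closure_subset_closure_image hcont) (Set.mem_image_of_mem _ h)
  rw [hE] at h3
  refine closure_mono ?_ h3
  rintro _ ⟨_, ⟨A, rfl⟩, rfl⟩
  exact ⟨fun s => E s * A s, (act_act E A T).symm⟩

theorem bddAbove_degenerates {d n : ℕ} (hd : 2 ≤ d) (T : Tens d (Fin n)) :
    BddAbove {q : ℕ | Degenerates T (unitT d (Fin q))} :=
  ⟨n, fun _ hq => BDD.le_of_degenerates hd T hq⟩

theorem degenerates_zero {d n : ℕ} (hd : 2 ≤ d) (T : Tens d (Fin n)) :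
    Degenerates T (unitT d (Fin 0)) := by
  refine subset_closure ⟨fun _ => 0, ?_⟩
  funext j
  exact (j ⟨0, by omega⟩).elim0

theorem degenerates_borderSubrank {d n : ℕ} (hd : 2 ≤ d) (T : Tens d (Fin n)) :
    Degenerates T (unitT d (Fin (borderSubrank T))) :=
  Nat.sSup_mem ⟨0, degenerates_zero hd T⟩ (bddAbove_degenerates hd T)

theorem le_borderSubrank {d n r : ℕ} (hd : 2 ≤ d) (T : Tens d (Fin n))
    (h : Degenerates T (unitT d (Fin r))) : r ≤ borderSubrank T :=
  le_csSup (bddAbove_degenerates hd T) h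

/-- the upper bound for generic tensors -/
theorem upper {d n : ℕ} (hd : 2 ≤ d) :
    ∃ P : MvPolynomial (Fin d → Fin n) ℂ, P ≠ 0 ∧
      ∀ T : Tens d (Fin n), MvPolynomial.eval T P ≠ 0 →
        (borderSubrank T) ^ (d - 1) ≤ d ^ 2 * (n + borderSubrank T) := by
  classical
  have hex : ∀ r : ℕ, ∃ P : MvPolynomial (Fin d → Fin n) ℂ, P ≠ 0 ∧
      (d ^ 2 * (n + r) < r ^ (d - 1) → ∀ T : Tens d (Fin n), MvPolynomial.eval T P ≠ 0 →
        ¬ Degenerates T (unitT d (Fin r))) := by
    intro r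
    by_cases h : d ^ 2 * (n + r) < r ^ (d - 1)
    · obtain ⟨P, hP, hP2⟩ := upper_one hd h
      exact ⟨P, hP, fun _ => hP2⟩
    · exact ⟨1, one_ne_zero, fun h' => absurd h' h⟩
  choose P hP0 hP using hex
  refine ⟨∏ r ∈ Finset.range (n + 1), P r, Finset.prod_ne_zero_iff.2 fun r _ => hP0 r,
    fun T hT => ?_⟩
  by_contra hcon
  push Not at hcon
  have h1 := degenerates_borderSubrank hd T
  have h2 : borderSubrank T ≤ n := BDD.le_of_degenerates hd T h1
  rw [map_prod, Finset.prod_ne_zero_iff] at hT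
  exact hP _ hcon T (hT _ (Finset.mem_range.2 (Nat.lt_succ_of_le h2))) h1

end BSR
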